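import Pool.Agent.Helper83.GD.Vals

/-!
# GHD-COL: the labels of the columns

Proof. Position `j < k + 24` (`p = pp n k i < 4`): `j ∈ {0, 1}`: pair `j₀ = 0`; `[2, p + 2)`: plain; `{p + 2, p + 3}`:
pair; `[p + 4, p + 4 + k)`: tile (`ht`); `{p + 4 + k, p + 5 + k}`: pair; `[p + 6 + k, k + 12)`: plain; `{k + 12, k + 13}`:
pair; `k + 14`: pool or last pool (`hp`); `k + 15`: plain; `{k + 16, k + 17}`: pair; `{k + 18, k + 19}`: pair if
`γ ≤ i`, cherry if `i < γ` (`h18`, `h19`, `h20`, `hδ₁`); `k + 20`, `k + 21`: plain; `{k + 22, k + 23}`: pair. In the case of a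
pair `b = a i j₀ + h * E i j₀ - q i j₀ - h` and `hpair` gives `a i (j₀ + 1)`, `a i (j₀ + 2)`.
-/

namespace Pool.Agent.Helper83.GD

open Finset

private theorem col_pair {n N k r γ : ℕ} {a E q e : ℕ → ℕ → ℤ} {f δ₁ M₃ : ℕ → ℤ} {qs : ℤ}
    {t : ℕ → ℤ} {FB FD : Finset ℤ} (hO : OpsOK n N k r γ a E q FB FD) {i j j₀ h : ℕ} (hi : i < r)
    (hh : h < 2) (hj₀ : pairPos n k γ i j₀) (hj : j = j₀ + h) :
    Col n k r γ a E q e f δ₁ M₃ qs t i j (a i j₀ + h * E i j₀ - q i j₀ - h) := by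
  refine Or.inl ⟨j₀, h, hh, hj₀, hj, rfl, ?_⟩
  obtain ⟨h1, h2, _, _⟩ := hO.hpair i hi j₀ hj₀
  intro s hs
  subst hj
  interval_cases h <;> interval_cases s
  · simp
  · simp only [Nat.add_zero, h1]
    push_cast
    ring
  · simp only [Nat.add_zero, h1]
    push_cast
    ring
  · rw [show j₀ + 1 + 1 = j₀ + 2 by ring, h2]
    push_cast
    ring

private theorem col_plain {n N k r γ : ℕ} {a E q e : ℕ → ℕ → ℤ} {f δ₁ M₃ : ℕ → ℤ} {qs : ℤ}
    {t : ℕ → ℤ} {FB FD : Finset ℤ} (hO : OpsOK n N k r γ a E q FB FD) {i j : ℕ} (hi : i < r)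
    (hj : plainPos n k i j) :
    Col n k r γ a E q e f δ₁ M₃ qs t i j (a i j - q i j) := by
  refine Or.inr (Or.inl ⟨hj, rfl, ?_⟩)
  obtain ⟨h1, _⟩ := hO.hplain i hi j hj
  intro s hs
  interval_cases s
  · simp
  · rw [h1]
    push_cast
    ring

private theorem col_cherry {n k r γ : ℕ} {a E q e : ℕ → ℕ → ℤ} {f δ₁ M₃ : ℕ → ℤ} {qs : ℤ}
    {t : ℕ → ℤ} (hR : Rows n k r γ a e f δ₁ M₃) {i j u : ℕ} (hi : i < γ) (hu : u < 2)
    (hj : j = k + 18 + u) :
    Col n k r γ a E q e f δ₁ M₃ qs t i j (chB δ₁ M₃ e i u) := by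
  refine Or.inr (Or.inr (Or.inl ⟨u, hu, hi, hj, rfl, ?_⟩))
  have h18 := hR.h18 i hi
  have h19 := hR.h19 i hi
  have h20 := hR.h20 i hi
  have hδ := hR.hδ₁ i hi
  intro s hs
  subst hj
  interval_cases u <;> interval_cases s
  · simp [chB, h18]
  · simp [chB, h19, hδ]
  · simp [chB, h19]
  · simp only [chB]
    rw [show k + 18 + 1 + 1 = k + 20 by ring, h20]
    simp

private theorem col_pool {n k r γ : ℕ} {a E q e : ℕ → ℕ → ℤ} {f δ₁ M₃ : ℕ → ℤ} {qs : ℤ}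
    {t : ℕ → ℤ} (hR : Rows n k r γ a e f δ₁ M₃) {i j : ℕ} (hi : i < r) (hj : j = k + 14) :
    ∃ b, Col n k r γ a E q e f δ₁ M₃ qs t i j b := by
  have hp := hR.hp i hi
  have h0 := hp 0 (by norm_num)
  have h1 := hp 1 (by norm_num)
  by_cases hir : i + 1 < r
  · refine ⟨f i - t (i * (k + 1) + k), Or.inr (Or.inr (Or.inr (Or.inl ⟨hj, hir, rfl, ?_⟩)))⟩
    intro s hs
    subst hj
    interval_cases s
    · rw [h0]; push_cast; ring
    · rw [h1]; push_cast; ring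
  · refine ⟨f i - qs, Or.inr (Or.inr (Or.inr (Or.inr (Or.inl ⟨hj, by omega, rfl, ?_⟩))))⟩
    intro s hs
    subst hj
    interval_cases s
    · rw [h0]; push_cast; ring
    · rw [h1]; push_cast; ring

private theorem col_tile {n k r γ : ℕ} {a E q e : ℕ → ℕ → ℤ} {f δ₁ M₃ : ℕ → ℤ} {qs : ℤ}
    {t : ℕ → ℤ} (hR : Rows n k r γ a e f δ₁ M₃) {i j u : ℕ} (hi : i < r) (hu : u < k)
    (hj : j = pp n k i + 4 + u) :
    Col n k r γ a E q e f δ₁ M₃ qs t i j (xh n k i + u - t (i * (k + 1) + u)) := by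
  refine Or.inr (Or.inr (Or.inr (Or.inr (Or.inr ⟨u, hu, hj, rfl, ?_⟩))))
  have h0 := hR.ht i hi u hu.le
  have h1 := hR.ht i hi (u + 1) hu
  intro s hs
  subst hj
  interval_cases s
  · rw [Nat.add_zero, h0]; push_cast; ring
  · rw [show pp n k i + 4 + u + 1 = pp n k i + 4 + (u + 1) by ring, h1]; push_cast; ring

theorem col_exists (n N k r γ : ℕ) (hk : 100 ≤ k) (a E q e : ℕ → ℕ → ℤ) (f δ₁ M₃ : ℕ → ℤ) (qs : ℤ)
    (t : ℕ → ℤ) (FB FD : Finset ℤ) (hR : Rows n k r γ a e f δ₁ M₃)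
    (hO : OpsOK n N k r γ a E q FB FD) :
    ∃ b : ℕ → ℕ → ℤ, ∀ i < r, ∀ j < k + 24, Col n k r γ a E q e f δ₁ M₃ qs t i j (b i j) := by
  have key : ∀ i j : ℕ, ∃ b : ℤ, i < r → j < k + 24 →
      Col n k r γ a E q e f δ₁ M₃ qs t i j b := by
    intro i j
    by_cases hi : i < r
    swap
    · exact ⟨0, fun h => absurd h hi⟩
    by_cases hj : j < k + 24
    swap
    · exact ⟨0, fun _ h => absurd h hj⟩
    have hp4 : pp n k i < 4 := Nat.mod_lt _ (by norm_num)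
    have pair : ∀ j₀ h : ℕ, h < 2 → pairPos n k γ i j₀ → j = j₀ + h → ∃ b : ℤ, i < r →
        j < k + 24 → Col n k r γ a E q e f δ₁ M₃ qs t i j b :=
      fun j₀ h hh h1 h2 => ⟨_, fun _ _ => col_pair hO hi hh h1 h2⟩
    have plain : plainPos n k i j → ∃ b : ℤ, i < r →
        j < k + 24 → Col n k r γ a E q e f δ₁ M₃ qs t i j b :=
      fun h1 => ⟨_, fun _ _ => col_plain hO hi h1⟩
    by_cases c1 : j < 2
    · exact pair 0 j c1 (Or.inl rfl) (by omega)
    by_cases c2 : j < pp n k i + 2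
    · exact plain (Or.inl ⟨by omega, c2⟩)
    by_cases c3 : j < pp n k i + 4
    · exact pair (pp n k i + 2) (j - (pp n k i + 2)) (by omega) (Or.inr (Or.inl rfl)) (by omega)
    by_cases c4 : j < pp n k i + 4 + k
    · exact ⟨_, fun _ _ => col_tile hR hi (u := j - (pp n k i + 4)) (by omega) (by omega)⟩
    by_cases c5 : j < pp n k i + 6 + k
    · exact pair (pp n k i + 4 + k) (j - (pp n k i + 4 + k)) (by omega)
        (Or.inr (Or.inr (Or.inl rfl))) (by omega)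
    by_cases c6 : j < k + 12
    · exact plain (Or.inr (Or.inl ⟨by omega, c6⟩))
    by_cases c7 : j < k + 14
    · exact pair (k + 12) (j - (k + 12)) (by omega)
        (Or.inr (Or.inr (Or.inr (Or.inl rfl)))) (by omega)
    by_cases c8 : j = k + 14
    · obtain ⟨b, hb⟩ := col_pool (n := n) (γ := γ) (E := E) (q := q) (qs := qs) (t := t) hR hi c8
      exact ⟨b, fun _ _ => hb⟩
    by_cases c9 : j = k + 15
    · exact plain (Or.inr (Or.inr (Or.inl c9)))
    by_cases c10 : j < k + 18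
    · exact pair (k + 16) (j - (k + 16)) (by omega)
        (Or.inr (Or.inr (Or.inr (Or.inr (Or.inl rfl))))) (by omega)
    by_cases c11 : j < k + 20
    · by_cases hγ : i < γ
      · exact ⟨_, fun _ _ => col_cherry hR hγ (u := j - (k + 18)) (by omega) (by omega)⟩
      · exact pair (k + 18) (j - (k + 18)) (by omega)
          (Or.inr (Or.inr (Or.inr (Or.inr (Or.inr (Or.inr ⟨rfl, not_lt.mp hγ⟩)))))) (by omega)
    by_cases c12 : j = k + 20
    · exact plain (Or.inr (Or.inr (Or.inr (Or.inl c12))))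
    by_cases c13 : j = k + 21
    · exact plain (Or.inr (Or.inr (Or.inr (Or.inr c13))))
    exact pair (k + 22) (j - (k + 22)) (by omega)
      (Or.inr (Or.inr (Or.inr (Or.inr (Or.inr (Or.inl rfl)))))) (by omega)
  choose b hb using key
  exact ⟨b, fun i hi j hj => hb i j hi hj⟩

end Pool.Agent.Helper83.GD
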