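import Pool.Agent.Helper83.GD.Greedy

/-!
# GHD-CONN: choice of the middle labels of the connectors

For every connector `τ`: ends `x τ`, `y τ`, offsets `W τ`, last offset `w τ`, columns at the offsets
`Z τ`, the middle label `m` is wanted in `[lo τ, lo τ + 6 N]`, `m ≡ x` modulo 4.
Proof. `greedy` with `Ω = ℤ ⊕ ℤ`, `φ τ m = inl (Sset …) ∪ inr (m + Z τ)`, `F = inl FA ∪ inr FB`, `κ = 11`,
`κ' = 11`. `C τ` = the `m ≡ x` modulo 4 in the interval with `(x + m) / 2 ∉ m + W` (at most 7 values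
`m = x - 2 t` are excluded), `(m + w + y) / 2 ∉ m + W` (at most 7 values `m = w + y - 2 t`). The divisions are exact
(`m ≡ x`, `y - x ≡ w` modulo 4, so `m + w + y ≡ 2 y` modulo 4) and `(x + m) / 2 ≠ (m + w + y) / 2`
since `x ≠ y + w`. So `Sset` has `|W| + 2` elements. `card_mod4`: at least
`(6 N - 3) / 4 - 14` candidates.
-/

namespace Pool.Agent.Helper83.GD

open Finset

theorem conn_card {x m y w : ℤ} {W : Finset ℤ} (h4 : (4 : ℤ) ∣ m - x) (hmod : (4 : ℤ) ∣ y - x - w)
    (hne : x ≠ y + w) (hA : (x + m) / 2 ∉ W.image fun t => m + t)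
    (hB : (m + w + y) / 2 ∉ W.image fun t => m + t) : (Sset x m y W w).card = W.card + 2 := by
  unfold Sset
  rw [card_insert_of_notMem, card_insert_of_notMem hB, card_image_of_injective]
  · intro a b h
    simpa using h
  · rw [mem_insert, not_or]
    refine ⟨?_, hA⟩
    intro h
    omega

theorem conn_card_le (x m y w : ℤ) (W : Finset ℤ) : (Sset x m y W w).card ≤ W.card + 2 := by
  unfold Sset
  refine (card_insert_le _ _).trans ?_
  have h1 := card_insert_le ((m + w + y) / 2) (W.image fun t => m + t)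
  have h2 : (W.image fun t => m + t).card ≤ W.card := card_image_le
  omega

theorem conn_mem_aux {x m y w v : ℤ} {W : Finset ℤ} (h4 : (4 : ℤ) ∣ m - x) (hmod : (4 : ℤ) ∣ y - x - w)
    (h : v ∈ Sset x m y W w) :
    m ∈ insert (2 * v - x) (insert (2 * v - w - y) (W.image fun t => v - t)) := by
  unfold Sset at h
  rw [mem_insert, mem_insert, mem_image] at h
  rw [mem_insert, mem_insert, mem_image]
  rcases h with h | h | ⟨t, ht, h⟩
  · left; omega
  · right; left; omega
  · right; right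
    exact ⟨t, ht, by omega⟩

theorem conn_C {x y w lo : ℤ} {W : Finset ℤ} {N : ℕ} (hW : W.card ≤ 7)
    (hmod : (4 : ℤ) ∣ y - x - w) :
    6 * N ≤ 4 * ((Icc lo (lo + (6 * N : ℕ))).filter fun m => (4 : ℤ) ∣ m - x ∧
      (x + m) / 2 ∉ (W.image fun t => m + t) ∧ (m + w + y) / 2 ∉ (W.image fun t => m + t)).card
      + 59 := by
  have h1 := card_mod4 lo x (6 * N)
  have h2 : ((Icc lo (lo + (6 * N : ℕ))).filter fun m => (4 : ℤ) ∣ m - x) ⊆
      ((Icc lo (lo + (6 * N : ℕ))).filter fun m => (4 : ℤ) ∣ m - x ∧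
      (x + m) / 2 ∉ (W.image fun t => m + t) ∧ (m + w + y) / 2 ∉ (W.image fun t => m + t)) ∪
      ((W.image fun t => x - 2 * t) ∪ (W.image fun t => w + y - 2 * t)) := by
    intro m hm
    rw [mem_filter] at hm
    rw [mem_union, mem_union, mem_filter]
    by_cases hA : (x + m) / 2 ∈ (W.image fun t => m + t)
    · right; left
      rw [mem_image] at hA ⊢
      obtain ⟨t, ht, h⟩ := hA
      exact ⟨t, ht, by have := hm.2; omega⟩
    by_cases hB : (m + w + y) / 2 ∈ (W.image fun t => m + t)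
    · right; right
      rw [mem_image] at hB ⊢
      obtain ⟨t, ht, h⟩ := hB
      exact ⟨t, ht, by have := hm.2; omega⟩
    left
    exact ⟨hm.1, hm.2, hA, hB⟩
  have h3 := (card_le_card h2).trans ((card_union_le _ _).trans
    (Nat.add_le_add_left (card_union_le _ _) _))
  have h4 : (W.image fun t => x - 2 * t).card ≤ W.card := card_image_le
  have h5 : (W.image fun t => w + y - 2 * t).card ≤ W.card := card_image_le
  omega

theorem conn (s : Finset (ℕ × ℕ)) (x y w lo : ℕ × ℕ → ℤ) (W Z : ℕ × ℕ → Finset ℤ) (N : ℕ)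
    (FA FB : Finset ℤ) (hW : ∀ τ ∈ s, (W τ).card ≤ 7) (hZ : ∀ τ ∈ s, (Z τ).card ≤ 2)
    (hmod : ∀ τ ∈ s, (4 : ℤ) ∣ y τ - x τ - w τ) (hne : ∀ τ ∈ s, x τ ≠ y τ + w τ)
    (hs : 11 * (FA.card + FB.card + 11 * s.card) + 20 ≤ N) :
    ∃ m : ℕ × ℕ → ℤ, (∀ τ ∈ s, lo τ ≤ m τ ∧ m τ ≤ lo τ + 6 * N ∧ (4 : ℤ) ∣ m τ - x τ ∧
        (Sset (x τ) (m τ) (y τ) (W τ) (w τ)).card = (W τ).card + 2 ∧
        Disjoint (Sset (x τ) (m τ) (y τ) (W τ) (w τ)) FA ∧
        ∀ z ∈ Z τ, m τ + z ∉ FB) ∧
      ∀ τ ∈ s, ∀ τ' ∈ s, τ ≠ τ' →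
        Disjoint (Sset (x τ) (m τ) (y τ) (W τ) (w τ)) (Sset (x τ') (m τ') (y τ') (W τ') (w τ')) ∧
        ∀ z ∈ Z τ, ∀ z' ∈ Z τ', m τ + z ≠ m τ' + z' := by
  classical
  have key := greedy (Ω := ℤ ⊕ ℤ) s
    (fun τ => (Icc (lo τ) (lo τ + (6 * N : ℕ))).filter fun m => (4 : ℤ) ∣ m - x τ ∧
      (x τ + m) / 2 ∉ ((W τ).image fun t => m + t) ∧
      (m + w τ + y τ) / 2 ∉ ((W τ).image fun t => m + t))
    (fun τ m => (Sset (x τ) m (y τ) (W τ) (w τ)).disjSum ((Z τ).image fun z => m + z))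
    (FA.disjSum FB) 11 11
  refine Exists.elim (key ?_ ?_ ?_) ?_
  · intro τ hτ a _
    rw [card_disjSum]
    have h1 := conn_card_le (x τ) a (y τ) (w τ) (W τ)
    have h2 : ((Z τ).image fun z => a + z).card ≤ (Z τ).card := card_image_le
    have h3 := hW τ hτ
    have h4 := hZ τ hτ
    omega
  · intro τ hτ ω
    rcases ω with v | v
    · have h1 : (((Icc (lo τ) (lo τ + (6 * N : ℕ))).filter fun m => (4 : ℤ) ∣ m - x τ ∧
          (x τ + m) / 2 ∉ ((W τ).image fun t => m + t) ∧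
          (m + w τ + y τ) / 2 ∉ ((W τ).image fun t => m + t)).filter fun a =>
          Sum.inl v ∈ (Sset (x τ) a (y τ) (W τ) (w τ)).disjSum ((Z τ).image fun z => a + z)) ⊆
          insert (2 * v - x τ) (insert (2 * v - w τ - y τ) ((W τ).image fun t => v - t)) := by
        intro a ha
        rw [mem_filter, mem_filter, inl_mem_disjSum] at ha
        exact conn_mem_aux ha.1.2.1 (hmod τ hτ) ha.2
      refine (card_le_card h1).trans ((card_insert_le _ _).trans ?_)
      have h2 := card_insert_le (2 * v - w τ - y τ) ((W τ).image fun t => v - t)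
      have h3 : ((W τ).image fun t => v - t).card ≤ (W τ).card := card_image_le
      have h4 := hW τ hτ
      omega
    · have h1 : (((Icc (lo τ) (lo τ + (6 * N : ℕ))).filter fun m => (4 : ℤ) ∣ m - x τ ∧
          (x τ + m) / 2 ∉ ((W τ).image fun t => m + t) ∧
          (m + w τ + y τ) / 2 ∉ ((W τ).image fun t => m + t)).filter fun a =>
          Sum.inr v ∈ (Sset (x τ) a (y τ) (W τ) (w τ)).disjSum ((Z τ).image fun z => a + z)) ⊆
          (Z τ).image fun z => v - z := by
        intro a ha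
        rw [mem_filter, inr_mem_disjSum, mem_image] at ha
        obtain ⟨z, hz, h⟩ := ha.2
        rw [mem_image]
        exact ⟨z, hz, by omega⟩
      refine (card_le_card h1).trans (card_image_le.trans ?_)
      have h4 := hZ τ hτ
      omega
  · intro τ hτ
    have h1 := conn_C (x := x τ) (y := y τ) (w := w τ) (lo := lo τ) (N := N) (hW τ hτ) (hmod τ hτ)
    rw [card_disjSum]
    omega
  · rintro c ⟨hc1, hc2⟩
    refine ⟨c, fun τ hτ => ?_, fun τ hτ τ' hτ' hne' => ?_⟩
    · obtain ⟨h1, h2⟩ := hc1 τ hτ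
      rw [mem_filter, mem_Icc] at h1
      obtain ⟨⟨a1, a2⟩, a3, a4, a5⟩ := h1
      refine ⟨a1, by push_cast at a2; exact a2, a3, conn_card a3 (hmod τ hτ) (hne τ hτ) a4 a5, ?_, ?_⟩
      · rw [disjoint_left] at h2 ⊢
        intro v hv hv'
        exact h2 (inl_mem_disjSum.2 hv) (inl_mem_disjSum.2 hv')
      · intro z hz hz'
        rw [disjoint_left] at h2
        exact h2 (inr_mem_disjSum.2 (mem_image_of_mem (fun z => c τ + z) hz))
          (inr_mem_disjSum.2 hz')
    · have h2 := hc2 τ hτ τ' hτ' hne'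
      rw [disjoint_left] at h2
      refine ⟨?_, ?_⟩
      · rw [disjoint_left]
        intro v hv hv'
        exact h2 (inl_mem_disjSum.2 hv) (inl_mem_disjSum.2 hv')
      · intro z hz z' hz' h
        have h3 : c τ + z ∈ (Z τ').image fun z => c τ' + z := by
          rw [h]
          exact mem_image_of_mem (fun z => c τ' + z) hz'
        exact h2 (inr_mem_disjSum.2 (mem_image_of_mem (fun z => c τ + z) hz))
          (inr_mem_disjSum.2 h3)

end Pool.Agent.Helper83.GD
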