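import Pool.Agent.Helper83.GD.Greedy

/-!
# GHD-CORE0: labels of the core

Proof. Induction on the number of the vertices of a subset `S' ⊆ S` which is closed under `x ∈ E → par x ∈ S'`
(take away a vertex of the greatest depth). For a new vertex `x ∉ E` choose a label which is a multiple of 4 in
`[40 N, 56 N]`, `[8 N, 24 N]` or, for `y0`, `[8 N, 11 N]`. For `x ∈ E` choose `ρ x` among the
multiples of 4 in the intersection of `[30 N, 34 N]` with the interval for which the label of `x` is in its
range; this intersection has length at least `2 N`: parent label `a ∈ [40 N, 56 N]`: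
`ρ ∈ [a - 24 N, a - 8 N]`; parent label `b ∈ [8 N, 24 N]`: `ρ ∈ [40 N - b, 56 N - b]`. There are at least
`(2 N - 3) / 4` choices (`card_mod4`), at most `|FA| + |FB| + |FQ| + 3 |S|` are forbidden.
-/

namespace Pool.Agent.Helper83.GD

open Finset

private theorem cand34 (lo : ℤ) (L : ℕ) (F : Finset ℤ) (h : 4 * F.card + 4 ≤ L) :
    ∃ q : ℤ, (4 : ℤ) ∣ q ∧ lo ≤ q ∧ q ≤ lo + L ∧ q ∉ F := by
  have h1 := card_mod4 lo 0 L
  have h2 : F.card < ((Icc lo (lo + L)).filter fun x => (4 : ℤ) ∣ x - 0).card := by omega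
  obtain ⟨q, hq, hqF⟩ := exists_mem_notMem_of_card_lt_card h2
  rw [mem_filter, mem_Icc, sub_zero] at hq
  exact ⟨q, hq.2, hq.1.1, hq.1.2, hqF⟩

private theorem core0_aux34 (V : Type) [DecidableEq V] (par : V → V) (dep : V → ℕ)
    (S E : Finset V) (y0 : V)
    (hE : ∀ x ∈ E, par x ∈ S ∧ dep (par x) + 1 = dep x) (hy0 : y0 ∉ E)
    (hy0d : ¬ Even (dep y0)) (N : ℕ) (FA FB FQ : Finset ℤ)
    (hs : 16 * (FA.card + FB.card + FQ.card + 3 * S.card + 1) ≤ N) (m : ℕ) :
    ∀ S' : Finset V, S' ⊆ S → S'.card = m → (∀ x ∈ S', x ∈ E → par x ∈ S') →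
    ∃ g ρ : V → ℤ,
      (∀ x ∈ S', Even (dep x) → (4 : ℤ) ∣ g x ∧ 40 * (N : ℤ) ≤ g x ∧ g x ≤ 56 * N ∧ g x ∉ FA) ∧
      (∀ x ∈ S', ¬ Even (dep x) → (4 : ℤ) ∣ g x ∧ 8 * (N : ℤ) ≤ g x ∧ g x ≤ 24 * N ∧ g x ∉ FB) ∧
      (y0 ∈ S' → g y0 ≤ 11 * N) ∧
      (∀ x ∈ S', ∀ y ∈ S', g x = g y → x = y) ∧
      (∀ x ∈ S', x ∈ E → (4 : ℤ) ∣ ρ x ∧ 30 * (N : ℤ) ≤ ρ x ∧ ρ x ≤ 34 * N ∧ ρ x ∉ FQ ∧
        (if Even (dep x) then g x - g (par x) else g (par x) - g x) = ρ x) ∧
      ∀ x ∈ S', x ∈ E → ∀ y ∈ S', y ∈ E → ρ x = ρ y → x = y := by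
  induction m with
  | zero =>
    intro S' _ h0 _
    rw [card_eq_zero] at h0
    subst h0
    exact ⟨fun _ => 0, fun _ => 0, by simp, by simp, by simp, by simp, by simp, by simp⟩
  | succ m ih =>
    intro S' hS' hcard hcl
    have hne : S'.Nonempty := by
      rw [← card_pos, hcard]; omega
    obtain ⟨x, hx, hmax⟩ := exists_max_image S' dep hne
    set S'' := S'.erase x with hS''
    have hcard'' : S''.card = m := by
      rw [hS'', card_erase_of_mem hx, hcard]; rfl
    have hsub'' : S'' ⊆ S := (erase_subset _ _).trans hS'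
    have hcardS : S''.card ≤ S.card := card_le_card hsub''
    have hcl'' : ∀ y ∈ S'', y ∈ E → par y ∈ S'' := by
      intro y hy hyE
      rw [hS'', mem_erase] at hy ⊢
      refine ⟨?_, hcl y hy.2 hyE⟩
      intro h
      have h1 := (hE y hyE).2
      have h2 := hmax y hy.2
      rw [h] at h1
      omega
    obtain ⟨g, ρ, c1, c2, c3, c4, c5, c6⟩ := ih S'' hsub'' hcard'' hcl''
    have hmem : ∀ y ∈ S', y = x ∨ y ∈ S'' := by
      intro y hy
      by_cases h : y = x
      · exact Or.inl h
      · exact Or.inr (mem_erase.2 ⟨h, hy⟩)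
    have hnex : ∀ y ∈ S'', y ≠ x := fun y hy => ne_of_mem_erase hy
    -- the general extension step
    have key : ∀ a q : ℤ,
        (Even (dep x) → (4 : ℤ) ∣ a ∧ 40 * (N : ℤ) ≤ a ∧ a ≤ 56 * N ∧ a ∉ FA) →
        (¬ Even (dep x) → (4 : ℤ) ∣ a ∧ 8 * (N : ℤ) ≤ a ∧ a ≤ 24 * N ∧ a ∉ FB) →
        (x = y0 → a ≤ 11 * N) → (a ∉ S''.image g) →
        (x ∈ E → (4 : ℤ) ∣ q ∧ 30 * (N : ℤ) ≤ q ∧ q ≤ 34 * N ∧ q ∉ FQ ∧
          (if Even (dep x) then a - g (par x) else g (par x) - a) = q ∧ q ∉ S''.image ρ) →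
        ∃ g ρ : V → ℤ,
      (∀ x ∈ S', Even (dep x) → (4 : ℤ) ∣ g x ∧ 40 * (N : ℤ) ≤ g x ∧ g x ≤ 56 * N ∧ g x ∉ FA) ∧
      (∀ x ∈ S', ¬ Even (dep x) → (4 : ℤ) ∣ g x ∧ 8 * (N : ℤ) ≤ g x ∧ g x ≤ 24 * N ∧ g x ∉ FB) ∧
      (y0 ∈ S' → g y0 ≤ 11 * N) ∧
      (∀ x ∈ S', ∀ y ∈ S', g x = g y → x = y) ∧
      (∀ x ∈ S', x ∈ E → (4 : ℤ) ∣ ρ x ∧ 30 * (N : ℤ) ≤ ρ x ∧ ρ x ≤ 34 * N ∧ ρ x ∉ FQ ∧
        (if Even (dep x) then g x - g (par x) else g (par x) - g x) = ρ x) ∧
      ∀ x ∈ S', x ∈ E → ∀ y ∈ S', y ∈ E → ρ x = ρ y → x = y := by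
      intro a q ka kb ky kg kq
      refine ⟨Function.update g x a, Function.update ρ x q, ?_, ?_, ?_, ?_, ?_, ?_⟩
      · intro y hy hev
        rcases hmem y hy with h | h
        · subst h; rw [Function.update_self]; exact ka hev
        · rw [Function.update_of_ne (hnex y h)]; exact c1 y h hev
      · intro y hy hev
        rcases hmem y hy with h | h
        · subst h; rw [Function.update_self]; exact kb hev
        · rw [Function.update_of_ne (hnex y h)]; exact c2 y h hev
      · intro hy
        rcases hmem y0 hy with h | h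
        · subst h; rw [Function.update_self]; exact ky rfl
        · rw [Function.update_of_ne (hnex y0 h)]; exact c3 h
      · intro y hy z hz hyz
        rcases hmem y hy with h | h <;> rcases hmem z hz with h' | h'
        · rw [h, h']
        · exfalso
          subst h
          rw [Function.update_self, Function.update_of_ne (hnex z h')] at hyz
          exact kg (mem_image.2 ⟨z, h', hyz.symm⟩)
        · exfalso
          subst h'
          rw [Function.update_self, Function.update_of_ne (hnex y h)] at hyz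
          exact kg (mem_image.2 ⟨y, h, hyz⟩)
        · rw [Function.update_of_ne (hnex y h), Function.update_of_ne (hnex z h')] at hyz
          exact c4 y h z h' hyz
      · intro y hy hyE
        rcases hmem y hy with h | h
        · subst h
          obtain ⟨k1, k2, k3, k4, k5, -⟩ := kq hyE
          have hp : par y ≠ y := by
            intro hp
            have := (hE y hyE).2
            rw [hp] at this
            omega
          rw [Function.update_self, Function.update_self, Function.update_of_ne hp]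
          exact ⟨k1, k2, k3, k4, k5⟩
        · have hp := hcl'' y h hyE
          rw [Function.update_of_ne (hnex y h), Function.update_of_ne (hnex y h),
            Function.update_of_ne (hnex _ hp)]
          exact c5 y h hyE
      · intro y hy hyE z hz hzE hyz
        rcases hmem y hy with h | h <;> rcases hmem z hz with h' | h'
        · rw [h, h']
        · exfalso
          subst h
          rw [Function.update_self, Function.update_of_ne (hnex z h')] at hyz
          exact (kq hyE).2.2.2.2.2 (mem_image.2 ⟨z, h', hyz.symm⟩)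
        · exfalso
          subst h'
          rw [Function.update_self, Function.update_of_ne (hnex y h)] at hyz
          exact (kq hzE).2.2.2.2.2 (mem_image.2 ⟨y, h, hyz⟩)
        · rw [Function.update_of_ne (hnex y h), Function.update_of_ne (hnex z h')] at hyz
          exact c6 y h hyE z h' hzE hyz
    have hci : (S''.image g).card ≤ S.card := card_image_le.trans hcardS
    have hcr : (S''.image ρ).card ≤ S.card := card_image_le.trans hcardS
    by_cases hxE : x ∈ E
    · -- new vertex with a parent in the set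
      have hxy : x ≠ y0 := fun h => hy0 (h ▸ hxE)
      obtain ⟨hpS, hpd⟩ := hE x hxE
      have hp'' : par x ∈ S'' := by
        rw [hS'', mem_erase]
        refine ⟨?_, hcl x hx hxE⟩
        intro h
        rw [h] at hpd
        omega
      by_cases hev : Even (dep x)
      · have hpo : ¬ Even (dep (par x)) := by
          intro h
          have : Even (dep (par x) + 1) := by rw [hpd]; exact hev
          rw [Nat.even_add_one] at this
          exact this h
        obtain ⟨b1, b2, b3, -⟩ := c2 (par x) hp'' hpo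
        set b := g (par x) with hb
        set F : Finset ℤ := FQ ∪ S''.image ρ ∪ FA.image (fun t => t - b) ∪
          (S''.image g).image (fun t => t - b) with hF
        have hFc : F.card ≤ FQ.card + S.card + FA.card + S.card := by
          refine (card_union_le _ _).trans (Nat.add_le_add ?_ (card_image_le.trans hci))
          refine (card_union_le _ _).trans (Nat.add_le_add ?_ card_image_le)
          exact (card_union_le _ _).trans (Nat.add_le_add le_rfl hcr)
        obtain ⟨q, hq4, hq1, hq2, hqF⟩ := cand34 (if b ≤ 22 * N then 32 * N else 30 * N) (2 * N) F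
          (by omega)
        have hq30 : 30 * (N : ℤ) ≤ q ∧ q ≤ 34 * N ∧ 40 * (N : ℤ) ≤ b + q ∧ b + q ≤ 56 * N := by
          push_cast at hq2
          split_ifs at hq1 hq2 <;> omega
        rw [hF] at hqF
        simp only [mem_union, not_or] at hqF
        obtain ⟨⟨⟨f1, f2⟩, f3⟩, f4⟩ := hqF
        refine key (b + q) q ?_ ?_ ?_ ?_ ?_
        · intro _
          refine ⟨dvd_add b1 hq4, hq30.2.2.1, hq30.2.2.2, ?_⟩
          intro h
          exact f3 (mem_image.2 ⟨b + q, h, by ring⟩)
        · intro h; exact absurd hev h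
        · intro h; exact absurd h hxy
        · intro h
          exact f4 (mem_image.2 ⟨b + q, h, by ring⟩)
        · intro _
          refine ⟨hq4, hq30.1, hq30.2.1, f1, ?_, f2⟩
          rw [if_pos hev]; ring
      · have hpo : Even (dep (par x)) := by
          by_contra h
          apply hev
          rw [← hpd, Nat.even_add_one]
          exact h
        obtain ⟨b1, b2, b3, -⟩ := c1 (par x) hp'' hpo
        set b := g (par x) with hb
        set F : Finset ℤ := FQ ∪ S''.image ρ ∪ FB.image (fun t => b - t) ∪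
          (S''.image g).image (fun t => b - t) with hF
        have hFc : F.card ≤ FQ.card + S.card + FB.card + S.card := by
          refine (card_union_le _ _).trans (Nat.add_le_add ?_ (card_image_le.trans hci))
          refine (card_union_le _ _).trans (Nat.add_le_add ?_ card_image_le)
          exact (card_union_le _ _).trans (Nat.add_le_add le_rfl hcr)
        obtain ⟨q, hq4, hq1, hq2, hqF⟩ := cand34 (if 42 * N ≤ b then 32 * N else 30 * N) (2 * N) F
          (by omega)
        have hq30 : 30 * (N : ℤ) ≤ q ∧ q ≤ 34 * N ∧ 8 * (N : ℤ) ≤ b - q ∧ b - q ≤ 24 * N := by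
          push_cast at hq2
          split_ifs at hq1 hq2 <;> omega
        rw [hF] at hqF
        simp only [mem_union, not_or] at hqF
        obtain ⟨⟨⟨f1, f2⟩, f3⟩, f4⟩ := hqF
        refine key (b - q) q ?_ ?_ ?_ ?_ ?_
        · intro h; exact absurd h hev
        · intro _
          refine ⟨dvd_sub b1 hq4, hq30.2.2.1, hq30.2.2.2, ?_⟩
          intro h
          exact f3 (mem_image.2 ⟨b - q, h, by ring⟩)
        · intro h; exact absurd h hxy
        · intro h
          exact f4 (mem_image.2 ⟨b - q, h, by ring⟩)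
        · intro _
          refine ⟨hq4, hq30.1, hq30.2.1, f1, ?_, f2⟩
          rw [if_neg hev]; ring
    · -- new vertex without condition
      by_cases hev : Even (dep x)
      · set F : Finset ℤ := FA ∪ S''.image g with hF
        have hFc : F.card ≤ FA.card + S.card :=
          (card_union_le _ _).trans (Nat.add_le_add le_rfl hci)
        obtain ⟨q, hq4, hq1, hq2, hqF⟩ := cand34 (40 * N) (16 * N) F (by omega)
        rw [hF] at hqF
        simp only [mem_union, not_or] at hqF
        push_cast at hq2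
        refine key q 0 ?_ ?_ ?_ hqF.2 ?_
        · intro _
          exact ⟨hq4, hq1, by linarith, hqF.1⟩
        · intro h; exact absurd hev h
        · intro h
          exact absurd (h ▸ hev) hy0d
        · intro h; exact absurd h hxE
      · set F : Finset ℤ := FB ∪ S''.image g with hF
        have hFc : F.card ≤ FB.card + S.card :=
          (card_union_le _ _).trans (Nat.add_le_add le_rfl hci)
        obtain ⟨q, hq4, hq1, hq2, hqF⟩ := cand34 (8 * N) (3 * N) F (by omega)
        rw [hF] at hqF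
        simp only [mem_union, not_or] at hqF
        push_cast at hq2
        refine key q 0 ?_ ?_ ?_ hqF.2 ?_
        · intro h; exact absurd h hev
        · intro _
          exact ⟨hq4, hq1, by linarith, hqF.1⟩
        · intro _; linarith
        · intro h; exact absurd h hxE

theorem core0 (V : Type) [DecidableEq V] (par : V → V) (dep : V → ℕ) (S E : Finset V) (y0 : V)
    (hES : E ⊆ S) (hE : ∀ x ∈ E, par x ∈ S ∧ dep (par x) + 1 = dep x) (hy0 : y0 ∉ E)
    (hy0d : ¬ Even (dep y0)) (N : ℕ) (FA FB FQ : Finset ℤ)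
    (hs : 16 * (FA.card + FB.card + FQ.card + 3 * S.card + 1) ≤ N) :
    ∃ g ρ : V → ℤ,
      (∀ x ∈ S, Even (dep x) → (4 : ℤ) ∣ g x ∧ 40 * (N : ℤ) ≤ g x ∧ g x ≤ 56 * N ∧ g x ∉ FA) ∧
      (∀ x ∈ S, ¬ Even (dep x) → (4 : ℤ) ∣ g x ∧ 8 * (N : ℤ) ≤ g x ∧ g x ≤ 24 * N ∧ g x ∉ FB) ∧
      (y0 ∈ S → g y0 ≤ 11 * N) ∧
      (∀ x ∈ S, ∀ y ∈ S, (Even (dep x) ↔ Even (dep y)) → g x = g y → x = y) ∧
      (∀ x ∈ E, (4 : ℤ) ∣ ρ x ∧ 30 * (N : ℤ) ≤ ρ x ∧ ρ x ≤ 34 * N ∧ ρ x ∉ FQ ∧
        (if Even (dep x) then g x - g (par x) else g (par x) - g x) = ρ x) ∧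
      ∀ x ∈ E, ∀ y ∈ E, ρ x = ρ y → x = y := by
  obtain ⟨g, ρ, c1, c2, c3, c4, c5, c6⟩ := core0_aux34 V par dep S E y0 hE hy0 hy0d N FA FB FQ hs
    S.card S (Subset.refl _) rfl (fun x _ hx => (hE x hx).1)
  exact ⟨g, ρ, c1, c2, c3, fun x hx y hy _ h => c4 x hx y hy h, fun x hx => c5 x (hES hx) hx,
    fun x hx y hy h => c6 x (hES hx) hx y (hES hy) hy h⟩

end Pool.Agent.Helper83.GD
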