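import Pool.Agent.Helper83.GD.Core0

/-!
# GHD-CORE1: the core with its three special leaves

`C` the vertices of the core, `E` its edges (an edge is given by its lower end). `r0` (depth 0) has only one
child `y0`; `l1`, `l2` have no children in `E`.
Proof. `core0` for `S = C \ {r0, l1, l2}`, `E' = E \ {y0, l1, l2}`, `FA`, `FB ∪ {a - 52 N : a ∈ FA}`, `FQ`. Then the
labels of `r0`, `l1`, `l2`:
* `n` odd: `ρ y0 = 52 N`, `g r0 = g y0 + 52 N ∈ [60 N, 63 N]` (not the label of another vertex of the core, not in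
  `FA` by the choice of `FB`). `n` even: `ρ y0` is a new multiple of 4 in `[30 N, 34 N]` such that
  `g r0 = g y0 + ρ y0` is a new label.
* `n % 4 ∈ {0, 1}`: `ρ l1`, `ρ l2` new multiples of 4 in `[30 N, 34 N]` (one after the other) such that the labels of
  `l1`, `l2` (label of the parent plus or minus `ρ`) are new.
* `n % 4 ∈ {2, 3}`: `ρ l2 = q`, `ρ l1 = q + 1` with `q` a new multiple of 4 in `[30 N, 34 N]` such that the two labels
  are new and different.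
`D` = the set of the `ρ x`, `x ∈ E`, without `52 N` (`n` odd, `x = y0`) and without `ρ l1` if
`n % 4 ∈ {2, 3}`. `pd` enumerates the numbers `q + 1`, `q ∈ D` (without `q = ρ l2` if `n % 4 ∈ {2, 3}`). Their
number is `|E| - n % 4 = 4 γ`.
-/

namespace Pool.Agent.Helper83.GD

open Finset

/-- The result of the first step. -/
structure CoreOut {V : Type} (par : V → V) (dep : V → ℕ) (C E : Finset V) (r0 l1 l2 : V)
    (n N : ℕ) (FA FB FQ : Finset ℤ) (g ρ : V → ℤ) (D : Finset ℤ) (γ : ℕ) (pd : ℕ → ℤ) : Prop where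
  hA : ∀ x ∈ C, Even (dep x) → 37 * (N : ℤ) ≤ g x ∧ g x ≤ 63 * N ∧ g x ∉ FA
  hA4 : ∀ x ∈ C, Even (dep x) → x ≠ r0 → x ≠ l1 → x ≠ l2 →
    (4 : ℤ) ∣ g x ∧ 40 * (N : ℤ) ≤ g x ∧ g x ≤ 56 * N
  hB : ∀ x ∈ C, ¬ Even (dep x) → (N : ℤ) ≤ g x ∧ g x ≤ 31 * N ∧ g x ∉ FB
  hinj : ∀ x ∈ C, ∀ y ∈ C, (Even (dep x) ↔ Even (dep y)) → g x = g y → x = y
  hρ : ∀ x ∈ E, (if Even (dep x) then g x - g (par x) else g (par x) - g x) = ρ x
  hρi : ∀ x ∈ E, ∀ y ∈ E, ρ x = ρ y → x = y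
  hD : ∀ q ∈ D, (4 : ℤ) ∣ q ∧ 30 * (N : ℤ) ≤ q ∧ q ≤ 34 * N ∧ q ∉ FQ
  hρD : ∀ x ∈ E, ρ x ∈ D ∨ ρ x - 1 ∈ D ∨ (n % 2 = 1 ∧ ρ x = 52 * N)
  hpd : ∀ j < 4 * γ, pd j - 1 ∈ D ∧ ∀ x ∈ E, ρ x ≠ pd j
  hpdi : ∀ j < 4 * γ, ∀ j' < 4 * γ, pd j = pd j' → j = j'
  hγ : 4 * γ + n % 4 = E.card
  hDc : 2 * D.card + n % 2 = E.card + 4 * γ

/-- a new multiple of 4 in `[30 N, 34 N]` -/
theorem pick4 (N : ℕ) (X : Finset ℤ) (hX : X.card < N) :
    ∃ q : ℤ, (4 : ℤ) ∣ q ∧ 30 * (N : ℤ) ≤ q ∧ q ≤ 34 * N ∧ q ∉ X := by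
  have h := card_mod4 (30 * (N : ℤ)) 0 (4 * N)
  obtain ⟨q, hq, hqX⟩ : ∃ q ∈ (Icc (30 * (N : ℤ)) (30 * (N : ℤ) + ((4 * N : ℕ) : ℤ))).filter
      fun x => (4 : ℤ) ∣ x - 0, q ∉ X := by
    by_contra hcon
    push Not at hcon
    have := card_le_card (fun q hq => hcon q hq : (Icc (30 * (N : ℤ)) (30 * (N : ℤ) +
      ((4 * N : ℕ) : ℤ))).filter (fun x => (4 : ℤ) ∣ x - 0) ⊆ X)
    omega
  rw [mem_filter, mem_Icc, sub_zero] at hq
  push_cast at hq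
  exact ⟨q, hq.2, hq.1.1, by linarith [hq.1.2], hqX⟩

/-- enumeration of a finite set -/
theorem enumZ (s : Finset ℤ) : ∃ f : ℕ → ℤ, (∀ j < s.card, f j ∈ s) ∧
    ∀ j < s.card, ∀ j' < s.card, f j = f j' → j = j' := by
  refine ⟨fun j => if h : j < s.card then (s.equivFin.symm ⟨j, h⟩ : ℤ) else 0, ?_, ?_⟩
  · intro j hj
    simp only [hj, dif_pos]
    exact (s.equivFin.symm ⟨j, hj⟩).2
  · intro j hj j' hj' h
    simp only [hj, hj', dif_pos] at h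
    have h1 := s.equivFin.symm.injective (Subtype.ext h)
    exact congrArg Fin.val h1

/-- forbidden residues for a leaf whose parent has the label `a` -/
def forb (a e : ℤ) (W : Finset ℤ) : Finset ℤ :=
  W.image (fun w => w - a - e) ∪ W.image (fun w => a - e - w)

theorem forb_card (a e : ℤ) (W : Finset ℤ) : (forb a e W).card ≤ 2 * W.card := by
  unfold forb
  have h1 := card_union_le (W.image (fun w => w - a - e)) (W.image (fun w => a - e - w))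
  have h2 := card_image_le (s := W) (f := fun w => w - a - e)
  have h3 := card_image_le (s := W) (f := fun w => a - e - w)
  omega

theorem forb_spec {a e q : ℤ} {W : Finset ℤ} (h : q ∉ forb a e W) :
    a + (q + e) ∉ W ∧ a - (q + e) ∉ W := by
  unfold forb at h
  rw [mem_union, not_or, mem_image, mem_image] at h
  constructor
  · intro hw
    exact h.1 ⟨_, hw, by ring⟩
  · intro hw
    exact h.2 ⟨_, hw, by ring⟩

/-- the sets of exceptional edges -/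
theorem exc_sets {V : Type} [DecidableEq V] (E : Finset V) (y0 l1 l2 : V) (hy0 : y0 ∈ E)
    (h1 : l1 ∈ E) (h2 : l2 ∈ E) (h12 : l1 ≠ l2) (h1y : l1 ≠ y0) (h2y : l2 ≠ y0) (n : ℕ) :
    (∃ X : Finset V, X ⊆ E ∧ 2 * X.card = n % 4 + n % 2 ∧
      ∀ x, x ∈ X ↔ (n % 2 = 1 ∧ x = y0) ∨ (2 ≤ n % 4 ∧ x = l1)) ∧
    ∃ X : Finset V, X ⊆ E ∧ X.card = n % 4 ∧
      ∀ x, x ∈ X ↔ (n % 2 = 1 ∧ x = y0) ∨ (2 ≤ n % 4 ∧ (x = l1 ∨ x = l2)) := by
  have hn : n % 4 = 0 ∨ n % 4 = 1 ∨ n % 4 = 2 ∨ n % 4 = 3 := by omega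
  rcases hn with hn | hn | hn | hn
  · have hn2 : n % 2 = 0 := by omega
    refine ⟨⟨∅, empty_subset _, by rw [hn, hn2, card_empty], fun x => ?_⟩,
      ⟨∅, empty_subset _, by rw [hn, card_empty], fun x => ?_⟩⟩ <;> simp [hn, hn2]
  · have hn2 : n % 2 = 1 := by omega
    refine ⟨⟨{y0}, singleton_subset_iff.2 hy0, by rw [hn, hn2, card_singleton], fun x => ?_⟩,
      ⟨{y0}, singleton_subset_iff.2 hy0, by rw [hn, card_singleton], fun x => ?_⟩⟩ <;>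
      simp [hn, hn2]
  · have hn2 : n % 2 = 0 := by omega
    refine ⟨⟨{l1}, singleton_subset_iff.2 h1, by rw [hn, hn2, card_singleton], fun x => ?_⟩,
      ⟨{l1, l2}, ?_, ?_, fun x => ?_⟩⟩
    · simp [hn, hn2]
    · intro x hx
      rw [mem_insert, mem_singleton] at hx
      rcases hx with rfl | rfl <;> assumption
    · rw [hn, card_pair h12]
    · simp [hn, hn2]
  · have hn2 : n % 2 = 1 := by omega
    refine ⟨⟨{y0, l1}, ?_, ?_, fun x => ?_⟩, ⟨{y0, l1, l2}, ?_, ?_, fun x => ?_⟩⟩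
    · intro x hx
      rw [mem_insert, mem_singleton] at hx
      rcases hx with rfl | rfl <;> assumption
    · rw [hn, hn2, card_pair h1y.symm]
    · simp [hn, hn2]
    · intro x hx
      rw [mem_insert, mem_insert, mem_singleton] at hx
      rcases hx with rfl | rfl | rfl <;> assumption
    · rw [hn, card_insert_of_notMem, card_pair h12]
      rw [mem_insert, mem_singleton, not_or]
      exact ⟨h1y.symm, h2y.symm⟩
    · simp [hn, hn2]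

theorem core1_fin (V : Type) [DecidableEq V] (par : V → V) (dep : V → ℕ) (C E : Finset V)
    (r0 y0 l1 l2 : V) (hE : ∀ x ∈ E, x ∈ C ∧ par x ∈ C ∧ dep (par x) + 1 = dep x)
    (hr0E : r0 ∉ E) (hd0 : dep r0 = 0) (hy0 : y0 ∈ E) (hpy : par y0 = r0)
    (hy0' : ∀ x ∈ E, par x = r0 → x = y0) (h1 : l1 ∈ E) (h2 : l2 ∈ E) (h12 : l1 ≠ l2)
    (h1y : l1 ≠ y0) (h2y : l2 ≠ y0) (hch : ∀ x ∈ E, par x ≠ l1 ∧ par x ≠ l2) (n N : ℕ)
    (hN : 1 ≤ N) (FA FB FQ : Finset ℤ) (hm : E.card % 4 = n % 4)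
    (g0 ρ0 : V → ℤ)
    (gA : ∀ x ∈ C, x ≠ r0 → x ≠ l1 → x ≠ l2 → Even (dep x) →
      (4 : ℤ) ∣ g0 x ∧ 40 * (N : ℤ) ≤ g0 x ∧ g0 x ≤ 56 * N ∧ g0 x ∉ FA)
    (gB : ∀ x ∈ C, x ≠ r0 → x ≠ l1 → x ≠ l2 → ¬ Even (dep x) →
      (4 : ℤ) ∣ g0 x ∧ 8 * (N : ℤ) ≤ g0 x ∧ g0 x ≤ 24 * N ∧ g0 x ∉ FB)
    (gy : g0 y0 ≤ 11 * N)
    (gi : ∀ x ∈ C, x ≠ r0 → x ≠ l1 → x ≠ l2 → ∀ y ∈ C, y ≠ r0 → y ≠ l1 → y ≠ l2 →
      (Even (dep x) ↔ Even (dep y)) → g0 x = g0 y → x = y)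
    (rE : ∀ x ∈ E, x ≠ y0 → x ≠ l1 → x ≠ l2 →
      (4 : ℤ) ∣ ρ0 x ∧ 30 * (N : ℤ) ≤ ρ0 x ∧ ρ0 x ≤ 34 * N ∧ ρ0 x ∉ FQ ∧
        (if Even (dep x) then g0 x - g0 (par x) else g0 (par x) - g0 x) = ρ0 x)
    (rI : ∀ x ∈ E, x ≠ y0 → x ≠ l1 → x ≠ l2 → ∀ y ∈ E, y ≠ y0 → y ≠ l1 → y ≠ l2 →
      ρ0 x = ρ0 y → x = y)
    (gr ry a1 a2 p1 p2 : ℤ) (egr : gr = g0 y0 + ry)
    (ea1 : a1 = if Even (dep l1) then g0 (par l1) + p1 else g0 (par l1) - p1)
    (ea2 : a2 = if Even (dep l2) then g0 (par l2) + p2 else g0 (par l2) - p2)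
    (hry : (n % 2 = 1 ∧ ry = 52 * N) ∨
      (n % 2 = 0 ∧ (4 : ℤ) ∣ ry ∧ 30 * (N : ℤ) ≤ ry ∧ ry ≤ 34 * N ∧ ry ∉ FQ))
    (hp2 : (4 : ℤ) ∣ p2 ∧ 30 * (N : ℤ) ≤ p2 ∧ p2 ≤ 34 * N ∧ p2 ∉ FQ)
    (hp1 : (n % 4 < 2 ∧ (4 : ℤ) ∣ p1 ∧ 30 * (N : ℤ) ≤ p1 ∧ p1 ≤ 34 * N ∧ p1 ∉ FQ ∧ p1 ≠ p2 ∧
      p1 ≠ ry ∧ ∀ x ∈ E, x ≠ y0 → x ≠ l1 → x ≠ l2 → ρ0 x ≠ p1) ∨ (2 ≤ n % 4 ∧ p1 = p2 + 1))
    (hry2 : ry ≠ p2) (hryE : ∀ x ∈ E, x ≠ y0 → x ≠ l1 → x ≠ l2 → ρ0 x ≠ ry)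
    (hp2E : ∀ x ∈ E, x ≠ y0 → x ≠ l1 → x ≠ l2 → ρ0 x ≠ p2)
    (hgrA : gr ∉ FA) (hgr : ∀ x ∈ C, x ≠ r0 → x ≠ l1 → x ≠ l2 → Even (dep x) → g0 x ≠ gr)
    (ha1 : a1 ∉ FA ∧ a1 ∉ FB ∧ a1 ≠ gr ∧ ∀ x ∈ C, x ≠ r0 → x ≠ l1 → x ≠ l2 → g0 x ≠ a1)
    (ha2 : a2 ∉ FA ∧ a2 ∉ FB ∧ a2 ≠ gr ∧ ∀ x ∈ C, x ≠ r0 → x ≠ l1 → x ≠ l2 → g0 x ≠ a2)
    (ha12 : (Even (dep l1) ↔ Even (dep l2)) → a1 ≠ a2) :
    ∃ (g ρ : V → ℤ) (D : Finset ℤ) (γ : ℕ) (pd : ℕ → ℤ),
      CoreOut par dep C E r0 l1 l2 n N FA FB FQ g ρ D γ pd := by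
  have hN' : (1 : ℤ) ≤ N := by exact_mod_cast hN
  -- basic facts
  have hne : ∀ x ∈ E, x ≠ r0 := fun x hx h => hr0E (h ▸ hx)
  have hy0r : y0 ≠ r0 := hne y0 hy0
  have h1r : l1 ≠ r0 := hne l1 h1
  have h2r : l2 ≠ r0 := hne l2 h2
  have hdy : ¬ Even (dep y0) := by
    have := (hE y0 hy0).2.2
    rw [hpy, hd0] at this
    rw [← this]
    decide
  have hparS : ∀ x ∈ E, x ≠ y0 → par x ∈ C ∧ par x ≠ r0 ∧ par x ≠ l1 ∧ par x ≠ l2 :=
    fun x hx hxy => ⟨(hE x hx).2.1, fun h => hxy (hy0' x hx h), (hch x hx).1, (hch x hx).2⟩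
  have hpar2 : ∀ x ∈ E, (Even (dep x) ↔ ¬ Even (dep (par x))) := by
    intro x hx
    rw [← (hE x hx).2.2, Nat.even_add_one]
  have gy0 := gB y0 (hE y0 hy0).1 hy0r h1y.symm h2y.symm hdy
  set g : V → ℤ := fun x => if x = r0 then gr else if x = l1 then a1 else if x = l2 then a2
    else g0 x with hg
  set ρ : V → ℤ := fun x => if x = y0 then ry else if x = l1 then p1 else if x = l2 then p2
    else ρ0 x with hρ
  have g_r : g r0 = gr := by simp [hg]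
  have g_1 : g l1 = a1 := by simp [hg, h1r]
  have g_2 : g l2 = a2 := by simp [hg, h2r, h12.symm]
  have g_o : ∀ x, x ≠ r0 → x ≠ l1 → x ≠ l2 → g x = g0 x := by
    intro x e1 e2 e3; simp [hg, e1, e2, e3]
  have ρ_y : ρ y0 = ry := by simp [hρ]
  have ρ_1 : ρ l1 = p1 := by simp [hρ, h1y]
  have ρ_2 : ρ l2 = p2 := by simp [hρ, h2y, h12.symm]
  have ρ_o : ∀ x, x ≠ y0 → x ≠ l1 → x ≠ l2 → ρ x = ρ0 x := by
    intro x e1 e2 e3; simp [hρ, e1, e2, e3]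
  -- parents of l1, l2
  obtain ⟨q1C, q1r, q11, q12⟩ := hparS l1 h1 h1y
  obtain ⟨q2C, q2r, q21, q22⟩ := hparS l2 h2 h2y
  have hp1b : 30 * (N : ℤ) ≤ p1 ∧ p1 ≤ 34 * N + 1 := by
    rcases hp1 with h | h
    · exact ⟨h.2.2.1, by linarith [h.2.2.2.1]⟩
    · exact ⟨by linarith [hp2.2.1, h.2], by linarith [hp2.2.2.1, h.2]⟩
  have hryb : 30 * (N : ℤ) ≤ ry ∧ ry ≤ 52 * N := by
    rcases hry with h | h
    · constructor <;> linarith [h.2]
    · constructor <;> linarith [h.2.2.1, h.2.2.2.1]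
  have hp1y : p1 ≠ ry := by
    rcases hp1 with h | h
    · exact h.2.2.2.2.2.2.1
    · rcases hry with h' | h'
      · have := hp2.2.2.1
        have e := h.2
        intro he
        rw [e, h'.2] at he
        omega
      · intro he
        have e1 := hp2.1
        have e2 := h'.2.1
        rw [← he, h.2] at e2
        omega
  have hp12 : p1 ≠ p2 := by
    rcases hp1 with h | h
    · exact h.2.2.2.2.2.1
    · intro he; linarith [h.2]
  have hp1E : ∀ x ∈ E, x ≠ y0 → x ≠ l1 → x ≠ l2 → ρ0 x ≠ p1 := by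
    intro x hx e1 e2 e3
    rcases hp1 with h | h
    · exact h.2.2.2.2.2.2.2 x hx e1 e2 e3
    · intro he
      have d1 := (rE x hx e1 e2 e3).1
      have d2 := hp2.1
      rw [he, h.2] at d1
      omega
  -- ranges of the labels of l1, l2
  have rng : ∀ l ∈ E, l ≠ y0 → ∀ a p : ℤ, 30 * (N : ℤ) ≤ p → p ≤ 34 * N + 1 →
      (a = if Even (dep l) then g0 (par l) + p else g0 (par l) - p) →
      (Even (dep l) → 37 * (N : ℤ) ≤ a ∧ a ≤ 63 * N) ∧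
      (¬ Even (dep l) → (N : ℤ) ≤ a ∧ a ≤ 31 * N) ∧
      (if Even (dep l) then a - g0 (par l) else g0 (par l) - a) = p := by
    intro l hl hly a p hpl hpu ha
    obtain ⟨w1, w2, w3, w4⟩ := hparS l hl hly
    by_cases he : Even (dep l)
    · have h := gB (par l) w1 w2 w3 w4 ((hpar2 l hl).1 he)
      rw [if_pos he] at ha
      refine ⟨fun _ => ⟨by linarith [h.2.1], by linarith [h.2.2.1]⟩, fun h' => absurd he h', ?_⟩
      rw [if_pos he, ha]; ring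
    · have he' : Even (dep (par l)) := by
        by_contra hcon
        exact he ((hpar2 l hl).2 hcon)
      have h := gA (par l) w1 w2 w3 w4 he'
      rw [if_neg he] at ha
      refine ⟨fun h' => absurd h' he, fun _ => ⟨by linarith [h.2.1], by linarith [h.2.2.1]⟩, ?_⟩
      rw [if_neg he, ha]; ring
  obtain ⟨r1A, r1B, r1ρ⟩ := rng l1 h1 h1y a1 p1 hp1b.1 hp1b.2 ea1
  obtain ⟨r2A, r2B, r2ρ⟩ := rng l2 h2 h2y a2 p2 hp2.2.1 (by linarith [hp2.2.2.1]) ea2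
  -- classification
  have cls : ∀ x, x = r0 ∨ x = l1 ∨ x = l2 ∨ (x ≠ r0 ∧ x ≠ l1 ∧ x ≠ l2) := by
    intro x
    by_cases e1 : x = r0
    · exact Or.inl e1
    by_cases e2 : x = l1
    · exact Or.inr (Or.inl e2)
    by_cases e3 : x = l2
    · exact Or.inr (Or.inr (Or.inl e3))
    exact Or.inr (Or.inr (Or.inr ⟨e1, e2, e3⟩))
  have clsE : ∀ x, x = y0 ∨ x = l1 ∨ x = l2 ∨ (x ≠ y0 ∧ x ≠ l1 ∧ x ≠ l2) := by
    intro x
    by_cases e1 : x = y0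
    · exact Or.inl e1
    by_cases e2 : x = l1
    · exact Or.inr (Or.inl e2)
    by_cases e3 : x = l2
    · exact Or.inr (Or.inr (Or.inl e3))
    exact Or.inr (Or.inr (Or.inr ⟨e1, e2, e3⟩))
  -- injectivity of ρ
  have hρi : ∀ x ∈ E, ∀ y ∈ E, ρ x = ρ y → x = y := by
    intro x hx y hy hxy
    rcases clsE x with rfl | rfl | rfl | ⟨e1, e2, e3⟩ <;>
      rcases clsE y with rfl | rfl | rfl | ⟨f1, f2, f3⟩
    · rfl
    · rw [ρ_y, ρ_1] at hxy; exact absurd hxy.symm hp1y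
    · rw [ρ_y, ρ_2] at hxy; exact absurd hxy hry2
    · rw [ρ_y, ρ_o y f1 f2 f3] at hxy; exact absurd hxy.symm (hryE y hy f1 f2 f3)
    · rw [ρ_y, ρ_1] at hxy; exact absurd hxy hp1y
    · rfl
    · rw [ρ_1, ρ_2] at hxy; exact absurd hxy hp12
    · rw [ρ_1, ρ_o y f1 f2 f3] at hxy; exact absurd hxy.symm (hp1E y hy f1 f2 f3)
    · rw [ρ_y, ρ_2] at hxy; exact absurd hxy.symm hry2
    · rw [ρ_1, ρ_2] at hxy; exact absurd hxy.symm hp12
    · rfl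
    · rw [ρ_2, ρ_o y f1 f2 f3] at hxy; exact absurd hxy.symm (hp2E y hy f1 f2 f3)
    · rw [ρ_y, ρ_o x e1 e2 e3] at hxy; exact absurd hxy (hryE x hx e1 e2 e3)
    · rw [ρ_1, ρ_o x e1 e2 e3] at hxy; exact absurd hxy (hp1E x hx e1 e2 e3)
    · rw [ρ_2, ρ_o x e1 e2 e3] at hxy; exact absurd hxy (hp2E x hx e1 e2 e3)
    · rw [ρ_o x e1 e2 e3, ρ_o y f1 f2 f3] at hxy
      exact rI x hx e1 e2 e3 y hy f1 f2 f3 hxy
  obtain ⟨⟨X1, hX1, hc1, hm1⟩, ⟨X2, hX2, hc2, hm2⟩⟩ :=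
    exc_sets E y0 l1 l2 hy0 h1 h2 h12 h1y h2y n
  set D : Finset ℤ := (E \ X1).image ρ with hD
  set Pd : Finset ℤ := (E \ X2).image (fun x => ρ x + 1) with hPd
  have hDcard : D.card = E.card - X1.card := by
    rw [hD, card_image_of_injOn, card_sdiff_of_subset hX1]
    intro x hx y hy hxy
    rw [coe_sdiff] at hx hy
    exact hρi x hx.1 y hy.1 hxy
  have hPcard : Pd.card = E.card - X2.card := by
    rw [hPd, card_image_of_injOn, card_sdiff_of_subset hX2]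
    intro x hx y hy hxy
    rw [coe_sdiff] at hx hy
    simp only at hxy
    exact hρi x hx.1 y hy.1 (by linarith)
  have hX1c := card_le_card hX1
  have hX2c := card_le_card hX2
  -- elements outside of X1
  have hDval : ∀ x ∈ E, x ∉ X1 → (4 : ℤ) ∣ ρ x ∧ 30 * (N : ℤ) ≤ ρ x ∧ ρ x ≤ 34 * N ∧ ρ x ∉ FQ := by
    intro x hx hx1
    rw [hm1, not_or] at hx1
    rcases clsE x with rfl | rfl | rfl | ⟨e1, e2, e3⟩
    · rw [ρ_y]
      rcases hry with h | h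
      · exact absurd ⟨h.1, rfl⟩ hx1.1
      · exact h.2
    · rw [ρ_1]
      rcases hp1 with h | h
      · exact ⟨h.2.1, h.2.2.1, h.2.2.2.1, h.2.2.2.2.1⟩
      · exact absurd ⟨h.1, rfl⟩ hx1.2
    · rw [ρ_2]; exact hp2
    · rw [ρ_o x e1 e2 e3]
      obtain ⟨w1, w2, w3, w4, _⟩ := rE x hx e1 e2 e3
      exact ⟨w1, w2, w3, w4⟩
  have hX12 : ∀ x ∈ X1, x ∈ X2 := by
    intro x hx
    rw [hm1] at hx
    rw [hm2]
    rcases hx with h | h
    · exact Or.inl h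
    · exact Or.inr ⟨h.1, Or.inl h.2⟩
  obtain ⟨pd, hpd1, hpd2⟩ := enumZ Pd
  have h4γ : 4 * (Pd.card / 4) = Pd.card := by
    rw [hPcard, hc2]
    omega
  refine ⟨g, ρ, D, Pd.card / 4, pd, ?_⟩
  refine ⟨?_, ?_, ?_, ?_, ?_, hρi, ?_, ?_, ?_, ?_, ?_, ?_⟩
  · -- hA
    intro x hx he
    rcases cls x with rfl | rfl | rfl | ⟨e1, e2, e3⟩
    · rw [g_r]
      refine ⟨?_, ?_, hgrA⟩
      · rw [egr]; linarith [gy0.2.1]
      · rw [egr]; linarith
    · rw [g_1]; exact ⟨(r1A he).1, (r1A he).2, ha1.1⟩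
    · rw [g_2]; exact ⟨(r2A he).1, (r2A he).2, ha2.1⟩
    · rw [g_o x e1 e2 e3]
      obtain ⟨_, w2, w3, w4⟩ := gA x hx e1 e2 e3 he
      exact ⟨by linarith, by linarith, w4⟩
  · -- hA4
    intro x hx he e1 e2 e3
    rw [g_o x e1 e2 e3]
    obtain ⟨w1, w2, w3, _⟩ := gA x hx e1 e2 e3 he
    exact ⟨w1, w2, w3⟩
  · -- hB
    intro x hx he
    rcases cls x with rfl | rfl | rfl | ⟨e1, e2, e3⟩
    · rw [hd0] at he
      exact absurd (by decide) he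
    · rw [g_1]; exact ⟨(r1B he).1, (r1B he).2, ha1.2.1⟩
    · rw [g_2]; exact ⟨(r2B he).1, (r2B he).2, ha2.2.1⟩
    · rw [g_o x e1 e2 e3]
      obtain ⟨_, w2, w3, w4⟩ := gB x hx e1 e2 e3 he
      exact ⟨by linarith, by linarith, w4⟩
  · -- hinj
    intro x hx y hy hpar hxy
    have key : ∀ z ∈ C, z ≠ r0 → z ≠ l1 → z ≠ l2 → (Even (dep r0) ↔ Even (dep z)) → g0 z ≠ gr := by
      intro z hz f1 f2 f3 hp
      exact hgr z hz f1 f2 f3 (hp.1 (by rw [hd0]; decide))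
    rcases cls x with rfl | rfl | rfl | ⟨e1, e2, e3⟩ <;>
      rcases cls y with rfl | rfl | rfl | ⟨f1, f2, f3⟩
    · rfl
    · rw [g_r, g_1] at hxy; exact absurd hxy.symm ha1.2.2.1
    · rw [g_r, g_2] at hxy; exact absurd hxy.symm ha2.2.2.1
    · rw [g_r, g_o y f1 f2 f3] at hxy; exact absurd hxy.symm (key y hy f1 f2 f3 hpar)
    · rw [g_r, g_1] at hxy; exact absurd hxy ha1.2.2.1
    · rfl
    · rw [g_1, g_2] at hxy; exact absurd hxy (ha12 hpar)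
    · rw [g_1, g_o y f1 f2 f3] at hxy; exact absurd hxy.symm (ha1.2.2.2 y hy f1 f2 f3)
    · rw [g_r, g_2] at hxy; exact absurd hxy ha2.2.2.1
    · rw [g_1, g_2] at hxy; exact absurd hxy.symm (ha12 hpar.symm)
    · rfl
    · rw [g_2, g_o y f1 f2 f3] at hxy; exact absurd hxy.symm (ha2.2.2.2 y hy f1 f2 f3)
    · rw [g_r, g_o x e1 e2 e3] at hxy; exact absurd hxy (key x hx e1 e2 e3 hpar.symm)
    · rw [g_1, g_o x e1 e2 e3] at hxy; exact absurd hxy (ha1.2.2.2 x hx e1 e2 e3)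
    · rw [g_2, g_o x e1 e2 e3] at hxy; exact absurd hxy (ha2.2.2.2 x hx e1 e2 e3)
    · rw [g_o x e1 e2 e3, g_o y f1 f2 f3] at hxy
      exact gi x hx e1 e2 e3 y hy f1 f2 f3 hpar hxy
  · -- hρ
    intro x hx
    rcases clsE x with rfl | rfl | rfl | ⟨e1, e2, e3⟩
    · rw [if_neg hdy, hpy, g_r, g_o _ hy0r h1y.symm h2y.symm, ρ_y, egr]; ring
    · rw [g_1, g_o _ q1r q11 q12, ρ_1]; exact r1ρ
    · rw [g_2, g_o _ q2r q21 q22, ρ_2]; exact r2ρ
    · obtain ⟨w1, w2, w3, w4⟩ := hparS x hx e1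
      rw [g_o _ (hne x hx) e2 e3, g_o _ w2 w3 w4, ρ_o x e1 e2 e3]
      exact (rE x hx e1 e2 e3).2.2.2.2
  · -- hD
    intro q hq
    rw [hD, mem_image] at hq
    obtain ⟨x, hx, rfl⟩ := hq
    rw [mem_sdiff] at hx
    exact hDval x hx.1 hx.2
  · -- hρD
    intro x hx
    by_cases hx1 : x ∈ X1
    · rcases (hm1 x).1 hx1 with h | h
      · right; right
        refine ⟨h.1, ?_⟩
        rw [h.2, ρ_y]
        rcases hry with h' | h'
        · exact h'.2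
        · omega
      · right; left
        rw [h.2, ρ_1]
        rcases hp1 with h' | h'
        · omega
        · rw [h'.2, add_sub_cancel_right, ← ρ_2, hD]
          refine mem_image_of_mem _ (mem_sdiff.2 ⟨h2, ?_⟩)
          rw [hm1]
          rintro (h3 | h3)
          · exact h2y h3.2
          · exact h12 h3.2.symm
    · left
      exact mem_image_of_mem _ (mem_sdiff.2 ⟨hx, hx1⟩)
  · -- hpd
    intro j hj
    rw [h4γ] at hj
    have h3 := hpd1 j hj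
    rw [hPd, mem_image] at h3
    obtain ⟨x, hx, hxj⟩ := h3
    rw [mem_sdiff] at hx
    have hx1 : x ∉ X1 := fun h => hx.2 (hX12 x h)
    rw [← hxj, add_sub_cancel_right]
    refine ⟨mem_image_of_mem _ (mem_sdiff.2 ⟨hx.1, hx1⟩), fun y hy hyx => ?_⟩
    have hx4 := (hDval x hx.1 hx1).1
    by_cases hy1 : y ∈ X1
    · rcases (hm1 y).1 hy1 with h | h
      · have h5 : ρ y = 52 * N := by
          rw [h.2, ρ_y]
          rcases hry with h' | h'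
          · exact h'.2
          · omega
        rw [h5] at hyx
        omega
      · have h5 : ρ y = p2 + 1 := by
          rw [h.2, ρ_1]
          rcases hp1 with h' | h'
          · omega
          · exact h'.2
        have h6 : x = l2 := by
          refine hρi x hx.1 l2 h2 ?_
          rw [ρ_2]; linarith
        exact hx.2 ((hm2 x).2 (Or.inr ⟨h.1, Or.inr h6⟩))
    · have hy4 := (hDval y hy hy1).1
      omega
  · -- hpdi
    intro j hj j' hj' h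
    rw [h4γ] at hj hj'
    exact hpd2 j hj j' hj' h
  · -- hγ
    rw [h4γ, hPcard, hc2]
    omega
  · -- hDc
    rw [h4γ, hPcard, hDcard, hc2]
    omega

theorem core1 (V : Type) [DecidableEq V] (par : V → V) (dep : V → ℕ) (C E : Finset V)
    (r0 y0 l1 l2 : V) (hE : ∀ x ∈ E, x ∈ C ∧ par x ∈ C ∧ dep (par x) + 1 = dep x) (hr0 : r0 ∈ C)
    (hr0E : r0 ∉ E) (hd0 : dep r0 = 0) (hy0 : y0 ∈ E) (hpy : par y0 = r0)
    (hy0' : ∀ x ∈ E, par x = r0 → x = y0) (h1 : l1 ∈ E) (h2 : l2 ∈ E) (h12 : l1 ≠ l2)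
    (h1y : l1 ≠ y0) (h2y : l2 ≠ y0) (hch : ∀ x ∈ E, par x ≠ l1 ∧ par x ≠ l2) (n N : ℕ)
    (FA FB FQ : Finset ℤ) (hs : 16 * (2 * FA.card + FB.card + FQ.card + 3 * C.card + 20) ≤ N)
    (hm : E.card % 4 = n % 4) :
    ∃ (g ρ : V → ℤ) (D : Finset ℤ) (γ : ℕ) (pd : ℕ → ℤ),
      CoreOut par dep C E r0 l1 l2 n N FA FB FQ g ρ D γ pd := by
  have hne : ∀ x ∈ E, x ≠ r0 := fun x hx h => hr0E (h ▸ hx)
  have hy0r : y0 ≠ r0 := hne y0 hy0
  have h1r : l1 ≠ r0 := hne l1 h1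
  have h2r : l2 ≠ r0 := hne l2 h2
  have hdy : ¬ Even (dep y0) := by
    have := (hE y0 hy0).2.2
    rw [hpy, hd0] at this
    rw [← this]
    decide
  have hparS : ∀ x ∈ E, x ≠ y0 → par x ∈ C ∧ par x ≠ r0 ∧ par x ≠ l1 ∧ par x ≠ l2 :=
    fun x hx hxy => ⟨(hE x hx).2.1, fun h => hxy (hy0' x hx h), (hch x hx).1, (hch x hx).2⟩
  set S : Finset V := ((C.erase r0).erase l1).erase l2 with hS
  set E' : Finset V := ((E.erase y0).erase l1).erase l2 with hE'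
  have mS : ∀ x, x ∈ S ↔ x ∈ C ∧ x ≠ r0 ∧ x ≠ l1 ∧ x ≠ l2 := by
    intro x
    rw [hS, mem_erase, mem_erase, mem_erase]
    tauto
  have mE : ∀ x, x ∈ E' ↔ x ∈ E ∧ x ≠ y0 ∧ x ≠ l1 ∧ x ≠ l2 := by
    intro x
    rw [hE', mem_erase, mem_erase, mem_erase]
    tauto
  have hSC : S.card ≤ C.card := card_le_card fun x hx => ((mS x).1 hx).1
  have hE'C : E'.card ≤ C.card := card_le_card fun x hx => (hE x ((mE x).1 hx).1).1
  set FB' : Finset ℤ := FB ∪ FA.image (fun a => a - 52 * (N : ℤ)) with hFB'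
  have hFBc : FB'.card ≤ FB.card + FA.card :=
    (card_union_le _ _).trans (by have := card_image_le (s := FA) (f := fun a => a - 52 * (N : ℤ)); omega)
  obtain ⟨g0, ρ0, cA, cB, cy, ci, cE, cI⟩ := core0 V par dep S E' y0
    (fun x hx => by
      rw [mE] at hx
      exact (mS x).2 ⟨(hE x hx.1).1, hne x hx.1, hx.2.2.1, hx.2.2.2⟩)
    (fun x hx => by
      rw [mE] at hx
      exact ⟨(mS _).2 (hparS x hx.1 hx.2.1), (hE x hx.1).2.2⟩)
    (fun h => ((mE y0).1 h).2.1 rfl) hdy N FA FB' FQ (by omega)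
  have hy0S : y0 ∈ S := (mS y0).2 ⟨(hE y0 hy0).1, hy0r, h1y.symm, h2y.symm⟩
  have gy := cy hy0S
  have gyB := cB y0 hy0S hdy
  have hN1 : 1 ≤ N := by omega
  -- the residue of y0
  obtain ⟨ry, hry, hryE, hgrA, hgr, hgr4⟩ : ∃ ry : ℤ, ((n % 2 = 1 ∧ ry = 52 * N) ∨
      (n % 2 = 0 ∧ (4 : ℤ) ∣ ry ∧ 30 * (N : ℤ) ≤ ry ∧ ry ≤ 34 * N ∧ ry ∉ FQ)) ∧
      (∀ x ∈ E', ρ0 x ≠ ry) ∧ g0 y0 + ry ∉ FA ∧
      (∀ x ∈ S, Even (dep x) → g0 x ≠ g0 y0 + ry) ∧ (4 : ℤ) ∣ g0 y0 + ry := by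
    rcases Nat.mod_two_eq_zero_or_one n with hn | hn
    · obtain ⟨q, q1, q2, q3, q4⟩ := pick4 N (FQ ∪ E'.image ρ0 ∪
        (FA ∪ S.image g0).image (fun w => w - g0 y0)) (by
          have e1 := card_union_le (FQ ∪ E'.image ρ0) ((FA ∪ S.image g0).image
            (fun w => w - g0 y0))
          have e2 := card_union_le FQ (E'.image ρ0)
          have e3 := card_image_le (s := E') (f := ρ0)
          have e4 := card_image_le (s := FA ∪ S.image g0) (f := fun w => w - g0 y0)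
          have e5 := card_union_le FA (S.image g0)
          have e6 := card_image_le (s := S) (f := g0)
          omega)
      rw [mem_union, mem_union, not_or, not_or] at q4
      refine ⟨q, Or.inr ⟨hn, q1, q2, q3, q4.1.1⟩, ?_, ?_, ?_, ?_⟩
      · intro x hx h
        exact q4.1.2 (mem_image.2 ⟨x, hx, h⟩)
      · intro h
        exact q4.2 (mem_image.2 ⟨_, mem_union_left _ h, by ring⟩)
      · intro x hx _ h
        exact q4.2 (mem_image.2 ⟨g0 x, mem_union_right _ (mem_image_of_mem _ hx), by rw [h]; ring⟩)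
      · exact dvd_add gyB.1 q1
    · refine ⟨52 * N, Or.inl ⟨hn, rfl⟩, ?_, ?_, ?_, ?_⟩
      · intro x hx h
        have := (cE x hx).2.2.1
        omega
      · intro h
        refine gyB.2.2.2 ?_
        rw [hFB']
        exact mem_union_right _ (mem_image.2 ⟨_, h, by ring⟩)
      · intro x hx he h
        have := (cA x hx he).2.2.1
        have := gyB.2.1
        omega
      · exact dvd_add gyB.1 ⟨13 * N, by ring⟩
  set gr : ℤ := g0 y0 + ry with hgrdef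
  -- the set of the forbidden labels
  set W : Finset ℤ := insert gr (FA ∪ FB ∪ S.image g0) with hW
  have hWc : W.card ≤ FA.card + FB.card + C.card + 1 := by
    have e1 := card_insert_le gr (FA ∪ FB ∪ S.image g0)
    have e2 := card_union_le (FA ∪ FB) (S.image g0)
    have e3 := card_union_le FA FB
    have e4 := card_image_le (s := S) (f := g0)
    rw [hW]
    omega
  have hWs : ∀ a, a ∉ W → a ∉ FA ∧ a ∉ FB ∧ a ≠ gr ∧ ∀ x ∈ S, g0 x ≠ a := by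
    intro a ha
    rw [hW, mem_insert, mem_union, mem_union, not_or, not_or, not_or] at ha
    exact ⟨ha.2.1.1, ha.2.1.2, ha.1, fun x hx h => ha.2.2 (mem_image.2 ⟨x, hx, h⟩)⟩
  -- the residue of l2
  obtain ⟨p2, b1, b2, b3, b4⟩ := pick4 N (insert ry (FQ ∪ E'.image ρ0 ∪
      (forb (g0 (par l2)) 0 W ∪ forb (g0 (par l1)) 1 W))) (by
        have e0 := card_insert_le ry (FQ ∪ E'.image ρ0 ∪
          (forb (g0 (par l2)) 0 W ∪ forb (g0 (par l1)) 1 W))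
        have e1 := card_union_le (FQ ∪ E'.image ρ0)
          (forb (g0 (par l2)) 0 W ∪ forb (g0 (par l1)) 1 W)
        have e2 := card_union_le FQ (E'.image ρ0)
        have e3 := card_image_le (s := E') (f := ρ0)
        have e4 := card_union_le (forb (g0 (par l2)) 0 W) (forb (g0 (par l1)) 1 W)
        have e5 := forb_card (g0 (par l2)) 0 W
        have e6 := forb_card (g0 (par l1)) 1 W
        omega)
  rw [mem_insert, mem_union, mem_union, mem_union, not_or, not_or, not_or, not_or] at b4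
  obtain ⟨b5, ⟨b6, b7⟩, b8, b9⟩ := b4
  have b8' := forb_spec b8
  have b9' := forb_spec b9
  set a2 : ℤ := if Even (dep l2) then g0 (par l2) + p2 else g0 (par l2) - p2 with ha2
  have ha2W : a2 ∉ W := by
    rw [ha2]
    rw [add_zero] at b8'
    split_ifs
    · exact b8'.1
    · exact b8'.2
  -- the residue of l1
  obtain ⟨p1, hp1, hp1W, ha12⟩ : ∃ p1 : ℤ, ((n % 4 < 2 ∧ (4 : ℤ) ∣ p1 ∧ 30 * (N : ℤ) ≤ p1 ∧
      p1 ≤ 34 * N ∧ p1 ∉ FQ ∧ p1 ≠ p2 ∧ p1 ≠ ry ∧ ∀ x ∈ E', ρ0 x ≠ p1) ∨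
      (2 ≤ n % 4 ∧ p1 = p2 + 1)) ∧
      (g0 (par l1) + p1 ∉ W ∧ g0 (par l1) - p1 ∉ W) ∧
      ((Even (dep l1) ↔ Even (dep l2)) →
        (if Even (dep l1) then g0 (par l1) + p1 else g0 (par l1) - p1) ≠ a2) := by
    rcases lt_or_ge (n % 4) 2 with hn | hn
    · obtain ⟨q, q1, q2, q3, q4⟩ := pick4 N (insert ry (insert p2 (FQ ∪ E'.image ρ0 ∪
          forb (g0 (par l1)) 0 (insert a2 W)))) (by
            have e0 := card_insert_le ry (insert p2 (FQ ∪ E'.image ρ0 ∪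
              forb (g0 (par l1)) 0 (insert a2 W)))
            have e00 := card_insert_le p2 (FQ ∪ E'.image ρ0 ∪
              forb (g0 (par l1)) 0 (insert a2 W))
            have e1 := card_union_le (FQ ∪ E'.image ρ0) (forb (g0 (par l1)) 0 (insert a2 W))
            have e2 := card_union_le FQ (E'.image ρ0)
            have e3 := card_image_le (s := E') (f := ρ0)
            have e5 := forb_card (g0 (par l1)) 0 (insert a2 W)
            have e6 := card_insert_le a2 W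
            omega)
      rw [mem_insert, mem_insert, mem_union, mem_union, not_or, not_or, not_or, not_or] at q4
      obtain ⟨q5, q6, ⟨q7, q8⟩, q9⟩ := q4
      have q9' := forb_spec q9
      rw [add_zero] at q9'
      refine ⟨q, Or.inl ⟨hn, q1, q2, q3, q7, q6, q5, ?_⟩,
        ⟨fun h => q9'.1 (mem_insert_of_mem h), fun h => q9'.2 (mem_insert_of_mem h)⟩, ?_⟩
      · intro x hx h
        exact q8 (mem_image.2 ⟨x, hx, h⟩)
      · intro _
        split_ifs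
        · exact fun h => q9'.1 (h ▸ mem_insert_self a2 W)
        · exact fun h => q9'.2 (h ▸ mem_insert_self a2 W)
    · refine ⟨p2 + 1, Or.inr ⟨hn, rfl⟩, b9', ?_⟩
      intro hpar
      have h41 : (4 : ℤ) ∣ g0 (par l1) := by
        have hm1 : par l1 ∈ S := (mS _).2 (hparS l1 h1 h1y)
        by_cases he : Even (dep (par l1))
        · exact (cA _ hm1 he).1
        · exact (cB _ hm1 he).1
      have h42 : (4 : ℤ) ∣ g0 (par l2) := by
        have hm2 : par l2 ∈ S := (mS _).2 (hparS l2 h2 h2y)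
        by_cases he : Even (dep (par l2))
        · exact (cA _ hm2 he).1
        · exact (cB _ hm2 he).1
      rw [ha2]
      by_cases he : Even (dep l1)
      · rw [if_pos he, if_pos (hpar.1 he)]
        intro h
        omega
      · rw [if_neg he, if_neg (fun h => he (hpar.2 h))]
        intro h
        omega
  set a1 : ℤ := if Even (dep l1) then g0 (par l1) + p1 else g0 (par l1) - p1 with ha1
  have ha1W : a1 ∉ W := by
    rw [ha1]
    split_ifs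
    · exact hp1W.1
    · exact hp1W.2
  refine core1_fin V par dep C E r0 y0 l1 l2 hE hr0E hd0 hy0 hpy hy0' h1 h2 h12 h1y h2y hch n N
    hN1 FA FB FQ hm g0 ρ0 ?_ ?_ gy ?_ ?_ ?_ gr ry a1 a2 p1 p2 hgrdef ha1 ha2 hry
    ⟨b1, b2, b3, b6⟩ ?_ ?_ ?_ ?_ hgrA ?_ ?_ ?_ ha12
  · intro x hx e1 e2 e3 he
    exact cA x ((mS x).2 ⟨hx, e1, e2, e3⟩) he
  · intro x hx e1 e2 e3 he
    obtain ⟨w1, w2, w3, w4⟩ := cB x ((mS x).2 ⟨hx, e1, e2, e3⟩) he
    exact ⟨w1, w2, w3, fun h => w4 (mem_union_left _ h)⟩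
  · intro x hx e1 e2 e3 y hy f1 f2 f3 hp h
    exact ci x ((mS x).2 ⟨hx, e1, e2, e3⟩) y ((mS y).2 ⟨hy, f1, f2, f3⟩) hp h
  · intro x hx e1 e2 e3
    exact cE x ((mE x).2 ⟨hx, e1, e2, e3⟩)
  · intro x hx e1 e2 e3 y hy f1 f2 f3 h
    exact cI x ((mE x).2 ⟨hx, e1, e2, e3⟩) y ((mE y).2 ⟨hy, f1, f2, f3⟩) h
  · rcases hp1 with h | h
    · refine Or.inl ⟨h.1, h.2.1, h.2.2.1, h.2.2.2.1, h.2.2.2.2.1, h.2.2.2.2.2.1,
        h.2.2.2.2.2.2.1, ?_⟩
      intro x hx e1 e2 e3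
      exact h.2.2.2.2.2.2.2 x ((mE x).2 ⟨hx, e1, e2, e3⟩)
    · exact Or.inr h
  · exact fun h => b5 h.symm
  · intro x hx e1 e2 e3
    exact hryE x ((mE x).2 ⟨hx, e1, e2, e3⟩)
  · intro x hx e1 e2 e3 h
    exact b7 (mem_image.2 ⟨x, (mE x).2 ⟨hx, e1, e2, e3⟩, h⟩)
  · intro x hx e1 e2 e3 he
    exact hgr x ((mS x).2 ⟨hx, e1, e2, e3⟩) he
  · obtain ⟨w1, w2, w3, w4⟩ := hWs a1 ha1W
    exact ⟨w1, w2, w3, fun x hx e1 e2 e3 => w4 x ((mS x).2 ⟨hx, e1, e2, e3⟩)⟩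
  · obtain ⟨w1, w2, w3, w4⟩ := hWs a2 ha2W
    exact ⟨w1, w2, w3, fun x hx e1 e2 e3 => w4 x ((mS x).2 ⟨hx, e1, e2, e3⟩)⟩

end Pool.Agent.Helper83.GD
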