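import Pool.Agent.Helper83.GD.Vals

/-!
# GHD-COUNT: the number of the pairs and plain columns

In a module `i`: the pairs are at `0, p + 2, p + 4 + k, k + 12, k + 16, k + 22` and, if `γ ≤ i`, at `k + 18`
(`p = pp n k i < 4`); the plain columns are the `p + (6 - p)` numbers of `[2, p + 2)` and `[p + 6 + k, k + 12)` and
`k + 15, k + 20, k + 21`. Sum over `i < r`: `6 r + (r - γ)` and `9 r`.
-/

namespace Pool.Agent.Helper83.GD

open Finset

private theorem card_prod47 (r m : ℕ) (P : ℕ → ℕ → Prop) [∀ i j, Decidable (P i j)] :
    ((range r ×ˢ range m).filter fun τ => P τ.1 τ.2).card =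
      ∑ i ∈ range r, ((range m).filter fun j => P i j).card := by
  rw [card_filter, sum_product]
  refine sum_congr rfl fun i _ => ?_
  rw [card_filter]

private theorem ind47 (r γ : ℕ) : (∑ i ∈ range r, if γ ≤ i then 1 else 0) = r - γ := by
  rw [← card_filter]
  have : (range r).filter (fun i => γ ≤ i) = Ico γ r := by
    ext x
    simp only [mem_filter, mem_range, mem_Ico]
    omega
  rw [this, Nat.card_Ico]

theorem count_pair (n k r γ : ℕ) (hk : 100 ≤ k) (hγ : γ ≤ r) :
    ((range r ×ˢ range (k + 24)).filter fun τ => pairPos n k γ τ.1 τ.2).card = 7 * r - γ := by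
  rw [card_prod47 r (k + 24) (fun i j => pairPos n k γ i j)]
  have h : ∀ i ∈ range r, ((range (k + 24)).filter fun j => pairPos n k γ i j).card =
      6 + if γ ≤ i then 1 else 0 := by
    intro i _
    have hp := pp_lt n k i
    have h6 : ({0, pp n k i + 2, pp n k i + 4 + k, k + 12, k + 16, k + 22} : Finset ℕ).card = 6 := by
      rw [card_insert_of_notMem, card_insert_of_notMem, card_insert_of_notMem,
        card_insert_of_notMem, card_insert_of_notMem, card_singleton] <;>
      simp only [mem_insert, mem_singleton] <;> omega
    by_cases hi : γ ≤ i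
    · have e : ((range (k + 24)).filter fun j => pairPos n k γ i j) =
          insert (k + 18) {0, pp n k i + 2, pp n k i + 4 + k, k + 12, k + 16, k + 22} := by
        ext x
        simp only [mem_filter, mem_range, mem_insert, mem_singleton, pairPos]
        omega
      rw [e, card_insert_of_notMem, h6, if_pos hi]
      simp only [mem_insert, mem_singleton]
      omega
    · have e : ((range (k + 24)).filter fun j => pairPos n k γ i j) =
          {0, pp n k i + 2, pp n k i + 4 + k, k + 12, k + 16, k + 22} := by
        ext x
        simp only [mem_filter, mem_range, mem_insert, mem_singleton, pairPos]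
        omega
      rw [e, h6, if_neg hi]
  rw [sum_congr rfl h, sum_add_distrib, ind47, sum_const, card_range, smul_eq_mul]
  omega

theorem count_plain (n k r : ℕ) (hk : 100 ≤ k) :
    ((range r ×ˢ range (k + 24)).filter fun τ => plainPos n k τ.1 τ.2).card = 9 * r := by
  rw [card_prod47 r (k + 24) (fun i j => plainPos n k i j)]
  have h : ∀ i ∈ range r, ((range (k + 24)).filter fun j => plainPos n k i j).card = 9 := by
    intro i _
    have hp := pp_lt n k i
    have e : ((range (k + 24)).filter fun j => plainPos n k i j) =
        (Ico 2 (pp n k i + 2) ∪ Ico (pp n k i + 6 + k) (k + 12)) ∪ {k + 15, k + 20, k + 21} := by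
      ext x
      simp only [mem_filter, mem_range, mem_union, mem_Ico, mem_insert, mem_singleton, plainPos]
      omega
    have h3 : ({k + 15, k + 20, k + 21} : Finset ℕ).card = 3 := by
      rw [card_insert_of_notMem, card_insert_of_notMem, card_singleton] <;>
      simp only [mem_insert, mem_singleton] <;> omega
    rw [e, card_union_of_disjoint, card_union_of_disjoint, h3, Nat.card_Ico, Nat.card_Ico]
    · omega
    · rw [disjoint_left]
      intro x
      simp only [mem_Ico]
      omega
    · rw [disjoint_left]
      intro x
      simp only [mem_Ico, mem_union, mem_insert, mem_singleton]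
      omega
  rw [sum_congr rfl h, sum_const, card_range, smul_eq_mul]
  omega

/-- A position is not at the same time the first column of a pair and plain. -/
theorem pair_plain (n k γ i j : ℕ) (hk : 100 ≤ k) (h : pairPos n k γ i j) :
    ¬ plainPos n k i j := by
  have hp := pp_lt n k i
  unfold pairPos at h
  unfold plainPos
  omega

theorem opPos_lt (n k γ i j : ℕ) (h : opPos n k γ i j) : j + 1 < k + 24 := by
  have hp := pp_lt n k i
  unfold opPos pairPos plainPos at h
  omega

end Pool.Agent.Helper83.GD
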