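import Pool.Agent.Helper83.GD.Seg

/-!
# GHD-CUT: almost all edges are in modules

`L` = the number of the vertices without children. Proof. There are `n` vertices `x ≠ r0`. Let `t` be
the least multiple of `Λ` with `dep x ≤ t`.
(a) `dep x ≤ Λ`: there is a descendant `l` (possibly `x`) without children, `x = par^[dep l - dep x] l`; the pair
(`l`, `dep x`) determines `x`: at most `L * Λ` vertices.
(b) `dep x > Λ` and `x = par^[i] l` with `i < Λ` for some `l` without children: at most `L * Λ` vertices.
(c) otherwise `x` has a descendant `v` of depth `t ≥ 2 Λ` (go down child by child; all the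
vertices on the way have children since we are not in case (b)), `v` has a child,
`x = par^[i] v`, `i = t - dep x < Λ`. If `v` is good: at most `Λ * (number of the good v)`.
If not, let `j > 0` be minimal such that `par^[j] v` has at least two children (`0 < j < Λ`), and let
`u = par^[j - 1] v`. The vertex `v` is determined by `u`: the vertices from `u` down to `v`
(without `v`) have only one child, and `dep v` is the least multiple of `Λ` that is `≥ dep u`.
The pair (`u`, `i`) determines `x`: at most `Λ * U` vertices, where `U` is the number of the vertices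
`u ≠ r0` whose parent has another child. `U ≤ 2 (L - 1)`: let `c w` be the number of the children of `w`;
`∑ w, c w = n`, there are `n + 1 - L` vertices with `c w ≥ 1`, so
`∑ (c w ≥ 1), (c w - 1) = L - 1`, and `U = ∑ (c w ≥ 2), c w ≤ 2 ∑ (c w ≥ 2), (c w - 1)`.
-/

namespace Pool.Agent.Helper83.GD

open Finset

/-- the distance down to the next multiple -/
def cutJ (Λ D : ℕ) : ℕ := (Λ - D % Λ) % Λ

theorem cutJ_lt {Λ : ℕ} (hΛ : 0 < Λ) (D : ℕ) : cutJ Λ D < Λ := Nat.mod_lt _ hΛ

theorem cutJ_dvd {Λ : ℕ} (hΛ : 0 < Λ) (D : ℕ) : Λ ∣ D + cutJ Λ D := by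
  have h1 := Nat.div_add_mod D Λ
  have h2 := Nat.mod_lt D hΛ
  unfold cutJ
  rcases Nat.eq_zero_or_pos (D % Λ) with h | h
  · rw [h, Nat.sub_zero, Nat.mod_self, Nat.add_zero]
    exact Nat.dvd_of_mod_eq_zero h
  · rw [Nat.mod_eq_of_lt (by omega : Λ - D % Λ < Λ)]
    refine ⟨D / Λ + 1, ?_⟩
    rw [Nat.mul_add, Nat.mul_one]
    omega

theorem cutJ_eq {Λ : ℕ} (hΛ : 0 < Λ) {D s : ℕ} (hs : s < Λ) (h : Λ ∣ D + s) : cutJ Λ D = s := by
  have h1 := Nat.div_add_mod D Λ
  have h2 := Nat.mod_lt D hΛ
  have h3 : Λ ∣ D % Λ + s := by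
    have h4 : D + s = Λ * (D / Λ) + (D % Λ + s) := by omega
    rw [h4] at h
    exact (Nat.dvd_add_right (Nat.dvd_mul_right Λ _)).mp h
  obtain ⟨c, hc⟩ := h3
  have hc2 : c < 2 := by
    by_contra hcc
    have : Λ * 2 ≤ Λ * c := Nat.mul_le_mul_left _ (by omega)
    omega
  unfold cutJ
  have hcases : c = 0 ∨ c = 1 := by omega
  rcases hcases with h0 | h0
  · subst h0
    rw [Nat.mul_zero] at hc
    have h5 : D % Λ = 0 := by omega
    rw [h5, Nat.sub_zero, Nat.mod_self]
    omega
  · subst h0
    rw [Nat.mul_one] at hc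
    have h5 : Λ - D % Λ = s := by omega
    rw [h5, Nat.mod_eq_of_lt hs]

section
variable {V : Type} {r0 : V} {par : V → V} {dep : V → ℕ}

/-- going down -/
theorem cut_down (hdp : ∀ x, x ≠ r0 → dep (par x) + 1 = dep x) (x : V) (m : ℕ) :
    (∃ j l, j < m ∧ (∀ y, y ≠ r0 → par y ≠ l) ∧ par^[j] l = x ∧ dep l = dep x + j) ∨
      ∃ v, par^[m] v = x ∧ dep v = dep x + m := by
  induction m with
  | zero => exact Or.inr ⟨x, rfl, rfl⟩
  | succ m ih =>
    rcases ih with ⟨j, l, h1, h2, h3, h4⟩ | ⟨v, h1, h2⟩
    · exact Or.inl ⟨j, l, by omega, h2, h3, h4⟩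
    · by_cases hv : ∀ y, y ≠ r0 → par y ≠ v
      · exact Or.inl ⟨m, v, by omega, hv, h1, h2⟩
      · push Not at hv
        obtain ⟨y, hy0, hy⟩ := hv
        refine Or.inr ⟨y, ?_, ?_⟩
        · rw [Function.iterate_succ_apply, hy, h1]
        · have := hdp y hy0
          rw [hy] at this
          omega

theorem cut_leaf [Fintype V] (hdp : ∀ x, x ≠ r0 → dep (par x) + 1 = dep x) (x : V) :
    ∃ j l, (∀ y, y ≠ r0 → par y ≠ l) ∧ par^[j] l = x ∧ dep l = dep x + j := by
  rcases cut_down hdp x ((univ.sup dep) + 1) with ⟨j, l, -, h2, h3, h4⟩ | ⟨v, -, h2⟩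
  · exact ⟨j, l, h2, h3, h4⟩
  · exfalso
    have : dep v ≤ univ.sup dep := Finset.le_sup (mem_univ v)
    omega

open Classical in
/-- a child -/
noncomputable def cutCh (r0 : V) (par : V → V) (w : V) : V :=
  if h : ∃ y, y ≠ r0 ∧ par y = w then h.choose else w

theorem cutCh_eq {w y : V} (hy : y ≠ r0) (hw : par y = w)
    (hu : ∀ a b, a ≠ r0 → b ≠ r0 → par a = w → par b = w → a = b) : cutCh r0 par w = y := by
  have h : ∃ y, y ≠ r0 ∧ par y = w := ⟨y, hy, hw⟩
  unfold cutCh
  rw [dif_pos h]
  exact hu _ _ h.choose_spec.1 hy h.choose_spec.2 hw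

theorem cut_up (hd0 : dep r0 = 0) (hdp : ∀ x, x ≠ r0 → dep (par x) + 1 = dep x) (v : V) (j : ℕ)
    (hj : j ≤ dep v)
    (hu : ∀ s, 0 < s → s < j → ∀ a b, a ≠ r0 → b ≠ r0 → par a = par^[s] v → par b = par^[s] v → a = b) :
    ∀ s, s + 1 ≤ j → (cutCh r0 par)^[s] (par^[s] v) = v := by
  intro s
  induction s with
  | zero => intro _; rfl
  | succ s ih =>
    intro hs
    have h1 : dep (par^[s] v) + s = dep v := seg_dep r0 par dep hd0 hdp v s (by omega)
    have h2 : par^[s] v ≠ r0 := by
      intro h
      rw [h, hd0] at h1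
      omega
    have h3 : cutCh r0 par (par^[s + 1] v) = par^[s] v := by
      refine cutCh_eq h2 ?_ (hu (s + 1) (by omega) (by omega))
      rw [Function.iterate_succ_apply']
    rw [Function.iterate_succ_apply, h3]
    exact ih (by omega)

end

open Classical in
/-- the vertices with a sibling -/
theorem cut_sib (V : Type) [Fintype V] (n : ℕ) (hn : Fintype.card V = n + 1) (r0 : V)
    (par : V → V) :
    (univ.filter fun u => u ≠ r0 ∧ ∃ u', u' ≠ r0 ∧ u' ≠ u ∧ par u' = par u).card ≤
      2 * (univ.filter fun x => ∀ y, y ≠ r0 → par y ≠ x).card := by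
  set c : V → ℕ := fun w => (univ.filter fun y => y ≠ r0 ∧ par y = w).card with hc
  have h1 : ∑ w, c w = n := by
    have h2 : (univ.filter fun y => y ≠ r0).card = n := by
      rw [filter_ne', card_erase_of_mem (mem_univ _), card_univ, hn]
      rfl
    rw [← h2, card_eq_sum_card_fiberwise (f := par) (t := univ) (fun _ _ => mem_coe.mpr (mem_univ _))]
    refine sum_congr rfl fun w _ => ?_
    rw [hc]
    simp only
    rw [filter_filter]
  have h3 : (univ.filter fun u => u ≠ r0 ∧ ∃ u', u' ≠ r0 ∧ u' ≠ u ∧ par u' = par u).card =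
      ∑ w, if 2 ≤ c w then c w else 0 := by
    rw [card_eq_sum_card_fiberwise (f := par) (t := univ) (fun _ _ => mem_coe.mpr (mem_univ _))]
    refine sum_congr rfl fun w _ => ?_
    rw [filter_filter]
    split_ifs with h
    · rw [hc]
      simp only
      congr 1
      ext u
      simp only [mem_filter, mem_univ, true_and]
      constructor
      · rintro ⟨⟨h4, -⟩, h5⟩
        exact ⟨h4, h5⟩
      · rintro ⟨h4, h5⟩
        refine ⟨⟨h4, ?_⟩, h5⟩
        have h6 : 1 < (univ.filter fun y => y ≠ r0 ∧ par y = w).card := h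
        obtain ⟨a, ha, hau⟩ := exists_mem_ne h6 u
        rw [mem_filter] at ha
        exact ⟨a, ha.2.1, hau, by rw [ha.2.2, h5]⟩
    · rw [card_eq_zero, filter_eq_empty_iff]
      rintro u - ⟨⟨h4, u', h5, h6, h7⟩, h8⟩
      apply h
      have : 1 < (univ.filter fun y => y ≠ r0 ∧ par y = w).card := by
        rw [one_lt_card]
        exact ⟨u', by simp [h5, h7, h8], u, by simp [h4, h8], h6⟩
      exact this
  have h4 : (univ.filter fun x => ∀ y, y ≠ r0 → par y ≠ x).card = ∑ w, if c w = 0 then 1 else 0 := by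
    rw [card_filter]
    refine sum_congr rfl fun w _ => ?_
    congr 1
    rw [hc, eq_iff_iff]
    simp only [card_eq_zero, filter_eq_empty_iff, mem_univ, forall_const, not_and]
  rw [h3, h4]
  have h5 : ∑ w, (if 2 ≤ c w then c w else 0) + ∑ _w : V, 2 ≤
      ∑ w, 2 * c w + 2 * ∑ w, if c w = 0 then 1 else 0 := by
    rw [mul_sum, ← sum_add_distrib, ← sum_add_distrib]
    refine sum_le_sum fun w _ => ?_
    split_ifs <;> omega
  rw [← mul_sum, h1, sum_const, card_univ, hn, smul_eq_mul] at h5
  omega

open Classical in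
theorem cut_count (V : Type) [Fintype V] (n : ℕ) (hn : Fintype.card V = n + 1) (r0 : V)
    (par : V → V) (dep : V → ℕ) (hd0 : dep r0 = 0)
    (hdp : ∀ x, x ≠ r0 → dep (par x) + 1 = dep x) (Λ : ℕ) (hΛ : 0 < Λ) :
    n ≤ Λ * (univ.filter fun v => IsGood r0 par dep Λ v).card +
      4 * Λ * (univ.filter fun x => ∀ y, y ≠ r0 → par y ≠ x).card := by
  set LL := univ.filter fun x => ∀ y, y ≠ r0 → par y ≠ x with hLL
  set GG := univ.filter fun v => IsGood r0 par dep Λ v with hGG
  set UU := univ.filter fun u => u ≠ r0 ∧ ∃ u', u' ≠ r0 ∧ u' ≠ u ∧ par u' = par u with hUU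
  set S1 := (LL ×ˢ range Λ).image fun p => par^[p.2] p.1 with hS1
  set S2 := (LL ×ˢ range Λ).image fun p => par^[dep p.1 - (p.2 + 1)] p.1 with hS2
  set S3 := (GG ×ˢ range Λ).image fun p => par^[p.2] p.1 with hS3
  set S4 := (UU ×ˢ range Λ).image fun p => par^[p.2] ((cutCh r0 par)^[cutJ Λ (dep p.1)] p.1) with hS4
  have hU := cut_sib V n hn r0 par
  rw [← hUU, ← hLL] at hU
  have hsub : univ.erase r0 ⊆ S1 ∪ S2 ∪ S3 ∪ S4 := by
    intro x hx
    rw [mem_erase] at hx
    have hx0 := hx.1
    have hdx := hdp x hx0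
    simp only [mem_union]
    rcases cut_down hdp x (cutJ Λ (dep x)) with ⟨j, l, h1, h2, h3, h4⟩ | ⟨v, h1, h2⟩
    · have := cutJ_lt hΛ (dep x)
      refine Or.inl (Or.inl (Or.inl (mem_image.mpr ⟨(l, j), ?_, h3⟩)))
      rw [mem_product, hLL, mem_filter, mem_range]
      exact ⟨⟨mem_univ _, h2⟩, by simp only; omega⟩
    · by_cases hD : dep x ≤ Λ
      · obtain ⟨j, l, h3, h4, h5⟩ := cut_leaf hdp x
        refine Or.inl (Or.inl (Or.inr (mem_image.mpr ⟨(l, dep x - 1), ?_, ?_⟩)))
        · rw [mem_product, hLL, mem_filter, mem_range]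
          exact ⟨⟨mem_univ _, h3⟩, by simp only; omega⟩
        · simp only
          have : dep l - (dep x - 1 + 1) = j := by omega
          rw [this]
          exact h4
      · push Not at hD
        have hlt := cutJ_lt hΛ (dep x)
        have hdv : Λ ∣ dep v := by rw [h2]; exact cutJ_dvd hΛ (dep x)
        have h2Λ : 2 * Λ ≤ dep v := by
          obtain ⟨q, hq⟩ := hdv
          have hq2 : 2 ≤ q := by
            by_contra hq2
            have : Λ * q ≤ Λ * 1 := Nat.mul_le_mul_left _ (by omega)
            omega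
          calc 2 * Λ = Λ * 2 := Nat.mul_comm _ _
            _ ≤ Λ * q := Nat.mul_le_mul_left _ hq2
            _ = dep v := hq.symm
        have hv0 : v ≠ r0 := by
          intro h
          rw [h, hd0] at h2Λ
          omega
        by_cases hch : ∃ y, y ≠ r0 ∧ par y = v
        · by_cases hgood : IsGood r0 par dep Λ v
          · refine Or.inl (Or.inr (mem_image.mpr ⟨(v, cutJ Λ (dep x)), ?_, h1⟩))
            rw [mem_product, hGG, mem_filter, mem_range]
            exact ⟨⟨mem_univ _, hgood⟩, hlt⟩
          · have hex : ∃ i, 0 < i ∧ i < Λ ∧ ∃ y y', y ≠ r0 ∧ y' ≠ r0 ∧ par y = par^[i] v ∧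
                par y' = par^[i] v ∧ y ≠ y' := by
              by_contra hno
              apply hgood
              refine ⟨hv0, hdv, h2Λ, hch, fun i hi0 hi y y' hy hy' e e' => ?_⟩
              by_contra hne
              exact hno ⟨i, hi0, hi, y, y', hy, hy', e, e', hne⟩
            obtain ⟨hj0, hjΛ, y, y', hy, hy', e, e', hne⟩ := Nat.find_spec hex
            have hmin := fun s => @Nat.find_min _ _ hex s
            set j := Nat.find hex with hj
            have hdj : dep (par^[j - 1] v) + (j - 1) = dep v :=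
              seg_dep r0 par dep hd0 hdp v (j - 1) (by omega)
            have hu0 : par^[j - 1] v ≠ r0 := by
              intro h
              rw [h, hd0] at hdj
              omega
            have hpu : par (par^[j - 1] v) = par^[j] v := by
              have : j = (j - 1) + 1 := by omega
              conv_rhs => rw [this, Function.iterate_succ_apply']
            have hcj : cutJ Λ (dep (par^[j - 1] v)) = j - 1 :=
              cutJ_eq hΛ (by omega) (by rw [hdj]; exact hdv)
            have hup : (cutCh r0 par)^[j - 1] (par^[j - 1] v) = v := by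
              refine cut_up hd0 hdp v j (by omega) ?_ (j - 1) (by omega)
              intro s hs0 hsj a b ha hb e1 e2
              by_contra hab
              exact hmin s hsj ⟨hs0, by omega, a, b, ha, hb, e1, e2, hab⟩
            refine Or.inr (mem_image.mpr ⟨(par^[j - 1] v, cutJ Λ (dep x)), ?_, ?_⟩)
            · rw [mem_product, hUU, mem_filter, mem_range]
              refine ⟨⟨mem_univ _, hu0, ?_⟩, hlt⟩
              by_cases hyu : y = par^[j - 1] v
              · exact ⟨y', hy', fun h => hne (by rw [hyu, h]), by rw [hpu, e']⟩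
              · exact ⟨y, hy, hyu, by rw [hpu, e]⟩
            · simp only
              rw [hcj, hup]
              exact h1
        · refine Or.inl (Or.inl (Or.inl (mem_image.mpr ⟨(v, cutJ Λ (dep x)), ?_, h1⟩)))
          rw [mem_product, hLL, mem_filter, mem_range]
          refine ⟨⟨mem_univ _, fun y hy hp => hch ⟨y, hy, hp⟩⟩, hlt⟩
  have hcard := card_le_card hsub
  rw [card_erase_of_mem (mem_univ _), card_univ, hn] at hcard
  have c1 : S1.card ≤ LL.card * Λ := by
    refine card_image_le.trans ?_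
    rw [card_product, card_range]
  have c2 : S2.card ≤ LL.card * Λ := by
    refine card_image_le.trans ?_
    rw [card_product, card_range]
  have c3 : S3.card ≤ GG.card * Λ := by
    refine card_image_le.trans ?_
    rw [card_product, card_range]
  have c4 : S4.card ≤ UU.card * Λ := by
    refine card_image_le.trans ?_
    rw [card_product, card_range]
  have c5 : UU.card * Λ ≤ 2 * LL.card * Λ := Nat.mul_le_mul_right _ hU
  have c6 : (S1 ∪ S2 ∪ S3 ∪ S4).card ≤ S1.card + S2.card + S3.card + S4.card := by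
    refine (card_union_le _ _).trans ?_
    have := card_union_le (S1 ∪ S2) S3
    have := card_union_le S1 S2
    omega
  have e1 : 2 * LL.card * Λ = 2 * (LL.card * Λ) := by ring
  have e2 : 4 * Λ * LL.card = 4 * (LL.card * Λ) := by ring
  have e3 : Λ * GG.card = GG.card * Λ := Nat.mul_comm _ _
  rw [e2, e3]
  rw [e1] at c5
  have hcard' : n ≤ (S1 ∪ S2 ∪ S3 ∪ S4).card := by
    rw [Nat.add_sub_cancel] at hcard
    exact hcard
  omega

end Pool.Agent.Helper83.GD
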