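import Pool.Agent.Helper83.GD.Defs
import Pool.Agent.Helper83.GH.Couple0

/-!
# GHD-CYC: a labelling in `ZMod n` gives a decomposition

Proof. `decomposes_of_inj` (see its use in `GH/Couple0.lean`) with `I = R = C = ZMod n`, the set `B` of the
vertices of odd depth, `row k a = k + f a`, `col k v = k + f v`. For an edge `a v` (`a` of even
depth) one of the two ends is the parent of the other one (`hadj`), and `f a - f v = res x` for
this lower end `x`. If two edges of the copies `k`, `k'` are equal, then `res x = res x'`, so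
`x = x'`, so the edges are equal and `k = k'`.
-/

namespace Pool.Agent.Helper83.GD

open Finset Pool.Agent.Helper19.GH

theorem cyc (V : Type) [Fintype V] [DecidableEq V] (T : SimpleGraph V) (hT : T.IsTree) (n : ℕ)
    (hn : Fintype.card V = n + 1) (hn1 : 1 ≤ n) (r0 : V) (par : V → V) (dep : V → ℕ)
    (hdp : ∀ x, x ≠ r0 → dep (par x) + 1 = dep x)
    (hadj : ∀ u w, T.Adj u w → (u ≠ r0 ∧ par u = w) ∨ (w ≠ r0 ∧ par w = u))
    (f : V → ZMod n) (hA : ∀ x y, Even (dep x) → Even (dep y) → f x = f y → x = y)
    (hB : ∀ x y, ¬ Even (dep x) → ¬ Even (dep y) → f x = f y → x = y)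
    (hr : ∀ x y, x ≠ r0 → y ≠ r0 → res par dep f x = res par dep f y → x = y) :
    Decomposes T (completeBipartiteGraph (Fin n) (Fin n)) := by
  classical
  have : NeZero n := ⟨by omega⟩
  have hpar : ∀ x, x ≠ r0 → (Even (dep x) ↔ ¬ Even (dep (par x))) := by
    intro x hx
    rw [← hdp x hx, Nat.even_add_one]
  have hBB : ∀ u w, T.Adj u w → (u ∈ (univ.filter fun x => ¬ Even (dep x)) ↔
      w ∉ (univ.filter fun x => ¬ Even (dep x))) := by
    intro u w h
    simp only [Finset.mem_filter, Finset.mem_univ, true_and, not_not]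
    rcases hadj u w h with ⟨h1, h2⟩ | ⟨h1, h2⟩
    · have := hpar u h1
      rw [h2] at this
      tauto
    · have := hpar w h1
      rw [h2] at this
      tauto
  refine Pool.Agent.Helper83.GH.decomposes_of_inj T hT n hn (univ.filter fun x => ¬ Even (dep x)) hBB
    (I := ZMod n) (R := ZMod n) (C := ZMod n) (ZMod.card n) (ZMod.card n) (ZMod.card n)
    (fun k a => k + f a) (fun k v => k + f v) ?_ ?_ ?_
  · intro k a a' ha ha' h
    simp only [Finset.mem_filter, Finset.mem_univ, true_and, not_not] at ha ha'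
    exact hA a a' ha ha' (add_left_cancel h)
  · intro k a a' ha ha' h
    simp only [Finset.mem_filter, Finset.mem_univ, true_and] at ha ha'
    exact hB a a' ha ha' (add_left_cancel h)
  · intro k k' a a' v v' hav hav' ha ha' h h'
    have hv : ¬ Even (dep v) := by
      have := (hBB a v hav).not.1 ha
      simpa using this
    have hv' : ¬ Even (dep v') := by
      have := (hBB a' v' hav').not.1 ha'
      simpa using this
    simp only [Finset.mem_filter, Finset.mem_univ, true_and, not_not] at ha ha'
    have hd : f a - f v = f a' - f v' := by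
      have h1 : (k + f a) - (k + f v) = (k' + f a') - (k' + f v') := by rw [h, h']
      simpa using h1
    have res1 : ∀ a v, Even (dep a) → ¬ Even (dep v) → T.Adj a v →
        ∃ x, x ≠ r0 ∧ res par dep f x = f a - f v ∧
          ((x = a ∧ par x = v) ∨ (x = v ∧ par x = a)) := by
      intro a v ha hv hav
      rcases hadj a v hav with ⟨h1, h2⟩ | ⟨h1, h2⟩
      · exact ⟨a, h1, by unfold res; rw [if_pos ha, h2], Or.inl ⟨rfl, h2⟩⟩
      · exact ⟨v, h1, by unfold res; rw [if_neg hv, h2], Or.inr ⟨rfl, h2⟩⟩
    obtain ⟨x, hx0, hxr, hx⟩ := res1 a v ha hv hav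
    obtain ⟨x', hx0', hxr', hx'⟩ := res1 a' v' ha' hv' hav'
    have hxx : x = x' := hr x x' hx0 hx0' (by rw [hxr, hxr', hd])
    subst hxx
    have hres : a = a' ∧ v = v' := by
      rcases hx with ⟨h1, h2⟩ | ⟨h1, h2⟩ <;> rcases hx' with ⟨h3, h4⟩ | ⟨h3, h4⟩
      · exact ⟨h1.symm.trans h3, h2.symm.trans h4⟩
      · exact absurd (by rw [← h3, h1]; exact ha) hv'
      · exact absurd (by rw [← h1, h3]; exact ha') hv
      · exact ⟨h2.symm.trans h4, h1.symm.trans h3⟩
    obtain ⟨e1, e2⟩ := hres
    subst e1
    subst e2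
    exact ⟨add_right_cancel h, rfl, rfl⟩

end Pool.Agent.Helper83.GD
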