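import Mathlib

/-!
# GHD: trees with few leaves, definitions

Paper proof: /team-store/h83_GHD_README.md
-/

namespace Pool.Agent.Helper83.GD

open Finset

/-! ### rooted trees: `r0` root, `par` parent map, `dep` depth -/

/-- The difference of the labels of the ends of the edge from `x` to its parent (row label minus
column label; rows are the vertices of even depth). -/
def res {V : Type} (par : V → V) (dep : V → ℕ) {n : ℕ} (f : V → ZMod n) (x : V) : ZMod n :=
  if Even (dep x) then f x - f (par x) else f (par x) - f x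

/-- `v` is the lower end of a module: a path of `Λ` edges upwards whose interior vertices have
exactly one child; `v` itself has a child. -/
def IsGood {V : Type} (r0 : V) (par : V → V) (dep : V → ℕ) (Λ : ℕ) (v : V) : Prop :=
  v ≠ r0 ∧ Λ ∣ dep v ∧ 2 * Λ ≤ dep v ∧ (∃ y, y ≠ r0 ∧ par y = v) ∧
    ∀ i, 0 < i → i < Λ → ∀ y y', y ≠ r0 → y' ≠ r0 → par y = par^[i] v → par y' = par^[i] v → y = y'

/-! ### numbers -/

/-- The numbers: `n` edges, `N = n / 64`, `r` modules of `2 * (k + 24)` edges, `mc` edges of the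
core, `μ` dominoes are used before the last step. -/
structure Par (n N k r mc μ : ℕ) : Prop where
  hN : 64 * N ≤ n
  hN' : n < 64 * N + 64
  hn : n = mc + 2 * (r * k) + 48 * r
  hk : k % 4 = 2
  hk' : 100 ≤ k
  hkN : 2000 * k ≤ N
  hrN : 2000 * r ≤ N
  hmr : mc ≤ r
  hμ : μ + r * k + r = n / 2 + 1

/-- The dominoes `{q, q + 1}`: the set of their first elements. If `n` is odd, `52 * N` is the only
number of `[0, n)` which is not covered. -/
noncomputable def dom (n N : ℕ) : Finset ℤ :=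
  (Ico (0 : ℤ) (n : ℤ)).filter fun x => (n % 2 = 0 ∧ x % 2 = 0) ∨
    (n % 2 = 1 ∧ ((x < 52 * N ∧ x % 2 = 0) ∨ (52 * N < x ∧ x % 2 = 1)))

/-- First label of the tile of the module `i` (shifted by `n` in the first half of the modules). -/
def xh (n k i : ℕ) : ℕ := i * (k + 2) + if 4 * (i * (k + 2)) < n then n else 0

/-- The number of plain vertices of the first connector of the module `i`. -/
def pp (n k i : ℕ) : ℕ := xh n k i % 4

/-- The labels of the rows of the module `i`: position `j` is the vertex `2 * j` steps above the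
lower end. `p` is `pp n k i`. Positions `1 … p + 3`: first connector, `p + 4 … p + 4 + k`: tile,
`p + 5 + k … k + 13`: second connector, `k + 14 … k + 16`: pool, `k + 17 … k + 23`: third
connector. -/
def LA (n k : ℕ) (gv gu f δ₁ δ M₁ M₂ M₃ : ℕ → ℤ) (i j : ℕ) : ℤ :=
  if j = 0 then gv i
  else if j = 1 then (gv i + M₁ i) / 2
  else if j ≤ pp n k i + 2 then M₁ i + ((j : ℤ) - 2)
  else if j = pp n k i + 3 then (M₁ i + pp n k i + xh n k i) / 2
  else if j ≤ pp n k i + 4 + k then xh n k i + ((j : ℤ) - (pp n k i + 4))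
  else if j = pp n k i + 5 + k then (xh n k i + k + M₂ i) / 2
  else if j ≤ k + 12 then M₂ i + ((j : ℤ) - (pp n k i + 6 + k))
  else if j = k + 13 then (M₂ i + (6 - pp n k i) + f i) / 2
  else if j ≤ k + 16 then f i + ((j : ℤ) - (k + 14))
  else if j = k + 17 then (f i + 2 + M₃ i) / 2
  else if j = k + 18 then M₃ i
  else if j = k + 19 then M₃ i + δ₁ i
  else if j ≤ k + 22 then M₃ i + δ i + ((j : ℤ) - (k + 20))
  else if j = k + 23 then (M₃ i + δ i + 2 + gu i) / 2
  else gu i

/-- The labels of the interior rows of a connector. -/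
def Sset (x m y : ℤ) (W : Finset ℤ) (w : ℤ) : Finset ℤ :=
  insert ((x + m) / 2) (insert ((m + w + y) / 2) (W.image fun t => m + t))

/-- The first columns of the pairs of the module `i` (`γ` modules contain cherries). -/
def pairPos (n k γ i a : ℕ) : Prop :=
  a = 0 ∨ a = pp n k i + 2 ∨ a = pp n k i + 4 + k ∨ a = k + 12 ∨ a = k + 16 ∨ a = k + 22 ∨
    (a = k + 18 ∧ γ ≤ i)

instance (n k γ i a : ℕ) : Decidable (pairPos n k γ i a) := by
  unfold pairPos
  infer_instance

/-- The plain columns of the module `i`. -/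
def plainPos (n k i a : ℕ) : Prop :=
  (2 ≤ a ∧ a < pp n k i + 2) ∨ (pp n k i + 6 + k ≤ a ∧ a < k + 12) ∨ a = k + 15 ∨ a = k + 20 ∨
    a = k + 21

instance (n k i a : ℕ) : Decidable (plainPos n k i a) := by
  unfold plainPos
  infer_instance

/-- The result for the modules: labels `a i j` of the rows (`j ≤ k + 24`) and `b i j` of the columns
(`j < k + 24`); the column `j` is between the rows `j` and `j + 1`. -/
structure Mod (n k r : ℕ) (gv gu : ℕ → ℤ) (CA CB CR : Finset ℤ) (a b : ℕ → ℕ → ℤ) : Prop where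
  h0 : ∀ i < r, a i 0 = gv i
  hK : ∀ i < r, a i (k + 24) = gu i
  hA : ∀ i < r, ∀ i' < r, ∀ j j', 0 < j → j < k + 24 → 0 < j' → j' < k + 24 →
    (n : ℤ) ∣ a i j - a i' j' → i = i' ∧ j = j'
  hAC : ∀ i < r, ∀ j, 0 < j → j < k + 24 → ∀ x ∈ CA, ¬ (n : ℤ) ∣ a i j - x
  hB : ∀ i < r, ∀ i' < r, ∀ j < k + 24, ∀ j' < k + 24, (n : ℤ) ∣ b i j - b i' j' → i = i' ∧ j = j'
  hBC : ∀ i < r, ∀ j < k + 24, ∀ x ∈ CB, ¬ (n : ℤ) ∣ b i j - x
  hR : ∀ i < r, ∀ j < k + 24, ∀ s < 2, 0 ≤ a i (j + s) - b i j ∧ a i (j + s) - b i j < n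
  hRi : ∀ i < r, ∀ i' < r, ∀ j < k + 24, ∀ j' < k + 24, ∀ s < 2, ∀ s' < 2,
    a i (j + s) - b i j = a i' (j' + s') - b i' j' → i = i' ∧ j = j' ∧ s = s'
  hRC : ∀ i < r, ∀ j < k + 24, ∀ s < 2, a i (j + s) - b i j ∉ CR

end Pool.Agent.Helper83.GD
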