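import Pool.Agent.Helper83.GD.Defs

/-!
# GHD: definitions for the modules

Paper proof: /team-store/h83_GHD_README.md
-/

namespace Pool.Agent.Helper83.GD

open Finset

/-- The positions of the rows of the three connectors of a module. -/
def connPos (n k i j : ℕ) : Prop :=
  (1 ≤ j ∧ j ≤ pp n k i + 3) ∨ (pp n k i + 5 + k ≤ j ∧ j ≤ k + 13) ∨ (k + 17 ≤ j ∧ j ≤ k + 23)

/-- The data of the modules before the choice of the middle labels. -/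
structure Inp (n N k r γ : ℕ) (gv gu f δ₁ δ : ℕ → ℤ) (e : ℕ → ℕ → ℤ) : Prop where
  hγ : γ ≤ r
  hgv : ∀ i < r, (4 : ℤ) ∣ gv i ∧ 40 * (N : ℤ) ≤ gv i ∧ gv i ≤ 56 * N
  hgu : ∀ i < r, (4 : ℤ) ∣ gu i ∧ 40 * (N : ℤ) ≤ gu i ∧ gu i ≤ 56 * N
  hf : ∀ i < r, (4 : ℤ) ∣ f i ∧ (r : ℤ) * (k + 2) < f i ∧ f i + 2 < n
  hfi : ∀ i < r, ∀ j < r, f i = f j → i = j
  hδ : ∀ i < r, (4 : ℤ) ∣ δ₁ i ∧ (4 : ℤ) ∣ δ i ∧ δ₁ i ≠ 0 ∧ δ i ≠ 0 ∧ δ i ≠ δ₁ i ∧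
    -(4 * (N : ℤ)) ≤ δ₁ i ∧ δ₁ i ≤ 4 * N ∧ -(8 * (N : ℤ)) ≤ δ i ∧ δ i ≤ 8 * N ∧ f i ≠ gu i + δ i
  heδ : ∀ i < γ, δ₁ i = e i 1 - e i 0 ∧ δ i = δ₁ i + e i 3 - e i 2
  he : ∀ i < γ, ∀ a < 4, 30 * (N : ℤ) + 1 ≤ e i a ∧ e i a ≤ 34 * N + 1
  hei : ∀ i < γ, ∀ i' < γ, ∀ a < 4, ∀ a' < 4, e i a = e i' a' → i = i' ∧ a = a'
  hδ' : ∀ i, γ ≤ i → δ i = 2 * δ₁ i ∧ (δ₁ i = 4 ∨ δ₁ i = -4)

/-- The labels of the interior rows of the connector `τ` of the module `i`. -/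
noncomputable def SS (n k : ℕ) (gv gu f δ₁ δ M₁ M₂ M₃ : ℕ → ℤ) (i τ : ℕ) : Finset ℤ :=
  if τ = 0 then Sset (gv i) (M₁ i) (xh n k i) (Icc 0 (pp n k i : ℤ)) (pp n k i)
  else if τ = 1 then
    Sset (xh n k i + k) (M₂ i) (f i) (Icc 0 (6 - pp n k i : ℤ)) (6 - pp n k i)
  else Sset (f i + 2) (M₃ i) (gu i) {0, δ₁ i, δ i, δ i + 1, δ i + 2} (δ i + 2)

/-- The labels of the two columns with the cherries. -/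
def chB (δ₁ M₃ : ℕ → ℤ) (e : ℕ → ℕ → ℤ) (i s : ℕ) : ℤ :=
  if s = 0 then M₃ i - e i 0 else M₃ i + δ₁ i - e i 2

/-- The choice of the middle labels `M₁`, `M₂`, `M₃`. -/
structure Mid (n N k r γ : ℕ) (gv gu f δ₁ δ M₁ M₂ M₃ : ℕ → ℤ) (e : ℕ → ℕ → ℤ)
    (FA FB : Finset ℤ) : Prop where
  hM₁ : ∀ i < r, (4 : ℤ) ∣ M₁ i - gv i
  hM₂ : ∀ i < r, (4 : ℤ) ∣ M₂ i - xh n k i - k
  hM₃ : ∀ i < r, (4 : ℤ) ∣ M₃ i - f i - 2 ∧ 44 * (N : ℤ) ≤ M₃ i ∧ M₃ i ≤ 50 * N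
  hz : ∀ i < r, 4 * (i * (k + 2)) < n →
    41 * (N : ℤ) ≤ M₁ i ∧ M₁ i ≤ 47 * N ∧ 41 * (N : ℤ) ≤ M₂ i ∧ M₂ i ≤ 47 * N
  hz' : ∀ i < r, n ≤ 4 * (i * (k + 2)) →
    49 * (N : ℤ) ≤ M₁ i ∧ M₁ i ≤ 55 * N ∧ 49 * (N : ℤ) ≤ M₂ i ∧ M₂ i ≤ 55 * N
  hS : ∀ i < r, ∀ τ < 3, Disjoint (SS n k gv gu f δ₁ δ M₁ M₂ M₃ i τ) FA
  hc0 : ∀ i < r, (SS n k gv gu f δ₁ δ M₁ M₂ M₃ i 0).card = pp n k i + 3
  hc1 : ∀ i < r, (SS n k gv gu f δ₁ δ M₁ M₂ M₃ i 1).card = 9 - pp n k i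
  hc2 : ∀ i < r, (SS n k gv gu f δ₁ δ M₁ M₂ M₃ i 2).card = 7
  hSS : ∀ i < r, ∀ τ < 3, ∀ i' < r, ∀ τ' < 3, (i ≠ i' ∨ τ ≠ τ') →
    Disjoint (SS n k gv gu f δ₁ δ M₁ M₂ M₃ i τ) (SS n k gv gu f δ₁ δ M₁ M₂ M₃ i' τ')
  hch : ∀ i < γ, ∀ s < 2, chB δ₁ M₃ e i s ∉ FB
  hchi : ∀ i < γ, ∀ i' < γ, ∀ s < 2, ∀ s' < 2, chB δ₁ M₃ e i s = chB δ₁ M₃ e i' s' →
    i = i' ∧ s = s'

/-- The first elements of the dominoes of a pair of columns (`e ≠ 0`) or a plain column (`e = 0`). -/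
def Dset (e q : ℤ) : Finset ℤ := {q, q + e}

/-- The labels of a pair of columns (`e ≠ 0`) or a plain column (`e = 0`). -/
def Bset (x e q : ℤ) : Finset ℤ := if e = 0 then {x - q} else {x - q, x + e - q - 1}

/-- The positions of the pairs and of the plain columns. -/
def opPos (n k γ i j : ℕ) : Prop := pairPos n k γ i j ∨ plainPos n k i j

instance (n k γ i j : ℕ) : Decidable (opPos n k γ i j) := by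
  unfold opPos
  infer_instance

/-- The choice of the dominoes `q i j` of the pairs and plain columns; `a i j` are the labels of the
rows and `E i j` the differences. -/
structure OpsOK (n N k r γ : ℕ) (a E q : ℕ → ℕ → ℤ) (FB FD : Finset ℤ) : Prop where
  hpair : ∀ i < r, ∀ j, pairPos n k γ i j → a i (j + 1) = a i j + E i j ∧
    a i (j + 2) = a i j + 2 * E i j ∧ (2 : ℤ) ∣ E i j ∧ E i j ≠ 0
  hplain : ∀ i < r, ∀ j, plainPos n k i j → a i (j + 1) = a i j + 1 ∧ E i j = 0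
  hq : ∀ i < r, ∀ j, opPos n k γ i j → (2 : ℤ) ∣ q i j ∧ 0 ≤ q i j ∧ q i j ≤ 51 * N ∧
    0 ≤ q i j + E i j ∧ q i j + E i j ≤ 51 * N ∧ Disjoint (Dset (E i j) (q i j)) FD
  hb : ∀ i < r, ∀ j, opPos n k γ i j → Disjoint (Bset (a i j) (E i j) (q i j)) FB ∧
    ∀ b ∈ Bset (a i j) (E i j) (q i j), (N : ℤ) ≤ b ∧ b ≤ 31 * N
  hqq : ∀ i < r, ∀ i' < r, ∀ j j', opPos n k γ i j → opPos n k γ i' j' → (i ≠ i' ∨ j ≠ j') →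
    Disjoint (Dset (E i j) (q i j)) (Dset (E i' j') (q i' j'))
  hbb : ∀ i < r, ∀ i' < r, ∀ j j', opPos n k γ i j → opPos n k γ i' j' → (i ≠ i' ∨ j ≠ j') →
    Disjoint (Bset (a i j) (E i j) (q i j)) (Bset (a i' j') (E i' j') (q i' j'))

/-- The dominoes which are left for the tiles and the pool. -/
structure Late (n N k r γ μ : ℕ) (E q : ℕ → ℕ → ℤ) (D : Finset ℤ) (qs : ℤ) (t : ℕ → ℤ) : Prop where
  hd : ∀ j, j + 1 < r * (k + 1) → t j ∈ dom n N ∧ t j ∉ D ∧ t j ≠ qs ∧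
    ∀ i < r, ∀ j', opPos n k γ i j' → t j ∉ Dset (E i j') (q i j')
  hm : ∀ j j', j < j' → j' + 1 < r * (k + 1) → t j + 2 * ((j' : ℤ) - j) ≤ t j'
  hw : ∀ j, j + 1 < r * (k + 1) → 2 * (j : ℤ) ≤ t j ∧ t j ≤ 2 * j + 2 * μ + 1

/-- The labels of the rows of the tiles, the pool and the cherries. -/
structure Rows (n k r γ : ℕ) (a e : ℕ → ℕ → ℤ) (f δ₁ M₃ : ℕ → ℤ) : Prop where
  ht : ∀ i < r, ∀ u ≤ k, a i (pp n k i + 4 + u) = xh n k i + u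
  hp : ∀ i < r, ∀ s ≤ 2, a i (k + 14 + s) = f i + s
  h18 : ∀ i < γ, a i (k + 18) = M₃ i
  h19 : ∀ i < γ, a i (k + 19) = M₃ i + δ₁ i
  h20 : ∀ i < γ, a i (k + 20) = M₃ i + δ₁ i + e i 3 - e i 2
  hδ₁ : ∀ i < γ, δ₁ i = e i 1 - e i 0

/-- The label `b` and the residues `a i (j + s) - b`, `s < 2`, of the column `j` of the module `i`:
column of a pair, plain column, column with a cherry, pool column, last pool column, tile column. -/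
def Col (n k r γ : ℕ) (a E q e : ℕ → ℕ → ℤ) (f δ₁ M₃ : ℕ → ℤ) (qs : ℤ) (t : ℕ → ℤ) (i j : ℕ)
    (b : ℤ) : Prop :=
  (∃ j₀ h : ℕ, h < 2 ∧ pairPos n k γ i j₀ ∧ j = j₀ + h ∧
    b = a i j₀ + h * E i j₀ - q i j₀ - h ∧ ∀ s < 2, a i (j + s) - b = q i j₀ + s * E i j₀ + h) ∨
  (plainPos n k i j ∧ b = a i j - q i j ∧ ∀ s < 2, a i (j + s) - b = q i j + (s : ℕ)) ∨
  (∃ u < 2, i < γ ∧ j = k + 18 + u ∧ b = chB δ₁ M₃ e i u ∧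
    ∀ s < 2, a i (j + s) - b = e i (2 * u + s)) ∨
  (j = k + 14 ∧ i + 1 < r ∧ b = f i - t (i * (k + 1) + k) ∧
    ∀ s < 2, a i (j + s) - b = t (i * (k + 1) + k) + (s : ℕ)) ∨
  (j = k + 14 ∧ i + 1 = r ∧ b = f i - qs ∧ ∀ s < 2, a i (j + s) - b = qs + (s : ℕ)) ∨
  ∃ u < k, j = pp n k i + 4 + u ∧ b = xh n k i + u - t (i * (k + 1) + u) ∧
    ∀ s < 2, a i (j + s) - b = t (i * (k + 1) + u) + (s : ℕ)

end Pool.Agent.Helper83.GD
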