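import Pool.Agent.Helper83.GD.Defs

/-!
# GHD-ENUM: the dominoes

`dom n N` is `{0, 2, …, n - 2}` for even `n`, and `{0, 2, …, 52 N - 2} ∪ {52 N + 1, 52 N + 3, …, n - 2}` for odd
`n` (`n ≥ 64 N`, `52 N` is even). Rank: for `x ∈ dom n N` the number of the `y ∈ dom n N` with `y < x` is
`x / 2` (integer division).
`enum`: let `q` be the increasing enumeration of `Q` (`Finset.orderEmbOfFin`). Two different elements of
`dom n N` differ by at least 2. The number of the elements of `dom n N` below `q t` is at least `t`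
and at most `t + (n / 2 - Q.card)`, and it is `q t / 2`.
-/

namespace Pool.Agent.Helper83.GD

open Finset

theorem h55_mem_dom (n N : ℕ) (x : ℤ) : x ∈ dom n N ↔ (0 ≤ x ∧ x < n) ∧
    ((n % 2 = 0 ∧ x % 2 = 0) ∨
    (n % 2 = 1 ∧ ((x < 52 * N ∧ x % 2 = 0) ∨ (52 * N < x ∧ x % 2 = 1)))) := by
  unfold dom
  rw [Finset.mem_filter, Finset.mem_Ico]

theorem card_dom (n N : ℕ) (h : 64 * N ≤ n) : (dom n N).card = n / 2 := by
  have e : dom n N = (Finset.range (n / 2)).image
      (fun t : ℕ => if n % 2 = 1 ∧ 52 * N ≤ 2 * t then 2 * (t : ℤ) + 1 else 2 * (t : ℤ)) := by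
    ext x
    rw [h55_mem_dom, Finset.mem_image]
    constructor
    · rintro ⟨⟨h0, h1⟩, h2⟩
      refine ⟨(x / 2).toNat, ?_, ?_⟩
      · rw [Finset.mem_range]
        omega
      · split_ifs with h3
        · omega
        · omega
    · rintro ⟨t, ht, rfl⟩
      rw [Finset.mem_range] at ht
      split_ifs with h3
      · omega
      · omega
  rw [e, Finset.card_image_of_injective, Finset.card_range]
  intro t t' htt
  dsimp only at htt
  split_ifs at htt <;> omega

/-- The halves of different dominoes are different, and `52 * N` is not a half for odd `n`. -/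
theorem dom_half (n N : ℕ) (h : 64 * N ≤ n) (x y : ℤ) (hx : x ∈ dom n N) (hy : y ∈ dom n N)
    (s t : ℤ) (hs : s = 0 ∨ s = 1) (ht : t = 0 ∨ t = 1) (hxy : x + s = y + t) : x = y ∧ s = t := by
  rw [h55_mem_dom] at hx hy
  omega

theorem dom_range (n N : ℕ) (h : 64 * N ≤ n) (x : ℤ) (hx : x ∈ dom n N) : 0 ≤ x ∧ x + 1 < n ∧
    (n % 2 = 1 → x ≠ 52 * N ∧ x + 1 ≠ 52 * N) := by
  rw [h55_mem_dom] at hx
  refine ⟨by omega, by omega, fun h1 => ⟨by omega, by omega⟩⟩

theorem dom_small (n N : ℕ) (h : 64 * N ≤ n) (hN : 0 < N) (x : ℤ) (hx : (2 : ℤ) ∣ x) (h0 : 0 ≤ x)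
    (h1 : x ≤ 51 * N) : x ∈ dom n N := by
  rw [h55_mem_dom]
  omega

theorem enum (n N : ℕ) (h : 64 * N ≤ n) (Q : Finset ℤ) (hQ : Q ⊆ dom n N) :
    ∃ q : ℕ → ℤ, (∀ t < Q.card, q t ∈ Q) ∧
      (∀ t t', t < t' → t' < Q.card → q t + 2 * ((t' : ℤ) - t) ≤ q t') ∧
      ∀ t < Q.card, 2 * (t : ℤ) ≤ q t ∧ q t ≤ 2 * t + 2 * (n / 2 - Q.card : ℕ) + 1 := by
  classical
  have hcard : Q.card ≤ n / 2 := by
    rw [← card_dom n N h]
    exact Finset.card_le_card hQ
  set q : ℕ → ℤ := fun t => if ht : t < Q.card then Q.orderEmbOfFin rfl ⟨t, ht⟩ else 0 with hq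
  have hmem : ∀ t < Q.card, q t ∈ Q := by
    intro t ht
    rw [hq]
    dsimp only
    rw [dif_pos ht]
    exact Finset.orderEmbOfFin_mem Q rfl ⟨t, ht⟩
  have hlt : ∀ t, t + 1 < Q.card → q t < q (t + 1) := by
    intro t ht
    have ht' : t < Q.card := by omega
    rw [hq]
    dsimp only
    rw [dif_pos ht, dif_pos ht']
    exact (Q.orderEmbOfFin rfl).strictMono (by simp [Fin.lt_def])
  have hstep : ∀ t, t + 1 < Q.card → q t + 2 ≤ q (t + 1) := by
    intro t ht
    have h1 := hlt t ht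
    have h2 := hQ (hmem t (by omega))
    have h3 := hQ (hmem (t + 1) ht)
    rw [h55_mem_dom] at h2 h3
    omega
  have hgap : ∀ (d t : ℕ), t + d < Q.card → q t + 2 * (d : ℤ) ≤ q (t + d) := by
    intro d
    induction d with
    | zero => intro t _; simp
    | succ d ih =>
      intro t ht
      have h1 := ih t (by omega)
      have h2 := hstep (t + d) (by omega)
      have e : t + (d + 1) = t + d + 1 := by omega
      rw [e]
      push_cast
      linarith
  refine ⟨q, hmem, ?_, ?_⟩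
  · intro t t' htt ht'
    have h1 := hgap (t' - t) t (by omega)
    have e : t + (t' - t) = t' := by omega
    rw [e] at h1
    have e2 : ((t' - t : ℕ) : ℤ) = (t' : ℤ) - t := by omega
    rw [e2] at h1
    exact h1
  · intro t ht
    have h1 := hgap t 0 (by omega)
    rw [Nat.zero_add] at h1
    have h2 := (dom_range n N h _ (hQ (hmem 0 (by omega)))).1
    have h3 := hgap (Q.card - 1 - t) t (by omega)
    have e : t + (Q.card - 1 - t) = Q.card - 1 := by omega
    rw [e] at h3
    have h4 := (dom_range n N h _ (hQ (hmem (Q.card - 1) (by omega)))).2.1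
    omega

end Pool.Agent.Helper83.GD
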