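import Pool.Agent.Helper83.GD.Defs

/-!
# GHD-G0: greedy choice with disjoint footprints

Proof. Induction on `s`: for the new index `i` the values `a ∈ C i` with `φ i a` meeting
`F ∪ ⋃ j, φ j (c j)` are at most `κ' * (F.card + κ * s.card)` many.
-/

namespace Pool.Agent.Helper83.GD

open Finset

theorem greedy {ι Ω : Type} [DecidableEq ι] [DecidableEq Ω] (s : Finset ι) (C : ι → Finset ℤ)
    (φ : ι → ℤ → Finset Ω) (F : Finset Ω) (κ κ' : ℕ)
    (h1 : ∀ i ∈ s, ∀ a ∈ C i, (φ i a).card ≤ κ)
    (h2 : ∀ i ∈ s, ∀ ω, ((C i).filter fun a => ω ∈ φ i a).card ≤ κ')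
    (h3 : ∀ i ∈ s, κ' * (F.card + κ * s.card) < (C i).card) :
    ∃ c : ι → ℤ, (∀ i ∈ s, c i ∈ C i ∧ Disjoint (φ i (c i)) F) ∧
      ∀ i ∈ s, ∀ j ∈ s, i ≠ j → Disjoint (φ i (c i)) (φ j (c j)) := by
  induction s using Finset.induction_on with
  | empty => exact ⟨fun _ => 0, by simp, by simp⟩
  | insert i s hi ih =>
    have hcard : (insert i s).card = s.card + 1 := Finset.card_insert_of_notMem hi
    have hmono : κ' * (F.card + κ * s.card) ≤ κ' * (F.card + κ * (insert i s).card) := by
      apply Nat.mul_le_mul_left
      apply Nat.add_le_add_left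
      apply Nat.mul_le_mul_left
      omega
    obtain ⟨c, hc1, hc2⟩ := ih (fun j hj => h1 j (mem_insert_of_mem hj))
      (fun j hj => h2 j (mem_insert_of_mem hj))
      (fun j hj => hmono.trans_lt (h3 j (mem_insert_of_mem hj)))
    -- the forbidden points
    set G : Finset Ω := F ∪ s.biUnion (fun j => φ j (c j)) with hG
    have hGcard : G.card ≤ F.card + κ * s.card := by
      refine (card_union_le _ _).trans (Nat.add_le_add_left ?_ _)
      rw [mul_comm]
      exact card_biUnion_le_card_mul _ _ _
        (fun j hj => h1 j (mem_insert_of_mem hj) _ (hc1 j hj).1)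
    have hbad : ((C i).filter fun a => ¬ Disjoint (φ i a) G).card < (C i).card := by
      refine lt_of_le_of_lt ?_ (h3 i (mem_insert_self _ _))
      refine le_trans ?_ hmono
      refine le_trans (card_le_card (t := G.biUnion fun ω => (C i).filter fun a => ω ∈ φ i a)
        ?_) ?_
      · intro a ha
        rw [mem_filter] at ha
        obtain ⟨ha1, ha2⟩ := ha
        rw [Finset.not_disjoint_iff] at ha2
        obtain ⟨ω, hω1, hω2⟩ := ha2
        rw [mem_biUnion]
        exact ⟨ω, hω2, mem_filter.mpr ⟨ha1, hω1⟩⟩
      · refine (card_biUnion_le_card_mul _ _ κ' (fun ω _ => h2 i (mem_insert_self _ _) ω)).trans ?_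
        rw [mul_comm]
        exact Nat.mul_le_mul_left _ hGcard
    obtain ⟨a, haC, hag⟩ : ∃ a ∈ C i, Disjoint (φ i a) G := by
      by_contra hcon
      push Not at hcon
      rw [Finset.filter_true_of_mem hcon] at hbad
      exact lt_irrefl _ hbad
    have hne : ∀ j ∈ s, j ≠ i := fun j hj h => hi (h ▸ hj)
    refine ⟨Function.update c i a, ?_, ?_⟩
    · intro j hj
      rcases mem_insert.mp hj with rfl | hj
      · rw [Function.update_self]
        exact ⟨haC, Finset.disjoint_of_subset_right subset_union_left hag⟩
      · rw [Function.update_of_ne (hne j hj)]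
        exact hc1 j hj
    · intro j hj k hk hjk
      have hag' : ∀ j ∈ s, Disjoint (φ i a) (φ j (c j)) := fun j hj =>
        Finset.disjoint_of_subset_right
          ((subset_biUnion_of_mem (fun j => φ j (c j)) hj).trans subset_union_right) hag
      rcases mem_insert.mp hj with hj' | hj'
      · subst hj'
        rcases mem_insert.mp hk with hk' | hk'
        · exact absurd hk'.symm hjk
        · rw [Function.update_self, Function.update_of_ne (hne k hk')]
          exact hag' k hk'
      · rcases mem_insert.mp hk with hk' | hk'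
        · subst hk'
          rw [Function.update_self, Function.update_of_ne (hne j hj')]
          exact (hag' j hj').symm
        · rw [Function.update_of_ne (hne j hj'), Function.update_of_ne (hne k hk')]
          exact hc2 j hj' k hk' hjk

/-- The number of the `x ≡ t` modulo 4 in `[lo, lo + L]`. -/
theorem card_mod4 (lo t : ℤ) (L : ℕ) :
    L ≤ 4 * ((Icc lo (lo + L)).filter fun x => (4 : ℤ) ∣ x - t).card + 3 := by
  have h : (range ((L + 1) / 4)).card ≤
      ((Icc lo (lo + L)).filter fun x => (4 : ℤ) ∣ x - t).card := by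
    refine card_le_card_of_injOn (fun j => lo + (t - lo) % 4 + 4 * (j : ℤ)) ?_ ?_
    · intro j hj
      simp only [Finset.coe_range, Set.mem_Iio] at hj
      simp only [Finset.coe_filter, Finset.mem_Icc, Set.mem_ofPred_eq]
      omega
    · intro j _ k _ hjk
      simp only at hjk
      omega
  rw [card_range] at h
  omega

/-- The number of the even `x` in `[lo, lo + L]`. -/
theorem card_even (lo : ℤ) (L : ℕ) :
    L ≤ 2 * ((Icc lo (lo + L)).filter fun x => (2 : ℤ) ∣ x).card + 1 := by
  have h : (range ((L + 1) / 2)).card ≤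
      ((Icc lo (lo + L)).filter fun x => (2 : ℤ) ∣ x).card := by
    refine card_le_card_of_injOn (fun j => lo + (-lo) % 2 + 2 * (j : ℤ)) ?_ ?_
    · intro j hj
      simp only [Finset.coe_range, Set.mem_Iio] at hj
      simp only [Finset.coe_filter, Finset.mem_Icc, Set.mem_ofPred_eq]
      omega
    · intro j _ k _ hjk
      simp only at hjk
      omega
  rw [card_range] at h
  omega

end Pool.Agent.Helper83.GD
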