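import Pool.Agent.Helper83.GD.Mid1

/-!
# GHD-LABA: the labels of the rows of the modules are different modulo `n`

`FA` contains `CA` and the labels `f i + s`, `s < 3`.
Proof. A position `0 < j < k + 24` is `connPos`, or `j = pp n k i + 4 + t` with `t ≤ k` (`LA_tile`) or
`j = k + 14 + s` with `s ≤ 2` (`LA_pool`). In the first and third case the label is in
`(r (k + 2), n)` (`conn_zone`, `hf`). In the second case it is congruent to `i (k + 2) + t ∈ [0, r (k + 2))`. So congruent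
labels are of the same kind (tiles or not tiles) and equal (`i (k + 2) + t` for the tiles, which gives `i = i'` and `t = t'`
since `t ≤ k`). Labels of connectors are not in `FA` (`hS`, `conn_mem`); `conn_inj`; pool labels: `4 ∣ f i`, `hfi`.
-/

namespace Pool.Agent.Helper83.GD

open Finset

theorem labA_kind (n k i j : ℕ) (hj0 : 0 < j) (hj : j < k + 24) :
    connPos n k i j ∨ (∃ t ≤ k, j = pp n k i + 4 + t) ∨ ∃ s ≤ 2, j = k + 14 + s := by
  have := pp_lt n k i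
  unfold connPos
  rcases lt_or_ge j (pp n k i + 4) with h1 | h1
  · left
    omega
  rcases le_or_gt j (pp n k i + 4 + k) with h2 | h2
  · right
    left
    exact ⟨j - (pp n k i + 4), by omega, by omega⟩
  rcases lt_or_ge j (k + 14) with h3 | h3
  · left
    omega
  rcases le_or_gt j (k + 16) with h4 | h4
  · right
    right
    exact ⟨j - (k + 14), by omega, by omega⟩
  · left
    omega

theorem labA_dvd_eq (n : ℕ) (x y : ℤ) (h : (n : ℤ) ∣ x - y) (hx : 0 ≤ x) (hx' : x < n)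
    (hy : 0 ≤ y) (hy' : y < n) : x = y := by
  have h1 : |x - y| < n := by
    rw [abs_lt]
    constructor <;> linarith
  have h2 := Int.eq_zero_of_abs_lt_dvd h h1
  linarith

theorem labA_size (n N k r mc μ : ℕ) (hP : Par n N k r mc μ) : 2 * ((r : ℤ) * (k + 2)) ≤ n := by
  have h := hP.hn
  have h' : (n : ℤ) = mc + 2 * (r * k) + 48 * r := by
    rw [h]
    push_cast
    ring
  rw [h']
  have : (0 : ℤ) ≤ mc := by positivity
  have : (0 : ℤ) ≤ r := by positivity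
  nlinarith

theorem labA_xh (n k i : ℕ) : ∃ m : ℤ, (xh n k i : ℤ) = (i : ℤ) * (k + 2) + m * n := by
  unfold xh
  by_cases h : 4 * (i * (k + 2)) < n
  · rw [if_pos h]
    exact ⟨1, by push_cast; ring⟩
  · rw [if_neg h]
    exact ⟨0, by push_cast; ring⟩

theorem labA_tile_range (k r i t : ℕ) (hi : i < r) (ht : t ≤ k) :
    0 ≤ (i : ℤ) * (k + 2) + t ∧ (i : ℤ) * (k + 2) + t < (r : ℤ) * (k + 2) := by
  have h1 : (i : ℤ) + 1 ≤ r := by exact_mod_cast hi
  have h2 : (t : ℤ) ≤ k := by exact_mod_cast ht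
  have h3 : (0 : ℤ) ≤ k := by positivity
  refine ⟨by positivity, ?_⟩
  nlinarith

variable (n N k r mc μ γ : ℕ) (hP : Par n N k r mc μ) (gv gu f δ₁ δ : ℕ → ℤ)
    (e : ℕ → ℕ → ℤ) (hI : Inp n N k r γ gv gu f δ₁ δ e) (FA FB : Finset ℤ)
    (M₁ M₂ M₃ : ℕ → ℤ) (hM : Mid n N k r γ gv gu f δ₁ δ M₁ M₂ M₃ e FA FB) (CA : Finset ℤ)
    (hCA : ∀ x ∈ CA, x ∈ FA ∧ 37 * (N : ℤ) ≤ x ∧ x ≤ 63 * N ∧ ∀ i < r, ∀ s < 3, x ≠ f i + (s : ℕ))
    (hfA : ∀ i < r, ∀ s < 3, f i + (s : ℕ) ∈ FA)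

include hM in
theorem labA_conn_notMem (i : ℕ) (hi : i < r) (j : ℕ) (hj : connPos n k i j) :
    LA n k gv gu f δ₁ δ M₁ M₂ M₃ i j ∉ FA := by
  intro h
  have h1 := conn_mem n k gv gu f δ₁ δ M₁ M₂ M₃ i j hj
  have h2 : (if j ≤ pp n k i + 3 then 0 else if j ≤ k + 13 then 1 else 2) < 3 := by
    split_ifs <;> norm_num
  exact (Finset.disjoint_left.mp (hM.hS i hi _ h2)) h1 h

include hP hI hM in
/-- Three kinds of labels. -/
theorem labA_cases (i : ℕ) (hi : i < r) (j : ℕ) (hj0 : 0 < j) (hj : j < k + 24) :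
    ((r : ℤ) * (k + 2) < LA n k gv gu f δ₁ δ M₁ M₂ M₃ i j ∧
      LA n k gv gu f δ₁ δ M₁ M₂ M₃ i j < n ∧
      (connPos n k i j ∨ ∃ s ≤ 2, j = k + 14 + s ∧
        LA n k gv gu f δ₁ δ M₁ M₂ M₃ i j = f i + (s : ℕ))) ∨
    ∃ t ≤ k, j = pp n k i + 4 + t ∧ ∃ m : ℤ,
      LA n k gv gu f δ₁ δ M₁ M₂ M₃ i j = (i : ℤ) * (k + 2) + t + m * n := by
  rcases labA_kind n k i j hj0 hj with h | ⟨t, ht, h⟩ | ⟨s, hs, h⟩
  · left
    have h1 := conn_zone n N k r mc μ γ hP gv gu f δ₁ δ e hI FA FB M₁ M₂ M₃ hM i hi j h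
    exact ⟨h1.1, h1.2, Or.inl h⟩
  · right
    obtain ⟨m, hm⟩ := labA_xh n k i
    refine ⟨t, ht, h, m, ?_⟩
    rw [h, LA_tile n k gv gu f δ₁ δ M₁ M₂ M₃ i t ht, hm]
    ring
  · left
    have h1 := LA_pool n k gv gu f δ₁ δ M₁ M₂ M₃ i s hs
    obtain ⟨h2, h3, h4⟩ := hI.hf i hi
    have h5 : (s : ℤ) ≤ 2 := by exact_mod_cast hs
    have h6 : (0 : ℤ) ≤ s := by positivity
    rw [h, h1]
    exact ⟨by linarith, by linarith, Or.inr ⟨s, hs, rfl, rfl⟩⟩

include hP hI hM hfA in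
theorem labA_inj (i i' : ℕ) (hi : i < r) (hi' : i' < r) (j j' : ℕ) (hj0 : 0 < j)
    (hj : j < k + 24) (hj0' : 0 < j') (hj' : j' < k + 24)
    (h : (n : ℤ) ∣ LA n k gv gu f δ₁ δ M₁ M₂ M₃ i j - LA n k gv gu f δ₁ δ M₁ M₂ M₃ i' j') :
    i = i' ∧ j = j' := by
  have hsz := labA_size n N k r mc μ hP
  have hr0 : (0 : ℤ) ≤ (r : ℤ) * (k + 2) := by positivity
  have hr0' : (0 : ℤ) < (r : ℤ) * (k + 2) := by
    have : 0 < r := by omega
    positivity
  rcases labA_cases n N k r mc μ γ hP gv gu f δ₁ δ e hI FA FB M₁ M₂ M₃ hM i hi j hj0 hj with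
    ⟨a1, a2, a3⟩ | ⟨t, ht, ej, m, a⟩ <;>
  rcases labA_cases n N k r mc μ γ hP gv gu f δ₁ δ e hI FA FB M₁ M₂ M₃ hM i' hi' j' hj0' hj' with
    ⟨b1, b2, b3⟩ | ⟨t', ht', ej', m', b⟩
  · have heq := labA_dvd_eq n _ _ h (by linarith) a2 (by linarith) b2
    rcases a3 with a3 | ⟨s, hs, a3, a4⟩ <;> rcases b3 with b3 | ⟨s', hs', b3, b4⟩
    · exact conn_inj n N k r mc μ γ hP gv gu f δ₁ δ e FA FB M₁ M₂ M₃ hM i i' hi hi' j j' a3 b3 heq
    · exfalso
      apply labA_conn_notMem n N k r γ gv gu f δ₁ δ e FA FB M₁ M₂ M₃ hM i hi j a3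
      rw [heq, b4]
      exact hfA i' hi' s' (by omega)
    · exfalso
      apply labA_conn_notMem n N k r γ gv gu f δ₁ δ e FA FB M₁ M₂ M₃ hM i' hi' j' b3
      rw [← heq, a4]
      exact hfA i hi s (by omega)
    · rw [a4, b4] at heq
      have c1 := (hI.hf i hi).1
      have c2 := (hI.hf i' hi').1
      have c3 : f i = f i' ∧ s = s' := by omega
      exact ⟨hI.hfi i hi i' hi' c3.1, by rw [a3, b3, c3.2]⟩
  · exfalso
    obtain ⟨c1, c2⟩ := labA_tile_range k r i' t' hi' ht'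
    have h2 : (n : ℤ) ∣ LA n k gv gu f δ₁ δ M₁ M₂ M₃ i j - ((i' : ℤ) * (k + 2) + t') := by
      have : LA n k gv gu f δ₁ δ M₁ M₂ M₃ i j - ((i' : ℤ) * (k + 2) + t') =
          (LA n k gv gu f δ₁ δ M₁ M₂ M₃ i j - LA n k gv gu f δ₁ δ M₁ M₂ M₃ i' j') + m' * n := by
        rw [b]
        ring
      rw [this]
      exact dvd_add h (Dvd.intro_left _ rfl)
    have := labA_dvd_eq n _ _ h2 (by linarith) a2 c1 (by linarith)
    linarith
  · exfalso
    obtain ⟨c1, c2⟩ := labA_tile_range k r i t hi ht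
    have h2 : (n : ℤ) ∣ ((i : ℤ) * (k + 2) + t) - LA n k gv gu f δ₁ δ M₁ M₂ M₃ i' j' := by
      have : ((i : ℤ) * (k + 2) + t) - LA n k gv gu f δ₁ δ M₁ M₂ M₃ i' j' =
          (LA n k gv gu f δ₁ δ M₁ M₂ M₃ i j - LA n k gv gu f δ₁ δ M₁ M₂ M₃ i' j') + (-m) * n := by
        rw [a]
        ring
      rw [this]
      exact dvd_add h (Dvd.intro_left _ rfl)
    have := labA_dvd_eq n _ _ h2 c1 (by linarith) (by linarith) b2
    linarith
  · obtain ⟨c1, c2⟩ := labA_tile_range k r i t hi ht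
    obtain ⟨d1, d2⟩ := labA_tile_range k r i' t' hi' ht'
    have h2 : (n : ℤ) ∣ ((i : ℤ) * (k + 2) + t) - ((i' : ℤ) * (k + 2) + t') := by
      have : ((i : ℤ) * (k + 2) + t) - ((i' : ℤ) * (k + 2) + t') =
          (LA n k gv gu f δ₁ δ M₁ M₂ M₃ i j - LA n k gv gu f δ₁ δ M₁ M₂ M₃ i' j') +
            (m' - m) * n := by
        rw [a, b]
        ring
      rw [this]
      exact dvd_add h (Dvd.intro_left _ rfl)
    have heq := labA_dvd_eq n _ _ h2 c1 (by linarith) d1 (by linarith)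
    have heq' : i * (k + 2) + t = i' * (k + 2) + t' := by exact_mod_cast heq
    have e1 : (i * (k + 2) + t) / (k + 2) = i := by
      rw [mul_comm, Nat.mul_add_div (by omega), Nat.div_eq_of_lt (by omega), add_zero]
    have e2 : (i' * (k + 2) + t') / (k + 2) = i' := by
      rw [mul_comm, Nat.mul_add_div (by omega), Nat.div_eq_of_lt (by omega), add_zero]
    have e3 : i = i' := by rw [← e1, ← e2, heq']
    subst e3
    refine ⟨rfl, ?_⟩
    rw [ej, ej']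
    omega

include hP hI hM hCA in
theorem labA_core (i : ℕ) (hi : i < r) (j : ℕ) (hj0 : 0 < j) (hj : j < k + 24) (x : ℤ)
    (hx : x ∈ CA) : ¬ (n : ℤ) ∣ LA n k gv gu f δ₁ δ M₁ M₂ M₃ i j - x := by
  intro h
  have hsz := labA_size n N k r mc μ hP
  have hr0 : (0 : ℤ) ≤ (r : ℤ) * (k + 2) := by positivity
  obtain ⟨x1, x2, x3, x4⟩ := hCA x hx
  have hN := hP.hN
  have hN' := hP.hN'
  have hk' := hP.hk'
  have hkN := hP.hkN
  have n1 : 64 * (N : ℤ) ≤ n := by exact_mod_cast hN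
  have n2 : (n : ℤ) < 64 * N + 64 := by exact_mod_cast hN'
  have n3 : (1000 : ℤ) ≤ N := by
    have : 1000 ≤ N := by omega
    exact_mod_cast this
  rcases labA_cases n N k r mc μ γ hP gv gu f δ₁ δ e hI FA FB M₁ M₂ M₃ hM i hi j hj0 hj with
    ⟨a1, a2, a3⟩ | ⟨t, ht, ej, m, a⟩
  · have heq := labA_dvd_eq n _ _ h (by linarith) a2 (by linarith) (by linarith)
    rcases a3 with a3 | ⟨s, hs, a3, a4⟩
    · apply labA_conn_notMem n N k r γ gv gu f δ₁ δ e FA FB M₁ M₂ M₃ hM i hi j a3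
      rw [heq]
      exact x1
    · apply x4 i hi s (by omega)
      rw [← heq, a4]
  · obtain ⟨c1, c2⟩ := labA_tile_range k r i t hi ht
    have h2 : (n : ℤ) ∣ ((i : ℤ) * (k + 2) + t) - x := by
      have : ((i : ℤ) * (k + 2) + t) - x =
          (LA n k gv gu f δ₁ δ M₁ M₂ M₃ i j - x) + (-m) * n := by
        rw [a]
        ring
      rw [this]
      exact dvd_add h (Dvd.intro_left _ rfl)
    have := labA_dvd_eq n _ _ h2 c1 (by linarith) (by linarith) (by linarith)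
    linarith

end Pool.Agent.Helper83.GD
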