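import Pool.Agent.Helper83.GD.Count

/-!
# GHD-LABB: the labels of the columns are different modulo `n`

Proof. Normalised label `β i j`: for a tile column (`j = pp n k i + 4 + u`, `u < k`) `β = n + i (k + 2) + u - t T`,
`T = i (k + 1) + u` (congruent to `b i j` modulo `n` by the definition of `xh`), otherwise `β = b i j`. With
`2 T ≤ t T ≤ 2 T + 2 μ + 1` and `i (k + 2) + u = T + i`: `β ∈ [n - (r k + 2 μ + 1), n]` for tiles. Pair, plain:
`b ∈ Bset …` and cherry, last: `β ∈ [N, 31 N]`; pool: `hp1`. By `Par`: `n - (r k + 2 μ + 1) > 31 N`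
(`r k ≤ n / 2`, `2 μ ≤ 49 r + 2`). So `2 ≤ β ≤ n` always and congruent normalised labels are equal; different
kinds of `{pair, plain, cherry, last}`, `{pool}`, `{tile}` have different labels. Pair, plain: `hbb`, `hb` of
`OpsOK` (`FB` contains the cherry labels, `CB` and `f (r - 1) - qs`); in the same pair the two labels are different
since `E` is even. Cherries: `hchi`. Pool: `hp2`. Tiles: if `T < T'` then `β(T) - β(T') ≥ (T' - T) - (i' - i) > 0`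
(`hm`): `i = i'` is clear; `i < i'`: `T' - T ≥ (i' - i) (k + 1) - (k - 1)`.
-/

namespace Pool.Agent.Helper83.GD

open Finset

variable (n N k r mc μ γ : ℕ) (hP : Par n N k r mc μ) (a E q e b : ℕ → ℕ → ℤ)
    (f δ₁ M₃ : ℕ → ℤ) (qs : ℤ) (t : ℕ → ℤ) (FB FD D CB : Finset ℤ)
    (hO : OpsOK n N k r γ a E q FB FD) (hL : Late n N k r γ μ E q D qs t)
    (hCB : ∀ x ∈ CB, (N : ℤ) ≤ x ∧ x ≤ 31 * N ∧ x ∈ FB ∧ x ≠ f (r - 1) - qs ∧
      ∀ i < γ, ∀ s < 2, x ≠ chB δ₁ M₃ e i s)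
    (hch : ∀ i < γ, ∀ s < 2, (N : ℤ) ≤ chB δ₁ M₃ e i s ∧ chB δ₁ M₃ e i s ≤ 31 * N ∧
      chB δ₁ M₃ e i s ∈ FB ∧ chB δ₁ M₃ e i s ≠ f (r - 1) - qs)
    (hchi : ∀ i < γ, ∀ i' < γ, ∀ s < 2, ∀ s' < 2, chB δ₁ M₃ e i s = chB δ₁ M₃ e i' s' →
      i = i' ∧ s = s')
    (hfs : (N : ℤ) ≤ f (r - 1) - qs ∧ f (r - 1) - qs ≤ 31 * N ∧ f (r - 1) - qs ∈ FB)
    (hp1 : ∀ i, i + 1 < r →
      (2 ≤ f i - t (i * (k + 1) + k) ∧ f i - t (i * (k + 1) + k) < N) ∨
      (31 * (N : ℤ) < f i - t (i * (k + 1) + k) ∧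
        f i - t (i * (k + 1) + k) < n - ((r : ℤ) * k + 2 * μ + 1)))
    (hp2 : ∀ i j, i < j → j + 1 < r →
      f i - t (i * (k + 1) + k) ≠ f j - t (j * (k + 1) + k))
    (hb : ∀ i < r, ∀ j < k + 24, Col n k r γ a E q e f δ₁ M₃ qs t i j (b i j))

include hP in
private theorem labB_par : 31 * (N : ℤ) < n - ((r : ℤ) * k + 2 * μ + 1) ∧ 200000 ≤ N := by
  have h1 := hP.hN
  have h2 := hP.hn
  have h3 := hP.hk'
  have h4 := hP.hkN
  have h5 := hP.hrN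
  have h6 := hP.hmr
  have h7 := hP.hμ
  generalize hX : r * k = X at h2 h7
  have hX' : (r : ℤ) * k = X := by rw [← hX]; push_cast; ring
  rw [hX']
  constructor
  · omega
  · omega

/-- The five kinds of columns with the normalised label. -/
private def Kd (n k r γ : ℕ) (a E q e : ℕ → ℕ → ℤ) (f δ₁ M₃ : ℕ → ℤ) (qs : ℤ) (t : ℕ → ℤ)
    (i j : ℕ) (β : ℤ) : Prop :=
  (∃ j₀ h : ℕ, h < 2 ∧ pairPos n k γ i j₀ ∧ j = j₀ + h ∧
    β = a i j₀ + h * E i j₀ - q i j₀ - h) ∨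
  (plainPos n k i j ∧ β = a i j - q i j) ∨
  (∃ u < 2, i < γ ∧ j = k + 18 + u ∧ β = chB δ₁ M₃ e i u) ∨
  (j = k + 14 ∧ i + 1 < r ∧ β = f i - t (i * (k + 1) + k)) ∨
  (j = k + 14 ∧ i + 1 = r ∧ β = f i - qs) ∨
  ∃ u < k, j = pp n k i + 4 + u ∧ β = n + i * (k + 2) + u - t (i * (k + 1) + u)

include hb in
private theorem labB_kd (i j : ℕ) (hi : i < r) (hj : j < k + 24) :
    ∃ β, (n : ℤ) ∣ b i j - β ∧ Kd n k r γ a E q e f δ₁ M₃ qs t i j β := by
  rcases hb i hi j hj with ⟨j₀, h, h1, h2, h3, h4, -⟩ | ⟨h1, h2, -⟩ | ⟨u, h1, h2, h3, h4, -⟩ |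
    ⟨h1, h2, h3, -⟩ | ⟨h1, h2, h3, -⟩ | ⟨u, h1, h2, h3, -⟩
  · exact ⟨b i j, by simp, Or.inl ⟨j₀, h, h1, h2, h3, h4⟩⟩
  · exact ⟨b i j, by simp, Or.inr (Or.inl ⟨h1, h2⟩)⟩
  · exact ⟨b i j, by simp, Or.inr (Or.inr (Or.inl ⟨u, h1, h2, h3, h4⟩))⟩
  · exact ⟨b i j, by simp, Or.inr (Or.inr (Or.inr (Or.inl ⟨h1, h2, h3⟩)))⟩
  · exact ⟨b i j, by simp, Or.inr (Or.inr (Or.inr (Or.inr (Or.inl ⟨h1, h2, h3⟩))))⟩
  · refine ⟨n + i * (k + 2) + u - t (i * (k + 1) + u), ?_,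
      Or.inr (Or.inr (Or.inr (Or.inr (Or.inr ⟨u, h1, h2, rfl⟩))))⟩
    rw [h3]
    unfold xh
    split_ifs
    · refine ⟨0, ?_⟩
      push_cast
      ring
    · refine ⟨-1, ?_⟩
      push_cast
      ring

include hO in
private theorem labB_op (i : ℕ) (hi : i < r) (j₀ h : ℕ) (hh : h < 2) (hp : pairPos n k γ i j₀) :
    a i j₀ + h * E i j₀ - q i j₀ - h ∈ Bset (a i j₀) (E i j₀) (q i j₀) := by
  have hE := (hO.hpair i hi j₀ hp).2.2.2
  unfold Bset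
  rw [if_neg hE]
  rcases (by omega : h = 0 ∨ h = 1) with rfl | rfl
  · simp
  · simp only [mem_insert, mem_singleton]
    right
    push_cast
    ring

include hO in
private theorem labB_pl (i : ℕ) (hi : i < r) (j : ℕ) (hp : plainPos n k i j) :
    a i j - q i j ∈ Bset (a i j) (E i j) (q i j) := by
  have hE := (hO.hplain i hi j hp).2
  unfold Bset
  rw [if_pos hE]
  simp

include hL in
private theorem labB_tile (i u : ℕ) (hi : i < r) (hu : u < k) :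
    (n : ℤ) - ((r : ℤ) * k + 2 * μ + 1) ≤ n + i * (k + 2) + u - t (i * (k + 1) + u) ∧
      n + i * (k + 2) + u - t (i * (k + 1) + u) ≤ (n : ℤ) := by
  have hT : (i * (k + 1) + u) + 1 < r * (k + 1) := by
    have : (i + 1) * (k + 1) ≤ r * (k + 1) := Nat.mul_le_mul_right _ hi
    nlinarith
  obtain ⟨h1, h2⟩ := hL.hw _ hT
  have h3 : (i + 1) * k ≤ r * k := Nat.mul_le_mul_right _ hi
  have h3' : ((i : ℤ) + 1) * k ≤ r * k := by exact_mod_cast h3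
  push_cast at h1 h2
  constructor
  · nlinarith
  · nlinarith

/-- The range of a normalised label. -/
private def Rg (n N k r μ : ℕ) (κ : ℕ) (β : ℤ) : Prop :=
  (κ = 0 ∧ (N : ℤ) ≤ β ∧ β ≤ 31 * N) ∨
  (κ = 1 ∧ ((2 ≤ β ∧ β < N) ∨ (31 * (N : ℤ) < β ∧ β < n - ((r : ℤ) * k + 2 * μ + 1)))) ∨
  (κ = 2 ∧ (n : ℤ) - ((r : ℤ) * k + 2 * μ + 1) ≤ β ∧ β ≤ n)

include hP in
private theorem labB_rg (κ κ' : ℕ) (β β' : ℤ) (h : Rg n N k r μ κ β) (h' : Rg n N k r μ κ' β')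
    (hd : (n : ℤ) ∣ β - β') : β = β' ∧ κ = κ' := by
  obtain ⟨h1, h2⟩ := labB_par n N k r mc μ hP
  have h3 : (64 * N : ℤ) ≤ n := by exact_mod_cast hP.hN
  unfold Rg at h h'
  generalize hX : (r : ℤ) * k + 2 * μ + 1 = X at h h' h1
  have hX0 : 0 ≤ X := by rw [← hX]; positivity
  have hb1 : 1 ≤ β ∧ β ≤ n := by
    rcases h with h | h | h <;> omega
  have hb2 : 1 ≤ β' ∧ β' ≤ n := by
    rcases h' with h | h | h <;> omega
  have he : β = β' := by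
    obtain ⟨c, hc⟩ := hd
    have hc0 : c = 0 := by
      have hn0 : (0 : ℤ) < n := by omega
      have h5 : (n : ℤ) * c < n * 1 := by rw [← hc]; omega
      have h6 : (n : ℤ) * (-1) < n * c := by rw [← hc]; omega
      have h7 := lt_of_mul_lt_mul_left h5 hn0.le
      have h8 := lt_of_mul_lt_mul_left h6 hn0.le
      omega
    rw [hc0] at hc
    omega
  refine ⟨he, ?_⟩
  subst he
  rcases h with h | h | h <;> rcases h' with h' | h' | h' <;> omega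

include hO hL hch hfs hp1 in
private theorem labB_kr (i j : ℕ) (hi : i < r) (β : ℤ)
    (h : Kd n k r γ a E q e f δ₁ M₃ qs t i j β) :
    ∃ κ, Rg n N k r μ κ β ∧
      (κ = 0 → (β ∉ FB ∧ ∃ j₀ h : ℕ, h < 2 ∧ opPos n k γ i j₀ ∧ j = j₀ + h ∧
        β ∈ Bset (a i j₀) (E i j₀) (q i j₀) ∧ (h = 0 ∨ pairPos n k γ i j₀) ∧
          β = a i j₀ + h * E i j₀ - q i j₀ - h) ∨
        (∃ u < 2, i < γ ∧ j = k + 18 + u ∧ β = chB δ₁ M₃ e i u) ∨
        (j = k + 14 ∧ i + 1 = r ∧ β = f (r - 1) - qs)) ∧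
      (κ = 1 → j = k + 14 ∧ i + 1 < r ∧ β = f i - t (i * (k + 1) + k)) ∧
      (κ = 2 → ∃ u < k, j = pp n k i + 4 + u ∧ β = n + i * (k + 2) + u - t (i * (k + 1) + u)) := by
  rcases h with ⟨j₀, h, h1, h2, h3, h4⟩ | ⟨h1, h2⟩ | ⟨u, h1, h2, h3, h4⟩ |
    ⟨h1, h2, h3⟩ | ⟨h1, h2, h3⟩ | ⟨u, h1, h2, h3⟩
  · have hm : β ∈ Bset (a i j₀) (E i j₀) (q i j₀) := by
      rw [h4]; exact labB_op n N k r γ a E q FB FD hO i hi j₀ h h1 h2
    have hB := hO.hb i hi j₀ (Or.inl h2)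
    refine ⟨0, Or.inl ⟨rfl, hB.2 β hm⟩, fun _ => Or.inl ⟨?_, j₀, h, h1, Or.inl h2, h3, hm,
      Or.inr h2, h4⟩, by simp, by simp⟩
    exact disjoint_left.1 hB.1 hm
  · have hm : β ∈ Bset (a i j) (E i j) (q i j) := by
      rw [h2]; exact labB_pl n N k r γ a E q FB FD hO i hi j h1
    have hB := hO.hb i hi j (Or.inr h1)
    refine ⟨0, Or.inl ⟨rfl, hB.2 β hm⟩, fun _ => Or.inl ⟨?_, j, 0, by norm_num, Or.inr h1, rfl, hm,
      Or.inl rfl, by rw [h2]; simp⟩, by simp, by simp⟩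
    exact disjoint_left.1 hB.1 hm
  · have hc := hch i h2 u h1
    refine ⟨0, Or.inl ⟨rfl, ?_, ?_⟩, fun _ => Or.inr (Or.inl ⟨u, h1, h2, h3, h4⟩), by simp, by simp⟩
    · rw [h4]; exact hc.1
    · rw [h4]; exact hc.2.1
  · refine ⟨1, Or.inr (Or.inl ⟨rfl, ?_⟩), by simp, fun _ => ⟨h1, h2, h3⟩, by simp⟩
    rw [h3]
    exact hp1 i h2
  · have hir : i = r - 1 := by omega
    have h3' : β = f (r - 1) - qs := by rw [h3, hir]
    refine ⟨0, Or.inl ⟨rfl, ?_, ?_⟩, fun _ => Or.inr (Or.inr ⟨h1, h2, h3'⟩), by simp, by simp⟩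
    · rw [h3']; exact hfs.1
    · rw [h3']; exact hfs.2.1
  · refine ⟨2, Or.inr (Or.inr ⟨rfl, ?_⟩), by simp, by simp, fun _ => ⟨u, h1, h2, h3⟩⟩
    rw [h3]
    exact labB_tile n N k r μ γ E q qs t D hL i u hi h1

include hL in
private theorem labB_lt (i i' u u' : ℕ) (hi' : i' < r) (hu : u < k) (hu' : u' < k)
    (h : (n : ℤ) + i * (k + 2) + u - t (i * (k + 1) + u) =
      n + i' * (k + 2) + u' - t (i' * (k + 1) + u')) : ¬ i * (k + 1) + u < i' * (k + 1) + u' := by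
  intro hlt
  have hT : (i' * (k + 1) + u') + 1 < r * (k + 1) := by
    have : (i' + 1) * (k + 1) ≤ r * (k + 1) := Nat.mul_le_mul_right _ hi'
    nlinarith
  have h1 := hL.hm _ _ hlt hT
  push_cast at h1
  have hii : i ≤ i' := by
    by_contra hcon
    have : (i' + 1) * (k + 1) ≤ i * (k + 1) := Nat.mul_le_mul_right _ (by omega)
    nlinarith
  rcases Nat.eq_or_lt_of_le hii with he | hlt'
  · subst he
    have h2 : u < u' := by omega
    have h2' : (u : ℤ) < u' := by exact_mod_cast h2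
    nlinarith
  · have h3 : (i + 1) * k ≤ i' * k := Nat.mul_le_mul_right _ hlt'
    have h3' : ((i : ℤ) + 1) * k ≤ i' * k := by exact_mod_cast h3
    have h4 : (u : ℤ) < k := by exact_mod_cast hu
    have h5 : (0 : ℤ) ≤ u' := by positivity
    nlinarith

include hP hO hL hch hchi hfs hp1 hp2 hb in
theorem labB_inj (i i' j j' : ℕ) (hi : i < r) (hi' : i' < r) (hj : j < k + 24)
    (hj' : j' < k + 24) (h : (n : ℤ) ∣ b i j - b i' j') : i = i' ∧ j = j' := by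
  obtain ⟨β, hβ, hK⟩ := labB_kd n k r γ a E q e b f δ₁ M₃ qs t hb i j hi hj
  obtain ⟨β', hβ', hK'⟩ := labB_kd n k r γ a E q e b f δ₁ M₃ qs t hb i' j' hi' hj'
  obtain ⟨κ, hR, h0, h1, h2⟩ := labB_kr n N k r μ γ a E q e f δ₁ M₃ qs t FB FD D hO hL hch
    hfs hp1 i j hi β hK
  obtain ⟨κ', hR', h0', h1', h2'⟩ := labB_kr n N k r μ γ a E q e f δ₁ M₃ qs t FB FD D hO hL
    hch hfs hp1 i' j' hi' β' hK'
  have hd : (n : ℤ) ∣ β - β' := by
    have := dvd_sub (dvd_sub h hβ) (dvd_neg.2 hβ')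
    have he : b i j - b i' j' - (b i j - β) - -(b i' j' - β') = β - β' := by ring
    rwa [he] at this
  obtain ⟨he, hκ⟩ := labB_rg n N k r mc μ hP κ κ' β β' hR hR' hd
  subst he hκ
  have hκ3 : κ = 0 ∨ κ = 1 ∨ κ = 2 := by
    rcases hR with h | h | h
    · exact Or.inl h.1
    · exact Or.inr (Or.inl h.1)
    · exact Or.inr (Or.inr h.1)
  rcases hκ3 with hκ | hκ | hκ
  · rcases h0 hκ with ⟨g1, j₀, s, g2, g3, g4, g5, g6, g7⟩ | ⟨u, g1, g2, g3, g4⟩ | ⟨g1, g2, g3⟩ <;>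
    rcases h0' hκ with ⟨g1', j₀', s', g2', g3', g4', g5', g6', g7'⟩ | ⟨u', g1', g2', g3', g4'⟩ |
      ⟨g1', g2', g3'⟩
    · by_cases hc : i ≠ i' ∨ j₀ ≠ j₀'
      · exact absurd g5' (disjoint_left.1 (hO.hbb i hi i' hi' j₀ j₀' g3 g3' hc) g5)
      · push Not at hc
        obtain ⟨hc1, hc2⟩ := hc
        subst hc1 hc2
        refine ⟨rfl, ?_⟩
        have hs : s = s' := by
          by_contra hss
          have hp : pairPos n k γ i j₀ := by
            rcases g6 with g6 | g6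
            · rcases g6' with g6' | g6'
              · omega
              · exact g6'
            · exact g6
          obtain ⟨c, hc⟩ := (hO.hpair i hi j₀ hp).2.2.1
          rcases (by omega : (s = 0 ∧ s' = 1) ∨ (s = 1 ∧ s' = 0)) with ⟨rfl, rfl⟩ | ⟨rfl, rfl⟩
          · push_cast at g7 g7'
            omega
          · push_cast at g7 g7'
            omega
        omega
    · exact absurd (g4' ▸ (hch i' g2' u' g1').2.2.1) g1
    · exact absurd (g3' ▸ hfs.2.2) g1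
    · exact absurd (g4 ▸ (hch i g2 u g1).2.2.1) g1'
    · obtain ⟨k1, k2⟩ := hchi i g2 i' g2' u g1 u' g1' (by rw [← g4, ← g4'])
      omega
    · exact absurd (by rw [← g4, ← g3']) (hch i g2 u g1).2.2.2
    · exact absurd (g3 ▸ hfs.2.2) g1'
    · exact absurd (by rw [← g4', ← g3]) (hch i' g2' u' g1').2.2.2
    · omega
  · obtain ⟨g1, g2, g3⟩ := h1 hκ
    obtain ⟨g1', g2', g3'⟩ := h1' hκ
    refine ⟨?_, by omega⟩
    rcases lt_trichotomy i i' with hl | hl | hl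
    · exact absurd (by rw [← g3, ← g3']) (hp2 i i' hl g2')
    · exact hl
    · exact absurd (by rw [← g3, ← g3']) (hp2 i' i hl g2)
  · obtain ⟨u, g1, g2, g3⟩ := h2 hκ
    obtain ⟨u', g1', g2', g3'⟩ := h2' hκ
    have k1 := labB_lt n N k r μ γ E q qs t D hL i i' u u' hi' g1 g1' (by rw [← g3, ← g3'])
    have k2 := labB_lt n N k r μ γ E q qs t D hL i' i u' u hi g1' g1 (by rw [← g3, ← g3'])
    have k3 : i * (k + 1) + u = i' * (k + 1) + u' := by omega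
    have k4 : i = i' := by
      have e1 : (i * (k + 1) + u) / (k + 1) = i := by
        rw [Nat.div_eq_of_lt_le] <;> nlinarith
      have e2 : (i' * (k + 1) + u') / (k + 1) = i' := by
        rw [Nat.div_eq_of_lt_le] <;> nlinarith
      rw [← e1, ← e2, k3]
    subst k4
    refine ⟨rfl, ?_⟩
    omega

include hP hO hL hCB hch hfs hp1 hb in
theorem labB_core (i j : ℕ) (hi : i < r) (hj : j < k + 24) (x : ℤ) (hx : x ∈ CB) :
    ¬ (n : ℤ) ∣ b i j - x := by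
  intro h
  obtain ⟨β, hβ, hK⟩ := labB_kd n k r γ a E q e b f δ₁ M₃ qs t hb i j hi hj
  obtain ⟨κ, hR, h0, h1, h2⟩ := labB_kr n N k r μ γ a E q e f δ₁ M₃ qs t FB FD D hO hL hch
    hfs hp1 i j hi β hK
  obtain ⟨c1, c2, c3, c4, c5⟩ := hCB x hx
  have hd : (n : ℤ) ∣ β - x := by
    have := dvd_sub h hβ
    have he : b i j - x - (b i j - β) = β - x := by ring
    rwa [he] at this
  obtain ⟨he, hκ⟩ := labB_rg n N k r mc μ hP κ 0 β x hR (Or.inl ⟨rfl, c1, c2⟩) hd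
  subst he
  rcases h0 hκ with ⟨g1, -⟩ | ⟨u, g1, g2, g3, g4⟩ | ⟨g1, g2, g3⟩
  · exact g1 c3
  · exact c5 i g2 u g1 g4
  · exact c4 g3

end Pool.Agent.Helper83.GD
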