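import Pool.Agent.Helper83.GD.Enum
import Pool.Agent.Helper83.GD.Count

/-!
# GHD-LABR: the residues

Proof. By `Col` every residue `a i (j + s) - b i j` is `z + h`, `z ∈ dom n N`, `h ∈ {0, 1}`: pair: `z = q + s E`,
`h`; plain: `z = q`, `h = s`; cherry: `z = e i (2 u + s) - 1 ∈ D`, `h = 1`; pool and tile: `z = t …`, `h = s`; last:
`z = qs`, `h = s` (`dom_small`, `hd`). Range: `dom_range`. Equal residues have equal `z`, `h` (`dom_half`). The `z` of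
different kinds are different: pair/plain: `z ∈ Dset (E i j₀) (q i j₀)` (with `E = 0` for plain), disjoint from
`D`, `qs` (`hq`), from `t …` (`hd`), and from each other for different positions (`hqq`); a pair position is not
plain (`pair_plain`). Same pair: `h` gives `j` and `q + s E` gives `s`. Cherries: `hei`. `t` is injective (`hm`) on the
indices `i (k + 1) + u`, `u ≤ k` (`u < k` if `i + 1 = r`), which determine `i` and `u`.
`CR`: if `z + h = y ∈ CR`: `y ∈ D`: `dom_half` gives `z = y ∈ D`, `h = 0`, impossible (cherries: `h = 1`); `y - 1 ∈ D`: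
`z = y - 1 ∈ D` and `h = 1`, so we have a cherry, excluded by `y ≠ e i s`; `y = 52 N`: `dom_range`.
-/

namespace Pool.Agent.Helper83.GD

open Finset

/-- The kinds of the residues (`z` the first element of the domino, `h` the half). -/
def h60Kd (n k r γ : ℕ) (E q e : ℕ → ℕ → ℤ) (qs : ℤ) (t : ℕ → ℤ) (i j s : ℕ) (z h : ℤ) : Prop :=
  (∃ j₀ h₀ : ℕ, h₀ < 2 ∧ pairPos n k γ i j₀ ∧ j = j₀ + h₀ ∧ z = q i j₀ + s * E i j₀ ∧ h = h₀) ∨
  (plainPos n k i j ∧ z = q i j ∧ h = s) ∨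
  (∃ u < 2, i < γ ∧ j = k + 18 + u ∧ z = e i (2 * u + s) - 1 ∧ h = 1) ∨
  (∃ d w : ℕ, d + 1 < r * (k + 1) ∧ z = t d ∧ h = s ∧ w ≤ k ∧ d = i * (k + 1) + w ∧
    ((w = k ∧ j = k + 14) ∨ (w < k ∧ j = pp n k i + 4 + w))) ∨
  (j = k + 14 ∧ i + 1 = r ∧ z = qs ∧ h = s)

theorem h60_Npos {n N k r mc μ : ℕ} (hP : Par n N k r mc μ) : 0 < N := by
  have h1 := hP.hk'
  have h2 := hP.hkN
  omega

/-- Two indices of the late dominoes. -/
theorem h60_idx {k i i' w w' : ℕ} (hw : w ≤ k) (hw' : w' ≤ k)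
    (h : i * (k + 1) + w = i' * (k + 1) + w') : i = i' ∧ w = w' := by
  have h1 : i = i' := by
    have a : (i * (k + 1) + w) / (k + 1) = i := by
      rw [Nat.mul_comm, Nat.mul_add_div (by omega), Nat.div_eq_of_lt (by omega), Nat.add_zero]
    have b : (i' * (k + 1) + w') / (k + 1) = i' := by
      rw [Nat.mul_comm, Nat.mul_add_div (by omega), Nat.div_eq_of_lt (by omega), Nat.add_zero]
    rw [← a, ← b, h]
  subst h1
  exact ⟨rfl, by omega⟩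

variable (n N k r mc μ γ : ℕ) (hP : Par n N k r mc μ) (a E q e b : ℕ → ℕ → ℤ)
    (f δ₁ M₃ : ℕ → ℤ) (qs : ℤ) (t : ℕ → ℤ) (FB D CR : Finset ℤ)
    (hO : OpsOK n N k r γ a E q FB (insert qs D)) (hL : Late n N k r γ μ E q D qs t)
    (hD : ∀ x ∈ D, (2 : ℤ) ∣ x ∧ 30 * (N : ℤ) ≤ x ∧ x ≤ 34 * N)
    (hqs : (2 : ℤ) ∣ qs ∧ 35 * (N : ℤ) ≤ qs ∧ qs ≤ 51 * N)
    (he : ∀ i < γ, ∀ s < 4, e i s - 1 ∈ D)
    (hei : ∀ i < γ, ∀ i' < γ, ∀ s < 4, ∀ s' < 4, e i s = e i' s' → i = i' ∧ s = s')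
    (hCR : ∀ y ∈ CR, (y ∈ D ∨ y - 1 ∈ D ∨ (n % 2 = 1 ∧ y = 52 * N)) ∧ ∀ i < γ, ∀ s < 4, y ≠ e i s)
    (hb : ∀ i < r, ∀ j < k + 24, Col n k r γ a E q e f δ₁ M₃ qs t i j (b i j))

include hP hO hL hD hqs he hb in
theorem h60_kd (i j s : ℕ) (hi : i < r) (hj : j < k + 24) (hs : s < 2) :
    ∃ z h : ℤ, a i (j + s) - b i j = z + h ∧ z ∈ dom n N ∧ (h = 0 ∨ h = 1) ∧
      h60Kd n k r γ E q e qs t i j s z h := by
  have hN := h60_Npos hP
  have hs' : (s : ℤ) = 0 ∨ (s : ℤ) = 1 := by omega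
  rcases hb i hi j hj with h1 | h1 | h1 | h1 | h1 | h1
  · obtain ⟨j₀, h₀, hh, hp, rfl, -, h2⟩ := h1
    refine ⟨q i j₀ + s * E i j₀, h₀, h2 s hs, ?_, by omega,
      Or.inl ⟨j₀, h₀, hh, hp, rfl, rfl, rfl⟩⟩
    have a1 := hO.hq i hi j₀ (Or.inl hp)
    have a2 := hO.hpair i hi j₀ hp
    rcases hs' with hs0 | hs1
    · rw [hs0, zero_mul, add_zero]
      exact dom_small n N hP.hN hN _ a1.1 a1.2.1 a1.2.2.1
    · rw [hs1, one_mul]
      exact dom_small n N hP.hN hN _ (dvd_add a1.1 a2.2.2.1) a1.2.2.2.1 a1.2.2.2.2.1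
  · obtain ⟨hp, -, h2⟩ := h1
    have a1 := hO.hq i hi j (Or.inr hp)
    exact ⟨q i j, s, h2 s hs, dom_small n N hP.hN hN _ a1.1 a1.2.1 a1.2.2.1, hs',
      Or.inr (Or.inl ⟨hp, rfl, rfl⟩)⟩
  · obtain ⟨u, hu, hiγ, hju, -, h2⟩ := h1
    have a1 := hD _ (he i hiγ (2 * u + s) (by omega))
    refine ⟨e i (2 * u + s) - 1, 1, by rw [h2 s hs]; ring,
      dom_small n N hP.hN hN _ a1.1 (by omega) (by omega), Or.inr rfl,
      Or.inr (Or.inr (Or.inl ⟨u, hu, hiγ, hju, rfl, rfl⟩))⟩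
  · obtain ⟨hjk, hir, -, h2⟩ := h1
    have hd : i * (k + 1) + k + 1 < r * (k + 1) := by
      have : (i + 1 + 1) * (k + 1) ≤ r * (k + 1) := Nat.mul_le_mul_right _ (by omega)
      nlinarith
    exact ⟨t (i * (k + 1) + k), s, h2 s hs, (hL.hd _ hd).1, hs',
      Or.inr (Or.inr (Or.inr (Or.inl ⟨_, k, hd, rfl, rfl, le_rfl, rfl, Or.inl ⟨rfl, hjk⟩⟩)))⟩
  · obtain ⟨hjk, hir, -, h2⟩ := h1
    exact ⟨qs, s, h2 s hs, dom_small n N hP.hN hN _ hqs.1 (by omega) hqs.2.2, hs',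
      Or.inr (Or.inr (Or.inr (Or.inr ⟨hjk, hir, rfl, rfl⟩)))⟩
  · obtain ⟨u, hu, hju, -, h2⟩ := h1
    have hd : i * (k + 1) + u + 1 < r * (k + 1) := by
      have : (i + 1) * (k + 1) ≤ r * (k + 1) := Nat.mul_le_mul_right _ (by omega)
      nlinarith
    exact ⟨t (i * (k + 1) + u), s, h2 s hs, (hL.hd _ hd).1, hs',
      Or.inr (Or.inr (Or.inr (Or.inl ⟨_, u, hd, rfl, rfl, hu.le, rfl, Or.inr ⟨hu, hju⟩⟩)))⟩

include hP hO hL hD hqs he hb in
theorem labR_range (i j s : ℕ) (hi : i < r) (hj : j < k + 24) (hs : s < 2) :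
    0 ≤ a i (j + s) - b i j ∧ a i (j + s) - b i j < n := by
  obtain ⟨z, h, h1, h2, h3, -⟩ := h60_kd n N k r mc μ γ hP a E q e b f δ₁ M₃ qs t FB D hO hL hD hqs
    he hb i j s hi hj hs
  have h4 := dom_range n N hP.hN z h2
  rw [h1]
  omega

/-- The kinds of the dominoes outside the late ones. -/
def h60Op (n k γ : ℕ) (E q : ℕ → ℕ → ℤ) (i j₀ : ℕ) (z : ℤ) : Prop :=
  opPos n k γ i j₀ ∧ z ∈ Dset (E i j₀) (q i j₀)

theorem h60_memD {E q : ℤ} {s : ℕ} (hs : s < 2) : q + s * E ∈ Dset E q := by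
  unfold Dset
  rw [Finset.mem_insert, Finset.mem_singleton]
  have : s = 0 ∨ s = 1 := by omega
  rcases this with rfl | rfl
  · left
    simp
  · right
    simp

theorem h60_memD0 {E q : ℤ} : q ∈ Dset E q := by
  unfold Dset
  exact Finset.mem_insert_self _ _

include hL in
theorem h60_tinj {d d' : ℕ} (hd : d + 1 < r * (k + 1)) (hd' : d' + 1 < r * (k + 1))
    (h : t d = t d') : d = d' := by
  rcases Nat.lt_trichotomy d d' with h1 | h1 | h1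
  · have := hL.hm d d' h1 hd'
    omega
  · exact h1
  · have := hL.hm d' d h1 hd
    omega

include hD hqs in
theorem h60_qsD (hN : 0 < N) : qs ∉ D := by
  intro h
  have := hD qs h
  omega

include hP hO hL hD hqs he hei hb in
theorem labR_inj (i i' j j' s s' : ℕ) (hi : i < r) (hi' : i' < r) (hj : j < k + 24)
    (hj' : j' < k + 24) (hs : s < 2) (hs' : s' < 2)
    (h : a i (j + s) - b i j = a i' (j' + s') - b i' j') : i = i' ∧ j = j' ∧ s = s' := by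
  have hN := h60_Npos hP
  obtain ⟨z, x, h1, h2, h3, h4⟩ := h60_kd n N k r mc μ γ hP a E q e b f δ₁ M₃ qs t FB D hO hL hD hqs
    he hb i j s hi hj hs
  obtain ⟨z', x', h1', h2', h3', h4'⟩ := h60_kd n N k r mc μ γ hP a E q e b f δ₁ M₃ qs t FB D hO hL
    hD hqs he hb i' j' s' hi' hj' hs'
  rw [h1, h1'] at h
  obtain ⟨hz, hx⟩ := dom_half n N hP.hN z z' h2 h2' x x' h3 h3' h
  subst hz
  subst hx
  have hqsD := h60_qsD N qs D hD hqs hN
  -- a pair or plain column against the late dominoes and cherries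
  have hop : ∀ i < r, ∀ j₀, opPos n k γ i j₀ → z ∈ Dset (E i j₀) (q i j₀) →
      z ∉ D ∧ z ≠ qs ∧ ∀ d, d + 1 < r * (k + 1) → z ≠ t d := by
    intro i hi j₀ hp hz
    have a1 := (hO.hq i hi j₀ hp).2.2.2.2.2
    have a2 := Finset.disjoint_left.mp a1 hz
    rw [Finset.mem_insert, not_or] at a2
    refine ⟨a2.2, a2.1, ?_⟩
    rintro d hd rfl
    exact (hL.hd d hd).2.2.2 i hi j₀ hp hz
  have hopp : ∀ j₀ j₀', opPos n k γ i j₀ → opPos n k γ i' j₀' → z ∈ Dset (E i j₀) (q i j₀) →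
      z ∈ Dset (E i' j₀') (q i' j₀') → i = i' ∧ j₀ = j₀' := by
    intro j₀ j₀' hp hp' hz hz'
    by_contra hc
    have hc' : i ≠ i' ∨ j₀ ≠ j₀' := by
      by_contra hc2
      push Not at hc2
      exact hc hc2
    exact Finset.disjoint_left.mp (hO.hqq i hi i' hi' j₀ j₀' hp hp' hc') hz hz'
  rcases h4 with ⟨j₀, g, hg, hp, hjj, hz, hx⟩ | ⟨hp, hz, hx⟩ | ⟨u, hu, hγ, hju, hz, hx⟩ |
      ⟨d, w, hd, hz, hx, hw, hdw, hjw⟩ | ⟨hjk, hir, hz, hx⟩ <;>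
    rcases h4' with ⟨j₀', g', hg', hp', hjj', hz', hx'⟩ | ⟨hp', hz', hx'⟩ |
      ⟨u', hu', hγ', hju', hz', hx'⟩ | ⟨d', w', hd', hz', hx', hw', hdw', hjw'⟩ |
      ⟨hjk', hir', hz', hx'⟩
  · -- pair, pair
    obtain ⟨rfl, rfl⟩ := hopp j₀ j₀' (Or.inl hp) (Or.inl hp') (hz ▸ h60_memD hs)
      (hz' ▸ h60_memD hs')
    have hE := (hO.hpair i hi j₀ hp).2.2.2
    rw [hz] at hz'
    have h5 : ((s : ℤ) - s') * E i j₀ = 0 := by linarith
    rcases mul_eq_zero.mp h5 with h6 | h6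
    · exact ⟨rfl, by omega, by omega⟩
    · exact absurd h6 hE
  · -- pair, plain
    obtain ⟨rfl, rfl⟩ := hopp j₀ j' (Or.inl hp) (Or.inr hp') (hz ▸ h60_memD hs)
      (hz' ▸ h60_memD0)
    exact absurd hp' (pair_plain n k γ i j₀ hP.hk' hp)
  · -- pair, cherry
    exact absurd (hz' ▸ he i' hγ' _ (by omega)) (hop i hi j₀ (Or.inl hp) (hz ▸ h60_memD hs)).1
  · exact absurd hz' ((hop i hi j₀ (Or.inl hp) (hz ▸ h60_memD hs)).2.2 d' hd')
  · exact absurd hz' (hop i hi j₀ (Or.inl hp) (hz ▸ h60_memD hs)).2.1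
  · -- plain, pair
    obtain ⟨rfl, rfl⟩ := hopp j j₀' (Or.inr hp) (Or.inl hp') (hz ▸ h60_memD0)
      (hz' ▸ h60_memD hs')
    exact absurd hp (pair_plain n k γ i j hP.hk' hp')
  · -- plain, plain
    obtain ⟨rfl, rfl⟩ := hopp j j' (Or.inr hp) (Or.inr hp') (hz ▸ h60_memD0) (hz' ▸ h60_memD0)
    exact ⟨rfl, rfl, by omega⟩
  · exact absurd (hz' ▸ he i' hγ' _ (by omega)) (hop i hi j (Or.inr hp) (hz ▸ h60_memD0)).1
  · exact absurd hz' ((hop i hi j (Or.inr hp) (hz ▸ h60_memD0)).2.2 d' hd')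
  · exact absurd hz' (hop i hi j (Or.inr hp) (hz ▸ h60_memD0)).2.1
  · -- cherry, pair
    exact absurd (hz ▸ he i hγ _ (by omega))
      (hop i' hi' j₀' (Or.inl hp') (hz' ▸ h60_memD hs')).1
  · exact absurd (hz ▸ he i hγ _ (by omega)) (hop i' hi' j' (Or.inr hp') (hz' ▸ h60_memD0)).1
  · -- cherry, cherry
    obtain ⟨h5, h6⟩ := hei i hγ i' hγ' (2 * u + s) (by omega) (2 * u' + s') (by omega)
      (by linarith)
    exact ⟨h5, by omega, by omega⟩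
  · have h5 : z ∈ D := hz ▸ he i hγ _ (by omega)
    exact absurd (hz' ▸ h5) (hL.hd d' hd').2.1
  · have h5 : z ∈ D := hz ▸ he i hγ _ (by omega)
    exact absurd (hz' ▸ h5) hqsD
  · -- late, pair
    exact absurd hz ((hop i' hi' j₀' (Or.inl hp') (hz' ▸ h60_memD hs')).2.2 d hd)
  · exact absurd hz ((hop i' hi' j' (Or.inr hp') (hz' ▸ h60_memD0)).2.2 d hd)
  · have h5 : z ∈ D := hz' ▸ he i' hγ' _ (by omega)
    exact absurd (hz ▸ h5) (hL.hd d hd).2.1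
  · -- late, late
    have h5 := h60_tinj n N k r μ γ E q qs t D hL hd hd' (hz ▸ hz')
    rw [hdw, hdw'] at h5
    obtain ⟨rfl, rfl⟩ := h60_idx hw hw' h5
    exact ⟨rfl, by omega, by omega⟩
  · exact absurd (hz ▸ hz') (hL.hd d hd).2.2.1
  · -- last, pair
    exact absurd hz (hop i' hi' j₀' (Or.inl hp') (hz' ▸ h60_memD hs')).2.1
  · exact absurd hz (hop i' hi' j' (Or.inr hp') (hz' ▸ h60_memD0)).2.1
  · have h5 : z ∈ D := hz' ▸ he i' hγ' _ (by omega)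
    exact absurd (hz ▸ h5) hqsD
  · exact absurd (hz' ▸ hz) (hL.hd d' hd').2.2.1
  · exact ⟨by omega, by omega, by omega⟩

include hP hO hL hD hqs he hCR hb in
theorem labR_core (i j s : ℕ) (hi : i < r) (hj : j < k + 24) (hs : s < 2) :
    a i (j + s) - b i j ∉ CR := by
  have hN := h60_Npos hP
  obtain ⟨z, x, h1, h2, h3, h4⟩ := h60_kd n N k r mc μ γ hP a E q e b f δ₁ M₃ qs t FB D hO hL hD hqs
    he hb i j s hi hj hs
  have hqsD := h60_qsD N qs D hD hqs hN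
  have hop : ∀ j₀, opPos n k γ i j₀ → z ∈ Dset (E i j₀) (q i j₀) → z ∉ D := by
    intro j₀ hp hz
    have a1 := (hO.hq i hi j₀ hp).2.2.2.2.2
    have a2 := Finset.disjoint_left.mp a1 hz
    rw [Finset.mem_insert, not_or] at a2
    exact a2.2
  -- `z ∈ D` only for the cherries
  have key : z ∈ D → ∃ s' < 4, i < γ ∧ z = e i s' - 1 ∧ x = 1 := by
    intro hzD
    rcases h4 with ⟨j₀, g, hg, hp, hjj, hz, hx⟩ | ⟨hp, hz, hx⟩ | ⟨u, hu, hγ, hju, hz, hx⟩ |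
      ⟨d, w, hd, hz, hx, hw, hdw, hjw⟩ | ⟨hjk, hir, hz, hx⟩
    · exact absurd hzD (hop j₀ (Or.inl hp) (hz ▸ h60_memD hs))
    · exact absurd hzD (hop j (Or.inr hp) (hz ▸ h60_memD0))
    · exact ⟨2 * u + s, by omega, hγ, hz, hx⟩
    · exact absurd (hz ▸ hzD) (hL.hd d hd).2.1
    · exact absurd (hz ▸ hzD) hqsD
  rw [h1]
  intro hy
  obtain ⟨h5, h6⟩ := hCR _ hy
  rcases h5 with h5 | h5 | ⟨h5, h7⟩
  · have a1 := hD _ h5
    have a2 := dom_small n N hP.hN hN _ a1.1 (by omega) (by omega)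
    obtain ⟨a3, a4⟩ := dom_half n N hP.hN z (z + x) h2 a2 x 0 h3 (Or.inl rfl) (by ring)
    rw [← a3] at h5
    obtain ⟨s', _, _, _, a5⟩ := key h5
    omega
  · have a1 := hD _ h5
    have a2 := dom_small n N hP.hN hN _ a1.1 (by omega) (by omega)
    obtain ⟨a3, a4⟩ := dom_half n N hP.hN z (z + x - 1) h2 a2 x 1 h3 (Or.inr rfl) (by ring)
    rw [← a3] at h5
    obtain ⟨s', a6, a7, a8, a5⟩ := key h5
    exact h6 i a7 s' a6 (by omega)
  · have a1 := (dom_range n N hP.hN z h2).2.2 h5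
    omega

end Pool.Agent.Helper83.GD
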