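import Pool.Agent.Helper83.GD.Enum
import Pool.Agent.Helper83.GD.Count

/-!
# GHD-LATE: the dominoes for the tiles and the pool

Proof. Let `S` be the set of the `τ = (i, j)` with `i < r`, `j < k + 24`, `opPos n k γ i j`, and
`U = S.biUnion fun τ => Dset (E τ.1 τ.2) (q τ.1 τ.2)`. By `hqq` its cardinality is
`2 (7 r - γ) + 9 r = 23 r - 2 γ` (`count_pair`, `count_plain`, `Dset` has two elements for `E ≠ 0` and one for
`E = 0`). `D`, `U`, `{qs}` are disjoint subsets of `dom n N` (`dom_small`). Let `Q` be the rest of `dom n N`: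
`Q.card = n / 2 - (D.card + 23 r - 2 γ + 1) = r (k + 1) - 1` and `n / 2 - Q.card = μ`
(`2 D.card + n % 2 = mc + 4 γ`, `Par`: `n = mc + 2 r k + 48 r`, `μ + r k + r = n / 2 + 1`). Then `enum`.
-/

namespace Pool.Agent.Helper83.GD

open Finset

theorem late (n N k r mc μ γ : ℕ) (hP : Par n N k r mc μ) (hγ : γ ≤ r) (a E q : ℕ → ℕ → ℤ)
    (FB D : Finset ℤ) (qs : ℤ) (hO : OpsOK n N k r γ a E q FB (insert qs D))
    (hD : ∀ x ∈ D, (2 : ℤ) ∣ x ∧ 30 * (N : ℤ) ≤ x ∧ x ≤ 34 * N)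
    (hqs : (2 : ℤ) ∣ qs ∧ 35 * (N : ℤ) ≤ qs ∧ qs ≤ 51 * N)
    (hDc : 2 * D.card + n % 2 = mc + 4 * γ) (hr : 0 < r) :
    ∃ t : ℕ → ℤ, Late n N k r γ μ E q D qs t := by
  classical
  obtain ⟨hN, hN', hn, hk, hk', hkN, hrN, hmr, hμ⟩ := hP
  have hN0 : 0 < N := by omega
  set Sp := (range r ×ˢ range (k + 24)).filter fun τ => pairPos n k γ τ.1 τ.2 with hSp
  set Sq := (range r ×ˢ range (k + 24)).filter fun τ => plainPos n k τ.1 τ.2 with hSq
  have hcp : Sp.card = 7 * r - γ := count_pair n k r γ hk' hγ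
  have hcq : Sq.card = 9 * r := count_plain n k r hk'
  have hdis : Disjoint Sp Sq := by
    rw [Finset.disjoint_left]
    intro τ h1 h2
    exact pair_plain n k γ τ.1 τ.2 hk' (Finset.mem_filter.1 h1).2 (Finset.mem_filter.1 h2).2
  have hS : ∀ τ ∈ Sp ∪ Sq, τ.1 < r ∧ opPos n k γ τ.1 τ.2 := by
    intro τ hτ
    rcases Finset.mem_union.1 hτ with h | h
    · obtain ⟨h1, h2⟩ := Finset.mem_filter.1 h
      exact ⟨Finset.mem_range.1 (Finset.mem_product.1 h1).1, Or.inl h2⟩
    · obtain ⟨h1, h2⟩ := Finset.mem_filter.1 h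
      exact ⟨Finset.mem_range.1 (Finset.mem_product.1 h1).1, Or.inr h2⟩
  set U := (Sp ∪ Sq).biUnion fun τ => Dset (E τ.1 τ.2) (q τ.1 τ.2) with hU
  have hUc : U.card = 23 * r - 2 * γ := by
    rw [hU, Finset.card_biUnion]
    · rw [Finset.sum_union hdis]
      have e1 : ∑ τ ∈ Sp, (Dset (E τ.1 τ.2) (q τ.1 τ.2)).card = 2 * Sp.card := by
        rw [Finset.sum_const_nat (m := 2), mul_comm]
        intro τ hτ
        obtain ⟨h1, h2⟩ := Finset.mem_filter.1 hτ
        have h3 := (hO.hpair τ.1 (Finset.mem_range.1 (Finset.mem_product.1 h1).1) τ.2 h2).2.2.2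
        unfold Dset
        exact Finset.card_pair (by omega)
      have e2 : ∑ τ ∈ Sq, (Dset (E τ.1 τ.2) (q τ.1 τ.2)).card = Sq.card := by
        rw [Finset.sum_const_nat (m := 1), mul_one]
        intro τ hτ
        obtain ⟨h1, h2⟩ := Finset.mem_filter.1 hτ
        have h3 := (hO.hplain τ.1 (Finset.mem_range.1 (Finset.mem_product.1 h1).1) τ.2 h2).2
        unfold Dset
        rw [h3, add_zero, Finset.pair_eq_singleton, Finset.card_singleton]
      rw [e1, e2, hcp, hcq]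
      omega
    · intro τ hτ τ' hτ' hne
      obtain ⟨h1, h2⟩ := hS τ hτ
      obtain ⟨h3, h4⟩ := hS τ' hτ'
      apply hO.hqq τ.1 h1 τ'.1 h3 τ.2 τ'.2 h2 h4
      by_contra hcon
      push Not at hcon
      exact hne (Prod.ext hcon.1 hcon.2)
  have hUdom : U ⊆ dom n N := by
    intro x hx
    obtain ⟨τ, hτ, hx⟩ := Finset.mem_biUnion.1 hx
    obtain ⟨h1, h2⟩ := hS τ hτ
    obtain ⟨a1, a2, a3, a4, a5, -⟩ := hO.hq τ.1 h1 τ.2 h2
    have hE : (2 : ℤ) ∣ E τ.1 τ.2 := by
      rcases h2 with h | h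
      · exact (hO.hpair τ.1 h1 τ.2 h).2.2.1
      · rw [(hO.hplain τ.1 h1 τ.2 h).2]
        exact dvd_zero _
    rcases Finset.mem_insert.1 hx with rfl | hx
    · exact dom_small n N hN hN0 _ a1 a2 a3
    · rw [Finset.mem_singleton.1 hx]
      exact dom_small n N hN hN0 _ (dvd_add a1 hE) a4 a5
  have hDdom : insert qs D ⊆ dom n N := by
    intro x hx
    rcases Finset.mem_insert.1 hx with rfl | hx
    · exact dom_small n N hN hN0 _ hqs.1 (by omega) hqs.2.2
    · obtain ⟨h1, h2, h3⟩ := hD x hx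
      exact dom_small n N hN hN0 _ h1 (by omega) (by omega)
  have hqD : qs ∉ D := by
    intro h
    have := (hD qs h).2.2
    omega
  have hUD : Disjoint U (insert qs D) := by
    rw [hU, Finset.disjoint_biUnion_left]
    intro τ hτ
    obtain ⟨h1, h2⟩ := hS τ hτ
    exact (hO.hq τ.1 h1 τ.2 h2).2.2.2.2.2
  set Q := dom n N \ (U ∪ insert qs D) with hQ
  have hQsub : Q ⊆ dom n N := Finset.sdiff_subset
  have hQc : Q.card = n / 2 - (23 * r - 2 * γ + (D.card + 1)) := by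
    rw [hQ, Finset.card_sdiff_of_subset (Finset.union_subset hUdom hDdom), card_dom n N hN,
      Finset.card_union_of_disjoint hUD, hUc, Finset.card_insert_of_notMem hqD]
  have hrk : r * (k + 1) = r * k + r := by ring
  have hQr : Q.card + 1 = r * (k + 1) := by
    rw [hQc, hrk]
    have hk1 : r ≤ r * k := Nat.le_mul_of_pos_right r (by omega)
    omega
  have hQμ : n / 2 - Q.card = μ := by
    rw [hrk] at hQr
    omega
  obtain ⟨t, ht1, ht2, ht3⟩ := enum n N hN Q hQsub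
  refine ⟨t, ?_, ?_, ?_⟩
  · intro j hj
    have h1 := ht1 j (by omega)
    rw [hQ, Finset.mem_sdiff, Finset.mem_union, not_or, Finset.mem_insert, not_or] at h1
    obtain ⟨h2, h3, h4, h5⟩ := h1
    refine ⟨h2, h5, h4, ?_⟩
    intro i hi j' hj' hmem
    apply h3
    rw [hU, Finset.mem_biUnion]
    have hlt := opPos_lt n k γ i j' hj'
    refine ⟨(i, j'), ?_, hmem⟩
    rw [Finset.mem_union]
    have hm : (i, j') ∈ range r ×ˢ range (k + 24) :=
      Finset.mem_product.2 ⟨Finset.mem_range.2 hi, Finset.mem_range.2 (by omega)⟩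
    rcases hj' with h | h
    · exact Or.inl (Finset.mem_filter.2 ⟨hm, h⟩)
    · exact Or.inr (Finset.mem_filter.2 ⟨hm, h⟩)
  · intro j j' hjj hj'
    exact ht2 j j' hjj (by omega)
  · intro j hj
    have h1 := ht3 j (by omega)
    rw [hQμ] at h1
    exact h1

end Pool.Agent.Helper83.GD
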