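import Pool.Agent.Helper83.GD.Defs

/-!
# GHD-PATH: only one vertex without children

Every other vertex has exactly one child (count: `n` vertices have a parent, and the parents are the
`n` vertices which have children), so `dep` is injective with the values `0 … n`. Labels:
`m` at depth `2 m` and `-m` at depth `2 m + 1`; then `res x = dep x - 1`. The labels of the even
depths are `0 … n / 2`, those of the odd depths `0, -1, …, -(n - 1) / 2`.
-/

namespace Pool.Agent.Helper83.GD

open Finset

theorem h22_cast_inj {n a b : ℕ} (ha : a < n) (hb : b < n) (h : (a : ZMod n) = (b : ZMod n)) :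
    a = b := by
  rw [ZMod.natCast_eq_natCast_iff'] at h
  rwa [Nat.mod_eq_of_lt ha, Nat.mod_eq_of_lt hb] at h

theorem path_case (V : Type) [Fintype V] [DecidableEq V] (n : ℕ) (hn : Fintype.card V = n + 1)
    (hn1 : 1 ≤ n) (r0 : V) (par : V → V) (dep : V → ℕ) (hd0 : dep r0 = 0)
    (hdp : ∀ x, x ≠ r0 → dep (par x) + 1 = dep x)
    (hL : (univ.filter fun x => ∀ y, y ≠ r0 → par y ≠ x).card ≤ 1) :
    ∃ f : V → ZMod n, (∀ x y, Even (dep x) → Even (dep y) → f x = f y → x = y) ∧
      (∀ x y, ¬ Even (dep x) → ¬ Even (dep y) → f x = f y → x = y) ∧
      ∀ x y, x ≠ r0 → y ≠ r0 → res par dep f x = res par dep f y → x = y := by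
  classical
  -- par is injective away from the root
  have hS : (univ.erase r0).card = n := by
    rw [Finset.card_erase_of_mem (Finset.mem_univ _), Finset.card_univ, hn]
    rfl
  have hcompl : univ.filter (fun x => ¬ ∀ y, y ≠ r0 → par y ≠ x) = (univ.erase r0).image par := by
    ext x
    simp only [Finset.mem_filter, Finset.mem_univ, true_and, Finset.mem_image, Finset.mem_erase,
      and_true]
    push Not
    rfl
  have hsum := Finset.card_filter_add_card_filter_not (s := (univ : Finset V))
    (fun x => ∀ y, y ≠ r0 → par y ≠ x)
  rw [hcompl, Finset.card_univ, hn] at hsum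
  have hle : ((univ.erase r0).image par).card ≤ (univ.erase r0).card := Finset.card_image_le
  have hcard : ((univ.erase r0).image par).card = (univ.erase r0).card := by omega
  have hinj : Set.InjOn par (univ.erase r0 : Finset V) := Finset.card_image_iff.1 hcard
  have hpar : ∀ x y, x ≠ r0 → y ≠ r0 → par x = par y → x = y := by
    intro x y hx hy h
    exact hinj (by simpa using hx) (by simpa using hy) h
  -- dep is injective
  have hdinj : ∀ d x y, dep x = d → dep y = d → x = y := by
    intro d
    induction d with
    | zero =>
      intro x y hx hy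
      have h1 : x = r0 := by
        by_contra h
        have := hdp x h
        omega
      have h2 : y = r0 := by
        by_contra h
        have := hdp y h
        omega
      rw [h1, h2]
    | succ d ih =>
      intro x y hx hy
      have h1 : x ≠ r0 := by
        rintro rfl
        omega
      have h2 : y ≠ r0 := by
        rintro rfl
        omega
      have e1 := hdp x h1
      have e2 := hdp y h2
      exact hpar x y h1 h2 (ih _ _ (by omega) (by omega))
  have hex : ∀ d x, dep x = d → ∀ j ≤ d, ∃ y, dep y = j := by
    intro d
    induction d with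
    | zero =>
      intro x hx j hj
      exact ⟨x, by omega⟩
    | succ d ih =>
      intro x hx j hj
      by_cases h : j = d + 1
      · exact ⟨x, by omega⟩
      · have h1 : x ≠ r0 := by
          rintro rfl
          omega
        have e1 := hdp x h1
        exact ih (par x) (by omega) j (by omega)
  have hdle : ∀ x, dep x ≤ n := by
    intro x
    have h1 : Finset.range (dep x + 1) ⊆ univ.image dep := by
      intro j hj
      rw [Finset.mem_range] at hj
      obtain ⟨y, hy⟩ := hex (dep x) x rfl j (by omega)
      exact Finset.mem_image.2 ⟨y, Finset.mem_univ _, hy⟩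
    have h2 := (Finset.card_le_card h1).trans Finset.card_image_le
    rw [Finset.card_range, Finset.card_univ, hn] at h2
    omega
  -- the labelling
  let f : V → ZMod n := fun x =>
    if Even (dep x) then ((dep x / 2 : ℕ) : ZMod n) else -((dep x / 2 : ℕ) : ZMod n)
  have hres : ∀ x, x ≠ r0 → res par dep f x = ((dep x - 1 : ℕ) : ZMod n) := by
    intro x hx
    have e1 := hdp x hx
    by_cases hev : Even (dep x)
    · obtain ⟨m, hm⟩ := hev
      have hm1 : 1 ≤ m := by omega
      have hpd : dep (par x) = 2 * (m - 1) + 1 := by omega
      have hno : ¬ Even (dep (par x)) := by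
        rw [hpd, Nat.not_even_iff_odd]
        exact ⟨m - 1, rfl⟩
      have hye : Even (dep x) := ⟨m, hm⟩
      have q1 : dep x / 2 = m := by omega
      have q2 : dep (par x) / 2 = m - 1 := by omega
      have q3 : dep x - 1 = m + (m - 1) := by omega
      simp only [res, f, if_pos hye, if_neg hno, q1, q2, q3]
      push_cast
      ring
    · have hod : Odd (dep x) := Nat.not_even_iff_odd.1 hev
      obtain ⟨m, hm⟩ := hod
      have hpe : Even (dep (par x)) := ⟨m, by omega⟩
      have q1 : dep x / 2 = m := by omega
      have q2 : dep (par x) / 2 = m := by omega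
      have q3 : dep x - 1 = m + m := by omega
      simp only [res, f, if_neg hev, if_pos hpe, q1, q2, q3]
      push_cast
      ring
  refine ⟨f, ?_, ?_, ?_⟩
  · intro x y hx hy h
    simp only [f, if_pos hx, if_pos hy] at h
    have h1 := hdle x
    have h2 := hdle y
    have h3 := h22_cast_inj (by omega) (by omega) h
    obtain ⟨a, ha⟩ := hx
    obtain ⟨b, hb⟩ := hy
    exact hdinj (dep x) x y rfl (by omega)
  · intro x y hx hy h
    simp only [f, if_neg hx, if_neg hy] at h
    have h1 := hdle x
    have h2 := hdle y
    have h3 := h22_cast_inj (by omega) (by omega) (neg_injective h)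
    obtain ⟨a, ha⟩ := Nat.not_even_iff_odd.1 hx
    obtain ⟨b, hb⟩ := Nat.not_even_iff_odd.1 hy
    exact hdinj (dep x) x y rfl (by omega)
  · intro x y hx hy h
    rw [hres x hx, hres y hy] at h
    have h1 := hdle x
    have h2 := hdle y
    have e1 := hdp x hx
    have e2 := hdp y hy
    have h3 := h22_cast_inj (by omega) (by omega) h
    exact hdinj (dep x) x y rfl (by omega)

end Pool.Agent.Helper83.GD
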