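import Pool.Agent.Helper83.GD.Defs

/-!
# GHD-ROOT: parents and depths

Proof. `dep x = T.dist r0 x`; for `x ≠ r0` let `par x` be the second vertex of the path from `x` to `r0` (for instance
`(hT.existsUnique_path x r0).choose` and `getVert 1`, or: there is a neighbour `z` of `x` with
`T.dist r0 z + 1 = T.dist r0 x`). Two adjacent vertices of a tree have different distances from `r0` and
(uniqueness of paths) a vertex has only one neighbour which is nearer to `r0`. The vertex `y0` is the only neighbour
of `r0`.
-/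

namespace Pool.Agent.Helper83.GD

open Finset

/-- A vertex of a tree has a unique neighbour which is nearer to the root. -/
theorem root_unique {V : Type} {T : SimpleGraph V} (hT : T.IsTree) {r0 x z z' : V}
    (hz : T.Adj x z) (hz' : T.Adj x z') (h : T.dist r0 x = T.dist r0 z + 1)
    (h' : T.dist r0 x = T.dist r0 z' + 1) : z = z' := by
  obtain ⟨q, hq⟩ := hT.connected.exists_walk_length_eq_dist z r0
  obtain ⟨q', hq'⟩ := hT.connected.exists_walk_length_eq_dist z' r0
  have e1 : (SimpleGraph.Walk.cons hz q).IsPath := by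
    apply SimpleGraph.Walk.isPath_of_length_eq_dist
    rw [SimpleGraph.Walk.length_cons, hq, SimpleGraph.dist_comm (u := z), SimpleGraph.dist_comm (u := x), h]
  have e2 : (SimpleGraph.Walk.cons hz' q').IsPath := by
    apply SimpleGraph.Walk.isPath_of_length_eq_dist
    rw [SimpleGraph.Walk.length_cons, hq', SimpleGraph.dist_comm (u := z'),
      SimpleGraph.dist_comm (u := x), h']
  have e3 := (hT.existsUnique_path x r0).unique e1 e2
  have e4 := congrArg SimpleGraph.Walk.snd e3
  simpa using e4

/-- A vertex different from the root has a neighbour which is nearer to the root. -/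
theorem root_exists {V : Type} {T : SimpleGraph V} (hT : T.IsTree) {r0 x : V} (hx : x ≠ r0) :
    ∃ z, T.Adj x z ∧ T.dist r0 x = T.dist r0 z + 1 := by
  obtain ⟨q, hq⟩ := hT.connected.exists_walk_length_eq_dist x r0
  cases q with
  | nil => exact absurd rfl hx
  | cons hz q =>
    rename_i z
    refine ⟨z, hz, ?_⟩
    rw [SimpleGraph.Walk.length_cons] at hq
    have h1 : T.dist z r0 ≤ q.length := SimpleGraph.dist_le q
    rcases hT.dist_eq_dist_add_one_of_adj r0 hz with h | h
    · exact h
    · rw [SimpleGraph.dist_comm (u := r0) (v := z), SimpleGraph.dist_comm (u := r0) (v := x)] at h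
      omega

/-- Parents and depths of a tree with a leaf `r0` as root. -/
theorem exists_root (V : Type) [Fintype V] [DecidableEq V] (T : SimpleGraph V) [DecidableRel T.Adj]
    (hT : T.IsTree) (hn : 2 ≤ Fintype.card V) (r0 : V) (hr0 : T.degree r0 = 1) :
    ∃ (par : V → V) (dep : V → ℕ) (y0 : V), dep r0 = 0 ∧
      (∀ x, x ≠ r0 → T.Adj x (par x) ∧ dep (par x) + 1 = dep x) ∧
      (∀ u w, T.Adj u w → (u ≠ r0 ∧ par u = w) ∨ (w ≠ r0 ∧ par w = u)) ∧
      y0 ≠ r0 ∧ par y0 = r0 ∧ (∀ y, y ≠ r0 → par y = r0 → y = y0) ∧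
      ∀ x, x ≠ r0 → (∀ y, y ≠ r0 → par y ≠ x) → T.degree x = 1 := by
  classical
  set par : V → V := fun x => if h : x ≠ r0 then (root_exists hT h).choose else r0 with hpar
  have par_eq : ∀ x, ∀ h : x ≠ r0, T.Adj x (par x) ∧ T.dist r0 x = T.dist r0 (par x) + 1 := by
    intro x h
    have e : par x = (root_exists hT h).choose := by
      rw [hpar]; simp only [dif_pos h]
    rw [e]
    exact (root_exists hT h).choose_spec
  have hadj : ∀ u w, T.Adj u w → (u ≠ r0 ∧ par u = w) ∨ (w ≠ r0 ∧ par w = u) := by
    intro u w huw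
    rcases hT.dist_eq_dist_add_one_of_adj r0 huw with h | h
    · left
      have hu : u ≠ r0 := by
        rintro rfl
        rw [SimpleGraph.dist_self] at h
        omega
      obtain ⟨e1, e2⟩ := par_eq u hu
      exact ⟨hu, root_unique hT e1 huw e2 h⟩
    · right
      have hw : w ≠ r0 := by
        rintro rfl
        rw [SimpleGraph.dist_self] at h
        omega
      obtain ⟨e1, e2⟩ := par_eq w hw
      exact ⟨hw, root_unique hT e1 huw.symm e2 h⟩
  rw [SimpleGraph.degree, Finset.card_eq_one] at hr0
  obtain ⟨y0, hy0⟩ := hr0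
  have hr : ∀ y, T.Adj r0 y ↔ y = y0 := by
    intro y
    rw [← SimpleGraph.mem_neighborFinset, hy0, Finset.mem_singleton]
  have hy1 : y0 ≠ r0 ∧ par y0 = r0 := by
    rcases hadj r0 y0 ((hr y0).2 rfl) with h | h
    · exact absurd rfl h.1
    · exact h
  refine ⟨par, fun x => T.dist r0 x, y0, SimpleGraph.dist_self, ?_, hadj, hy1.1, hy1.2, ?_, ?_⟩
  · intro x hx
    obtain ⟨e1, e2⟩ := par_eq x hx
    exact ⟨e1, e2.symm⟩
  · intro y hy hpy
    have e1 := (par_eq y hy).1
    rw [hpy] at e1
    exact (hr y).1 e1.symm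
  · intro x hx hch
    rw [SimpleGraph.degree, Finset.card_eq_one]
    refine ⟨par x, ?_⟩
    ext w
    rw [SimpleGraph.mem_neighborFinset, Finset.mem_singleton]
    constructor
    · intro hw
      rcases hadj x w hw with h | h
      · exact h.2.symm
      · exact absurd h.2 (hch w h.1)
    · rintro rfl
      exact (par_eq x hx).1

end Pool.Agent.Helper83.GD
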