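import Pool.Agent.Helper83.GD.Rooted4
import Pool.Agent.Helper83.GD.Root
import Pool.Agent.Helper83.GD.PathCase
import Pool.Agent.Helper83.GD.Cut
import Pool.Agent.Helper83.GD.Cyc

/-!
# GHD: trees with few leaves decompose `K_{n,n}`
-/

namespace Pool.Agent.Helper83.GD

open Finset Pool.Agent.Helper19.GH

/-- Trees with few leaves, explicit constant. -/
theorem mainD' (V : Type) [Fintype V] (T : SimpleGraph V) [DecidableRel T.Adj] (n : ℕ)
    (hT : T.IsTree) (hn : Fintype.card V = n + 1)
    (hL : 8 * 200052 ^ 2 * (univ.filter fun v => T.degree v = 1).card ≤ n) :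
    Decomposes T (completeBipartiteGraph (Fin n) (Fin n)) := by
  classical
  rcases Nat.eq_zero_or_pos n with h0 | hn1
  · subst h0
    exact ⟨0, fun i => i.elim0, fun i => i.elim0, fun i => i.elim0, fun x => by
      rcases x with x | x <;> exact x.elim0⟩
  have : Nontrivial V := Fintype.one_lt_card_iff_nontrivial.mp (by omega)
  obtain ⟨r0, hr0⟩ := hT.exists_vert_degree_one_of_nontrivial
  obtain ⟨par, dep, y0, hd0, hpar, hadj, hy0, hpy, hy0', hleaf⟩ :=
    exists_root V T hT (by omega) r0 hr0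
  have hdp : ∀ x, x ≠ r0 → dep (par x) + 1 = dep x := fun x hx => (hpar x hx).2
  suffices h : ∃ f : V → ZMod n, (∀ x y, Even (dep x) → Even (dep y) → f x = f y → x = y) ∧
      (∀ x y, ¬ Even (dep x) → ¬ Even (dep y) → f x = f y → x = y) ∧
      ∀ x y, x ≠ r0 → y ≠ r0 → res par dep f x = res par dep f y → x = y by
    obtain ⟨f, h1, h2, h3⟩ := h
    exact cyc V T hT n hn hn1 r0 par dep hdp hadj f h1 h2 h3
  set L := univ.filter fun x => ∀ y, y ≠ r0 → par y ≠ x with hLdef
  rcases Nat.lt_or_ge 1 L.card with hL1 | hL1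
  swap
  · exact path_case V n hn hn1 r0 par dep hd0 hdp (by convert hL1)
  obtain ⟨l1, h1, l2, h2, h12⟩ := one_lt_card.mp hL1
  have hLsub : L ⊆ univ.filter fun v => T.degree v = 1 := by
    intro x hx
    rw [hLdef, mem_filter] at hx
    refine mem_filter.mpr ⟨mem_univ _, hleaf x ?_ hx.2⟩
    rintro rfl
    exact hx.2 y0 hy0 hpy
  have hLc : L.card ≤ (univ.filter fun v => T.degree v = 1).card := card_le_card hLsub
  have hLn : 8 * 200052 ^ 2 * L.card ≤ n := (Nat.mul_le_mul_left _ hLc).trans hL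
  have hcut := cut_count V n hn r0 par dep hd0 hdp (2 * (100002 + 24)) (by norm_num)
  set G := univ.filter fun v => IsGood r0 par dep (2 * (100002 + 24)) v with hG
  have hcut' : n ≤ 200052 * G.card + 800208 * L.card := by
    have h3 : (univ.filter fun x => ∀ y, y ≠ r0 → par y ≠ x).card = L.card := by
      rw [hLdef]
    rw [h3] at hcut
    norm_num at hcut
    exact hcut
  have hGg : ∀ v, v ∈ G → IsGood r0 par dep (2 * (100002 + 24)) v := fun v hv =>
    (mem_filter.mp hv).2
  have hcore := card_core n 100002 r0 par dep hd0 hdp G hGg hn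
  norm_num at hLn
  rw [hLdef, mem_filter] at h1 h2
  refine rooted V n 100002 (by norm_num) (by norm_num) hn r0 y0 l1 l2 par dep hd0 hdp hy0 hpy hy0'
    h1.2 h2.2 h12 G hGg (fun v hv => mem_filter.mpr ⟨mem_univ _, hv⟩) ?_ ?_ ?_ ?_
  · omega
  · omega
  · omega
  · omega

/-- Trees with few leaves. -/
theorem mainD : ∃ c : ℝ, 0 < c ∧ ∀ (V : Type) [Fintype V] (T : SimpleGraph V) [DecidableRel T.Adj]
    (n : ℕ), T.IsTree → Fintype.card V = n + 1 →
    ((univ.filter fun v => T.degree v = 1).card : ℝ) ≤ c * n →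
    Decomposes T (completeBipartiteGraph (Fin n) (Fin n)) := by
  refine ⟨1 / (8 * 200052 ^ 2), by norm_num, ?_⟩
  intro V _ T _ n hT hn hL
  refine mainD' V T n hT hn ?_
  rw [div_mul_eq_mul_div, one_mul, le_div_iff₀ (by norm_num)] at hL
  have : ((8 * 200052 ^ 2 * (univ.filter fun v => T.degree v = 1).card : ℕ) : ℝ) ≤ (n : ℝ) := by
    push_cast
    linarith
  exact_mod_cast this

end Pool.Agent.Helper83.GD
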