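import Pool.Agent.Helper83.GD.MainD
import Pool.Agent.Helper83.GH.MainG

/-!
# Graham–Häggkvist for trees with few leaves or small maximum degree
-/

namespace Pool.Agent.Helper83.GD

open Finset Pool.Agent.Helper19.GH

/-- There is a `c > 0` such that for all `n` every tree with `n` edges whose maximum degree is at
most `(c * n) ^ (1 / 3)` or which has at most `c * n` leaves decomposes `K_{n,n}`. -/
theorem mainE : ∃ c : ℝ, 0 < c ∧ ∀ (V : Type) [Fintype V] (T : SimpleGraph V) [DecidableRel T.Adj]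
    (n : ℕ), T.IsTree → Fintype.card V = n + 1 →
    ((T.maxDegree : ℝ) ^ 3 ≤ c * n ∨
      ((univ.filter fun v => T.degree v = 1).card : ℝ) ≤ c * n) →
    Decomposes T (completeBipartiteGraph (Fin n) (Fin n)) := by
  obtain ⟨c1, hc1, h1⟩ := mainD
  obtain ⟨c2, hc2, h2⟩ := Pool.Agent.Helper83.GH.mainC c1 hc1
  refine ⟨min c1 c2, lt_min hc1 hc2, ?_⟩
  intro V _ T _ n hT hn h
  have hn0 : (0 : ℝ) ≤ n := Nat.cast_nonneg n
  by_cases hL : ((univ.filter fun v => T.degree v = 1).card : ℝ) ≤ c1 * n
  · exact h1 V T n hT hn hL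
  push Not at hL
  rcases h with h | h
  · exact h2 V T n hT hn hL.le (h.trans (mul_le_mul_of_nonneg_right (min_le_right _ _) hn0))
  · exact absurd (h.trans (mul_le_mul_of_nonneg_right (min_le_left _ _) hn0)) (not_le.mpr hL)

end Pool.Agent.Helper83.GD
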