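import Pool.Agent.Helper83.GD.Defs2

/-!
# GHD: values of `LA`
-/

namespace Pool.Agent.Helper83.GD

variable (n k : ℕ) (gv gu f δ₁ δ M₁ M₂ M₃ : ℕ → ℤ) (i : ℕ)

theorem pp_lt : pp n k i < 4 := by
  unfold pp
  omega

theorem LA_zero : LA n k gv gu f δ₁ δ M₁ M₂ M₃ i 0 = gv i := by
  simp [LA]

theorem LA_end : LA n k gv gu f δ₁ δ M₁ M₂ M₃ i (k + 24) = gu i := by
  have := pp_lt n k i
  unfold LA
  repeat rw [if_neg (by omega)]

theorem LA_tile (t : ℕ) (ht : t ≤ k) :
    LA n k gv gu f δ₁ δ M₁ M₂ M₃ i (pp n k i + 4 + t) = xh n k i + t := by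
  have := pp_lt n k i
  unfold LA
  rw [if_neg (by omega), if_neg (by omega), if_neg (by omega), if_neg (by omega),
    if_pos (by omega)]
  push_cast
  ring

theorem LA_pool (s : ℕ) (hs : s ≤ 2) :
    LA n k gv gu f δ₁ δ M₁ M₂ M₃ i (k + 14 + s) = f i + s := by
  have := pp_lt n k i
  unfold LA
  rw [if_neg (by omega), if_neg (by omega), if_neg (by omega), if_neg (by omega),
    if_neg (by omega), if_neg (by omega), if_neg (by omega), if_neg (by omega),
    if_pos (by omega)]
  push_cast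
  ring

theorem LA_18 : LA n k gv gu f δ₁ δ M₁ M₂ M₃ i (k + 18) = M₃ i := by
  have := pp_lt n k i
  unfold LA
  rw [if_neg (by omega), if_neg (by omega), if_neg (by omega), if_neg (by omega),
    if_neg (by omega), if_neg (by omega), if_neg (by omega), if_neg (by omega),
    if_neg (by omega), if_neg (by omega), if_pos (by omega)]

theorem LA_19 : LA n k gv gu f δ₁ δ M₁ M₂ M₃ i (k + 19) = M₃ i + δ₁ i := by
  have := pp_lt n k i
  unfold LA
  rw [if_neg (by omega), if_neg (by omega), if_neg (by omega), if_neg (by omega),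
    if_neg (by omega), if_neg (by omega), if_neg (by omega), if_neg (by omega),
    if_neg (by omega), if_neg (by omega), if_neg (by omega), if_pos (by omega)]

theorem LA_20 : LA n k gv gu f δ₁ δ M₁ M₂ M₃ i (k + 20) = M₃ i + δ i := by
  have := pp_lt n k i
  unfold LA
  rw [if_neg (by omega), if_neg (by omega), if_neg (by omega), if_neg (by omega),
    if_neg (by omega), if_neg (by omega), if_neg (by omega), if_neg (by omega),
    if_neg (by omega), if_neg (by omega), if_neg (by omega), if_neg (by omega), if_pos (by omega)]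
  push_cast
  ring

theorem rows_LA (N r γ : ℕ) (e : ℕ → ℕ → ℤ) (hI : Inp n N k r γ gv gu f δ₁ δ e) :
    Rows n k r γ (LA n k gv gu f δ₁ δ M₁ M₂ M₃) e f δ₁ M₃ where
  ht i _ u hu := LA_tile n k gv gu f δ₁ δ M₁ M₂ M₃ i u hu
  hp i _ s hs := LA_pool n k gv gu f δ₁ δ M₁ M₂ M₃ i s hs
  h18 i _ := LA_18 n k gv gu f δ₁ δ M₁ M₂ M₃ i
  h19 i _ := LA_19 n k gv gu f δ₁ δ M₁ M₂ M₃ i
  h20 i hi := by
    rw [LA_20, (hI.heδ i hi).2]
    ring
  hδ₁ i hi := (hI.heδ i hi).1

end Pool.Agent.Helper83.GD
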