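import Pool.Agent.Helper83.GD.Conn
import Pool.Agent.Helper83.GD.Vals

/-!
# GHD-MID0: the middle labels of the connectors

Proof. `conn` for `s = range r ×ˢ range 3`; for `τ = (i, 0)`: `x = gv i`, `y = xh n k i`, `w = pp n k i`,
`W = Icc 0 w`; `τ = (i, 1)`: `x = xh n k i + k`, `y = f i`, `w = 6 - pp n k i`, `W = Icc 0 w`; `τ = (i, 2)`:
`x = f i + 2`, `y = gu i`, `w = δ i + 2`, `W = {0, δ₁ i, δ i, δ i + 1, δ i + 2}`. `lo (i, 0) = lo (i, 1) = 41 N` if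
`4 i (k + 2) < n`, `49 N` otherwise; `lo (i, 2) = 44 N`. `Z (i, 0) = Z (i, 1) = ∅`,
`Z (i, 2) = {- e i 0, δ₁ i - e i 2}` if `i < γ`, `∅` otherwise (the two numbers are different: `heδ`, `hei`).
`hmod`: `4 ∣ gv i, gu i, f i, δ i`, `xh n k i - pp n k i` is a multiple of 4, `k % 4 = 2`.
`hne`: `gv i ≠ xh + pp`: `gv i ∈ [40 N, 56 N]` and `xh n k i < 40 N - 3` or `n ≤ xh n k i`
(`i (k + 2) ≤ (r - 1) (k + 2) < n / 2 < 33 N`); `xh + k ≠ f i + 6 - pp`: either `xh + k ≥ n + 100 > f i + 6`, or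
`xh + k = i (k + 2) + k ≤ r (k + 2) - 2 < f i`; `f i + 2 ≠ gu i + δ i + 2` (`hδ`).
The cardinality of `W` (for `τ = (i, 2)`): `δ₁ i`, `δ i` are different nonzero multiples of 4.
-/

namespace Pool.Agent.Helper83.GD

open Finset

/-- First ends of the connectors. -/
def h49X (n k : ℕ) (gv f : ℕ → ℤ) (τ : ℕ × ℕ) : ℤ :=
  if τ.2 = 0 then gv τ.1 else if τ.2 = 1 then xh n k τ.1 + k else f τ.1 + 2

/-- Last ends of the connectors. -/
def h49Y (n k : ℕ) (gu f : ℕ → ℤ) (τ : ℕ × ℕ) : ℤ :=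
  if τ.2 = 0 then xh n k τ.1 else if τ.2 = 1 then f τ.1 else gu τ.1

/-- Last offsets of the connectors. -/
def h49w (n k : ℕ) (δ : ℕ → ℤ) (τ : ℕ × ℕ) : ℤ :=
  if τ.2 = 0 then pp n k τ.1 else if τ.2 = 1 then 6 - pp n k τ.1 else δ τ.1 + 2

/-- Offsets of the connectors. -/
noncomputable def h49W (n k : ℕ) (δ₁ δ : ℕ → ℤ) (τ : ℕ × ℕ) : Finset ℤ :=
  if τ.2 = 0 then Icc 0 (pp n k τ.1 : ℤ) else if τ.2 = 1 then Icc 0 (6 - pp n k τ.1 : ℤ)
  else {0, δ₁ τ.1, δ τ.1, δ τ.1 + 1, δ τ.1 + 2}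

/-- Offsets of the columns of the cherries. -/
noncomputable def h49Z (γ : ℕ) (δ₁ : ℕ → ℤ) (e : ℕ → ℕ → ℤ) (τ : ℕ × ℕ) : Finset ℤ :=
  if τ.2 = 2 ∧ τ.1 < γ then {- e τ.1 0, δ₁ τ.1 - e τ.1 2} else ∅

/-- Lower ends of the ranges of the middle labels. -/
def h49lo (n N k : ℕ) (τ : ℕ × ℕ) : ℤ :=
  if τ.2 = 2 then 44 * N else if 4 * (τ.1 * (k + 2)) < n then 41 * N else 49 * N

theorem h49_SS (n k : ℕ) (gv gu f δ₁ δ : ℕ → ℤ) (m : ℕ × ℕ → ℤ) (i τ : ℕ) (hτ : τ < 3) :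
    SS n k gv gu f δ₁ δ (fun i => m (i, 0)) (fun i => m (i, 1)) (fun i => m (i, 2)) i τ =
      Sset (h49X n k gv f (i, τ)) (m (i, τ)) (h49Y n k gu f (i, τ)) (h49W n k δ₁ δ (i, τ))
        (h49w n k δ (i, τ)) := by
  unfold SS h49X h49Y h49W h49w
  interval_cases τ <;> simp

theorem h49_card5 {a b : ℤ} (ha : (4 : ℤ) ∣ a) (hb : (4 : ℤ) ∣ b) (ha0 : a ≠ 0) (hb0 : b ≠ 0)
    (hab : b ≠ a) : ({0, a, b, b + 1, b + 2} : Finset ℤ).card = 5 := by
  rw [card_insert_of_notMem, card_insert_of_notMem, card_insert_of_notMem, card_insert_of_notMem,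
    card_singleton]
  · rw [mem_singleton]; omega
  · rw [mem_insert, mem_singleton]; omega
  · rw [mem_insert, mem_insert, mem_singleton]; omega
  · rw [mem_insert, mem_insert, mem_insert, mem_singleton]; omega

theorem h49_W0 (n k : ℕ) (δ₁ δ : ℕ → ℤ) (i : ℕ) :
    (h49W n k δ₁ δ (i, 0)).card = pp n k i + 1 := by
  have := pp_lt n k i
  simp [h49W]

theorem h49_W1 (n k : ℕ) (δ₁ δ : ℕ → ℤ) (i : ℕ) :
    (h49W n k δ₁ δ (i, 1)).card = 7 - pp n k i := by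
  have := pp_lt n k i
  simp only [h49W]
  simp only [one_ne_zero, if_false, if_true]
  rw [Int.card_Icc]
  omega

theorem h49_W2 (n k : ℕ) {δ₁ δ : ℕ → ℤ} {i : ℕ} (ha : (4 : ℤ) ∣ δ₁ i) (hb : (4 : ℤ) ∣ δ i)
    (ha0 : δ₁ i ≠ 0) (hb0 : δ i ≠ 0) (hab : δ i ≠ δ₁ i) :
    (h49W n k δ₁ δ (i, 2)).card = 5 := by
  have h := h49_card5 ha hb ha0 hb0 hab
  simpa [h49W] using h

theorem h49_xh (n k i : ℕ) :
    (4 * (i * (k + 2)) < n ∧ xh n k i = i * (k + 2) + n) ∨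
      (n ≤ 4 * (i * (k + 2)) ∧ xh n k i = i * (k + 2)) := by
  unfold xh
  by_cases h : 4 * (i * (k + 2)) < n
  · left; exact ⟨h, by rw [if_pos h]⟩
  · right; exact ⟨by omega, by rw [if_neg h, add_zero]⟩

theorem h49_rk {n N k r mc μ : ℕ} (hP : Par n N k r mc μ) {i : ℕ} (hi : i < r) :
    i * (k + 2) + (k + 2) ≤ r * (k + 2) ∧ 2 * (r * (k + 2)) ≤ n := by
  constructor
  · have := Nat.mul_le_mul_right (k + 2) (Nat.succ_le_of_lt hi)
    rw [Nat.succ_mul] at this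
    exact this
  · have h1 := hP.hn
    have h2 : r * (k + 2) = r * k + 2 * r := by ring
    omega

theorem h49_pp (n k i : ℕ) : (4 : ℤ) ∣ (xh n k i : ℤ) - pp n k i := by
  unfold pp
  omega

theorem h49_chB (γ : ℕ) (δ₁ : ℕ → ℤ) (e : ℕ → ℕ → ℤ) (m : ℕ × ℕ → ℤ) (i : ℕ) (hi : i < γ)
    (s : ℕ) : ∃ z ∈ h49Z γ δ₁ e (i, 2), chB δ₁ (fun i => m (i, 2)) e i s = m (i, 2) + z := by
  unfold h49Z chB
  rw [if_pos ⟨rfl, hi⟩]
  by_cases h : s = 0
  · refine ⟨- e i 0, by simp, ?_⟩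
    rw [if_pos h]
    ring
  · refine ⟨δ₁ i - e i 2, by simp, ?_⟩
    rw [if_neg h]
    ring

theorem mid0 (n N k r mc μ γ : ℕ) (hP : Par n N k r mc μ) (gv gu f δ₁ δ : ℕ → ℤ)
    (e : ℕ → ℕ → ℤ) (hI : Inp n N k r γ gv gu f δ₁ δ e) (FA FB : Finset ℤ)
    (hs : 11 * (FA.card + FB.card + 33 * r) + 20 ≤ N) :
    ∃ M₁ M₂ M₃ : ℕ → ℤ, Mid n N k r γ gv gu f δ₁ δ M₁ M₂ M₃ e FA FB := by
  have hsm : ∀ τ ∈ range r ×ˢ range 3, τ.1 < r ∧ (τ.2 = 0 ∨ τ.2 = 1 ∨ τ.2 = 2) := by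
    intro τ hτ
    rw [mem_product, mem_range, mem_range] at hτ
    omega
  have hms : ∀ i < r, ∀ t < 3, ((i, t) : ℕ × ℕ) ∈ range r ×ˢ range 3 := by
    intro i hi t ht
    rw [mem_product, mem_range, mem_range]
    exact ⟨hi, ht⟩
  have hkk := hP.hk
  have hk1 := hP.hk'
  have hk2 := hP.hkN
  have hN1 := hP.hN
  have hN2 := hP.hN'
  obtain ⟨m, hm1, hm2⟩ := conn (range r ×ˢ range 3) (h49X n k gv f) (h49Y n k gu f) (h49w n k δ)
    (h49lo n N k) (h49W n k δ₁ δ) (h49Z γ δ₁ e) N FA FB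
    (by
      rintro ⟨i, t⟩ hτ
      obtain ⟨hi, ht⟩ := hsm _ hτ
      simp only at hi ht
      obtain ⟨d1, d2, d3, d4, d5, -⟩ := hI.hδ i hi
      rcases ht with rfl | rfl | rfl
      · rw [h49_W0]; have := pp_lt n k i; omega
      · rw [h49_W1]; omega
      · rw [h49_W2 n k d1 d2 d3 d4 d5]; omega)
    (by
      rintro ⟨i, t⟩ hτ
      unfold h49Z
      split_ifs
      · exact card_le_two
      · simp)
    (by
      rintro ⟨i, t⟩ hτ
      obtain ⟨hi, ht⟩ := hsm _ hτ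
      simp only at hi ht
      obtain ⟨d1, d2, -⟩ := hI.hδ i hi
      obtain ⟨g1, -⟩ := hI.hgv i hi
      obtain ⟨g2, -⟩ := hI.hgu i hi
      obtain ⟨f1, -⟩ := hI.hf i hi
      have hpp := h49_pp n k i
      rcases ht with rfl | rfl | rfl
      · simp only [h49X, h49Y, h49w, if_true]
        omega
      · simp only [h49X, h49Y, h49w, one_ne_zero, if_true, if_false]
        omega
      · simp only [h49X, h49Y, h49w, two_ne_zero, OfNat.ofNat_ne_one, if_false]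
        omega)
    (by
      rintro ⟨i, t⟩ hτ
      obtain ⟨hi, ht⟩ := hsm _ hτ
      simp only at hi ht
      obtain ⟨-, -, -, -, -, -, -, -, -, d6⟩ := hI.hδ i hi
      obtain ⟨-, g1, g2⟩ := hI.hgv i hi
      obtain ⟨-, f1, f2⟩ := hI.hf i hi
      have hp := pp_lt n k i
      obtain ⟨k1, k2⟩ := h49_rk hP hi
      have f1' : ((r * (k + 2) : ℕ) : ℤ) < f i := by push_cast; exact f1
      have hx := h49_xh n k i
      rcases ht with rfl | rfl | rfl
      · simp only [h49X, h49Y, h49w, if_true]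
        omega
      · simp only [h49X, h49Y, h49w, one_ne_zero, if_true, if_false]
        omega
      · simp only [h49X, h49Y, h49w, two_ne_zero, OfNat.ofNat_ne_one, if_false]
        omega)
    (by
      rw [card_product, card_range, card_range]
      omega)
  refine ⟨fun i => m (i, 0), fun i => m (i, 1), fun i => m (i, 2), ?_⟩
  constructor
  · intro i hi
    obtain ⟨-, -, h, -⟩ := hm1 (i, 0) (hms i hi 0 (by norm_num))
    simpa only [h49X, if_true] using h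
  · intro i hi
    obtain ⟨-, -, h, -⟩ := hm1 (i, 1) (hms i hi 1 (by norm_num))
    simp only [h49X, one_ne_zero, if_true, if_false] at h
    omega
  · intro i hi
    obtain ⟨h1, h2, h, -⟩ := hm1 (i, 2) (hms i hi 2 (by norm_num))
    simp only [h49X, h49lo, two_ne_zero, OfNat.ofNat_ne_one, if_true, if_false] at h h1 h2
    omega
  · intro i hi hlt
    obtain ⟨h1, h2, -⟩ := hm1 (i, 0) (hms i hi 0 (by norm_num))
    obtain ⟨h3, h4, -⟩ := hm1 (i, 1) (hms i hi 1 (by norm_num))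
    simp only [h49lo] at h1 h2 h3 h4
    rw [if_neg (by norm_num), if_pos hlt] at h1 h2 h3 h4
    omega
  · intro i hi hlt
    obtain ⟨h1, h2, -⟩ := hm1 (i, 0) (hms i hi 0 (by norm_num))
    obtain ⟨h3, h4, -⟩ := hm1 (i, 1) (hms i hi 1 (by norm_num))
    simp only [h49lo] at h1 h2 h3 h4
    rw [if_neg (by norm_num), if_neg (by omega)] at h1 h2 h3 h4
    omega
  · intro i hi t ht
    obtain ⟨-, -, -, -, h, -⟩ := hm1 (i, t) (hms i hi t ht)
    rw [h49_SS n k gv gu f δ₁ δ m i t ht]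
    exact h
  · intro i hi
    obtain ⟨-, -, -, h, -⟩ := hm1 (i, 0) (hms i hi 0 (by norm_num))
    rw [h49_SS n k gv gu f δ₁ δ m i 0 (by norm_num), h, h49_W0]
  · intro i hi
    obtain ⟨-, -, -, h, -⟩ := hm1 (i, 1) (hms i hi 1 (by norm_num))
    rw [h49_SS n k gv gu f δ₁ δ m i 1 (by norm_num), h, h49_W1]
    have := pp_lt n k i
    omega
  · intro i hi
    obtain ⟨-, -, -, h, -⟩ := hm1 (i, 2) (hms i hi 2 (by norm_num))
    obtain ⟨d1, d2, d3, d4, d5, -⟩ := hI.hδ i hi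
    rw [h49_SS n k gv gu f δ₁ δ m i 2 (by norm_num), h, h49_W2 n k d1 d2 d3 d4 d5]
  · intro i hi t ht i' hi' t' ht' hne
    have hne' : ((i, t) : ℕ × ℕ) ≠ (i', t') := by
      intro h
      rw [Prod.mk.injEq] at h
      omega
    obtain ⟨h, -⟩ := hm2 (i, t) (hms i hi t ht) (i', t') (hms i' hi' t' ht') hne'
    rw [h49_SS n k gv gu f δ₁ δ m i t ht, h49_SS n k gv gu f δ₁ δ m i' t' ht']
    exact h
  · intro i hi s hs'
    have hir : i < r := hi.trans_le hI.hγ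
    obtain ⟨-, -, -, -, -, h⟩ := hm1 (i, 2) (hms i hir 2 (by norm_num))
    have hz := h49_chB γ δ₁ e m i hi s
    obtain ⟨z, hz1, hz2⟩ := hz
    rw [hz2]
    exact h z hz1
  · intro i hi i' hi' s hs1 s' hs1' heq
    by_cases hii : i = i'
    · subst hii
      refine ⟨rfl, ?_⟩
      have h1 := (hI.heδ i hi).1
      have h2 := hI.hei i hi i hi 1 (by norm_num) 2 (by norm_num)
      by_contra hss
      have h3 : e i 1 = e i 2 := by
        have hs2 : (s = 0 ∧ s' = 1) ∨ (s = 1 ∧ s' = 0) := by omega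
        rcases hs2 with ⟨rfl, rfl⟩ | ⟨rfl, rfl⟩
        · simp only [chB, if_true, one_ne_zero, if_false] at heq
          omega
        · simp only [chB, if_true, one_ne_zero, if_false] at heq
          omega
      have h4 := (h2 h3).2
      omega
    · exfalso
      have hir : i < r := hi.trans_le hI.hγ
      have hir' : i' < r := hi'.trans_le hI.hγ
      have hne' : ((i, 2) : ℕ × ℕ) ≠ (i', 2) := by
        intro h
        rw [Prod.mk.injEq] at h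
        exact hii h.1
      obtain ⟨-, h⟩ := hm2 (i, 2) (hms i hir 2 (by norm_num)) (i', 2) (hms i' hir' 2 (by norm_num))
        hne'
      obtain ⟨z, hz1, hz2⟩ := h49_chB γ δ₁ e m i hi s
      obtain ⟨z', hz1', hz2'⟩ := h49_chB γ δ₁ e m i' hi' s'
      rw [hz2, hz2'] at heq
      exact h z hz1 z' hz1' heq

end Pool.Agent.Helper83.GD
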