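import Pool.Agent.Helper83.GD.Vals

/-!
# GHD-MID1: the labels of the rows of the connectors

Proof. `conn_mem`: unfold `LA` (thirteen cases) and `SS`, `Sset`.
`conn_zone`: linear arithmetic from `hz`, `hz'`, `hM₃`, `hδ`, `hgv`, `hgu`, `hf` and
`r (k + 2) ≤ n / 2 ≤ 32 N + 32`, `n ≤ 4 i (k + 2)`, so `xh ≥ 16 N`, or `n ≤ xh < n + 16 N + 16`. For instance
`(gv + M₁) / 2 ∈ [40 N, 56 N]`; `(M₁ + p + xh) / 2 ≤ (47 N + 3 + 80 N + 80) / 2 < n` or
`≥ (49 N + 16 N) / 2 > 32 N + 32`; `M₃ + δ ≥ 36 N`, `(f + 2 + M₃) / 2 ≥ (32 N - 12 N + 44 N) / 2`, where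
`f i > r (k + 2) ≥ n / 2 - 23 r ≥ 31 N`.
`conn_inj`: for `i ≠ i'` or different connectors the labels are in disjoint sets `SS` (`conn_mem`, `hSS`). In the same
connector: the cardinality of `SS` (`hc0`, `hc1`, `hc2`) is the number of positions; the map from the positions
`[1, p + 3]`, `[p + 5 + k, k + 13]`, `[k + 17, k + 23]` onto `SS` is surjective (every element of `Sset` is the label
of a position), so it is injective (`Finset.card_image_iff` or `Finset.injOn_of_card_image_eq`).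
-/

namespace Pool.Agent.Helper83.GD

open Finset

section vals

variable (n k : ℕ) (gv gu f δ₁ δ M₁ M₂ M₃ : ℕ → ℤ) (i : ℕ)

private theorem mid1_v1 :
    LA n k gv gu f δ₁ δ M₁ M₂ M₃ i 1 = (gv i + M₁ i) / 2 := by
  have := pp_lt n k i
  unfold LA
  rw [if_neg (by omega),
    if_pos (by omega)]

private theorem mid1_v2 (t : ℕ) (ht : t ≤ pp n k i):
    LA n k gv gu f δ₁ δ M₁ M₂ M₃ i (2 + t) = M₁ i + (t : ℤ) := by
  have := pp_lt n k i
  unfold LA
  rw [if_neg (by omega),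
    if_neg (by omega),
    if_pos (by omega)]
  push_cast
  ring

private theorem mid1_v3 :
    LA n k gv gu f δ₁ δ M₁ M₂ M₃ i (pp n k i + 3) = (M₁ i + pp n k i + xh n k i) / 2 := by
  have := pp_lt n k i
  unfold LA
  rw [if_neg (by omega),
    if_neg (by omega),
    if_neg (by omega),
    if_pos (by omega)]

private theorem mid1_v5 :
    LA n k gv gu f δ₁ δ M₁ M₂ M₃ i (pp n k i + 5 + k) = (xh n k i + k + M₂ i) / 2 := by
  have := pp_lt n k i
  unfold LA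
  rw [if_neg (by omega),
    if_neg (by omega),
    if_neg (by omega),
    if_neg (by omega),
    if_neg (by omega),
    if_pos (by omega)]

private theorem mid1_v6 (t : ℕ) (ht : t ≤ 6 - pp n k i):
    LA n k gv gu f δ₁ δ M₁ M₂ M₃ i (pp n k i + 6 + k + t) = M₂ i + (t : ℤ) := by
  have := pp_lt n k i
  unfold LA
  rw [if_neg (by omega),
    if_neg (by omega),
    if_neg (by omega),
    if_neg (by omega),
    if_neg (by omega),
    if_neg (by omega),
    if_pos (by omega)]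
  push_cast
  ring

private theorem mid1_v7 :
    LA n k gv gu f δ₁ δ M₁ M₂ M₃ i (k + 13) = (M₂ i + (6 - pp n k i) + f i) / 2 := by
  have := pp_lt n k i
  unfold LA
  rw [if_neg (by omega),
    if_neg (by omega),
    if_neg (by omega),
    if_neg (by omega),
    if_neg (by omega),
    if_neg (by omega),
    if_neg (by omega),
    if_pos (by omega)]

private theorem mid1_v9 :
    LA n k gv gu f δ₁ δ M₁ M₂ M₃ i (k + 17) = (f i + 2 + M₃ i) / 2 := by
  have := pp_lt n k i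
  unfold LA
  rw [if_neg (by omega),
    if_neg (by omega),
    if_neg (by omega),
    if_neg (by omega),
    if_neg (by omega),
    if_neg (by omega),
    if_neg (by omega),
    if_neg (by omega),
    if_neg (by omega),
    if_pos (by omega)]

private theorem mid1_v12 (t : ℕ) (ht : t ≤ 2):
    LA n k gv gu f δ₁ δ M₁ M₂ M₃ i (k + 20 + t) = M₃ i + δ i + (t : ℤ) := by
  have := pp_lt n k i
  unfold LA
  rw [if_neg (by omega),
    if_neg (by omega),
    if_neg (by omega),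
    if_neg (by omega),
    if_neg (by omega),
    if_neg (by omega),
    if_neg (by omega),
    if_neg (by omega),
    if_neg (by omega),
    if_neg (by omega),
    if_neg (by omega),
    if_neg (by omega),
    if_pos (by omega)]
  push_cast
  ring

private theorem mid1_v13 :
    LA n k gv gu f δ₁ δ M₁ M₂ M₃ i (k + 23) = (M₃ i + δ i + 2 + gu i) / 2 := by
  have := pp_lt n k i
  unfold LA
  rw [if_neg (by omega),
    if_neg (by omega),
    if_neg (by omega),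
    if_neg (by omega),
    if_neg (by omega),
    if_neg (by omega),
    if_neg (by omega),
    if_neg (by omega),
    if_neg (by omega),
    if_neg (by omega),
    if_neg (by omega),
    if_neg (by omega),
    if_neg (by omega),
    if_pos (by omega)]


/-- every position of a connector has one of the listed forms -/
private theorem mid1_cases (j : ℕ) (hj : connPos n k i j) :
    (j ≤ pp n k i + 3 ∧ (j = 1 ∨ (∃ t, t ≤ pp n k i ∧ j = 2 + t) ∨ j = pp n k i + 3)) ∨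
    (¬ j ≤ pp n k i + 3 ∧ j ≤ k + 13 ∧ (j = pp n k i + 5 + k ∨
      (∃ t, t ≤ 6 - pp n k i ∧ j = pp n k i + 6 + k + t) ∨ j = k + 13)) ∨
    (¬ j ≤ pp n k i + 3 ∧ ¬ j ≤ k + 13 ∧ (j = k + 17 ∨ j = k + 18 ∨ j = k + 19 ∨
      (∃ t, t ≤ 2 ∧ j = k + 20 + t) ∨ j = k + 23)) := by
  have hp := pp_lt n k i
  rcases hj with ⟨h1, h2⟩ | ⟨h1, h2⟩ | ⟨h1, h2⟩
  · left
    refine ⟨h2, ?_⟩
    by_cases h : j = 1
    · exact Or.inl h
    · by_cases h' : j = pp n k i + 3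
      · exact Or.inr (Or.inr h')
      · exact Or.inr (Or.inl ⟨j - 2, by omega, by omega⟩)
  · right; left
    refine ⟨by omega, h2, ?_⟩
    by_cases h : j = pp n k i + 5 + k
    · exact Or.inl h
    · by_cases h' : j = k + 13
      · exact Or.inr (Or.inr h')
      · exact Or.inr (Or.inl ⟨j - (pp n k i + 6 + k), by omega, by omega⟩)
  · right; right
    refine ⟨by omega, by omega, ?_⟩
    by_cases h : j = k + 17
    · exact Or.inl h
    by_cases h : j = k + 18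
    · exact Or.inr (Or.inl h)
    by_cases h : j = k + 19
    · exact Or.inr (Or.inr (Or.inl h))
    by_cases h : j = k + 23
    · exact Or.inr (Or.inr (Or.inr (Or.inr h)))
    exact Or.inr (Or.inr (Or.inr (Or.inl ⟨j - (k + 20), by omega, by omega⟩)))

private theorem mid1_S0 : SS n k gv gu f δ₁ δ M₁ M₂ M₃ i 0 =
    Sset (gv i) (M₁ i) (xh n k i) (Icc 0 (pp n k i : ℤ)) (pp n k i) := by
  simp [SS]

private theorem mid1_S1 : SS n k gv gu f δ₁ δ M₁ M₂ M₃ i 1 =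
    Sset (xh n k i + k) (M₂ i) (f i) (Icc 0 (6 - pp n k i : ℤ)) (6 - pp n k i) := by
  simp [SS]

private theorem mid1_S2 : SS n k gv gu f δ₁ δ M₁ M₂ M₃ i 2 =
    Sset (f i + 2) (M₃ i) (gu i) {0, δ₁ i, δ i, δ i + 1, δ i + 2} (δ i + 2) := by
  simp [SS]

private theorem mid1_mem (x m y : ℤ) (W : Finset ℤ) (w z : ℤ) :
    z ∈ Sset x m y W w ↔ z = (x + m) / 2 ∨ z = (m + w + y) / 2 ∨ ∃ t ∈ W, m + t = z := by
  simp only [Sset, mem_insert, mem_image]

private theorem mid1_sub0 :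
    SS n k gv gu f δ₁ δ M₁ M₂ M₃ i 0 ⊆
      (Icc 1 (pp n k i + 3)).image (LA n k gv gu f δ₁ δ M₁ M₂ M₃ i) := by
  intro z hz
  rw [mid1_S0, mid1_mem] at hz
  rw [mem_image]
  rcases hz with h | h | ⟨t, ht, h⟩
  · exact ⟨1, by simp, by rw [mid1_v1, h]⟩
  · exact ⟨pp n k i + 3, by simp, by rw [mid1_v3, h]⟩
  · rw [mem_Icc] at ht
    refine ⟨2 + t.toNat, by rw [mem_Icc]; omega, ?_⟩
    rw [mid1_v2 n k gv gu f δ₁ δ M₁ M₂ M₃ i t.toNat (by omega), ← h]
    omega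

private theorem mid1_sub1 :
    SS n k gv gu f δ₁ δ M₁ M₂ M₃ i 1 ⊆
      (Icc (pp n k i + 5 + k) (k + 13)).image (LA n k gv gu f δ₁ δ M₁ M₂ M₃ i) := by
  have hp := pp_lt n k i
  intro z hz
  rw [mid1_S1, mid1_mem] at hz
  rw [mem_image]
  rcases hz with h | h | ⟨t, ht, h⟩
  · exact ⟨pp n k i + 5 + k, by rw [mem_Icc]; omega, by rw [mid1_v5, h]⟩
  · exact ⟨k + 13, by rw [mem_Icc]; omega, by rw [mid1_v7, h]⟩
  · rw [mem_Icc] at ht
    refine ⟨pp n k i + 6 + k + t.toNat, by rw [mem_Icc]; omega, ?_⟩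
    rw [mid1_v6 n k gv gu f δ₁ δ M₁ M₂ M₃ i t.toNat (by omega), ← h]
    omega

private theorem mid1_sub2 :
    SS n k gv gu f δ₁ δ M₁ M₂ M₃ i 2 ⊆
      (Icc (k + 17) (k + 23)).image (LA n k gv gu f δ₁ δ M₁ M₂ M₃ i) := by
  intro z hz
  rw [mid1_S2, mid1_mem] at hz
  rw [mem_image]
  rcases hz with h | h | ⟨t, ht, h⟩
  · exact ⟨k + 17, by rw [mem_Icc]; omega, by rw [mid1_v9, h]⟩
  · exact ⟨k + 23, by rw [mem_Icc]; omega, by rw [mid1_v13, h]; congr 1; ring⟩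
  · simp only [mem_insert, mem_singleton] at ht
    rcases ht with ht | ht | ht | ht | ht
    · exact ⟨k + 18, by rw [mem_Icc]; omega, by rw [LA_18, ← h, ht]; ring⟩
    · exact ⟨k + 19, by rw [mem_Icc]; omega, by rw [LA_19, ← h, ht]⟩
    · exact ⟨k + 20, by rw [mem_Icc]; omega, by rw [LA_20, ← h, ht]⟩
    · refine ⟨k + 20 + 1, by rw [mem_Icc]; omega, ?_⟩
      rw [mid1_v12 n k gv gu f δ₁ δ M₁ M₂ M₃ i 1 (by omega), ← h, ht]
      push_cast
      ring
    · refine ⟨k + 20 + 2, by rw [mem_Icc]; omega, ?_⟩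
      rw [mid1_v12 n k gv gu f δ₁ δ M₁ M₂ M₃ i 2 (by omega), ← h, ht]
      push_cast
      ring

private theorem mid1_injOn {α : Type} [DecidableEq α] (P : Finset ℕ) (g : ℕ → α) (S : Finset α)
    (hs : S ⊆ P.image g) (hc : P.card ≤ S.card) : Set.InjOn g P := by
  apply Finset.injOn_of_card_image_eq
  apply le_antisymm Finset.card_image_le
  exact hc.trans (card_le_card hs)

end vals

variable (n N k r mc μ γ : ℕ) (hP : Par n N k r mc μ) (gv gu f δ₁ δ : ℕ → ℤ)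
    (e : ℕ → ℕ → ℤ) (hI : Inp n N k r γ gv gu f δ₁ δ e) (FA FB : Finset ℤ)
    (M₁ M₂ M₃ : ℕ → ℤ) (hM : Mid n N k r γ gv gu f δ₁ δ M₁ M₂ M₃ e FA FB)

include hP hI hM in
theorem conn_zone (i : ℕ) (hi : i < r) (j : ℕ) (hj : connPos n k i j) :
    (r : ℤ) * (k + 2) < LA n k gv gu f δ₁ δ M₁ M₂ M₃ i j ∧
      LA n k gv gu f δ₁ δ M₁ M₂ M₃ i j < n := by
  have hp := pp_lt n k i
  have e1 : i * (k + 2) + (k + 2) ≤ r * (k + 2) := by
    have : (i + 1) * (k + 2) ≤ r * (k + 2) := Nat.mul_le_mul_right _ hi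
    calc i * (k + 2) + (k + 2) = (i + 1) * (k + 2) := by ring
      _ ≤ _ := this
  have e2 : r * (k + 2) = r * k + 2 * r := by ring
  have e3 : (r : ℤ) * (k + 2) = ((r * (k + 2) : ℕ) : ℤ) := by push_cast; ring
  have hn := hP.hn
  have hN := hP.hN
  have hN' := hP.hN'
  have hkN := hP.hkN
  have hrN := hP.hrN
  have hk' := hP.hk'
  obtain ⟨-, gv1, gv2⟩ := hI.hgv i hi
  obtain ⟨-, gu1, gu2⟩ := hI.hgu i hi
  obtain ⟨-, f1, f2⟩ := hI.hf i hi
  obtain ⟨-, -, -, -, -, d1, d2, d3, d4, -⟩ := hI.hδ i hi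
  obtain ⟨-, m1, m2⟩ := hM.hM₃ i hi
  rw [e3] at f1 ⊢
  have hx : ((xh n k i : ℕ) : ℤ) = ((i * (k + 2) : ℕ) : ℤ) +
      if 4 * (i * (k + 2)) < n then (n : ℤ) else 0 := by
    unfold xh
    split_ifs <;> push_cast <;> rfl
  generalize hR : r * (k + 2) = R at *
  generalize hrk : r * k = rk at *
  generalize hw : i * (k + 2) = w at *
  by_cases hc : 4 * w < n
  · obtain ⟨z1, z2, z3, z4⟩ := hM.hz i hi (by rw [hw]; exact hc)
    rw [if_pos hc] at hx
    rcases mid1_cases n k i j hj with ⟨-, h | ⟨t, ht, h⟩ | h⟩ | ⟨-, -, h | ⟨t, ht, h⟩ | h⟩ |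
      ⟨-, -, h | h | h | ⟨t, ht, h⟩ | h⟩ <;> subst h
    · rw [mid1_v1]; omega
    · rw [mid1_v2 n k gv gu f δ₁ δ M₁ M₂ M₃ i t ht]; omega
    · rw [mid1_v3]; omega
    · rw [mid1_v5]; omega
    · rw [mid1_v6 n k gv gu f δ₁ δ M₁ M₂ M₃ i t ht]; omega
    · rw [mid1_v7]; omega
    · rw [mid1_v9]; omega
    · rw [LA_18]; omega
    · rw [LA_19]; omega
    · rw [mid1_v12 n k gv gu f δ₁ δ M₁ M₂ M₃ i t ht]; omega
    · rw [mid1_v13]; omega
  · obtain ⟨z1, z2, z3, z4⟩ := hM.hz' i hi (by rw [hw]; omega)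
    rw [if_neg hc] at hx
    rcases mid1_cases n k i j hj with ⟨-, h | ⟨t, ht, h⟩ | h⟩ | ⟨-, -, h | ⟨t, ht, h⟩ | h⟩ |
      ⟨-, -, h | h | h | ⟨t, ht, h⟩ | h⟩ <;> subst h
    · rw [mid1_v1]; omega
    · rw [mid1_v2 n k gv gu f δ₁ δ M₁ M₂ M₃ i t ht]; omega
    · rw [mid1_v3]; omega
    · rw [mid1_v5]; omega
    · rw [mid1_v6 n k gv gu f δ₁ δ M₁ M₂ M₃ i t ht]; omega
    · rw [mid1_v7]; omega
    · rw [mid1_v9]; omega
    · rw [LA_18]; omega
    · rw [LA_19]; omega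
    · rw [mid1_v12 n k gv gu f δ₁ δ M₁ M₂ M₃ i t ht]; omega
    · rw [mid1_v13]; omega

/-- `τ` is the number of the connector. -/
theorem conn_mem (i j : ℕ) (hj : connPos n k i j) :
    LA n k gv gu f δ₁ δ M₁ M₂ M₃ i j ∈ SS n k gv gu f δ₁ δ M₁ M₂ M₃ i
      (if j ≤ pp n k i + 3 then 0 else if j ≤ k + 13 then 1 else 2) := by
  have hp := pp_lt n k i
  rcases mid1_cases n k i j hj with ⟨h1, h | ⟨t, ht, h⟩ | h⟩ | ⟨h1, h2, h | ⟨t, ht, h⟩ | h⟩ |
      ⟨h1, h2, h | h | h | ⟨t, ht, h⟩ | h⟩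
  · rw [if_pos h1, mid1_S0, mid1_mem, h, mid1_v1]
    exact Or.inl rfl
  · rw [if_pos h1, mid1_S0, mid1_mem, h, mid1_v2 n k gv gu f δ₁ δ M₁ M₂ M₃ i t ht]
    exact Or.inr (Or.inr ⟨t, by rw [mem_Icc]; omega, rfl⟩)
  · rw [if_pos h1, mid1_S0, mid1_mem, h, mid1_v3]
    exact Or.inr (Or.inl rfl)
  · rw [if_neg h1, if_pos h2, mid1_S1, mid1_mem, h, mid1_v5]
    exact Or.inl rfl
  · rw [if_neg h1, if_pos h2, mid1_S1, mid1_mem, h, mid1_v6 n k gv gu f δ₁ δ M₁ M₂ M₃ i t ht]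
    exact Or.inr (Or.inr ⟨t, by rw [mem_Icc]; omega, rfl⟩)
  · rw [if_neg h1, if_pos h2, mid1_S1, mid1_mem, h, mid1_v7]
    exact Or.inr (Or.inl rfl)
  · rw [if_neg h1, if_neg h2, mid1_S2, mid1_mem, h, mid1_v9]
    exact Or.inl rfl
  · rw [if_neg h1, if_neg h2, mid1_S2, mid1_mem, h, LA_18]
    exact Or.inr (Or.inr ⟨0, by simp, by ring⟩)
  · rw [if_neg h1, if_neg h2, mid1_S2, mid1_mem, h, LA_19]
    exact Or.inr (Or.inr ⟨δ₁ i, by simp, rfl⟩)
  · rw [if_neg h1, if_neg h2, mid1_S2, mid1_mem, h,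
      mid1_v12 n k gv gu f δ₁ δ M₁ M₂ M₃ i t ht]
    refine Or.inr (Or.inr ⟨δ i + t, ?_, by ring⟩)
    simp only [mem_insert, mem_singleton]
    omega
  · rw [if_neg h1, if_neg h2, mid1_S2, mid1_mem, h, mid1_v13]
    refine Or.inr (Or.inl ?_)
    congr 1
    ring

include hP hM in
theorem conn_inj (i i' : ℕ) (hi : i < r) (hi' : i' < r) (j j' : ℕ) (hj : connPos n k i j)
    (hj' : connPos n k i' j')
    (h : LA n k gv gu f δ₁ δ M₁ M₂ M₃ i j = LA n k gv gu f δ₁ δ M₁ M₂ M₃ i' j') :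
    i = i' ∧ j = j' := by
  have hp := pp_lt n k i
  have m1 := conn_mem n k gv gu f δ₁ δ M₁ M₂ M₃ i j hj
  have m2 := conn_mem n k gv gu f δ₁ δ M₁ M₂ M₃ i' j' hj'
  rw [← h] at m2
  have hτ : ∀ (a b : Prop) [Decidable a] [Decidable b],
      (if a then 0 else if b then 1 else 2 : ℕ) < 3 := by
    intro a b _ _
    split_ifs <;> omega
  have hii : i = i' := by
    by_contra hne
    exact Finset.disjoint_left.mp (hM.hSS i hi _ (hτ _ _) i' hi' _ (hτ _ _) (Or.inl hne)) m1 m2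
  subst hii
  refine ⟨rfl, ?_⟩
  have key : ∀ τ < 3, ∀ τ' < 3, LA n k gv gu f δ₁ δ M₁ M₂ M₃ i j ∈
      SS n k gv gu f δ₁ δ M₁ M₂ M₃ i τ → LA n k gv gu f δ₁ δ M₁ M₂ M₃ i j ∈
      SS n k gv gu f δ₁ δ M₁ M₂ M₃ i τ' → τ = τ' := by
    intro τ h1 τ' h2 h3 h4
    by_contra hne
    exact Finset.disjoint_left.mp (hM.hSS i hi τ h1 i hi τ' h2 (Or.inr hne)) h3 h4
  have i0 := mid1_injOn (Icc 1 (pp n k i + 3)) (LA n k gv gu f δ₁ δ M₁ M₂ M₃ i) _
    (mid1_sub0 n k gv gu f δ₁ δ M₁ M₂ M₃ i) (by rw [hM.hc0 i hi, Nat.card_Icc]; omega)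
  have i1 := mid1_injOn (Icc (pp n k i + 5 + k) (k + 13)) (LA n k gv gu f δ₁ δ M₁ M₂ M₃ i) _
    (mid1_sub1 n k gv gu f δ₁ δ M₁ M₂ M₃ i) (by rw [hM.hc1 i hi, Nat.card_Icc]; omega)
  have i2 := mid1_injOn (Icc (k + 17) (k + 23)) (LA n k gv gu f δ₁ δ M₁ M₂ M₃ i) _
    (mid1_sub2 n k gv gu f δ₁ δ M₁ M₂ M₃ i) (by rw [hM.hc2 i hi, Nat.card_Icc]; omega)
  have kk := key _ (hτ _ _) _ (hτ _ _) m1 m2
  have hjc := hj
  have hjc' := hj'
  unfold connPos at hjc hjc'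
  by_cases a1 : j ≤ pp n k i + 3
  · rw [if_pos a1] at kk
    have a2 : j' ≤ pp n k i + 3 := by
      by_contra hcon
      rw [if_neg hcon] at kk
      split_ifs at kk
    refine i0 ?_ ?_ h
    · rw [mem_coe, mem_Icc]; omega
    · rw [mem_coe, mem_Icc]; omega
  · rw [if_neg a1] at kk
    have a2 : ¬ j' ≤ pp n k i + 3 := by
      intro hcon
      rw [if_pos hcon] at kk
      split_ifs at kk
    rw [if_neg a2] at kk
    by_cases a3 : j ≤ k + 13
    · have a4 : j' ≤ k + 13 := by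
        by_contra hcon
        rw [if_pos a3, if_neg hcon] at kk
        omega
      refine i1 ?_ ?_ h
      · rw [mem_coe, mem_Icc]; omega
      · rw [mem_coe, mem_Icc]; omega
    · have a4 : ¬ j' ≤ k + 13 := by
        intro hcon
        rw [if_neg a3, if_pos hcon] at kk
        omega
      refine i2 ?_ ?_ h
      · rw [mem_coe, mem_Icc]; omega
      · rw [mem_coe, mem_Icc]; omega

end Pool.Agent.Helper83.GD
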