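import Pool.Agent.Helper83.GD.Mid1

/-!
# GHD-WIDE: the windows for the dominoes

Proof. Write `x = LA i j`, `x' = LA i (j + 1)`, `x'' = LA i (j + 2)`. The seven kinds of pairs:
`j = 0`: `gv, (gv + M₁) / 2, M₁`; `j = p + 2`: `M₁ + p, (M₁ + p + xh) / 2, xh`; `j = p + 4 + k`:
`xh + k, (xh + k + M₂) / 2, M₂`; `j = k + 12`: `M₂ + 6 - p, (M₂ + 6 - p + f) / 2, f`; `j = k + 16`:
`f + 2, (f + 2 + M₃) / 2, M₃`; `j = k + 22`: `M₃ + δ + 2, (M₃ + δ + 2 + gu) / 2, gu`; `j = k + 18` (`γ ≤ i`):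
`M₃, M₃ + δ₁, M₃ + δ` (`hδ'`). In all cases `x' - x = x'' - x'` is even (divisibility by 4 of
`M₁ - gv`, `xh - M₁ - p`, ...) and nonzero (`conn_inj`: two of the three positions are
`connPos`). Window: take `lo = max (max (x - 31 N) (x' - 1 - 31 N)) (max 0 (x - x'))`; linear arithmetic with
`gv, gu ∈ [40 N, 56 N]`, `M₁, M₂ ∈ [41 N, 47 N]`, `xh ∈ [n, n + 16 N + 16]` (if `4 i (k + 2) < n`) or `M₁, M₂ ∈ [49 N, 55 N]`,
`xh ∈ [16 N, 33 N]`; `f ∈ [31 N, 64 N + 64]`, `M₃ ∈ [44 N, 50 N]`, `|δ| ≤ 8 N`, `k ≤ N / 2000`. For instance for `j = p + 2`,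
`xh ≥ n`: `x' - 31 N ≤ 33 N` and `51 N - (x' - x) ≥ x' - 31 N + N` since `x'' = xh ≤ 81 N`; the critical pairs of bounds are
`lo ∈ {x - 31 N, x' - 1 - 31 N, 0, x - x'}`, `hi ∈ {x - N, x' - 1 - N, 51 N, 51 N - (x' - x)}`: the needed inequalities are
`2 N ≤ x ≤ 81 N`, `2 N + 1 ≤ x'`, `x'' = 2 x' - x ≤ 81 N`, `2 x' - x ≥ 2 N + 1`, `|x' - x| ≤ 28 N`, `x' ≤ 81 N`.
(`xh + k` and `f + 2` are at most `80 N + 80 + k` and `64 N + 66`.)
-/

namespace Pool.Agent.Helper83.GD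

open Finset

private theorem win34 (N x x' x'' : ℤ) (hN : 100 ≤ N) (hd : (4 : ℤ) ∣ x'' - x)
    (hx' : x' = (x + x'') / 2) (hne : x' ≠ x) (h1 : 2 * N + 1 ≤ x) (h2 : x ≤ 81 * N)
    (h3 : 2 * N + 1 ≤ x'') (h4 : x'' ≤ 81 * N) (h5 : x'' - x ≤ 56 * N) (h6 : x - x'' ≤ 56 * N) :
    x'' = 2 * x' - x ∧ (2 : ℤ) ∣ x' - x ∧ x' ≠ x ∧ ∃ lo : ℤ, ∀ q, lo ≤ q → q ≤ lo + N →
      (N : ℤ) ≤ x - q ∧ x - q ≤ 31 * N ∧ (N : ℤ) ≤ x' - q - 1 ∧ x' - q - 1 ≤ 31 * N ∧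
      0 ≤ q ∧ q ≤ 51 * N ∧ 0 ≤ q + (x' - x) ∧ q + (x' - x) ≤ 51 * N := by
  have e1 : x'' = 2 * x' - x := by omega
  refine ⟨e1, by omega, hne, max (max (x - 31 * N) (x' - 1 - 31 * N)) (max 0 (x - x')), ?_⟩
  intro q hq hq'
  have a1 := (le_max_left (x - 31 * N) (x' - 1 - 31 * N)).trans ((le_max_left _ _).trans hq)
  have a2 := (le_max_right (x - 31 * N) (x' - 1 - 31 * N)).trans ((le_max_left _ _).trans hq)
  have a3 := (le_max_left 0 (x - x')).trans ((le_max_right _ _).trans hq)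
  have a4 := (le_max_right 0 (x - x')).trans ((le_max_right _ _).trans hq)
  have b : ∀ a ∈ ({x - 31 * N, x' - 1 - 31 * N, 0, x - x'} : Finset ℤ),
      a + N ≤ x - N ∧ a + N ≤ x' - 1 - N ∧ a + N ≤ 51 * N ∧ a + N ≤ 51 * N - (x' - x) := by
    intro a ha
    simp only [mem_insert, mem_singleton] at ha
    rcases ha with rfl | rfl | rfl | rfl
    · refine ⟨?_, ?_, ?_, ?_⟩ <;> omega
    · refine ⟨?_, ?_, ?_, ?_⟩ <;> omega
    · refine ⟨?_, ?_, ?_, ?_⟩ <;> omega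
    · refine ⟨?_, ?_, ?_, ?_⟩ <;> omega
  have c : max (max (x - 31 * N) (x' - 1 - 31 * N)) (max 0 (x - x')) ∈
      ({x - 31 * N, x' - 1 - 31 * N, 0, x - x'} : Finset ℤ) := by
    rcases max_choice (max (x - 31 * N) (x' - 1 - 31 * N)) (max 0 (x - x')) with h | h
    · rw [h]
      rcases max_choice (x - 31 * N) (x' - 1 - 31 * N) with h | h <;> rw [h] <;> simp
    · rw [h]
      rcases max_choice 0 (x - x') with h | h <;> rw [h] <;> simp
  obtain ⟨b1, b2, b3, b4⟩ := b _ c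
  refine ⟨?_, ?_, ?_, ?_, ?_, ?_, ?_, ?_⟩ <;> omega

section
variable (n k : ℕ) (gv gu f δ₁ δ M₁ M₂ M₃ : ℕ → ℤ) (i : ℕ)

private theorem LA1_34 : LA n k gv gu f δ₁ δ M₁ M₂ M₃ i 1 = (gv i + M₁ i) / 2 := by
  unfold LA
  rw [if_neg (by omega), if_pos rfl]

private theorem LA2_34 (j : ℕ) (hj : 2 ≤ j) (hj' : j ≤ pp n k i + 2) :
    LA n k gv gu f δ₁ δ M₁ M₂ M₃ i j = M₁ i + ((j : ℤ) - 2) := by
  unfold LA
  rw [if_neg (by omega), if_neg (by omega), if_pos (by omega)]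

private theorem LA3_34 : LA n k gv gu f δ₁ δ M₁ M₂ M₃ i (pp n k i + 3) =
    (M₁ i + pp n k i + xh n k i) / 2 := by
  unfold LA
  rw [if_neg (by omega), if_neg (by omega), if_neg (by omega), if_pos (by omega)]

private theorem LA5_34 : LA n k gv gu f δ₁ δ M₁ M₂ M₃ i (pp n k i + 5 + k) =
    (xh n k i + k + M₂ i) / 2 := by
  unfold LA
  rw [if_neg (by omega), if_neg (by omega), if_neg (by omega), if_neg (by omega),
    if_neg (by omega), if_pos (by omega)]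

private theorem LA6_34 (j : ℕ) (hj : pp n k i + 6 + k ≤ j) (hj' : j ≤ k + 12) :
    LA n k gv gu f δ₁ δ M₁ M₂ M₃ i j = M₂ i + ((j : ℤ) - (pp n k i + 6 + k)) := by
  unfold LA
  rw [if_neg (by omega), if_neg (by omega), if_neg (by omega), if_neg (by omega),
    if_neg (by omega), if_neg (by omega), if_pos (by omega)]

private theorem LA13_34 : LA n k gv gu f δ₁ δ M₁ M₂ M₃ i (k + 13) =
    (M₂ i + (6 - pp n k i) + f i) / 2 := by
  have := pp_lt n k i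
  unfold LA
  rw [if_neg (by omega), if_neg (by omega), if_neg (by omega), if_neg (by omega),
    if_neg (by omega), if_neg (by omega), if_neg (by omega), if_pos (by omega)]

private theorem LA17_34 : LA n k gv gu f δ₁ δ M₁ M₂ M₃ i (k + 17) =
    (f i + 2 + M₃ i) / 2 := by
  have := pp_lt n k i
  unfold LA
  rw [if_neg (by omega), if_neg (by omega), if_neg (by omega), if_neg (by omega),
    if_neg (by omega), if_neg (by omega), if_neg (by omega), if_neg (by omega),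
    if_neg (by omega), if_pos (by omega)]

private theorem LA22_34 (s : ℕ) (hs : s ≤ 2) : LA n k gv gu f δ₁ δ M₁ M₂ M₃ i (k + 20 + s) =
    M₃ i + δ i + s := by
  have := pp_lt n k i
  unfold LA
  rw [if_neg (by omega), if_neg (by omega), if_neg (by omega), if_neg (by omega),
    if_neg (by omega), if_neg (by omega), if_neg (by omega), if_neg (by omega),
    if_neg (by omega), if_neg (by omega), if_neg (by omega), if_neg (by omega), if_pos (by omega)]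
  push_cast
  ring

private theorem LA23_34 : LA n k gv gu f δ₁ δ M₁ M₂ M₃ i (k + 23) =
    (M₃ i + δ i + 2 + gu i) / 2 := by
  have := pp_lt n k i
  unfold LA
  rw [if_neg (by omega), if_neg (by omega), if_neg (by omega), if_neg (by omega),
    if_neg (by omega), if_neg (by omega), if_neg (by omega), if_neg (by omega),
    if_neg (by omega), if_neg (by omega), if_neg (by omega), if_neg (by omega),
    if_neg (by omega), if_pos (by omega)]

end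

variable (n N k r mc μ γ : ℕ) (hP : Par n N k r mc μ) (gv gu f δ₁ δ : ℕ → ℤ)
    (e : ℕ → ℕ → ℤ) (hI : Inp n N k r γ gv gu f δ₁ δ e) (FA FB : Finset ℤ)
    (M₁ M₂ M₃ : ℕ → ℤ) (hM : Mid n N k r γ gv gu f δ₁ δ M₁ M₂ M₃ e FA FB)

include hP in
/-- Bounds for the tile. -/
private theorem tile34 (i : ℕ) (hi : i < r) :
    100 ≤ N ∧ 2000 * k ≤ N ∧ (4 * (i * (k + 2)) < n → 64 * N ≤ xh n k i ∧ xh n k i < 80 * N + 80) ∧
      (n ≤ 4 * (i * (k + 2)) → 16 * N ≤ xh n k i ∧ xh n k i + k ≤ 32 * N + 32) := by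
  obtain ⟨h1, h2, h3, h4, h5, h6, h7, h8, h9⟩ := hP
  have e1 : (i + 1) * (k + 2) ≤ r * (k + 2) := Nat.mul_le_mul_right _ hi
  have e2 : (i + 1) * (k + 2) = i * (k + 2) + k + 2 := by ring
  have e3 : r * (k + 2) = r * k + 2 * r := by ring
  refine ⟨by omega, h6, ?_, ?_⟩
  · intro h
    unfold xh
    rw [if_pos h]
    constructor <;> omega
  · intro h
    unfold xh
    rw [if_neg (by omega)]
    constructor <;> omega

include hP hI in
/-- Bounds for the pool. -/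
private theorem pool34 (i : ℕ) (hi : i < r) :
    31 * (N : ℤ) ≤ f i ∧ f i + 2 ≤ 65 * N := by
  obtain ⟨-, f1, f2⟩ := hI.hf i hi
  obtain ⟨h1, h2, h3, h4, h5, h6, h7, h8, h9⟩ := hP
  have e3 : (r : ℤ) * (k + 2) = (r * k : ℕ) + 2 * r := by
    push_cast
    ring
  rw [e3] at f1
  constructor <;> omega

include hP hI hM in
theorem wide_pair (i : ℕ) (hi : i < r) (j : ℕ) (hj : pairPos n k γ i j) (x x' x'' : ℤ)
    (hx : x = LA n k gv gu f δ₁ δ M₁ M₂ M₃ i j)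
    (hx' : x' = LA n k gv gu f δ₁ δ M₁ M₂ M₃ i (j + 1))
    (hx'' : x'' = LA n k gv gu f δ₁ δ M₁ M₂ M₃ i (j + 2)) :
    x'' = 2 * x' - x ∧ (2 : ℤ) ∣ x' - x ∧ x' ≠ x ∧ ∃ lo : ℤ, ∀ q, lo ≤ q → q ≤ lo + N →
      (N : ℤ) ≤ x - q ∧ x - q ≤ 31 * N ∧ (N : ℤ) ≤ x' - q - 1 ∧ x' - q - 1 ≤ 31 * N ∧
      0 ≤ q ∧ q ≤ 51 * N ∧ 0 ≤ q + (x' - x) ∧ q + (x' - x) ≤ 51 * N := by
  obtain ⟨t1, t2, t3, t4⟩ := tile34 n N k r mc μ hP i hi
  obtain ⟨f1, f2⟩ := pool34 n N k r mc μ γ hP gv gu f δ₁ δ e hI i hi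
  obtain ⟨p1, p2, p3⟩ := hI.hgv i hi
  obtain ⟨u1, u2, u3⟩ := hI.hgu i hi
  obtain ⟨v1, -, -⟩ := hI.hf i hi
  obtain ⟨d1, d2, d3, d4, d5, d6, d7, d8, d9, d10⟩ := hI.hδ i hi
  have m1 := hM.hM₁ i hi
  have m2 := hM.hM₂ i hi
  obtain ⟨m3, m4, m5⟩ := hM.hM₃ i hi
  have pl := pp_lt n k i
  have pe : (pp n k i : ℤ) = (xh n k i : ℤ) % 4 := by
    unfold pp
    push_cast
    rfl
  have hk := hP.hk
  have hinj := conn_inj n N k r mc μ γ hP gv gu f δ₁ δ e FA FB M₁ M₂ M₃ hM i i hi hi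
  have kk : (2000 * k : ℤ) ≤ N := by exact_mod_cast t2
  have NN : (100 : ℤ) ≤ N := by exact_mod_cast t1
  have Z : (41 * (N : ℤ) ≤ M₁ i ∧ M₁ i ≤ 47 * N ∧ 41 * (N : ℤ) ≤ M₂ i ∧ M₂ i ≤ 47 * N ∧
      64 * (N : ℤ) ≤ xh n k i ∧ (xh n k i : ℤ) < 80 * N + 80) ∨
      (49 * (N : ℤ) ≤ M₁ i ∧ M₁ i ≤ 55 * N ∧ 49 * (N : ℤ) ≤ M₂ i ∧ M₂ i ≤ 55 * N ∧
      16 * (N : ℤ) ≤ xh n k i ∧ (xh n k i : ℤ) + k ≤ 32 * N + 32) := by
    rcases lt_or_ge (4 * (i * (k + 2))) n with h | h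
    · left
      obtain ⟨z1, z2, z3, z4⟩ := hM.hz i hi h
      have := t3 h
      refine ⟨z1, z2, z3, z4, ?_, ?_⟩ <;> omega
    · right
      obtain ⟨z1, z2, z3, z4⟩ := hM.hz' i hi h
      have := t4 h
      refine ⟨z1, z2, z3, z4, ?_, ?_⟩ <;> omega
  clear t3 t4
  rcases hj with rfl | rfl | rfl | rfl | rfl | rfl | ⟨rfl, hγ⟩
  · have e0 := LA_zero n k gv gu f δ₁ δ M₁ M₂ M₃ i
    have e1 := LA1_34 n k gv gu f δ₁ δ M₁ M₂ M₃ i
    have e2 := LA2_34 n k gv gu f δ₁ δ M₁ M₂ M₃ i 2 (by omega) (by omega)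
    have hv := fun h => (hinj 1 2 (Or.inl (by omega)) (Or.inl (by omega)) h).2
    rw [← hx] at e0
    rw [zero_add] at hx' hx''
    rw [← hx', ← hx''] at hv
    rw [← hx'] at e1
    rw [← hx''] at e2
    push_cast at e2
    clear hx hx' hx'' hinj
    have hne : x' ≠ x := by
      intro h
      have := hv (by omega)
      omega
    apply win34 N x x' x'' NN _ _ hne <;> omega
  · have e0 := LA2_34 n k gv gu f δ₁ δ M₁ M₂ M₃ i (pp n k i + 2) (by omega) (by omega)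
    have e1 := LA3_34 n k gv gu f δ₁ δ M₁ M₂ M₃ i
    have e2 := LA_tile n k gv gu f δ₁ δ M₁ M₂ M₃ i 0 (by omega)
    have hv := fun h => (hinj (pp n k i + 2) (pp n k i + 3) (Or.inl (by omega)) (Or.inl (by omega)) h).2
    rw [← hx] at e0 hv
    rw [show pp n k i + 3 = pp n k i + 2 + 1 by omega, ← hx'] at e1 hv
    rw [show pp n k i + 4 + 0 = pp n k i + 2 + 2 by omega, ← hx''] at e2
    push_cast at e0 e2
    clear hx hx' hx'' hinj
    have hne : x' ≠ x := by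
      intro h
      have := hv (by omega)
      omega
    apply win34 N x x' x'' NN _ _ hne <;> omega
  · have e0 := LA_tile n k gv gu f δ₁ δ M₁ M₂ M₃ i k le_rfl
    have e1 := LA5_34 n k gv gu f δ₁ δ M₁ M₂ M₃ i
    have e2 := LA6_34 n k gv gu f δ₁ δ M₁ M₂ M₃ i (pp n k i + 6 + k) (by omega) (by omega)
    have hv := fun h => (hinj (pp n k i + 5 + k) (pp n k i + 6 + k) (Or.inr (Or.inl (by omega)))
      (Or.inr (Or.inl (by omega))) h).2
    rw [← hx] at e0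
    rw [show pp n k i + 5 + k = pp n k i + 4 + k + 1 by omega,
      show pp n k i + 6 + k = pp n k i + 4 + k + 2 by omega, ← hx', ← hx''] at hv
    rw [show pp n k i + 5 + k = pp n k i + 4 + k + 1 by omega, ← hx'] at e1
    rw [show pp n k i + 6 + k = pp n k i + 4 + k + 2 by omega, ← hx''] at e2
    push_cast at e0 e2
    clear hx hx' hx'' hinj
    have hne : x' ≠ x := by
      intro h
      have := hv (by omega)
      omega
    apply win34 N x x' x'' NN _ _ hne <;> omega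
  · have e0 := LA6_34 n k gv gu f δ₁ δ M₁ M₂ M₃ i (k + 12) (by omega) (by omega)
    have e1 := LA13_34 n k gv gu f δ₁ δ M₁ M₂ M₃ i
    have e2 := LA_pool n k gv gu f δ₁ δ M₁ M₂ M₃ i 0 (by omega)
    have hv := fun h => (hinj (k + 12) (k + 13) (Or.inr (Or.inl (by omega)))
      (Or.inr (Or.inl (by omega))) h).2
    rw [← hx] at e0 hv
    rw [show k + 13 = k + 12 + 1 by omega, ← hx'] at e1 hv
    rw [show k + 14 + 0 = k + 12 + 2 by omega, ← hx''] at e2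
    push_cast at e0 e2
    clear hx hx' hx'' hinj
    have hne : x' ≠ x := by
      intro h
      have := hv (by omega)
      omega
    apply win34 N x x' x'' NN _ _ hne <;> omega
  · have e0 := LA_pool n k gv gu f δ₁ δ M₁ M₂ M₃ i 2 (by omega)
    have e1 := LA17_34 n k gv gu f δ₁ δ M₁ M₂ M₃ i
    have e2 := LA_18 n k gv gu f δ₁ δ M₁ M₂ M₃ i
    have hv := fun h => (hinj (k + 17) (k + 18) (Or.inr (Or.inr (by omega)))
      (Or.inr (Or.inr (by omega))) h).2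
    rw [show k + 14 + 2 = k + 16 by omega, ← hx] at e0
    rw [show k + 17 = k + 16 + 1 by omega, show k + 18 = k + 16 + 2 by omega, ← hx', ← hx''] at hv
    rw [show k + 17 = k + 16 + 1 by omega, ← hx'] at e1
    rw [show k + 18 = k + 16 + 2 by omega, ← hx''] at e2
    push_cast at e0
    clear hx hx' hx'' hinj
    have hne : x' ≠ x := by
      intro h
      have := hv (by omega)
      omega
    apply win34 N x x' x'' NN _ _ hne <;> omega
  · have e0 := LA22_34 n k gv gu f δ₁ δ M₁ M₂ M₃ i 2 (by omega)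
    have e1 := LA23_34 n k gv gu f δ₁ δ M₁ M₂ M₃ i
    have e2 := LA_end n k gv gu f δ₁ δ M₁ M₂ M₃ i
    have hv := fun h => (hinj (k + 22) (k + 23) (Or.inr (Or.inr (by omega)))
      (Or.inr (Or.inr (by omega))) h).2
    rw [show k + 20 + 2 = k + 22 by omega, ← hx] at e0
    rw [← hx] at hv
    rw [show k + 23 = k + 22 + 1 by omega, ← hx'] at e1 hv
    rw [show k + 24 = k + 22 + 2 by omega, ← hx''] at e2
    push_cast at e0
    clear hx hx' hx'' hinj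
    have hne : x' ≠ x := by
      intro h
      have := hv (by omega)
      omega
    apply win34 N x x' x'' NN _ _ hne <;> omega
  · have e0 := LA_18 n k gv gu f δ₁ δ M₁ M₂ M₃ i
    have e1 := LA_19 n k gv gu f δ₁ δ M₁ M₂ M₃ i
    have e2 := LA_20 n k gv gu f δ₁ δ M₁ M₂ M₃ i
    obtain ⟨s1, s2⟩ := hI.hδ' i hγ
    rw [← hx] at e0
    rw [show k + 19 = k + 18 + 1 by omega, ← hx'] at e1
    rw [show k + 20 = k + 18 + 2 by omega, ← hx''] at e2
    clear hx hx' hx'' hinj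
    have hne : x' ≠ x := by omega
    apply win34 N x x' x'' NN _ _ hne <;> omega

include hP hI hM in
theorem wide_plain (i : ℕ) (hi : i < r) (j : ℕ) (hj : plainPos n k i j) (x x' : ℤ)
    (hx : x = LA n k gv gu f δ₁ δ M₁ M₂ M₃ i j)
    (hx' : x' = LA n k gv gu f δ₁ δ M₁ M₂ M₃ i (j + 1)) :
    x' = x + 1 ∧ ∃ lo : ℤ, ∀ q, lo ≤ q → q ≤ lo + N →
      (N : ℤ) ≤ x - q ∧ x - q ≤ 31 * N ∧ 0 ≤ q ∧ q ≤ 51 * N := by
  obtain ⟨t1, t2, -, -⟩ := tile34 n N k r mc μ hP i hi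
  obtain ⟨f1, f2⟩ := pool34 n N k r mc μ γ hP gv gu f δ₁ δ e hI i hi
  obtain ⟨d1, d2, d3, d4, d5, d6, d7, d8, d9, d10⟩ := hI.hδ i hi
  obtain ⟨m3, m4, m5⟩ := hM.hM₃ i hi
  have pl := pp_lt n k i
  have NN : (100 : ℤ) ≤ N := by exact_mod_cast t1
  have Z : (41 * (N : ℤ) ≤ M₁ i ∧ M₁ i ≤ 47 * N ∧ 41 * (N : ℤ) ≤ M₂ i ∧ M₂ i ≤ 47 * N) ∨
      (49 * (N : ℤ) ≤ M₁ i ∧ M₁ i ≤ 55 * N ∧ 49 * (N : ℤ) ≤ M₂ i ∧ M₂ i ≤ 55 * N) := by
    rcases lt_or_ge (4 * (i * (k + 2))) n with h | h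
    · exact Or.inl (hM.hz i hi h)
    · exact Or.inr (hM.hz' i hi h)
  have key : x' = x + 1 ∧ 2 * (N : ℤ) ≤ x ∧ x ≤ 81 * N := by
    rcases hj with ⟨h1, h2⟩ | ⟨h1, h2⟩ | rfl | rfl | rfl
    · have e0 := LA2_34 n k gv gu f δ₁ δ M₁ M₂ M₃ i j h1 (by omega)
      have e1 := LA2_34 n k gv gu f δ₁ δ M₁ M₂ M₃ i (j + 1) (by omega) (by omega)
      rw [← hx] at e0
      rw [← hx'] at e1
      push_cast at e1
      clear hx hx'
      omega
    · have e0 := LA6_34 n k gv gu f δ₁ δ M₁ M₂ M₃ i j h1 (by omega)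
      have e1 := LA6_34 n k gv gu f δ₁ δ M₁ M₂ M₃ i (j + 1) (by omega) (by omega)
      rw [← hx] at e0
      rw [← hx'] at e1
      push_cast at e1
      clear hx hx'
      omega
    · have e0 := LA_pool n k gv gu f δ₁ δ M₁ M₂ M₃ i 1 (by omega)
      have e1 := LA_pool n k gv gu f δ₁ δ M₁ M₂ M₃ i 2 (by omega)
      rw [show k + 14 + 1 = k + 15 by omega, ← hx] at e0
      rw [show k + 14 + 2 = k + 15 + 1 by omega, ← hx'] at e1
      push_cast at e0 e1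
      clear hx hx'
      omega
    · have e0 := LA22_34 n k gv gu f δ₁ δ M₁ M₂ M₃ i 0 (by omega)
      have e1 := LA22_34 n k gv gu f δ₁ δ M₁ M₂ M₃ i 1 (by omega)
      rw [show k + 20 + 0 = k + 20 by omega, ← hx] at e0
      rw [← hx'] at e1
      push_cast at e0 e1
      clear hx hx'
      omega
    · have e0 := LA22_34 n k gv gu f δ₁ δ M₁ M₂ M₃ i 1 (by omega)
      have e1 := LA22_34 n k gv gu f δ₁ δ M₁ M₂ M₃ i 2 (by omega)
      rw [show k + 20 + 1 = k + 21 by omega, ← hx] at e0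
      rw [show k + 20 + 2 = k + 21 + 1 by omega, ← hx'] at e1
      push_cast at e0 e1
      clear hx hx'
      omega
  obtain ⟨k1, k2, k3⟩ := key
  refine ⟨k1, max (x - 31 * N) 0, fun q hq hq' => ?_⟩
  clear hx hx'
  rcases max_choice (x - 31 * (N : ℤ)) 0 with h | h
  · rw [h] at hq'
    have a1 := (le_max_left (x - 31 * (N : ℤ)) 0).trans hq
    have a2 := (le_max_right (x - 31 * (N : ℤ)) 0).trans hq
    refine ⟨?_, ?_, ?_, ?_⟩ <;> omega
  · rw [h] at hq'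
    have a1 := (le_max_left (x - 31 * (N : ℤ)) 0).trans hq
    have a2 := (le_max_right (x - 31 * (N : ℤ)) 0).trans hq
    refine ⟨?_, ?_, ?_, ?_⟩ <;> omega

end Pool.Agent.Helper83.GD
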