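import Pool.Agent.Helper83.GD.Ops
import Pool.Agent.Helper83.GD.Wide
import Pool.Agent.Helper83.GD.Count

/-!
# GHD-OPSMOD: the pairs and plain columns of the modules

Proof. `ops` for the set `s` of the `τ = (i, j)`, `i < r`, `j < k + 24`, `opPos n k γ i j` (at most `16 r` elements,
`count_pair`, `count_plain`), `x τ = LA i j`, `E τ = LA i (j + 1) - LA i j` for pairs, `0` for plain columns, `lo τ` from
`wide_pair`, `wide_plain`. (`opPos_lt`: every `opPos` position is `< k + 24`.)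
-/

namespace Pool.Agent.Helper83.GD

open Finset

theorem opsMod (n N k r mc μ γ : ℕ) (hP : Par n N k r mc μ) (gv gu f δ₁ δ : ℕ → ℤ)
    (e : ℕ → ℕ → ℤ) (hI : Inp n N k r γ gv gu f δ₁ δ e) (FA FB : Finset ℤ)
    (M₁ M₂ M₃ : ℕ → ℤ) (hM : Mid n N k r γ gv gu f δ₁ δ M₁ M₂ M₃ e FA FB) (FB' FD : Finset ℤ)
    (hs : 8 * (FB'.card + FD.card + 64 * r + 1) ≤ N) :
    ∃ E q : ℕ → ℕ → ℤ, OpsOK n N k r γ (LA n k gv gu f δ₁ δ M₁ M₂ M₃) E q FB' FD := by
  classical
  have hk' := hP.hk'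
  set a := LA n k gv gu f δ₁ δ M₁ M₂ M₃ with ha
  have key : ∀ τ : ℕ × ℕ, ∃ El : ℤ × ℤ, τ.1 < r →
      (pairPos n k γ τ.1 τ.2 → a τ.1 (τ.2 + 1) = a τ.1 τ.2 + El.1 ∧
        a τ.1 (τ.2 + 2) = a τ.1 τ.2 + 2 * El.1 ∧ (2 : ℤ) ∣ El.1 ∧ El.1 ≠ 0) ∧
      (plainPos n k τ.1 τ.2 → a τ.1 (τ.2 + 1) = a τ.1 τ.2 + 1 ∧ El.1 = 0) ∧
      (opPos n k γ τ.1 τ.2 → ∀ q, El.2 ≤ q → q ≤ El.2 + N →
        (N : ℤ) ≤ a τ.1 τ.2 - q ∧ a τ.1 τ.2 - q ≤ 31 * N ∧
        (El.1 ≠ 0 → (N : ℤ) ≤ a τ.1 τ.2 + El.1 - q - 1 ∧ a τ.1 τ.2 + El.1 - q - 1 ≤ 31 * N) ∧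
        0 ≤ q ∧ q ≤ 51 * N ∧ 0 ≤ q + El.1 ∧ q + El.1 ≤ 51 * N) := by
    rintro ⟨i, j⟩
    by_cases hi : i < r
    · by_cases hp : pairPos n k γ i j
      · obtain ⟨h1, h2, h3, lo, h4⟩ := wide_pair n N k r mc μ γ hP gv gu f δ₁ δ e hI FA FB M₁ M₂ M₃
          hM i hi j hp _ _ _ rfl rfl rfl
        refine ⟨(a i (j + 1) - a i j, lo), fun _ => ⟨fun _ => ⟨?_, ?_, h2, ?_⟩, ?_, ?_⟩⟩
        · simp only
          ring
        · simp only
          rw [ha, h1]
          ring
        · exact sub_ne_zero.mpr h3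
        · intro h
          exact absurd h (pair_plain n k γ i j hk' hp)
        · intro _ q hq1 hq2
          obtain ⟨g1, g2, g3, g4, g5, g6, g7, g8⟩ := h4 q hq1 hq2
          rw [← ha] at g1 g2 g3 g4 g7 g8
          simp only
          refine ⟨g1, g2, fun _ => ⟨by linarith, by linarith⟩, g5, g6, g7, g8⟩
      · by_cases hpl : plainPos n k i j
        · obtain ⟨h1, lo, h4⟩ := wide_plain n N k r mc μ γ hP gv gu f δ₁ δ e hI FA FB M₁ M₂ M₃
            hM i hi j hpl _ _ rfl rfl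
          refine ⟨(0, lo), fun _ => ⟨fun h => absurd h hp, fun _ => ⟨h1, rfl⟩, ?_⟩⟩
          intro _ q hq1 hq2
          obtain ⟨g1, g2, g5, g6⟩ := h4 q hq1 hq2
          rw [← ha] at g1 g2
          simp only
          refine ⟨g1, g2, fun h => absurd rfl h, g5, g6, by linarith, by linarith⟩
        · refine ⟨(0, 0), fun _ => ⟨fun h => absurd h hp, fun h => absurd h hpl, fun h => ?_⟩⟩
          rcases h with h | h
          · exact absurd h hp
          · exact absurd h hpl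
    · exact ⟨(0, 0), fun h => absurd h hi⟩
  choose El hEl using key
  set s : Finset (ℕ × ℕ) := (range r ×ˢ range (k + 24)).filter fun τ => opPos n k γ τ.1 τ.2 with hsdef
  have hscard : s.card ≤ 16 * r := by
    have h1 : s ⊆ ((range r ×ˢ range (k + 24)).filter fun τ => pairPos n k γ τ.1 τ.2) ∪
        ((range r ×ˢ range (k + 24)).filter fun τ => plainPos n k τ.1 τ.2) := by
      intro τ hτ
      rw [hsdef, mem_filter] at hτ
      rw [mem_union, mem_filter, mem_filter]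
      rcases hτ.2 with h | h
      · exact Or.inl ⟨hτ.1, h⟩
      · exact Or.inr ⟨hτ.1, h⟩
    have h2 := (card_le_card h1).trans (card_union_le _ _)
    rw [count_pair n k r γ hk' hI.hγ, count_plain n k r hk'] at h2
    omega
  have hmem : ∀ i < r, ∀ j, opPos n k γ i j → (i, j) ∈ s := by
    intro i hi j hj
    rw [hsdef, mem_filter, mem_product, mem_range, mem_range]
    have := opPos_lt n k γ i j hj
    exact ⟨⟨hi, by simp only; omega⟩, hj⟩
  obtain ⟨q, hq1, hq2⟩ := ops s (fun τ => a τ.1 τ.2) (fun τ => (El τ).1) (fun τ => (El τ).2) N FB' FD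
    (by omega)
  refine ⟨fun i j => (El (i, j)).1, fun i j => q (i, j), ?_⟩
  exact
    { hpair := fun i hi j hj => (hEl (i, j) hi).1 hj
      hplain := fun i hi j hj => (hEl (i, j) hi).2.1 hj
      hq := fun i hi j hj => by
        obtain ⟨g1, g2, g3, g4, g5⟩ := hq1 (i, j) (hmem i hi j hj)
        obtain ⟨f1, f2, f3, f4, f5, f6, f7⟩ := (hEl (i, j) hi).2.2 hj _ g2 g3
        exact ⟨g1, f4, f5, f6, f7, g4⟩
      hb := fun i hi j hj => by
        obtain ⟨g1, g2, g3, g4, g5⟩ := hq1 (i, j) (hmem i hi j hj)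
        obtain ⟨f1, f2, f3, f4, f5, f6, f7⟩ := (hEl (i, j) hi).2.2 hj _ g2 g3
        refine ⟨g5, fun b hb => ?_⟩
        unfold Bset at hb
        split_ifs at hb with h0
        · rw [mem_singleton] at hb
          rw [hb]
          exact ⟨f1, f2⟩
        · rw [mem_insert, mem_singleton] at hb
          rcases hb with hb | hb
          · rw [hb]
            exact ⟨f1, f2⟩
          · rw [hb]
            exact f3 h0
      hqq := fun i hi i' hi' j j' hj hj' h => by
        refine (hq2 (i, j) (hmem i hi j hj) (i', j') (hmem i' hi' j' hj') ?_).1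
        rintro ⟨⟩
        rcases h with h | h
        · exact h rfl
        · exact h rfl
      hbb := fun i hi i' hi' j j' hj hj' h => by
        refine (hq2 (i, j) (hmem i hi j hj) (i', j') (hmem i' hi' j' hj') ?_).2
        rintro ⟨⟩
        rcases h with h | h
        · exact h rfl
        · exact h rfl }

end Pool.Agent.Helper83.GD
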