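import Pool.Agent.Helper83.GD.Order
import Pool.Agent.Helper83.GD.Mid0
import Pool.Agent.Helper83.GD.LabA
import Pool.Agent.Helper83.GD.OpsMod
import Pool.Agent.Helper83.GD.LateL
import Pool.Agent.Helper83.GD.ColE
import Pool.Agent.Helper83.GD.LabR
import Pool.Agent.Helper83.GD.LabB

/-!
# GHD: the modules (composition)
-/

namespace Pool.Agent.Helper83.GD

open Finset

theorem modules (n N k r mc μ γ : ℕ) (hP : Par n N k r mc μ) (hr : 0 < r) (f : ℕ → ℤ) (qs : ℤ)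
    (hf1 : ∀ i < r, (4 : ℤ) ∣ f i ∧ (r : ℤ) * (k + 2) < f i ∧ f i + 2 < n)
    (hf2 : ∀ i < r, ∀ j < r, f i = f j → i = j)
    (hf3 : ∀ i, i + 1 < r → ∀ q : ℤ, 2 * ((i : ℤ) * (k + 1) + k) ≤ q →
      q ≤ 2 * ((i : ℤ) * (k + 1) + k) + 2 * μ + 1 →
      (2 ≤ f i - q ∧ f i - q < N) ∨
        (31 * (N : ℤ) < f i - q ∧ f i - q < n - ((r : ℤ) * k + 2 * μ + 1)))
    (hf4 : ∀ i j, i < j → j + 1 < r → ∀ q q' : ℤ, 2 * ((i : ℤ) * (k + 1) + k) ≤ q →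
      q ≤ 2 * ((i : ℤ) * (k + 1) + k) + 2 * μ + 1 → 2 * ((j : ℤ) * (k + 1) + k) ≤ q' →
      q' ≤ 2 * ((j : ℤ) * (k + 1) + k) + 2 * μ + 1 → q + 2 * (((j : ℤ) - i) * (k + 1)) ≤ q' →
      f i - q ≠ f j - q')
    (hq1 : (2 : ℤ) ∣ qs) (hq2 : 35 * (N : ℤ) ≤ qs) (hq3 : qs ≤ 51 * N)
    (hq4 : (N : ℤ) ≤ f (r - 1) - qs) (hq5 : f (r - 1) - qs ≤ 31 * N)
    (gv gu : ℕ → ℤ) (hgv : ∀ i < r, (4 : ℤ) ∣ gv i ∧ 40 * (N : ℤ) ≤ gv i ∧ gv i ≤ 56 * N)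
    (hgu : ∀ i < r, (4 : ℤ) ∣ gu i ∧ 40 * (N : ℤ) ≤ gu i ∧ gu i ≤ 56 * N)
    (CA CB CR D : Finset ℤ)
    (hCA : ∀ x ∈ CA, 37 * (N : ℤ) ≤ x ∧ x ≤ 63 * N ∧ ∀ i < r, ∀ s < 3, x ≠ f i + (s : ℕ))
    (hCB : ∀ x ∈ CB, (N : ℤ) ≤ x ∧ x ≤ 31 * N ∧ x ≠ f (r - 1) - qs)
    (hCAc : CA.card ≤ 2 * r + 1) (hCBc : CB.card ≤ 2 * r + 1)
    (hD : ∀ q ∈ D, (4 : ℤ) ∣ q ∧ 30 * (N : ℤ) ≤ q ∧ q ≤ 34 * N)
    (hDc : 2 * D.card + n % 2 = mc + 4 * γ) (hγ : 4 * γ ≤ mc) (pd : ℕ → ℤ)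
    (hpd : ∀ j < 4 * γ, pd j - 1 ∈ D) (hpdi : ∀ j < 4 * γ, ∀ j' < 4 * γ, pd j = pd j' → j = j')
    (hCR : ∀ y ∈ CR, (y ∈ D ∨ y - 1 ∈ D ∨ (n % 2 = 1 ∧ y = 52 * N)) ∧ ∀ j < 4 * γ, y ≠ pd j) :
    ∃ a b : ℕ → ℕ → ℤ, Mod n k r gv gu CA CB CR a b := by
  classical
  have hmr := hP.hmr
  have hk' := hP.hk'
  have hkN := hP.hkN
  have hrN := hP.hrN
  have hN1 : 1 ≤ N := by omega
  have hγr : γ ≤ r := by omega
  obtain ⟨e, δ₁, δ, ho1, ho2, ho3, ho4, ho5⟩ := order γ r N hN1 pd f gu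
    (fun j hj => by
      obtain ⟨h1, h2, h3⟩ := hD _ (hpd j hj)
      exact ⟨h1, by omega, by omega⟩) hpdi
  have he : ∀ i < γ, ∀ s < 4, e i s - 1 ∈ D := by
    intro i hi s hs
    obtain ⟨j, hj, h⟩ := ho3 i hi s hs
    rw [h]
    exact hpd j hj
  have hI : Inp n N k r γ gv gu f δ₁ δ e :=
    { hγ := hγr, hgv := hgv, hgu := hgu, hf := hf1, hfi := hf2, hδ := ho1, heδ := ho2,
      he := fun i hi a ha => by
        obtain ⟨h1, h2, h3⟩ := hD _ (he i hi a ha)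
        exact ⟨by omega, by omega⟩
      hei := fun i hi i' hi' a ha a' ha' h => ho4 i hi i' hi' a ha a' ha' h
      hδ' := ho5 }
  set FA : Finset ℤ := CA ∪ (range r ×ˢ range 3).image (fun τ => f τ.1 + (τ.2 : ℕ)) with hFA
  set FB0 : Finset ℤ := insert (f (r - 1) - qs) CB with hFB0
  have hFAc : FA.card ≤ 2 * r + 1 + 3 * r := by
    refine (card_union_le _ _).trans (add_le_add hCAc ?_)
    refine card_image_le.trans ?_
    rw [card_product, card_range, card_range]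
    omega
  have hFB0c : FB0.card ≤ 2 * r + 2 := (card_insert_le _ _).trans (by omega)
  obtain ⟨M₁, M₂, M₃, hM⟩ := mid0 n N k r mc μ γ hP gv gu f δ₁ δ e hI FA FB0 (by omega)
  set FB : Finset ℤ := FB0 ∪ (range γ ×ˢ range 2).image (fun τ => chB δ₁ M₃ e τ.1 τ.2) with hFB
  have hFBc : FB.card ≤ 4 * r + 2 := by
    have h1 : ((range γ ×ˢ range 2).image (fun τ => chB δ₁ M₃ e τ.1 τ.2)).card ≤ γ * 2 := by
      refine card_image_le.trans ?_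
      rw [card_product, card_range, card_range]
    have := card_union_le FB0 ((range γ ×ˢ range 2).image (fun τ => chB δ₁ M₃ e τ.1 τ.2))
    rw [← hFB] at this
    omega
  have hFDc : (insert qs D).card ≤ D.card + 1 := card_insert_le _ _
  obtain ⟨E, q, hO⟩ := opsMod n N k r mc μ γ hP gv gu f δ₁ δ e hI FA FB0 M₁ M₂ M₃ hM FB
    (insert qs D) (by omega)
  have hD2 : ∀ x ∈ D, (2 : ℤ) ∣ x ∧ 30 * (N : ℤ) ≤ x ∧ x ≤ 34 * N := fun x hx => by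
    obtain ⟨h1, h2, h3⟩ := hD x hx
    exact ⟨by omega, h2, h3⟩
  obtain ⟨t, hL⟩ := late n N k r mc μ γ hP hγr _ E q FB D qs hO hD2 ⟨hq1, hq2, hq3⟩ hDc hr
  obtain ⟨b, hb⟩ := col_exists n N k r γ hk' _ E q e f δ₁ M₃ qs t FB (insert qs D)
    (rows_LA n k gv gu f δ₁ δ M₁ M₂ M₃ N r γ e hI) hO
  have hqs : (2 : ℤ) ∣ qs ∧ 35 * (N : ℤ) ≤ qs ∧ qs ≤ 51 * N := ⟨hq1, hq2, hq3⟩
  have hCR' : ∀ y ∈ CR, (y ∈ D ∨ y - 1 ∈ D ∨ (n % 2 = 1 ∧ y = 52 * N)) ∧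
      ∀ i < γ, ∀ s < 4, y ≠ e i s := by
    intro y hy
    refine ⟨(hCR y hy).1, fun i hi s hs h => ?_⟩
    obtain ⟨j, hj, h'⟩ := ho3 i hi s hs
    exact (hCR y hy).2 j hj (h.trans h')
  have hch : ∀ i < γ, ∀ s < 2, (N : ℤ) ≤ chB δ₁ M₃ e i s ∧ chB δ₁ M₃ e i s ≤ 31 * N ∧
      chB δ₁ M₃ e i s ∈ FB ∧ chB δ₁ M₃ e i s ≠ f (r - 1) - qs := by
    intro i hi s hs
    have h0 : chB δ₁ M₃ e i s ∉ FB0 := hM.hch i hi s hs
    have h1 := hM.hM₃ i (by omega)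
    have h2 := ho1 i (by omega)
    have h3 := hI.he i hi 0 (by omega)
    have h4 := hI.he i hi 2 (by omega)
    refine ⟨?_, ?_, ?_, ?_⟩
    · unfold chB
      split_ifs <;> omega
    · unfold chB
      split_ifs <;> omega
    · rw [hFB]
      refine mem_union_right _ (mem_image.mpr ⟨(i, s), ?_, rfl⟩)
      simp only [mem_product, mem_range]
      exact ⟨hi, hs⟩
    · intro h
      exact h0 (by rw [h, hFB0]; exact mem_insert_self _ _)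
  have hfs : (N : ℤ) ≤ f (r - 1) - qs ∧ f (r - 1) - qs ≤ 31 * N ∧ f (r - 1) - qs ∈ FB :=
    ⟨hq4, hq5, by rw [hFB, hFB0]; exact mem_union_left _ (mem_insert_self _ _)⟩
  have hCB' : ∀ x ∈ CB, (N : ℤ) ≤ x ∧ x ≤ 31 * N ∧ x ∈ FB ∧ x ≠ f (r - 1) - qs ∧
      ∀ i < γ, ∀ s < 2, x ≠ chB δ₁ M₃ e i s := by
    intro x hx
    obtain ⟨h1, h2, h3⟩ := hCB x hx
    refine ⟨h1, h2, ?_, h3, ?_⟩
    · rw [hFB, hFB0]
      exact mem_union_left _ (mem_insert_of_mem hx)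
    · intro i hi s hs h
      exact hM.hch i hi s hs (by rw [← h, hFB0]; exact mem_insert_of_mem hx)
  have hidx : ∀ i, i + 1 < r → i * (k + 1) + k + 1 < r * (k + 1) := by
    intro i hi
    have : (i + 2) * (k + 1) ≤ r * (k + 1) := Nat.mul_le_mul_right _ (by omega)
    nlinarith
  have hp1 : ∀ i, i + 1 < r →
      (2 ≤ f i - t (i * (k + 1) + k) ∧ f i - t (i * (k + 1) + k) < N) ∨
      (31 * (N : ℤ) < f i - t (i * (k + 1) + k) ∧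
        f i - t (i * (k + 1) + k) < n - ((r : ℤ) * k + 2 * μ + 1)) := by
    intro i hi
    obtain ⟨h1, h2⟩ := hL.hw _ (hidx i hi)
    push_cast at h1 h2
    exact hf3 i hi _ h1 h2
  have hp2 : ∀ i j, i < j → j + 1 < r →
      f i - t (i * (k + 1) + k) ≠ f j - t (j * (k + 1) + k) := by
    intro i j hij hj
    obtain ⟨h1, h2⟩ := hL.hw _ (hidx i (by omega))
    obtain ⟨h3, h4⟩ := hL.hw _ (hidx j hj)
    have hlt : i * (k + 1) + k < j * (k + 1) + k := by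
      have : (i + 1) * (k + 1) ≤ j * (k + 1) := Nat.mul_le_mul_right _ (by omega)
      nlinarith
    have h5 := hL.hm _ _ hlt (hidx j hj)
    push_cast at h1 h2 h3 h4 h5
    refine hf4 i j hij hj _ _ h1 h2 h3 h4 ?_
    linarith [h5]
  have hCA' : ∀ x ∈ CA, x ∈ FA ∧ 37 * (N : ℤ) ≤ x ∧ x ≤ 63 * N ∧
      ∀ i < r, ∀ s < 3, x ≠ f i + (s : ℕ) := fun x hx =>
    ⟨by rw [hFA]; exact mem_union_left _ hx, (hCA x hx).1, (hCA x hx).2.1, (hCA x hx).2.2⟩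
  have hfA : ∀ i < r, ∀ s < 3, f i + (s : ℕ) ∈ FA := by
    intro i hi s hs
    rw [hFA]
    refine mem_union_right _ (mem_image.mpr ⟨(i, s), ?_, rfl⟩)
    simp only [mem_product, mem_range]
    exact ⟨hi, hs⟩
  refine ⟨LA n k gv gu f δ₁ δ M₁ M₂ M₃, b, ?_⟩
  exact
    { h0 := fun i _ => LA_zero n k gv gu f δ₁ δ M₁ M₂ M₃ i
      hK := fun i _ => LA_end n k gv gu f δ₁ δ M₁ M₂ M₃ i
      hA := fun i hi i' hi' j j' hj0 hj hj0' hj' h =>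
        labA_inj n N k r mc μ γ hP gv gu f δ₁ δ e hI FA FB0 M₁ M₂ M₃ hM hfA i i' hi hi' j j' hj0
          hj hj0' hj' h
      hAC := fun i hi j hj0 hj x hx =>
        labA_core n N k r mc μ γ hP gv gu f δ₁ δ e hI FA FB0 M₁ M₂ M₃ hM CA hCA' i hi j hj0 hj x
          hx
      hB := fun i hi i' hi' j hj j' hj' h =>
        labB_inj n N k r mc μ γ hP _ E q e b f δ₁ M₃ qs t FB (insert qs D) D hO hL hch hM.hchi hfs
          hp1 hp2 hb i i' j j' hi hi' hj hj' h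
      hBC := fun i hi j hj x hx =>
        labB_core n N k r mc μ γ hP _ E q e b f δ₁ M₃ qs t FB (insert qs D) D CB hO hL hCB' hch
          hfs hp1 hb i j hi hj x hx
      hR := fun i hi j hj s hs =>
        labR_range n N k r mc μ γ hP _ E q e b f δ₁ M₃ qs t FB D hO hL hD2 hqs he hb i j s hi hj
          hs
      hRi := fun i hi i' hi' j hj j' hj' s hs s' hs' h =>
        labR_inj n N k r mc μ γ hP _ E q e b f δ₁ M₃ qs t FB D hO hL hD2 hqs he ho4 hb i i' j j'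
          s s' hi hi' hj hj' hs hs' h
      hRC := fun i hi j hj s hs =>
        labR_core n N k r mc μ γ hP _ E q e b f δ₁ M₃ qs t FB D CR hO hL hD2 hqs he hCR' hb i j s
          hi hj hs }

end Pool.Agent.Helper83.GD
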