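import Pool.Agent.Helper83.GD.Greedy
import Pool.Agent.Helper83.GD.Defs2

/-!
# GHD-OPS: choice of the dominoes of the pairs and plain columns

Proof. `greedy` with `Ω = ℤ ⊕ ℤ`, `φ τ q = inl (Dset (E τ) q) ∪ inr (Bset (x τ) (E τ) q)`, `F = inl FD ∪ inr FB`,
`κ = 4`, `κ' = 2` (a number `ω` is in `Dset (E τ) q` only for `q = ω`, `q = ω - E τ`, and in `Bset` only for `q = x - ω`,
`q = x + E - 1 - ω`), `C τ` = the even numbers in `[lo τ, lo τ + N]`: at least `(N - 1) / 2` (`card_even`).
-/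

namespace Pool.Agent.Helper83.GD

open Finset

private lemma disj_of_disjSum {s t s' t' : Finset ℤ} (h : Disjoint (s.disjSum t) (s'.disjSum t')) :
    Disjoint s s' ∧ Disjoint t t' := by
  rw [Finset.disjoint_left] at h
  constructor
  · rw [Finset.disjoint_left]
    intro a ha ha'
    exact h (Finset.inl_mem_disjSum.mpr ha) (Finset.inl_mem_disjSum.mpr ha')
  · rw [Finset.disjoint_left]
    intro a ha ha'
    exact h (Finset.inr_mem_disjSum.mpr ha) (Finset.inr_mem_disjSum.mpr ha')

theorem ops (s : Finset (ℕ × ℕ)) (x E lo : ℕ × ℕ → ℤ) (N : ℕ) (FB FD : Finset ℤ)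
    (hs : 8 * (FB.card + FD.card + 4 * s.card + 1) ≤ N) :
    ∃ q : ℕ × ℕ → ℤ, (∀ τ ∈ s, (2 : ℤ) ∣ q τ ∧ lo τ ≤ q τ ∧ q τ ≤ lo τ + N ∧
        Disjoint (Dset (E τ) (q τ)) FD ∧ Disjoint (Bset (x τ) (E τ) (q τ)) FB) ∧
      ∀ τ ∈ s, ∀ τ' ∈ s, τ ≠ τ' → Disjoint (Dset (E τ) (q τ)) (Dset (E τ') (q τ')) ∧
        Disjoint (Bset (x τ) (E τ) (q τ)) (Bset (x τ') (E τ') (q τ')) := by
  obtain ⟨q, hq1, hq2⟩ := greedy s
    (fun τ => (Icc (lo τ) (lo τ + N)).filter fun y => (2 : ℤ) ∣ y)
    (fun τ a => (Dset (E τ) a).disjSum (Bset (x τ) (E τ) a)) (FD.disjSum FB) 4 2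
    (by
      intro τ _ a _
      rw [Finset.card_disjSum]
      have h1 : (Dset (E τ) a).card ≤ 2 := Finset.card_le_two
      have h2 : (Bset (x τ) (E τ) a).card ≤ 2 := by
        unfold Bset
        split_ifs
        · simp
        · exact Finset.card_le_two
      omega)
    (by
      rintro τ _ (d | b)
      · refine (card_le_card (t := {d, d - E τ}) ?_).trans Finset.card_le_two
        intro a ha
        rw [mem_filter, Finset.inl_mem_disjSum] at ha
        have h := ha.2
        simp only [Dset, mem_insert, mem_singleton] at h ⊢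
        omega
      · refine (card_le_card (t := {x τ - b, x τ + E τ - 1 - b}) ?_).trans Finset.card_le_two
        intro a ha
        rw [mem_filter, Finset.inr_mem_disjSum] at ha
        have h := ha.2
        unfold Bset at h
        split_ifs at h
        · simp only [mem_insert, mem_singleton] at h ⊢
          omega
        · simp only [mem_insert, mem_singleton] at h ⊢
          omega)
    (by
      intro τ _
      rw [Finset.card_disjSum]
      have h1 := card_even (lo τ) N
      omega)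
  refine ⟨q, fun τ hτ => ?_, fun τ hτ τ' hτ' hne => disj_of_disjSum (hq2 τ hτ τ' hτ' hne)⟩
  obtain ⟨h1, h2⟩ := hq1 τ hτ
  rw [mem_filter, mem_Icc] at h1
  obtain ⟨h3, h4⟩ := disj_of_disjSum h2
  exact ⟨h1.2, h1.1.1, h1.1.2, h3, h4⟩

end Pool.Agent.Helper83.GD
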