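import Pool.Agent.Helper83.GD.Defs

/-!
# GHD-ORDER: the cherries

The modules `i < γ` take the four numbers `pd (4 i), …, pd (4 i + 3)`. Let `d₀ < d₁ < d₂ < d₃` be these numbers in increasing order,
`Δ = (d₁ - d₀) + (d₃ - d₂) > 0`. Take `e i = (d₀, d₁, d₂, d₃)`, `δ₁ i = d₁ - d₀`, `δ i = Δ` if `f i ≠ gu i + Δ`, and
`e i = (d₁, d₀, d₃, d₂)`, `δ₁ i = d₀ - d₁`, `δ i = -Δ` otherwise (then `f i ≠ gu i - Δ`). For `γ ≤ i`: `δ₁ i = 4` or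
`-4`, `δ i = 2 δ₁ i`.
-/

namespace Pool.Agent.Helper83.GD

/-- Four distinct integers in increasing order. -/
theorem order_sort (x : ℕ → ℤ) (hx : ∀ a < 4, ∀ b < 4, x a = x b → a = b) :
    ∃ d : ℕ → ℤ, d 0 < d 1 ∧ d 1 < d 2 ∧ d 2 < d 3 ∧ ∀ a < 4, ∃ j < 4, d a = x j := by
  classical
  have hs : ((Finset.range 4).image x).card = 4 := by
    rw [Finset.card_image_of_injOn, Finset.card_range]
    intro a ha b hb hab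
    exact hx a (by simpa using ha) b (by simpa using hb) hab
  let o := ((Finset.range 4).image x).orderEmbOfFin hs
  have hlt : ∀ (a b : ℕ) (ha : a < 4) (hb : b < 4), a < b →
      (if h : a < 4 then o ⟨a, h⟩ else 0) < (if h : b < 4 then o ⟨b, h⟩ else 0) := by
    intro a b ha hb hab
    rw [dif_pos ha, dif_pos hb]
    exact o.strictMono hab
  refine ⟨fun a => if h : a < 4 then o ⟨a, h⟩ else 0, hlt 0 1 (by norm_num) (by norm_num) (by norm_num),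
    hlt 1 2 (by norm_num) (by norm_num) (by norm_num),
    hlt 2 3 (by norm_num) (by norm_num) (by norm_num), ?_⟩
  intro a ha
  have h1 : o ⟨a, ha⟩ ∈ (Finset.range 4).image x := Finset.orderEmbOfFin_mem _ hs _
  obtain ⟨j, hj, hj2⟩ := Finset.mem_image.mp h1
  refine ⟨j, Finset.mem_range.mp hj, ?_⟩
  simp only [dif_pos ha]
  exact hj2.symm

/-- One module. -/
theorem order_one (N : ℕ) (x : ℕ → ℤ) (f g : ℤ)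
    (hpd : ∀ j < 4, (4 : ℤ) ∣ x j - 1 ∧ 30 * (N : ℤ) + 1 ≤ x j ∧ x j ≤ 34 * N + 1)
    (hx : ∀ a < 4, ∀ b < 4, x a = x b → a = b) :
    ∃ (e : ℕ → ℤ) (δ₁ δ : ℤ),
      ((4 : ℤ) ∣ δ₁ ∧ (4 : ℤ) ∣ δ ∧ δ₁ ≠ 0 ∧ δ ≠ 0 ∧ δ ≠ δ₁ ∧
        -(4 * (N : ℤ)) ≤ δ₁ ∧ δ₁ ≤ 4 * N ∧ -(8 * (N : ℤ)) ≤ δ ∧ δ ≤ 8 * N ∧ f ≠ g + δ) ∧
      (δ₁ = e 1 - e 0 ∧ δ = δ₁ + e 3 - e 2) ∧ (∀ a < 4, ∃ j < 4, e a = x j) ∧
      ∀ a < 4, ∀ a' < 4, e a = e a' → a = a' := by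
  obtain ⟨d, h01, h12, h23, hd⟩ := order_sort x hx
  have hp : ∀ a < 4, (4 : ℤ) ∣ d a - 1 ∧ 30 * (N : ℤ) + 1 ≤ d a ∧ d a ≤ 34 * N + 1 := by
    intro a ha
    obtain ⟨j, hj, hj2⟩ := hd a ha
    rw [hj2]
    exact hpd j hj
  obtain ⟨p0, q0, r0⟩ := hp 0 (by norm_num)
  obtain ⟨p1, q1, r1⟩ := hp 1 (by norm_num)
  obtain ⟨p2, q2, r2⟩ := hp 2 (by norm_num)
  obtain ⟨p3, q3, r3⟩ := hp 3 (by norm_num)
  have hdinj : ∀ a < 4, ∀ a' < 4, d a = d a' → a = a' := by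
    intro a ha a' ha' h
    interval_cases a <;> interval_cases a' <;> first | rfl | (exfalso; omega)
  by_cases hf : f = g + ((d 1 - d 0) + (d 3 - d 2))
  · -- the second order
    let sw : ℕ → ℕ := fun a => if a = 0 then 1 else if a = 1 then 0 else if a = 2 then 3 else
      if a = 3 then 2 else a
    have hsw : ∀ a < 4, sw a < 4 := by
      intro a ha
      interval_cases a <;> simp [sw]
    have hswi : ∀ a < 4, ∀ a' < 4, sw a = sw a' → a = a' := by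
      intro a ha a' ha' h
      interval_cases a <;> interval_cases a' <;> simp [sw] at h ⊢
    refine ⟨fun a => d (sw a), d 0 - d 1, (d 0 - d 1) + (d 2 - d 3), ⟨?_, ?_, ?_, ?_, ?_, ?_, ?_, ?_, ?_, ?_⟩,
      ⟨?_, ?_⟩, ?_, ?_⟩
    any_goals omega
    · show d 0 - d 1 = d (sw 1) - d (sw 0)
      simp [sw]
    · show (d 0 - d 1) + (d 2 - d 3) = (d 0 - d 1) + d (sw 3) - d (sw 2)
      simp [sw]
      ring
    · intro a ha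
      exact hd (sw a) (hsw a ha)
    · intro a ha a' ha' h
      exact hswi a ha a' ha' (hdinj _ (hsw a ha) _ (hsw a' ha') h)
  · refine ⟨d, d 1 - d 0, (d 1 - d 0) + (d 3 - d 2), ⟨?_, ?_, ?_, ?_, ?_, ?_, ?_, ?_, ?_, ?_⟩,
      ⟨rfl, ?_⟩, hd, hdinj⟩
    any_goals omega

theorem order (γ r N : ℕ) (hN : 1 ≤ N) (pd f gu : ℕ → ℤ)
    (hpd : ∀ j < 4 * γ, (4 : ℤ) ∣ pd j - 1 ∧ 30 * (N : ℤ) + 1 ≤ pd j ∧ pd j ≤ 34 * N + 1)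
    (hi : ∀ j < 4 * γ, ∀ j' < 4 * γ, pd j = pd j' → j = j') :
    ∃ (e : ℕ → ℕ → ℤ) (δ₁ δ : ℕ → ℤ),
      (∀ i < r, (4 : ℤ) ∣ δ₁ i ∧ (4 : ℤ) ∣ δ i ∧ δ₁ i ≠ 0 ∧ δ i ≠ 0 ∧ δ i ≠ δ₁ i ∧
        -(4 * (N : ℤ)) ≤ δ₁ i ∧ δ₁ i ≤ 4 * N ∧ -(8 * (N : ℤ)) ≤ δ i ∧ δ i ≤ 8 * N ∧
        f i ≠ gu i + δ i) ∧
      (∀ i < γ, δ₁ i = e i 1 - e i 0 ∧ δ i = δ₁ i + e i 3 - e i 2) ∧
      (∀ i < γ, ∀ a < 4, ∃ j < 4 * γ, e i a = pd j) ∧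
      (∀ i < γ, ∀ i' < γ, ∀ a < 4, ∀ a' < 4, e i a = e i' a' → i = i' ∧ a = a') ∧
      ∀ i, γ ≤ i → δ i = 2 * δ₁ i ∧ (δ₁ i = 4 ∨ δ₁ i = -4) := by
  have key : ∀ i : ℕ, ∃ (e : ℕ → ℤ) (δ₁ δ : ℤ),
      ((4 : ℤ) ∣ δ₁ ∧ (4 : ℤ) ∣ δ ∧ δ₁ ≠ 0 ∧ δ ≠ 0 ∧ δ ≠ δ₁ ∧
        -(4 * (N : ℤ)) ≤ δ₁ ∧ δ₁ ≤ 4 * N ∧ -(8 * (N : ℤ)) ≤ δ ∧ δ ≤ 8 * N ∧ f i ≠ gu i + δ) ∧
      (i < γ → (δ₁ = e 1 - e 0 ∧ δ = δ₁ + e 3 - e 2) ∧ (∀ a < 4, ∃ j < 4, e a = pd (4 * i + j)) ∧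
        ∀ a < 4, ∀ a' < 4, e a = e a' → a = a') ∧
      (γ ≤ i → δ = 2 * δ₁ ∧ (δ₁ = 4 ∨ δ₁ = -4)) := by
    intro i
    by_cases h : i < γ
    · obtain ⟨e, δ₁, δ, h1, h2, h3, h4⟩ := order_one N (fun j => pd (4 * i + j)) (f i) (gu i)
        (fun j hj => hpd _ (by omega))
        (fun a ha b hb hab => by
          have := hi (4 * i + a) (by omega) (4 * i + b) (by omega) hab
          omega)
      exact ⟨e, δ₁, δ, h1, fun _ => ⟨h2, h3, h4⟩, fun h' => absurd h (by omega)⟩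
    · by_cases hf : f i = gu i + 8
      · refine ⟨fun _ => 0, -4, -8, ⟨?_, ?_, ?_, ?_, ?_, ?_, ?_, ?_, ?_, ?_⟩, fun h' => absurd h' h,
          fun _ => ⟨by norm_num, Or.inr rfl⟩⟩ <;> omega
      · refine ⟨fun _ => 0, 4, 8, ⟨?_, ?_, ?_, ?_, ?_, ?_, ?_, ?_, ?_, ?_⟩, fun h' => absurd h' h,
          fun _ => ⟨by norm_num, Or.inl rfl⟩⟩ <;> omega
  choose e δ₁ δ h1 h2 h3 using key
  refine ⟨e, δ₁, δ, fun i _ => h1 i, fun i hi' => (h2 i hi').1, ?_, ?_, h3⟩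
  · intro i hi' a ha
    obtain ⟨j, hj, hj2⟩ := (h2 i hi').2.1 a ha
    exact ⟨4 * i + j, by omega, hj2⟩
  · intro i hi' i' hi'' a ha a' ha' h
    obtain ⟨j, hj, hj2⟩ := (h2 i hi').2.1 a ha
    obtain ⟨j', hj', hj2'⟩ := (h2 i' hi'').2.1 a' ha'
    have h5 := hi (4 * i + j) (by omega) (4 * i' + j') (by omega) (by rw [← hj2, ← hj2', h])
    have h6 : i = i' := by omega
    subst h6
    exact ⟨rfl, (h2 i hi').2.2 a ha a' ha' h⟩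

end Pool.Agent.Helper83.GD
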