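import Pool.Agent.Helper83.GD.Defs

/-!
# GHD-POOL: the labels of the pool

`f i`, `f i + 1`, `f i + 2` are labels of rows of the module `i`; the column between the first two takes in
the last step (for `i + 1 < r`) the domino number `t = i (k + 1) + k`, about which we know
`2 t ≤ q ≤ 2 t + 2 μ + 1`. For `i = r - 1` the domino `qs` is reserved.

Proof. Let `H = r (k + 2)` (a multiple of 4), `B = n - (r k + 2 μ + 1)`. By `Par`: `μ = 23 r + 1 + mc / 2`,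
`23 r < μ ≤ 24 r + 1`, `r k + r + μ = n / 2 + 1`, so `n / 2 - μ + r < H + 1` and `H ≤ n / 2 + 1 + r - μ`,
`B ≥ n / 2 - μ + r - 2`. Let `c₂` be the least multiple of 4 with `2 k + 2 r + 2 μ + 4 ≤ c₂`, and `c₁ = H + 4`
or `c₁ = H + 8` such that `2 k` does not divide `c₁ - c₂`. Let `s₁ = n / (4 k)`,
`f i = c₁ + 2 k i` for `i < s₁`, `f i = c₂ + 2 k i` for `s₁ ≤ i < r - 1`. (`4 ∣ 2 k` since `k` is even.)
* `i < s₁`: `f i + 2 ≤ H + 8 + 2 k (s₁ - 1) + 2 ≤ n / 2 + 1 + r - μ + 10 - 2 k + n / 2 < n`.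
* `s₁ ≤ i`: `2 k i ≥ n / 2 - 2 k`, `f i ≥ n / 2 + 2 r + 2 μ > H`; `i ≤ r - 2`:
  `f i + 2 ≤ 2 k (r - 2) + 2 k + 2 r + 2 μ + 9 = 2 (n / 2 + 1) - 2 k + 9 < n`.
* different: same family clear; `c₁ + 2 k i = c₂ + 2 k j` is excluded by the choice of `c₁`.
* `f i - 2 t = c - 2 k - 2 i` (`c = c₁` or `c₂`). For `c₂`: `2 ≤ c₂ - 2 k - 2 r - 2 μ - 1 ≤ f i - q ≤ c₂ - 2 k < N`. For `c₁`:
  `f i - q ≤ H + 8 - 2 k < B` and `f i - q ≥ H + 4 - 2 k - 2 r - 2 μ - 1 > 31 N` (`N ≥ 2000 r, 2000 k`).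
* `i < j`: in the same family `(f i - q) - (f j - q') ≥ -2 k (j - i) + 2 (j - i) (k + 1) > 0`; in different
  families the two numbers are in the different windows `> 31 N` and `< N`.
* `i = r - 1`: `qs = 36 N`, `f (r - 1)` a multiple of 4 in `[58 N, 61 N]` which is different from all the
  other `f i`: between `58 N` and `60 N` there are at least `N / 2 - 1` multiples of 4 and there are at
  most `r` other `f i`.
-/

namespace Pool.Agent.Helper83.GD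

theorem h94_nd {k : ℕ} (hk : 100 ≤ k) {x c d : ℤ} (hd : 0 < d) (hd' : d ≤ 8)
    (h : (2 * (k : ℤ)) ∣ x - c) : ¬ (2 * (k : ℤ)) ∣ x + d - c := by
  intro h'
  have h1 : (2 * (k : ℤ)) ∣ d := by
    have := dvd_sub h' h
    rwa [show x + d - c - (x - c) = d by ring] at this
  have h2 := Int.le_of_dvd hd h1
  omega

/-- a value among `x, x + 4, x + 8` which avoids two residue classes modulo `2 k` -/
theorem h94_pick {k : ℕ} (hk : 100 ≤ k) (x c c' : ℤ) :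
    ∃ d : ℤ, (d = 0 ∨ d = 4 ∨ d = 8) ∧ ¬ (2 * (k : ℤ)) ∣ x + d - c ∧
      ¬ (2 * (k : ℤ)) ∣ x + d - c' := by
  have key : ∀ c : ℤ, (¬ (2 * (k : ℤ)) ∣ x + 0 - c ∧ ¬ (2 * (k : ℤ)) ∣ x + 4 - c) ∨
      (¬ (2 * (k : ℤ)) ∣ x + 0 - c ∧ ¬ (2 * (k : ℤ)) ∣ x + 8 - c) ∨
      (¬ (2 * (k : ℤ)) ∣ x + 4 - c ∧ ¬ (2 * (k : ℤ)) ∣ x + 8 - c) := by
    intro c
    by_cases h0 : (2 * (k : ℤ)) ∣ x + 0 - c
    · right; right
      constructor
      · have := h94_nd hk (d := 4) (by norm_num) (by norm_num) h0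
        rwa [add_zero] at this
      · have := h94_nd hk (d := 8) (by norm_num) (by norm_num) h0
        rwa [add_zero] at this
    · by_cases h4 : (2 * (k : ℤ)) ∣ x + 4 - c
      · right; left
        refine ⟨h0, ?_⟩
        have := h94_nd hk (d := 4) (by norm_num) (by norm_num) h4
        rwa [show x + 4 + 4 = x + 8 by ring] at this
      · left
        exact ⟨h0, h4⟩
  rcases key c with ⟨h1, h2⟩ | ⟨h1, h2⟩ | ⟨h1, h2⟩ <;>
    rcases key c' with ⟨h3, h4⟩ | ⟨h3, h4⟩ | ⟨h3, h4⟩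
  · exact ⟨0, Or.inl rfl, h1, h3⟩
  · exact ⟨0, Or.inl rfl, h1, h3⟩
  · exact ⟨4, Or.inr (Or.inl rfl), h2, h3⟩
  · exact ⟨0, Or.inl rfl, h1, h3⟩
  · exact ⟨0, Or.inl rfl, h1, h3⟩
  · exact ⟨8, Or.inr (Or.inr rfl), h2, h4⟩
  · exact ⟨4, Or.inr (Or.inl rfl), h1, h4⟩
  · exact ⟨8, Or.inr (Or.inr rfl), h2, h4⟩
  · exact ⟨4, Or.inr (Or.inl rfl), h1, h3⟩

theorem pool (n N k r mc μ : ℕ) (hP : Par n N k r mc μ) : ∃ (f : ℕ → ℤ) (qs : ℤ),
    (∀ i < r, (4 : ℤ) ∣ f i ∧ (r : ℤ) * (k + 2) < f i ∧ f i + 2 < n) ∧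
    (∀ i < r, ∀ j < r, f i = f j → i = j) ∧
    (∀ i, i + 1 < r → ∀ q : ℤ, 2 * ((i : ℤ) * (k + 1) + k) ≤ q →
      q ≤ 2 * ((i : ℤ) * (k + 1) + k) + 2 * μ + 1 →
      (2 ≤ f i - q ∧ f i - q < N) ∨
        (31 * (N : ℤ) < f i - q ∧ f i - q < n - ((r : ℤ) * k + 2 * μ + 1))) ∧
    (∀ i j, i < j → j + 1 < r → ∀ q q' : ℤ, 2 * ((i : ℤ) * (k + 1) + k) ≤ q →
      q ≤ 2 * ((i : ℤ) * (k + 1) + k) + 2 * μ + 1 → 2 * ((j : ℤ) * (k + 1) + k) ≤ q' →
      q' ≤ 2 * ((j : ℤ) * (k + 1) + k) + 2 * μ + 1 → q + 2 * (((j : ℤ) - i) * (k + 1)) ≤ q' →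
      f i - q ≠ f j - q') ∧
    (2 : ℤ) ∣ qs ∧ 35 * (N : ℤ) ≤ qs ∧ qs ≤ 51 * N ∧ (N : ℤ) ≤ f (r - 1) - qs ∧
      f (r - 1) - qs ≤ 31 * N := by
  obtain ⟨hN, hN', hn, hk, hk', hkN, hrN, hmr, hμ⟩ := hP
  have hr0 : 0 < r := by
    rcases Nat.eq_zero_or_pos r with h | h
    · subst h
      omega
    · exact h
  -- the numbers as integers
  have hPz : ((r * k : ℕ) : ℤ) = (r : ℤ) * k := by push_cast; ring
  set p : ℕ := r * k with hp
  have hHz : (r : ℤ) * (k + 2) = (p : ℤ) + 2 * r := by rw [hPz]; ring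
  -- `p + 2 r` is a multiple of 4
  have hH4 : (4 : ℤ) ∣ (p : ℤ) + 2 * r := by
    rw [← hHz]
    have : (4 : ℤ) ∣ (k : ℤ) + 2 := by omega
    exact Dvd.dvd.mul_left this _
  -- the constants
  obtain ⟨c₂, hc₂4, hc₂l, hc₂u⟩ : ∃ c₂ : ℤ, (4 : ℤ) ∣ c₂ ∧ 2 * (k : ℤ) + 2 * r + 2 * μ + 4 ≤ c₂ ∧
      c₂ ≤ 2 * (k : ℤ) + 2 * r + 2 * μ + 7 := by
    refine ⟨4 * ((2 * (k : ℤ) + 2 * r + 2 * μ + 7) / 4), ⟨_, rfl⟩, by omega, by omega⟩
  obtain ⟨c₁, hc₁4, hc₁l, hc₁u, hc₁n⟩ : ∃ c₁ : ℤ, (4 : ℤ) ∣ c₁ ∧ (p : ℤ) + 2 * r + 4 ≤ c₁ ∧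
      c₁ ≤ (p : ℤ) + 2 * r + 12 ∧ ¬ (2 * (k : ℤ)) ∣ c₁ - c₂ := by
    obtain ⟨d, hd, h1, -⟩ := h94_pick hk' ((p : ℤ) + 2 * r + 4) c₂ c₂
    refine ⟨(p : ℤ) + 2 * r + 4 + d, ?_, ?_, ?_, h1⟩
    · rcases hd with rfl | rfl | rfl <;> omega
    · rcases hd with rfl | rfl | rfl <;> omega
    · rcases hd with rfl | rfl | rfl <;> omega
  obtain ⟨d, hd, hx1, hx2⟩ := h94_pick hk' (60 * (N : ℤ)) c₁ c₂
  set x : ℤ := 60 * (N : ℤ) + d with hx
  have hx4 : (4 : ℤ) ∣ x := by rcases hd with rfl | rfl | rfl <;> omega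
  have hxl : 60 * (N : ℤ) ≤ x := by rcases hd with rfl | rfl | rfl <;> omega
  have hxu : x ≤ 60 * (N : ℤ) + 8 := by rcases hd with rfl | rfl | rfl <;> omega
  -- the switch
  set s₁ : ℕ := n / (4 * k) with hs₁
  have hs : 4 * (k * s₁) ≤ n ∧ n < 4 * (k * s₁) + 4 * k := by
    have h1 := Nat.div_add_mod n (4 * k)
    have h2 := Nat.mod_lt n (show 0 < 4 * k by omega)
    rw [← hs₁] at h1
    have h3 : 4 * k * s₁ = 4 * (k * s₁) := by ring
    omega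
  have hks : ∀ i : ℕ, i < s₁ → k * i + k ≤ k * s₁ := by
    intro i hi
    calc k * i + k = k * (i + 1) := by ring
      _ ≤ k * s₁ := Nat.mul_le_mul_left _ hi
  have hks' : ∀ i : ℕ, s₁ ≤ i → k * s₁ ≤ k * i := fun i hi => Nat.mul_le_mul_left _ hi
  have hkr : ∀ i : ℕ, i + 1 < r → k * i + 2 * k ≤ p := by
    intro i hi
    calc k * i + 2 * k = k * (i + 2) := by ring
      _ ≤ k * r := Nat.mul_le_mul_left _ hi
      _ = p := by rw [hp]; ring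
  have h2k4 : (4 : ℤ) ∣ 2 * (k : ℤ) := by omega
  let f : ℕ → ℤ := fun i => if i + 1 = r then x else
    if i < s₁ then c₁ + 2 * ((k * i : ℕ) : ℤ) else c₂ + 2 * ((k * i : ℕ) : ℤ)
  have hf0 : ∀ i, i + 1 = r → f i = x := fun i hi => by simp only [f]; rw [if_pos hi]
  have hf1 : ∀ i, i + 1 < r → i < s₁ → f i = c₁ + 2 * ((k * i : ℕ) : ℤ) := fun i hi hi' => by
    simp only [f]; rw [if_neg (by omega), if_pos hi']
  have hf2 : ∀ i, i + 1 < r → s₁ ≤ i → f i = c₂ + 2 * ((k * i : ℕ) : ℤ) := fun i hi hi' => by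
    simp only [f]; rw [if_neg (by omega), if_neg (by omega)]
  have hd4 : ∀ i : ℕ, (4 : ℤ) ∣ 2 * ((k * i : ℕ) : ℤ) := by
    intro i
    rw [show 2 * ((k * i : ℕ) : ℤ) = 2 * (k : ℤ) * i by push_cast; ring]
    exact Dvd.dvd.mul_right h2k4 _
  have hdk : ∀ i : ℕ, (2 * (k : ℤ)) ∣ 2 * ((k * i : ℕ) : ℤ) := by
    intro i
    rw [show 2 * ((k * i : ℕ) : ℤ) = 2 * (k : ℤ) * i by push_cast; ring]
    exact dvd_mul_right _ _
  -- windows
  have ht : ∀ i : ℕ, 2 * ((i : ℤ) * (k + 1) + k) = 2 * ((k * i : ℕ) : ℤ) + 2 * i + 2 * k := by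
    intro i; push_cast; ring
  have w1 : ∀ i, i + 1 < r → i < s₁ → ∀ q : ℤ, 2 * ((i : ℤ) * (k + 1) + k) ≤ q →
      q ≤ 2 * ((i : ℤ) * (k + 1) + k) + 2 * μ + 1 →
      31 * (N : ℤ) < f i - q ∧ f i - q < n - ((r : ℤ) * k + 2 * μ + 1) := by
    intro i hi hi' q h1 h2
    rw [ht] at h1 h2
    rw [hf1 i hi hi', ← hPz]
    constructor <;> omega
  have w2 : ∀ i, i + 1 < r → s₁ ≤ i → ∀ q : ℤ, 2 * ((i : ℤ) * (k + 1) + k) ≤ q →
      q ≤ 2 * ((i : ℤ) * (k + 1) + k) + 2 * μ + 1 → 2 ≤ f i - q ∧ f i - q < N := by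
    intro i hi hi' q h1 h2
    rw [ht] at h1 h2
    rw [hf2 i hi hi']
    constructor <;> omega
  refine ⟨f, 36 * (N : ℤ), ?_, ?_, ?_, ?_, ?_, ?_, ?_, ?_, ?_⟩
  · intro i hi
    rw [hHz]
    rcases Nat.lt_or_ge (i + 1) r with h | h
    · rcases Nat.lt_or_ge i s₁ with h' | h'
      · rw [hf1 i h h']
        have e1 := hks i h'
        refine ⟨dvd_add hc₁4 (hd4 i), ?_, ?_⟩
        · have : (0 : ℤ) ≤ ((k * i : ℕ) : ℤ) := Int.natCast_nonneg _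
          omega
        · omega
      · rw [hf2 i h h']
        have e1 := hks' i h'
        have e2 := hkr i h
        refine ⟨dvd_add hc₂4 (hd4 i), ?_, ?_⟩
        · omega
        · omega
    · rw [hf0 i (by omega)]
      refine ⟨hx4, ?_, ?_⟩ <;> omega
  · -- injectivity
    have hinj : ∀ i j : ℕ, i < j → j < r → f i ≠ f j := by
      intro i j hij hj h
      rcases Nat.lt_or_ge (j + 1) r with hj1 | hj1
      · rcases Nat.lt_or_ge i s₁ with hi | hi <;> rcases Nat.lt_or_ge j s₁ with hj' | hj'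
        · rw [hf1 i (by omega) hi, hf1 j hj1 hj'] at h
          have h1 : k * i < k * j := Nat.mul_lt_mul_of_pos_left hij (by omega)
          omega
        · rw [hf1 i (by omega) hi, hf2 j hj1 hj'] at h
          apply hc₁n
          have h1 := dvd_sub (hdk j) (hdk i)
          rwa [show 2 * ((k * j : ℕ) : ℤ) - 2 * ((k * i : ℕ) : ℤ) = c₁ - c₂ by omega] at h1
        · omega
        · rw [hf2 i (by omega) hi, hf2 j hj1 hj'] at h
          have h1 : k * i < k * j := Nat.mul_lt_mul_of_pos_left hij (by omega)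
          omega
      · rw [hf0 j (by omega)] at h
        rcases Nat.lt_or_ge i s₁ with hi | hi
        · rw [hf1 i (by omega) hi] at h
          apply hx1
          have h1 := hdk i
          rwa [show 2 * ((k * i : ℕ) : ℤ) = x - c₁ by omega] at h1
        · rw [hf2 i (by omega) hi] at h
          apply hx2
          have h1 := hdk i
          rwa [show 2 * ((k * i : ℕ) : ℤ) = x - c₂ by omega] at h1
    intro i hi j hj h
    rcases Nat.lt_trichotomy i j with h1 | h1 | h1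
    · exact absurd h (hinj i j h1 hj)
    · exact h1
    · exact absurd h.symm (hinj j i h1 hi)
  · intro i hi q h1 h2
    rcases Nat.lt_or_ge i s₁ with h | h
    · exact Or.inr (w1 i hi h q h1 h2)
    · exact Or.inl (w2 i hi h q h1 h2)
  · intro i j hij hj q q' h1 h2 h3 h4 h5 h6
    have e1 : 2 * (((j : ℤ) - i) * (k + 1)) =
        2 * ((k * j : ℕ) : ℤ) - 2 * ((k * i : ℕ) : ℤ) + 2 * (j : ℤ) - 2 * i := by
      push_cast; ring
    rw [e1] at h5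
    rcases Nat.lt_or_ge i s₁ with hi | hi <;> rcases Nat.lt_or_ge j s₁ with hj' | hj'
    · rw [hf1 i (by omega) hi, hf1 j hj hj'] at h6
      omega
    · have a1 := w1 i (by omega) hi q h1 h2
      have a2 := w2 j hj hj' q' h3 h4
      omega
    · omega
    · rw [hf2 i (by omega) hi, hf2 j hj hj'] at h6
      omega
  · omega
  · omega
  · omega
  · rw [hf0 (r - 1) (by omega)]
    omega
  · rw [hf0 (r - 1) (by omega)]
    omega

end Pool.Agent.Helper83.GD
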