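import Pool.Agent.Helper83.GD.Defs

/-!
# GHD-SEG: the modules of a rooted tree

`seg_dep`: induction on `i`, `dep (par^[i] v) = dep v - i` for `i ≤ dep v`.
`seg_inj`: the depths modulo `Λ` give `i = j`; then descend: `par^[i] v` (`0 < i`) has only one child, so
`par^[i - 1] v = par^[i - 1] v'`, and so on.
`core_par`: if `par x = par^[i] v` with `0 < i < Λ`, then `x` and `par^[i - 1] v` are children of it, so
they are equal.
-/

namespace Pool.Agent.Helper83.GD

variable {V : Type} (r0 : V) (par : V → V) (dep : V → ℕ)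

theorem seg_dep (hd0 : dep r0 = 0) (hdp : ∀ x, x ≠ r0 → dep (par x) + 1 = dep x) (v : V) (i : ℕ)
    (hi : i ≤ dep v) : dep (par^[i] v) + i = dep v := by
  induction i with
  | zero => simp
  | succ i ih =>
    have ih := ih (by omega)
    have hne : par^[i] v ≠ r0 := by
      intro h
      rw [h, hd0] at ih
      omega
    have h1 := hdp _ hne
    rw [Function.iterate_succ_apply']
    omega

theorem seg_ne_root (hd0 : dep r0 = 0) (hdp : ∀ x, x ≠ r0 → dep (par x) + 1 = dep x) (v : V)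
    (i : ℕ) (hi : i < dep v) : par^[i] v ≠ r0 := by
  intro h
  have h1 := seg_dep r0 par dep hd0 hdp v i hi.le
  rw [h, hd0] at h1
  omega

theorem seg_inj (hd0 : dep r0 = 0) (hdp : ∀ x, x ≠ r0 → dep (par x) + 1 = dep x) (Λ : ℕ)
    (v v' : V) (hv : IsGood r0 par dep Λ v) (hv' : IsGood r0 par dep Λ v') (i j : ℕ) (hi : i < Λ)
    (hj : j < Λ) (h : par^[i] v = par^[j] v') : v = v' ∧ i = j := by
  obtain ⟨-, hdv, h2v, -, huv⟩ := hv
  obtain ⟨-, hdv', h2v', -, -⟩ := hv'
  have e1 := seg_dep r0 par dep hd0 hdp v i (by omega)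
  have e2 := seg_dep r0 par dep hd0 hdp v' j (by omega)
  rw [h] at e1
  have hij : i = j := by
    obtain ⟨a, ha⟩ := hdv
    obtain ⟨b, hb⟩ := hdv'
    have e3 : Λ * a + j = Λ * b + i := by omega
    have e4 : (Λ * a + j) % Λ = (Λ * b + i) % Λ := by rw [e3]
    rw [Nat.mul_add_mod, Nat.mul_add_mod, Nat.mod_eq_of_lt hj, Nat.mod_eq_of_lt hi] at e4
    exact e4.symm
  subst hij
  refine ⟨?_, rfl⟩
  clear hj e1 e2
  induction i with
  | zero => simpa using h
  | succ m ih =>
    refine ih (by omega) ?_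
    refine huv (m + 1) (by omega) hi _ _
      (seg_ne_root r0 par dep hd0 hdp v m (by omega))
      (seg_ne_root r0 par dep hd0 hdp v' m (by omega)) ?_ ?_
    · rw [Function.iterate_succ_apply']
    · rw [h, Function.iterate_succ_apply']

theorem core_par (hd0 : dep r0 = 0) (hdp : ∀ x, x ≠ r0 → dep (par x) + 1 = dep x) (Λ : ℕ) (x : V)
    (hx : x ≠ r0) (h : ∀ v, IsGood r0 par dep Λ v → ∀ i < Λ, par^[i] v ≠ x) (v : V)
    (hv : IsGood r0 par dep Λ v) (i : ℕ) (hi0 : 0 < i) (hi : i < Λ) : par^[i] v ≠ par x := by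
  intro he
  obtain ⟨m, rfl⟩ : ∃ m, i = m + 1 := ⟨i - 1, by omega⟩
  have h1 := hv.2.2.2.2 (m + 1) hi0 hi x (par^[m] v) hx
    (seg_ne_root r0 par dep hd0 hdp v m (by have := hv.2.2.1; omega)) he.symm
    (by rw [Function.iterate_succ_apply'])
  exact h v hv m (by omega) h1.symm

end Pool.Agent.Helper83.GD
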