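import Pool.Agent.Helper83.GD.Modules
import Pool.Agent.Helper83.GD.Core1
import Pool.Agent.Helper83.GD.Pool
import Pool.Agent.Helper83.GD.Seg

/-!
# GHD: the labelling of a rooted tree (composition)
-/

namespace Pool.Agent.Helper83.GD

open Finset

theorem enumG {V : Type} (d : V) (G : Finset V) : ∃ v : ℕ → V, (∀ i < G.card, v i ∈ G) ∧
    (∀ i < G.card, ∀ j < G.card, v i = v j → i = j) ∧ ∀ x ∈ G, ∃ i < G.card, v i = x := by
  classical
  refine ⟨fun i => if h : i < G.card then (G.equivFin.symm ⟨i, h⟩ : V) else d, ?_, ?_, ?_⟩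
  · intro i hi
    simp only [dif_pos hi]
    exact (G.equivFin.symm ⟨i, hi⟩).2
  · intro i hi j hj h
    simp only [dif_pos hi, dif_pos hj] at h
    have := G.equivFin.symm.injective (Subtype.ext h)
    exact Fin.mk.inj_iff.mp this
  · intro x hx
    refine ⟨(G.equivFin ⟨x, hx⟩ : ℕ), (G.equivFin ⟨x, hx⟩).2, ?_⟩
    simp

/-- Labels of the vertices from labels `g` of the core and `a`, `b` of the modules. -/
theorem glue {V : Type} (par : V → V) (v : ℕ → V) (r K : ℕ) (g : V → ℤ) (a b : ℕ → ℕ → ℤ)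
    (hinj : ∀ i < r, ∀ i' < r, ∀ t t', t < 2 * K → t' < 2 * K →
      par^[t] (v i) = par^[t'] (v i') → i = i' ∧ t = t')
    (hend : ∀ i < r, ∀ i' < r, ∀ t, 0 < t → t < 2 * K → par^[t] (v i) ≠ par^[2 * K] (v i'))
    (h0 : ∀ i < r, a i 0 = g (v i)) (hK : ∀ i < r, a i K = g (par^[2 * K] (v i)))
    (hK0 : 0 < K) :
    ∃ F : V → ℤ, (∀ x, (∀ i < r, ∀ t, 0 < t → t < 2 * K → par^[t] (v i) ≠ x) → F x = g x) ∧
      ∀ i < r, ∀ t ≤ 2 * K, F (par^[t] (v i)) = if Even t then a i (t / 2) else b i (t / 2) := by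
  classical
  let P : V → Prop := fun x => ∃ p : ℕ × ℕ, p.1 < r ∧ 0 < p.2 ∧ p.2 < 2 * K ∧
    par^[p.2] (v p.1) = x
  refine ⟨fun x => if h : P x then
    (if Even h.choose.2 then a h.choose.1 (h.choose.2 / 2) else b h.choose.1 (h.choose.2 / 2))
    else g x, ?_, ?_⟩
  · intro x hx
    have : ¬ P x := by
      rintro ⟨p, h1, h2, h3, h4⟩
      exact hx p.1 h1 p.2 h2 h3 h4
    simp only [dif_neg this]
  · intro i hi t ht
    rcases Nat.eq_zero_or_pos t with rfl | ht0
    · have : ¬ P (par^[0] (v i)) := by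
        rintro ⟨p, h1, h2, h3, h4⟩
        have := hinj p.1 h1 i hi p.2 0 h3 (by omega) h4
        omega
      simp only [dif_neg this]
      simp [h0 i hi]
    rcases Nat.lt_or_ge t (2 * K) with htK | htK
    · have hP : P (par^[t] (v i)) := ⟨(i, t), hi, ht0, htK, rfl⟩
      simp only [dif_pos hP]
      obtain ⟨h1, h2, h3, h4⟩ := hP.choose_spec
      obtain ⟨h5, h6⟩ := hinj _ h1 i hi _ t h3 htK h4
      rw [h5, h6]
    · obtain rfl : t = 2 * K := by omega
      have : ¬ P (par^[2 * K] (v i)) := by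
        rintro ⟨p, h1, h2, h3, h4⟩
        exact hend p.1 h1 i hi p.2 h2 h3 h4
      have h2 : 2 * K / 2 = K := by omega
      simp only [dif_neg this]
      rw [if_pos (by simp), h2, hK i hi]

end Pool.Agent.Helper83.GD
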