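import Pool.Agent.Helper83.GD.Rooted

/-!
# GHD: the labelling of a rooted tree (composition)
-/

namespace Pool.Agent.Helper83.GD

open Finset

section

variable {V : Type} [Fintype V] [DecidableEq V] (n k : ℕ) (r0 : V) (par : V → V) (dep : V → ℕ)
  (hd0 : dep r0 = 0) (hdp : ∀ x, x ≠ r0 → dep (par x) + 1 = dep x)
  (G : Finset V) (hG : ∀ v, v ∈ G → IsGood r0 par dep (2 * (k + 24)) v)

include hd0 hdp hG

theorem good_dep (v : V) (hv : v ∈ G) (i : ℕ) (hi : i ≤ 2 * (k + 24)) :
    dep (par^[i] v) + i = dep v ∧ 4 * (k + 24) ≤ dep v ∧ 2 * (k + 24) ∣ dep v := by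
  obtain ⟨h1, h2, h3, h4, h5⟩ := hG v hv
  exact ⟨seg_dep r0 par dep hd0 hdp v i (by omega), by omega, h2⟩

theorem good_ne (v : V) (hv : v ∈ G) (i : ℕ) (hi : i ≤ 2 * (k + 24)) : par^[i] v ≠ r0 := by
  intro h
  have := (good_dep k r0 par dep hd0 hdp G hG v hv i hi)
  rw [h, hd0] at this
  omega

/-- The number of the edges of the core. -/
theorem card_core (hn : Fintype.card V = n + 1) :
    (univ.filter fun x => x ≠ r0 ∧ ∀ v ∈ G, ∀ i < 2 * (k + 24), par^[i] v ≠ x).card +
      2 * (k + 24) * G.card = n := by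
  classical
  set Λ := 2 * (k + 24) with hΛ
  set E := univ.filter fun x => x ≠ r0 ∧ ∀ v ∈ G, ∀ i < Λ, par^[i] v ≠ x with hE
  set S := (G ×ˢ range Λ).image fun p => par^[p.2] p.1 with hS
  have hSc : S.card = G.card * Λ := by
    rw [hS, card_image_of_injOn, card_product, card_range]
    rintro ⟨v, i⟩ h1 ⟨v', i'⟩ h2 h
    simp only [coe_product, Set.mem_prod, mem_coe, mem_range] at h1 h2
    obtain ⟨h3, h4⟩ := seg_inj r0 par dep hd0 hdp Λ v v' (hG v h1.1) (hG v' h2.1) i i' h1.2 h2.2 h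
    rw [h3, h4]
  have hr : r0 ∉ E ∪ S := by
    intro h
    rcases mem_union.mp h with h | h
    · exact (mem_filter.mp h).2.1 rfl
    · obtain ⟨⟨v, i⟩, h1, h2⟩ := mem_image.mp h
      simp only [mem_product, mem_range] at h1
      exact good_ne k r0 par dep hd0 hdp G hG v h1.1 i (by omega) h2
  have hdis : Disjoint E S := by
    rw [disjoint_left]
    intro x hx hx'
    obtain ⟨⟨v, i⟩, h1, h2⟩ := mem_image.mp hx'
    simp only [mem_product, mem_range] at h1
    exact (mem_filter.mp hx).2.2 v h1.1 i h1.2 h2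
  have huniv : insert r0 (E ∪ S) = univ := by
    ext x
    simp only [mem_insert, mem_union, mem_univ, iff_true]
    by_cases h1 : x = r0
    · exact Or.inl h1
    by_cases h2 : x ∈ E
    · exact Or.inr (Or.inl h2)
    right; right
    rw [hE, mem_filter] at h2
    push Not at h2
    obtain ⟨v, hv, i, hi, h⟩ := h2 (mem_univ _) h1
    exact mem_image.mpr ⟨(v, i), mem_product.mpr ⟨hv, mem_range.mpr hi⟩, h⟩
  have := congrArg Finset.card huniv
  rw [card_insert_of_notMem hr, card_union_of_disjoint hdis, hSc, card_univ, hn] at this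
  have h3 : Λ * G.card = G.card * Λ := mul_comm _ _
  omega

end

theorem child_y0 {V : Type} (r0 y0 : V) (par : V → V) (dep : V → ℕ)
    (hdp : ∀ x, x ≠ r0 → dep (par x) + 1 = dep x)
    (hy0' : ∀ y, y ≠ r0 → par y = r0 → y = y0) (m : ℕ) : ∀ x, dep x = m → x ≠ r0 → x ≠ y0 →
    ∃ y, y ≠ r0 ∧ par y = y0 := by
  induction m using Nat.strong_induction_on with
  | _ m ih =>
    intro x hx h1 h2
    by_cases h3 : par x = y0
    · exact ⟨x, h1, h3⟩
    have h4 : par x ≠ r0 := fun h => h2 (hy0' x h1 h)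
    have h5 := hdp x h1
    exact ih (dep (par x)) (by omega) (par x) rfl h4 h3

end Pool.Agent.Helper83.GD
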