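import Pool.Agent.Helper83.GD.Rooted2

/-!
# GHD: the labelling of a rooted tree (composition)
-/

namespace Pool.Agent.Helper83.GD

open Finset

theorem eq_of_dvd_zone (n : ℕ) (a b lo hi : ℤ) (h : (n : ℤ) ∣ a - b) (h1 : lo ≤ a) (h2 : a ≤ hi)
    (h3 : lo ≤ b) (h4 : b ≤ hi) (h5 : hi - lo < n) : a = b := by
  obtain ⟨c, hc⟩ := h
  rcases lt_trichotomy c 0 with h6 | h6 | h6
  · nlinarith
  · rw [h6, mul_zero] at hc
    omega
  · nlinarith

theorem cast_eq_iff (n : ℕ) (a b : ℤ) : ((a : ZMod n) = (b : ZMod n)) ↔ (n : ℤ) ∣ a - b := by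
  rw [eq_comm, ZMod.intCast_eq_intCast_iff_dvd_sub]

/-- The last step: labels from the core and the modules. -/
theorem final (V : Type) (n N k r : ℕ) (hk : 0 < k) (hN : 64 * N ≤ n) (hN0 : 0 < N)
    (r0 l1 l2 : V) (par : V → V) (dep : V → ℕ) (C E : Finset V) (v : ℕ → V)
    (hC : ∀ x, x ∉ C → ∃ i < r, ∃ t, 0 < t ∧ t < 2 * (k + 24) ∧ par^[t] (v i) = x)
    (hC' : ∀ x ∈ C, ∀ i < r, ∀ t, 0 < t → t < 2 * (k + 24) → par^[t] (v i) ≠ x)
    (hE : ∀ x ∈ E, x ∈ C ∧ par x ∈ C)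
    (hE' : ∀ x, x ≠ r0 → x ∉ E → ∃ i < r, ∃ t < 2 * (k + 24), par^[t] (v i) = x)
    (hv : ∀ i < r, v i ∈ C) (hu : ∀ i < r, par^[2 * (k + 24)] (v i) ∈ C)
    (hinj : ∀ i < r, ∀ i' < r, ∀ t t', t < 2 * (k + 24) → t' < 2 * (k + 24) →
      par^[t] (v i) = par^[t'] (v i') → i = i' ∧ t = t')
    (hpar : ∀ i < r, ∀ t ≤ 2 * (k + 24), (Even (dep (par^[t] (v i))) ↔ Even t))
    (FA FB FQ D : Finset ℤ) (γ : ℕ) (pd : ℕ → ℤ) (g ρ : V → ℤ)
    (hO : CoreOut par dep C E r0 l1 l2 n N FA FB FQ g ρ D γ pd) (CA CB CR : Finset ℤ)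
    (hCA : ∀ x ∈ C, Even (dep x) → g x ∈ CA) (hCB : ∀ x ∈ C, ¬ Even (dep x) → g x ∈ CB)
    (hCR : ∀ x ∈ E, ρ x ∈ CR) (a b : ℕ → ℕ → ℤ)
    (hM : Mod n k r (fun i => g (v i)) (fun i => g (par^[2 * (k + 24)] (v i))) CA CB CR a b) :
    ∃ f : V → ZMod n, (∀ x y, Even (dep x) → Even (dep y) → f x = f y → x = y) ∧
      (∀ x y, ¬ Even (dep x) → ¬ Even (dep y) → f x = f y → x = y) ∧
      ∀ x y, x ≠ r0 → y ≠ r0 → res par dep f x = res par dep f y → x = y := by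
  classical
  obtain ⟨F, hF1, hF2⟩ := glue par v r (k + 24) g a b hinj
    (fun i hi i' hi' t ht0 ht h => hC' _ (hu i' hi') i hi t ht0 ht h)
    hM.h0 hM.hK (by omega)
  have hFC : ∀ x ∈ C, F x = g x := fun x hx => hF1 x (fun i hi t h1 h2 => hC' x hx i hi t h1 h2)
  -- even rows
  have hev : ∀ i < r, ∀ t, 0 < t → t < 2 * (k + 24) → Even (dep (par^[t] (v i))) →
      F (par^[t] (v i)) = a i (t / 2) ∧ 0 < t / 2 ∧ t / 2 < k + 24 ∧ t = 2 * (t / 2) := by
    intro i hi t ht0 ht h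
    have h1 : Even t := (hpar i hi t ht.le).mp h
    obtain ⟨m, hm⟩ := h1
    refine ⟨?_, by omega, by omega, by omega⟩
    rw [hF2 i hi t ht.le, if_pos ⟨m, hm⟩]
  have hod : ∀ i < r, ∀ t, t < 2 * (k + 24) → ¬ Even (dep (par^[t] (v i))) →
      F (par^[t] (v i)) = b i (t / 2) ∧ t / 2 < k + 24 ∧ t = 2 * (t / 2) + 1 := by
    intro i hi t ht h
    have h1 : ¬ Even t := fun h' => h ((hpar i hi t ht.le).mpr h')
    obtain ⟨m, hm⟩ := Nat.not_even_iff_odd.mp h1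
    refine ⟨?_, by omega, by omega⟩
    rw [hF2 i hi t ht.le, if_neg h1]
  refine ⟨fun x => (F x : ZMod n), ?_, ?_, ?_⟩
  · intro x y hx hy h
    rw [cast_eq_iff] at h
    by_cases hxC : x ∈ C <;> by_cases hyC : y ∈ C
    · rw [hFC x hxC, hFC y hyC] at h
      obtain ⟨h1, h2, -⟩ := hO.hA x hxC hx
      obtain ⟨h3, h4, -⟩ := hO.hA y hyC hy
      exact hO.hinj x hxC y hyC (by simp [hx, hy])
        (eq_of_dvd_zone n _ _ _ _ h h1 h2 h3 h4 (by omega))
    · obtain ⟨i, hi, t, ht0, ht, rfl⟩ := hC y hyC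
      obtain ⟨h1, h2, h3, h4⟩ := hev i hi t ht0 ht hy
      rw [hFC x hxC, h1, ← dvd_neg, neg_sub] at h
      exact absurd h (hM.hAC i hi _ h2 h3 _ (hCA x hxC hx))
    · obtain ⟨i, hi, t, ht0, ht, rfl⟩ := hC x hxC
      obtain ⟨h1, h2, h3, h4⟩ := hev i hi t ht0 ht hx
      rw [hFC y hyC, h1] at h
      exact absurd h (hM.hAC i hi _ h2 h3 _ (hCA y hyC hy))
    · obtain ⟨i, hi, t, ht0, ht, rfl⟩ := hC x hxC
      obtain ⟨i', hi', t', ht0', ht', rfl⟩ := hC y hyC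
      obtain ⟨h1, h2, h3, h4⟩ := hev i hi t ht0 ht hx
      obtain ⟨h1', h2', h3', h4'⟩ := hev i' hi' t' ht0' ht' hy
      rw [h1, h1'] at h
      obtain ⟨h5, h6⟩ := hM.hA i hi i' hi' _ _ h2 h3 h2' h3' h
      rw [h5, h4, h4', h6]
  · intro x y hx hy h
    rw [cast_eq_iff] at h
    by_cases hxC : x ∈ C <;> by_cases hyC : y ∈ C
    · rw [hFC x hxC, hFC y hyC] at h
      obtain ⟨h1, h2, -⟩ := hO.hB x hxC hx
      obtain ⟨h3, h4, -⟩ := hO.hB y hyC hy
      exact hO.hinj x hxC y hyC (by simp [hx, hy])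
        (eq_of_dvd_zone n _ _ _ _ h h1 h2 h3 h4 (by omega))
    · obtain ⟨i, hi, t, ht0, ht, rfl⟩ := hC y hyC
      obtain ⟨h1, h2, h3⟩ := hod i hi t ht hy
      rw [hFC x hxC, h1, ← dvd_neg, neg_sub] at h
      exact absurd h (hM.hBC i hi _ h2 _ (hCB x hxC hx))
    · obtain ⟨i, hi, t, ht0, ht, rfl⟩ := hC x hxC
      obtain ⟨h1, h2, h3⟩ := hod i hi t ht hx
      rw [hFC y hyC, h1] at h
      exact absurd h (hM.hBC i hi _ h2 _ (hCB y hyC hy))
    · obtain ⟨i, hi, t, ht0, ht, rfl⟩ := hC x hxC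
      obtain ⟨i', hi', t', ht0', ht', rfl⟩ := hC y hyC
      obtain ⟨h1, h2, h3⟩ := hod i hi t ht hx
      obtain ⟨h1', h2', h3'⟩ := hod i' hi' t' ht' hy
      rw [h1, h1'] at h
      obtain ⟨h5, h6⟩ := hM.hB i hi i' hi' _ h2 _ h2' h
      rw [h5, h3, h3', h6]
  · set R : V → ℤ := fun x => if Even (dep x) then F x - F (par x) else F (par x) - F x with hR
    have hres : ∀ x, res par dep (fun x => (F x : ZMod n)) x = (R x : ZMod n) := by
      intro x
      simp only [res, hR]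
      split_ifs <;> push_cast <;> rfl
    have hRE : ∀ x ∈ E, R x = ρ x := by
      intro x hx
      simp only [hR]
      rw [hFC x (hE x hx).1, hFC _ (hE x hx).2]
      exact hO.hρ x hx
    have hRM : ∀ i < r, ∀ t < 2 * (k + 24), R (par^[t] (v i)) =
        a i (t / 2 + t % 2) - b i (t / 2) := by
      intro i hi t ht
      have hs : par (par^[t] (v i)) = par^[t + 1] (v i) := (Function.iterate_succ_apply' par t _).symm
      simp only [hR]
      rw [hs, hF2 i hi t ht.le, hF2 i hi (t + 1) (by omega)]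
      by_cases h1 : Even t
      · rw [if_pos ((hpar i hi t ht.le).mpr h1), if_pos h1, if_neg (by rw [Nat.not_even_iff_odd]; exact h1.add_one)]
        obtain ⟨m, hm⟩ := h1
        have h2 : (t + 1) / 2 = t / 2 := by omega
        have h3 : t % 2 = 0 := by omega
        rw [h2, h3, add_zero]
      · rw [if_neg (fun h => h1 ((hpar i hi t ht.le).mp h)), if_neg h1,
          if_pos (Nat.even_add_one.mpr h1)]
        obtain ⟨m, hm⟩ := Nat.not_even_iff_odd.mp h1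
        have h2 : (t + 1) / 2 = t / 2 + t % 2 := by omega
        rw [h2]
    have hRr : ∀ x, x ≠ r0 → 0 ≤ R x ∧ R x < n := by
      intro x hx
      by_cases hxE : x ∈ E
      · rw [hRE x hxE]
        rcases hO.hρD x hxE with h | h | h
        · obtain ⟨-, h1, h2, -⟩ := hO.hD _ h
          omega
        · obtain ⟨-, h1, h2, -⟩ := hO.hD _ h
          omega
        · omega
      · obtain ⟨i, hi, t, ht, rfl⟩ := hE' x hx hxE
        rw [hRM i hi t ht]
        exact hM.hR i hi _ (by omega) _ (by omega)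
    intro x y hx hy h
    rw [hres, hres, cast_eq_iff] at h
    have h1 := hRr x hx
    have h2 := hRr y hy
    have h3 : R x = R y := eq_of_dvd_zone n _ _ 0 (n - 1) h h1.1 (by omega) h2.1 (by omega)
      (by omega)
    by_cases hxE : x ∈ E <;> by_cases hyE : y ∈ E
    · rw [hRE x hxE, hRE y hyE] at h3
      exact hO.hρi x hxE y hyE h3
    · obtain ⟨i, hi, t, ht, rfl⟩ := hE' y hy hyE
      rw [hRE x hxE, hRM i hi t ht] at h3
      exact absurd (hCR x hxE) (by rw [h3]; exact hM.hRC i hi _ (by omega) _ (by omega))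
    · obtain ⟨i, hi, t, ht, rfl⟩ := hE' x hx hxE
      rw [hRE y hyE, hRM i hi t ht] at h3
      exact absurd (hCR y hyE) (by rw [← h3]; exact hM.hRC i hi _ (by omega) _ (by omega))
    · obtain ⟨i, hi, t, ht, rfl⟩ := hE' x hx hxE
      obtain ⟨i', hi', t', ht', rfl⟩ := hE' y hy hyE
      rw [hRM i hi t ht, hRM i' hi' t' ht'] at h3
      obtain ⟨h4, h5, h6⟩ := hM.hRi i hi i' hi' _ (by omega) _ (by omega) _ (by omega) _ (by omega)
        h3
      have h7 : t = t' := by omega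
      rw [h4, h7]

end Pool.Agent.Helper83.GD
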