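import Pool.Agent.Helper83.GD.Rooted3

/-!
# GHD: the labelling of a rooted tree (composition)
-/

namespace Pool.Agent.Helper83.GD

open Finset

theorem rooted (V : Type) [Fintype V] [DecidableEq V] (n k : ℕ) (hk : k % 4 = 2) (hk' : 100 ≤ k)
    (hn : Fintype.card V = n + 1) (r0 y0 l1 l2 : V) (par : V → V) (dep : V → ℕ)
    (hd0 : dep r0 = 0) (hdp : ∀ x, x ≠ r0 → dep (par x) + 1 = dep x) (hy0 : y0 ≠ r0)
    (hpy : par y0 = r0) (hy0' : ∀ y, y ≠ r0 → par y = r0 → y = y0)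
    (hl1 : ∀ y, y ≠ r0 → par y ≠ l1) (hl2 : ∀ y, y ≠ r0 → par y ≠ l2) (h12 : l1 ≠ l2)
    (G : Finset V) (hG : ∀ v, v ∈ G → IsGood r0 par dep (2 * (k + 24)) v)
    (hG' : ∀ v, IsGood r0 par dep (2 * (k + 24)) v → v ∈ G)
    (hG0 : 0 < G.card) (hkN : 2000 * k ≤ n / 64) (hrN : 2000 * G.card ≤ n / 64)
    (hmr : n ≤ 2 * (k + 24) * G.card + G.card) :
    ∃ f : V → ZMod n, (∀ x y, Even (dep x) → Even (dep y) → f x = f y → x = y) ∧
      (∀ x y, ¬ Even (dep x) → ¬ Even (dep y) → f x = f y → x = y) ∧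
      ∀ x y, x ≠ r0 → y ≠ r0 → res par dep f x = res par dep f y → x = y := by
  classical
  set r := G.card with hr
  set N := n / 64 with hN
  set E := univ.filter fun x => x ≠ r0 ∧ ∀ v ∈ G, ∀ i < 2 * (k + 24), par^[i] v ≠ x with hE
  set C := univ.filter fun x => ∀ v ∈ G, ∀ i, 0 < i → i < 2 * (k + 24) → par^[i] v ≠ x with hC
  set mc := E.card with hmc
  have hEc : mc + 2 * (k + 24) * r = n := card_core n k r0 par dep hd0 hdp G hG hn
  have hmul : 2 * (k + 24) * r = 2 * (r * k) + 48 * r := by ring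
  -- numbers
  have hrk4 : (2 * (k + 24) * r) % 4 = 0 := by
    obtain ⟨c, hc⟩ : ∃ c, k = 4 * c + 2 := ⟨k / 4, by omega⟩
    have : 2 * (k + 24) * r = 4 * ((2 * c + 13) * r) := by rw [hc]; ring
    omega
  have hm4 : E.card % 4 = n % 4 := by omega
  obtain ⟨μ, hμ⟩ : ∃ μ, μ + r * k + r = n / 2 + 1 := ⟨n / 2 + 1 - r * k - r, by omega⟩
  have hP : Par n N k r mc μ :=
    { hN := by omega, hN' := by omega, hn := by omega, hk := hk, hk' := hk', hkN := hkN,
      hrN := hrN, hmr := by omega, hμ := hμ }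
  obtain ⟨f, qs, hf1, hf2, hf3, hf4, hq1, hq2, hq3, hq4, hq5⟩ := pool n N k r mc μ hP
  -- the core
  have hr0C : r0 ∈ C := by
    rw [hC, mem_filter]
    exact ⟨mem_univ _, fun v hv i _ hi => good_ne k r0 par dep hd0 hdp G hG v hv i (by omega)⟩
  have hGC : ∀ v ∈ G, v ∈ C := by
    intro v hv
    rw [hC, mem_filter]
    refine ⟨mem_univ _, fun v' hv' i hi0 hi h => ?_⟩
    have := (seg_inj r0 par dep hd0 hdp _ v' v (hG v' hv') (hG v hv) i 0 hi (by omega) h).2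
    omega
  have hUC : ∀ v ∈ G, par^[2 * (k + 24)] v ∈ C := by
    intro v hv
    rw [hC, mem_filter]
    refine ⟨mem_univ _, fun v' hv' i hi0 hi h => ?_⟩
    obtain ⟨h1, h2, h3⟩ := good_dep k r0 par dep hd0 hdp G hG v hv (2 * (k + 24)) le_rfl
    obtain ⟨h4, h5, h6⟩ := good_dep k r0 par dep hd0 hdp G hG v' hv' i hi.le
    rw [h] at h4
    have h7 : 2 * (k + 24) ∣ dep v - 2 * (k + 24) := Nat.dvd_sub h3 (dvd_refl _)
    have h8 : 2 * (k + 24) ∣ i := by
      have : i = dep v' - (dep v - 2 * (k + 24)) := by omega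
      rw [this]
      exact Nat.dvd_sub h6 h7
    exact absurd (Nat.le_of_dvd hi0 h8) (by omega)
  have hr0E : r0 ∉ E := by
    rw [hE, mem_filter]
    exact fun h => h.2.1 rfl
  have hEC : ∀ x ∈ E, x ∈ C ∧ par x ∈ C ∧ dep (par x) + 1 = dep x := by
    intro x hx
    rw [hE, mem_filter] at hx
    refine ⟨?_, ?_, hdp x hx.2.1⟩
    · rw [hC, mem_filter]
      exact ⟨mem_univ _, fun v hv i _ hi => hx.2.2 v hv i hi⟩
    · rw [hC, mem_filter]
      exact ⟨mem_univ _, fun v hv i hi0 hi => core_par r0 par dep hd0 hdp _ x hx.2.1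
        (fun v' hv' i' hi' => hx.2.2 v' (hG' v' hv') i' hi') v (hG v hv) i hi0 hi⟩
  have hy0E : y0 ∈ E := by
    rw [hE, mem_filter]
    refine ⟨mem_univ _, hy0, fun v hv i hi h => ?_⟩
    obtain ⟨h1, h2, h3⟩ := good_dep k r0 par dep hd0 hdp G hG v hv i hi.le
    have h4 := hdp y0 hy0
    rw [hpy, hd0] at h4
    rw [h, ← h4] at h1
    omega
  have hleaf : ∀ l, (∀ y, y ≠ r0 → par y ≠ l) → l ∈ E := by
    intro l hl
    rw [hE, mem_filter]
    refine ⟨mem_univ _, fun h => hl y0 hy0 (by rw [hpy, h]), fun v hv i hi h => ?_⟩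
    rcases Nat.eq_zero_or_pos i with rfl | hi0
    · obtain ⟨-, -, -, ⟨y, hy1, hy2⟩, -⟩ := hG v hv
      exact hl y hy1 (by rw [hy2]; exact h)
    · refine hl (par^[i - 1] v) (good_ne k r0 par dep hd0 hdp G hG v hv _ (by omega)) ?_
      rw [← h, ← Function.iterate_succ_apply' par]
      congr 1
      omega
  have h1E := hleaf l1 hl1
  have h2E := hleaf l2 hl2
  have hch : ∀ x ∈ E, par x ≠ l1 ∧ par x ≠ l2 := by
    intro x hx
    rw [hE, mem_filter] at hx
    exact ⟨hl1 x hx.2.1, hl2 x hx.2.1⟩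
  have hl10 : l1 ≠ r0 := fun h => hr0E (h ▸ h1E)
  have hl20 : l2 ≠ r0 := fun h => hr0E (h ▸ h2E)
  have h1y : l1 ≠ y0 := by
    intro h
    obtain ⟨y, hy1, hy2⟩ := child_y0 r0 y0 par dep hdp hy0' _ l2 rfl hl20
      (fun h' => h12 (h.trans h'.symm))
    exact hl1 y hy1 (hy2.trans h.symm)
  have h2y : l2 ≠ y0 := by
    intro h
    obtain ⟨y, hy1, hy2⟩ := child_y0 r0 y0 par dep hdp hy0' _ l1 rfl hl10
      (fun h' => h12 (h'.trans h.symm))
    exact hl2 y hy1 (hy2.trans h.symm)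
  have hCc : C.card ≤ mc + r + 1 := by
    have h1 : C ⊆ insert r0 (E ∪ G) := by
      intro x hx
      rw [mem_insert, mem_union]
      by_cases h1 : x = r0
      · exact Or.inl h1
      by_cases h2 : x ∈ E
      · exact Or.inr (Or.inl h2)
      right; right
      rw [hE, mem_filter] at h2
      push Not at h2
      obtain ⟨v, hv, i, hi, h⟩ := h2 (mem_univ _) h1
      rcases Nat.eq_zero_or_pos i with rfl | hi0
      · exact h ▸ hv
      · rw [hC, mem_filter] at hx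
        exact absurd h (hx.2 v hv i hi0 hi)
    refine (card_le_card h1).trans ((card_insert_le _ _).trans ?_)
    have := card_union_le E G
    omega
  set FA : Finset ℤ := (range r ×ˢ range 3).image (fun τ => f τ.1 + (τ.2 : ℕ)) with hFA
  have hFAc : FA.card ≤ 3 * r := by
    refine card_image_le.trans ?_
    rw [card_product, card_range, card_range]
    omega
  obtain ⟨g, ρ, D, γ, pd, hO⟩ := core1 V par dep C E r0 y0 l1 l2 hEC hr0C hr0E hd0 hy0E hpy
    (fun x hx h => hy0' x (fun h' => hr0E (h' ▸ hx)) h) h1E h2E h12 h1y h2y hch n N FA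
    {f (r - 1) - qs} {qs} (by rw [card_singleton, card_singleton]; omega) hm4
  -- the modules
  obtain ⟨v, hv1, hv2, hv3⟩ := enumG r0 G
  rw [← hr] at hv1 hv2 hv3
  have hchild : ∀ l, (∀ y, y ≠ r0 → par y ≠ l) → ∀ x ∈ G, x ≠ l ∧ par^[2 * (k + 24)] x ≠ l := by
    intro l hl x hx
    constructor
    · rintro rfl
      obtain ⟨-, -, -, ⟨y, hy1, hy2⟩, -⟩ := hG x hx
      exact hl y hy1 hy2
    · intro h
      refine hl (par^[2 * (k + 24) - 1] x) (good_ne k r0 par dep hd0 hdp G hG x hx _ (by omega)) ?_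
      rw [← h, ← Function.iterate_succ_apply' par]
      congr 1
  have heven : ∀ x ∈ G, ∀ t ≤ 2 * (k + 24), (Even (dep (par^[t] x)) ↔ Even t) := by
    intro x hx t ht
    obtain ⟨h1, h2, ⟨c, h3⟩⟩ := good_dep k r0 par dep hd0 hdp G hG x hx t ht
    have h4 : dep x = 2 * ((k + 24) * c) := by rw [h3]; ring
    rw [Nat.even_iff, Nat.even_iff]
    omega
  have hgv : ∀ i < r, (4 : ℤ) ∣ g (v i) ∧ 40 * (N : ℤ) ≤ g (v i) ∧ g (v i) ≤ 56 * N := by
    intro i hi
    have hiG := hv1 i hi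
    refine hO.hA4 (v i) (hGC _ hiG) ?_ ?_ (hchild l1 hl1 _ hiG).1 (hchild l2 hl2 _ hiG).1
    · simpa using heven (v i) hiG 0 (by omega)
    · exact good_ne k r0 par dep hd0 hdp G hG _ hiG 0 (by omega)
  have hgu : ∀ i < r, (4 : ℤ) ∣ g (par^[2 * (k + 24)] (v i)) ∧
      40 * (N : ℤ) ≤ g (par^[2 * (k + 24)] (v i)) ∧ g (par^[2 * (k + 24)] (v i)) ≤ 56 * N := by
    intro i hi
    have hiG := hv1 i hi
    refine hO.hA4 _ (hUC _ hiG) ?_ ?_ (hchild l1 hl1 _ hiG).2 (hchild l2 hl2 _ hiG).2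
    · exact (heven (v i) hiG _ le_rfl).mpr (by simp)
    · exact good_ne k r0 par dep hd0 hdp G hG _ hiG _ le_rfl
  have hγ := hO.hγ
  set CA := (C.filter fun x => Even (dep x)).image g with hCA
  set CB := (C.filter fun x => ¬ Even (dep x)).image g with hCB
  obtain ⟨a, b, hM⟩ := modules n N k r mc μ γ hP hG0 f qs hf1 hf2 hf3 hf4 hq1 hq2 hq3 hq4 hq5
    (fun i => g (v i)) (fun i => g (par^[2 * (k + 24)] (v i))) hgv hgu CA CB (E.image ρ) D
    (by
      intro x hx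
      obtain ⟨y, hy, rfl⟩ := mem_image.mp hx
      rw [mem_filter] at hy
      obtain ⟨h1, h2, h3⟩ := hO.hA y hy.1 hy.2
      refine ⟨h1, h2, fun i hi s hs h => h3 ?_⟩
      rw [h, hFA]
      exact mem_image.mpr ⟨(i, s), mem_product.mpr ⟨mem_range.mpr hi, mem_range.mpr hs⟩, rfl⟩)
    (by
      intro x hx
      obtain ⟨y, hy, rfl⟩ := mem_image.mp hx
      rw [mem_filter] at hy
      obtain ⟨h1, h2, h3⟩ := hO.hB y hy.1 hy.2
      exact ⟨h1, h2, fun h => h3 (by rw [h]; exact mem_singleton_self _)⟩)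
    (card_image_le.trans ((card_filter_le _ _).trans (by omega)))
    (card_image_le.trans ((card_filter_le _ _).trans (by omega)))
    (fun q hq => ⟨(hO.hD q hq).1, (hO.hD q hq).2.1, (hO.hD q hq).2.2.1⟩)
    hO.hDc (by omega) pd (fun j hj => (hO.hpd j hj).1) hO.hpdi
    (by
      intro y hy
      obtain ⟨x, hx, rfl⟩ := mem_image.mp hy
      exact ⟨hO.hρD x hx, fun j hj => (hO.hpd j hj).2 x hx⟩)
  refine final V n N k r (by omega) (by omega) (by omega) r0 l1 l2 par dep C E v ?_ ?_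
    (fun x hx => ⟨(hEC x hx).1, (hEC x hx).2.1⟩) ?_ (fun i hi => hGC _ (hv1 i hi))
    (fun i hi => hUC _ (hv1 i hi)) ?_ (fun i hi t ht => heven _ (hv1 i hi) t ht) FA
    {f (r - 1) - qs} {qs} D γ pd g ρ hO CA CB (E.image ρ) ?_ ?_
    (fun x hx => mem_image_of_mem _ hx) a b hM
  · intro x hx
    rw [hC, mem_filter] at hx
    push Not at hx
    obtain ⟨w, hw, t, ht0, ht, h⟩ := hx (mem_univ _)
    obtain ⟨i, hi, rfl⟩ := hv3 w hw
    exact ⟨i, hi, t, ht0, ht, h⟩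
  · intro x hx i hi t ht0 ht
    rw [hC, mem_filter] at hx
    exact hx.2 _ (hv1 i hi) t ht0 ht
  · intro x hx hxE
    rw [hE, mem_filter] at hxE
    push Not at hxE
    obtain ⟨w, hw, t, ht, h⟩ := hxE (mem_univ _) hx
    obtain ⟨i, hi, rfl⟩ := hv3 w hw
    exact ⟨i, hi, t, ht, h⟩
  · intro i hi i' hi' t t' ht ht' h
    obtain ⟨h1, h2⟩ := seg_inj r0 par dep hd0 hdp _ _ _ (hG _ (hv1 i hi)) (hG _ (hv1 i' hi')) t t'
      ht ht' h
    exact ⟨hv2 i hi i' hi' h1, h2⟩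
  · intro x hx h
    exact mem_image_of_mem _ (mem_filter.mpr ⟨hx, h⟩)
  · intro x hx h
    exact mem_image_of_mem _ (mem_filter.mpr ⟨hx, h⟩)

end Pool.Agent.Helper83.GD
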